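import Mathlib

/-!
# Failure of cancellation for Borel equidecomposability (helper file for `S03512`)

`G = K × ℤ × ℤ` (written multiplicatively), `K = ∏_q ZMod (8^q)`.  In the slice `n` every point
`y : ℕ → Bool` with infinitely many ones carries a path of vertices `pos n y s`, `lo n y ≤ s ≤ hi n y`; the lower
ends of the paths of `y` and `fl 0 y` and the upper ends of the paths of `y` and `fl (mm y) y` are adjacent.
All the steps are one of six translations, so the graph of all vertices is a `2`-regular graph and this shows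
`2[A] = 2[B]` (`half1`), `A` the vertices with `s` even and `B` those with `s` odd.
A Borel equidecomposition of `A` and `B` is a Borel perfect matching; in a slice `n` with `8^n` large the number of
matched pairs which cross the level `4*8^n` of the path of `y` changes its parity (for generic `y`) when any digit of `y` is
changed, which contradicts the Baire category theorem (`half2`).
-/

set_option autoImplicit false
open Finset


namespace Pool.Agent.H382C

abbrev K := ∀ q : ℕ, ZMod (8^q)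
abbrev H := K × ℤ × ℤ

/-- the 8-adic sum of an integer digit sequence -/
def Phi (δ : ℕ → ℤ) : K := fun q => ((∑ l ∈ range q, δ l * 8^l : ℤ) : ZMod (8^q))

theorem Phi_sub (δ δ' : ℕ → ℤ) : Phi δ - Phi δ' = Phi (fun l => δ l - δ' l) := by
  funext q
  simp only [Phi, Pi.sub_apply]
  rw [← Int.cast_sub, ← Finset.sum_sub_distrib]
  simp only [sub_mul]

theorem geo_bound (δ : ℕ → ℤ) (h : ∀ l, |δ l| ≤ 2) (q : ℕ) :
    7 * |∑ l ∈ range q, δ l * 8^l| ≤ 2 * (8^q - 1) := by
  induction q with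
  | zero => simp
  | succ q ih =>
    rw [Finset.sum_range_succ]
    have h1 : |δ q * 8^q| ≤ 2 * 8^q := by
      rw [abs_mul, abs_of_pos (by positivity : (0:ℤ) < 8^q)]
      exact mul_le_mul_of_nonneg_right (h q) (by positivity)
    have h2 := abs_add_le (∑ l ∈ range q, δ l * 8^l) (δ q * 8^q)
    have h3 : (8:ℤ)^(q+1) = 8 * 8^q := by ring
    rw [h3]
    nlinarith

theorem TL (δ : ℕ → ℤ) (h : ∀ l, |δ l| ≤ 2) (e : ℤ) (L : ℕ) (he : |e| ≤ 2 * 8^L)
    (hP : Phi δ = (e : K)) :
    (∀ l, L < l → δ l = 0) ∧ ∑ l ∈ range (L+1), δ l * 8^l = e := by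
  have key : ∀ q, L + 1 ≤ q → ∑ l ∈ range q, δ l * 8^l = e := by
    intro q hq
    have h1 := congrFun hP q
    simp only [Phi, Pi.intCast_apply] at h1
    rw [ZMod.intCast_eq_intCast_iff_dvd_sub] at h1
    push_cast at h1
    have h2 := geo_bound δ h q
    have h3 : (8:ℤ)^q = 8 * 8^(q-1) := by
      rw [← pow_succ', Nat.sub_add_cancel (by omega)]
    have h4 : (8:ℤ)^L ≤ 8^(q-1) := pow_le_pow_right₀ (by norm_num) (by omega)
    have h5 : (0:ℤ) < 8^(q-1) := by positivity
    have h6 : |e - ∑ l ∈ range q, δ l * 8^l| < 8^q := by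
      have := abs_sub e (∑ l ∈ range q, δ l * 8^l)
      rw [h3] at h2 ⊢
      linarith
    have := Int.eq_zero_of_abs_lt_dvd h1 h6
    linarith
  refine ⟨?_, key _ le_rfl⟩
  intro l hl
  have h1 := key l (by omega)
  have h2 := key (l+1) (by omega)
  rw [Finset.sum_range_succ, h1] at h2
  have h3 : δ l * 8^l = 0 := by linarith
  rcases mul_eq_zero.mp h3 with h4 | h4
  · exact h4
  · exact absurd h4 (by positivity)

theorem cast_inj {a b : ℤ} (h : (a : K) = (b : K)) : a = b := by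
  have h0 : Phi (fun _ => 0) = ((a - b : ℤ) : K) := by
    push_cast
    rw [h, sub_self]
    funext q
    simp [Phi]
  obtain ⟨L, hL⟩ : ∃ L : ℕ, |a - b| ≤ 2 * 8^L := by
    refine ⟨(|a - b|).toNat, ?_⟩
    have h1 : ((|a - b|).toNat : ℤ) = |a-b| := Int.toNat_of_nonneg (abs_nonneg _)
    have h2 : ((|a - b|).toNat) < 8 ^ ((|a - b|).toNat) := Nat.lt_pow_self (by norm_num)
    have h3 : (((|a - b|).toNat : ℕ) : ℤ) < 8 ^ ((|a - b|).toNat) := by exact_mod_cast h2
    have h4 := abs_nonneg (a-b)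
    linarith
  have := (TL (fun _ => 0) (by simp) (a-b) L hL h0).2
  simp at this
  linarith

/-- a bit as an integer -/
def bi (b : Bool) : ℤ := if b then 1 else 0

def ph (z : ℕ → Bool) : K := Phi (fun l => bi (z l))

/-- shift right by n+1 places -/
def sh (n : ℕ) (y : ℕ → Bool) : ℕ → Bool := fun l => if l < n + 1 then false else y (l - (n+1))

def fl (k : ℕ) (y : ℕ → Bool) : ℕ → Bool := Function.update y k (!(y k))

def eps (b : Bool) : ℤ := if b then -1 else 1

theorem bi_abs (a b : Bool) : |bi a - bi b| ≤ 1 := by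
  cases a <;> cases b <;> simp [bi]

theorem ph_sub_TL (z z' : ℕ → Bool) (e : ℤ) (L : ℕ) (he : |e| ≤ 2 * 8^L)
    (h : ph z' = ph z + (e : K)) :
    (∀ l, L < l → z' l = z l) ∧ ∑ l ∈ range (L+1), (bi (z' l) - bi (z l)) * 8^l = e := by
  have h1 : Phi (fun l => bi (z' l) - bi (z l)) = (e : K) := by
    rw [← Phi_sub]
    have : Phi (fun l => bi (z' l)) = Phi (fun l => bi (z l)) + (e : K) := h
    rw [this]; abel
  have h2 := TL _ (fun l => le_trans (bi_abs (z' l) (z l)) (by norm_num)) e L he h1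
  refine ⟨?_, h2.2⟩
  intro l hl
  have := h2.1 l hl
  cases h3 : z' l <;> cases h4 : z l <;> simp [bi, h3, h4] at this ⊢

theorem ph_fl (n k : ℕ) (y : ℕ → Bool) :
    ph (sh n (fl k y)) = ph (sh n y) + ((eps (y k) * 8^(n+1+k) : ℤ) : K) := by
  funext q
  simp only [ph, Phi, Pi.add_apply, Pi.intCast_apply]
  by_cases hq : n + 1 + k < q
  · rw [← Int.cast_add]
    congr 1
    rw [← sub_eq_iff_eq_add', ← Finset.sum_sub_distrib]
    rw [Finset.sum_eq_single (n+1+k)]
    · have h0 : ¬ (n + 1 + k < n + 1) := by omega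
      have h1 : n + 1 + k - (n+1) = k := by omega
      simp only [sh, fl, if_neg h0, h1, Function.update_self]
      cases h : y k <;> simp [bi, eps]
    · intro l _ hl
      have : sh n (fl k y) l = sh n y l := by
        simp only [sh, fl]
        split_ifs with h1
        · rfl
        · rw [Function.update_of_ne (by omega)]
      rw [this]; ring
    · intro h; exact absurd (Finset.mem_range.mpr hq) h
  · have h1 : (((eps (y k) * 8^(n+1+k) : ℤ)) : ZMod (8^q)) = 0 := by
      rw [ZMod.intCast_zmod_eq_zero_iff_dvd]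
      push_cast
      exact Dvd.dvd.mul_left (pow_dvd_pow _ (by omega)) _
    rw [h1, add_zero]
    congr 1
    apply Finset.sum_congr rfl
    intro l hl
    have hl' := Finset.mem_range.mp hl
    have : sh n (fl k y) l = sh n y l := by
      simp only [sh, fl]
      split_ifs with h1
      · rfl
      · rw [Function.update_of_ne (by omega)]
    rw [this]

/-- infinitely many ones -/
def X : Set (ℕ → Bool) := {y | ∀ N, ∃ i, N ≤ i ∧ y i = true}

/-- one plus the index of the first one -/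
noncomputable def mm (y : ℕ → Bool) : ℕ := sInf {i | y i = true} + 1

theorem mm_spec {y : ℕ → Bool} (hy : ∃ i, y i = true) : y (mm y - 1) = true := by
  have : sInf {i | y i = true} ∈ {i | y i = true} := Nat.sInf_mem hy
  simpa [mm] using this

theorem mm_lt {y : ℕ → Bool} {j : ℕ} (h : j < mm y - 1) : y j = false := by
  have : j < sInf {i | y i = true} := by simpa [mm] using h
  have := Nat.notMem_of_lt_sInf this
  simpa using this

theorem mm_pos (y : ℕ → Bool) : 1 ≤ mm y := by simp [mm]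

theorem mm_eq {y : ℕ → Bool} {m : ℕ} (hm : 1 ≤ m) (h1 : y (m-1) = true) (h2 : ∀ j, j < m-1 → y j = false) :
    mm y = m := by
  have hy : ∃ i, y i = true := ⟨_, h1⟩
  rcases lt_trichotomy (mm y - 1) (m - 1) with h | h | h
  · have := h2 _ h
    rw [mm_spec hy] at this
    simp at this
  · have := mm_pos y
    omega
  · have := mm_lt h
    rw [h1] at this; simp at this

theorem X_ex {y : ℕ → Bool} (hy : y ∈ X) : ∃ i, y i = true := by
  obtain ⟨i, _, h⟩ := hy 0
  exact ⟨i, h⟩

theorem X_fl {y : ℕ → Bool} (hy : y ∈ X) (k : ℕ) : fl k y ∈ X := by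
  intro N
  obtain ⟨i, h1, h2⟩ := hy (max N (k+1))
  refine ⟨i, le_trans (le_max_left _ _) h1, ?_⟩
  have : k + 1 ≤ i := le_trans (le_max_right _ _) h1
  simp only [fl]
  rw [Function.update_of_ne (by omega), h2]

theorem fl_fl (k : ℕ) (y : ℕ → Bool) : fl k (fl k y) = y := by
  funext i
  by_cases h : i = k
  · subst h; simp [fl]
  · simp [fl, Function.update_of_ne h]

theorem fl_self (k : ℕ) (y : ℕ → Bool) : fl k y k = !(y k) := by simp [fl]

theorem fl_ne {k j : ℕ} (h : j ≠ k) (y : ℕ → Bool) : fl k y j = y j := by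
  simp [fl, Function.update_of_ne h]

theorem fl_neq (k : ℕ) (y : ℕ → Bool) : fl k y ≠ y := by
  intro h
  have := congrFun h k
  rw [fl_self] at this
  simp at this

theorem mm_fl {y : ℕ → Bool} (hy : ∃ i, y i = true) : mm (fl (mm y) y) = mm y := by
  have h1 := mm_pos y
  apply mm_eq h1
  · rw [fl_ne (by omega)]; exact mm_spec hy
  · intro j hj
    rw [fl_ne (by omega)]; exact mm_lt hj

theorem eq_or_fl {y y' : ℕ → Bool} {k : ℕ} (h : ∀ j, j ≠ k → y' j = y j) : y' = y ∨ y' = fl k y := by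
  by_cases hk : y' k = y k
  · left; funext j
    by_cases hj : j = k
    · rw [hj, hk]
    · exact h j hj
  · right; funext j
    by_cases hj : j = k
    · subst hj
      rw [fl_self]
      cases h1 : y' j <;> cases h2 : y j <;> simp [h1, h2] at hk ⊢
    · rw [h j hj, fl_ne hj]

/-- offset of the first coordinate -/
noncomputable def ofs (n : ℕ) (y : ℕ → Bool) (s : ℤ) : ℤ :=
  eps (y 0) * max (-s) 0 + eps (y (mm y)) * max (s - 8^(n + mm y) - 4 * 8^n) 0

noncomputable def pos (n : ℕ) (y : ℕ → Bool) (s : ℤ) : H :=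
  (ph (sh n y) + (ofs n y s : K), max 0 (min s (8^(n + mm y))),
    8 * 8^n + max 0 (min (s - 8^(n + mm y)) (4 * 8^n)))

def lo (n : ℕ) (y : ℕ → Bool) : ℤ := - (4 * 8^n) + bi (y 0)
noncomputable def hi (n : ℕ) (y : ℕ → Bool) : ℤ := 5 * 8^(n + mm y) + 4 * 8^n - bi (y (mm y))

theorem pP (n : ℕ) (y : ℕ → Bool) : (8:ℤ) * 8^n ≤ 8^(n + mm y) := by
  have h1 := mm_pos y
  calc (8:ℤ) * 8^n = 8^(n+1) := by ring
    _ ≤ 8^(n + mm y) := pow_le_pow_right₀ (by norm_num) (by omega)

theorem ppos (n : ℕ) : (1:ℤ) ≤ 8^n := one_le_pow₀ (by norm_num)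

/-- the slices are far apart -/
theorem slice_eq {n n' : ℕ} {t t' d : ℤ} (ht : 0 ≤ t) (ht2 : t ≤ 4 * 8^n) (ht' : 0 ≤ t') (ht2' : t' ≤ 4 * 8^n')
    (hd : |d| < 8^n) (h : 8 * 8^n' + t' = 8 * 8^n + t + d) : n' = n := by
  rw [abs_lt] at hd
  rcases lt_trichotomy n' n with h1 | h1 | h1
  · have : (8:ℤ) * 8^n' ≤ 8^n := by
      calc (8:ℤ) * 8^n' = 8^(n'+1) := by ring
        _ ≤ 8^n := pow_le_pow_right₀ (by norm_num) (by omega)
    have := ppos n
    linarith
  · exact h1
  · have : (8:ℤ) * 8^n ≤ 8^n' := by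
      calc (8:ℤ) * 8^n = 8^(n+1) := by ring
        _ ≤ 8^n' := pow_le_pow_right₀ (by norm_num) (by omega)
    have := ppos n
    linarith

theorem pow_close {n a b : ℕ} (h : |(8:ℤ)^(n+a) - 8^(n+b)| < 8^n) : a = b := by
  rw [abs_lt] at h
  have hn := ppos n
  rcases lt_trichotomy a b with h1 | h1 | h1
  · have : (8:ℤ) * 8^(n+a) ≤ 8^(n+b) := by
      calc (8:ℤ) * 8^(n+a) = 8^(n+a+1) := by ring
        _ ≤ 8^(n+b) := pow_le_pow_right₀ (by norm_num) (by omega)
    have h2 : (8:ℤ)^n ≤ 8^(n+a) := pow_le_pow_right₀ (by norm_num) (by omega)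
    linarith
  · exact h1
  · have : (8:ℤ) * 8^(n+b) ≤ 8^(n+a) := by
      calc (8:ℤ) * 8^(n+b) = 8^(n+b+1) := by ring
        _ ≤ 8^(n+a) := pow_le_pow_right₀ (by norm_num) (by omega)
    have h2 : (8:ℤ)^n ≤ 8^(n+b) := pow_le_pow_right₀ (by norm_num) (by omega)
    linarith

theorem sh_digit (n : ℕ) (y : ℕ → Bool) (j : ℕ) : sh n y (n + 1 + j) = y j := by
  have h0 : ¬ (n + 1 + j < n + 1) := by omega
  have h1 : n + 1 + j - (n+1) = j := by omega
  simp only [sh, if_neg h0, h1]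

/-- tail lemma for shifted sequences: if the difference is an integer of size at most `2*8^(n+1+k)` and the
digits below `k` agree then `y'` is `y` or `fl k y`. -/
theorem near (n k : ℕ) (y y' : ℕ → Bool) (e : ℤ) (he : |e| ≤ 2 * 8^(n+1+k))
    (hlow : ∀ j, j < k → y' j = y j) (h : ph (sh n y') = ph (sh n y) + (e : K)) :
    y' = y ∨ y' = fl k y := by
  have h1 := ph_sub_TL _ _ e (n+1+k) he h
  apply eq_or_fl
  intro j hj
  rcases lt_or_gt_of_ne hj with h2 | h2
  · exact hlow j h2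
  · have := h1.1 (n+1+j) (by omega)
    rwa [sh_digit, sh_digit] at this

theorem eps_abs (b : Bool) : eps b = 1 ∨ eps b = -1 := by cases b <;> simp [eps]

theorem eps_bi (b : Bool) : (eps b = 1 ∧ bi b = 0) ∨ (eps b = -1 ∧ bi b = 1) := by
  cases b <;> simp [eps, bi]

theorem closeB {n : ℕ} {y y' : ℕ → Bool} {s s' : ℤ} {c d1 d2 : ℤ}
    (hy : y ∈ X) (hy' : y' ∈ X)
    (hs2 : s ≤ hi n y) (hs2' : s' ≤ hi n y')
    (hc : |c| < 8^n) (hd1 : |d1| < 8^n) (hd2 : |d2| < 8^n)
    (h : pos n y' s' = pos n y s + ((c : K), d1, d2)) (hs : 8^(n + mm y) + 4 * 8^n < s) :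
    mm y' = mm y ∧ (y' = y ∨ y' = fl (mm y) y) ∧ 4 * 8^n ≤ s' := by
  simp only [pos, Prod.mk_add_mk, Prod.mk.injEq] at h
  obtain ⟨h1, h2, h3⟩ := h
  have hp := ppos n
  have hP := pP n y
  have hP' := pP n y'
  rw [abs_lt] at hc hd1 hd2
  have e1 : s' - 8^(n + mm y') > 3 * 8^n := by omega
  have e2 : max 0 (min s' (8^(n + mm y'))) = 8^(n + mm y') := by omega
  have e3 : max 0 (min s (8^(n + mm y))) = 8^(n + mm y) := by omega
  rw [e2, e3] at h2
  have hm : mm y' = mm y := by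
    apply pow_close (n := n)
    rw [abs_lt]; constructor <;> linarith
  refine ⟨hm, ?_, by omega⟩
  have h4 : ph (sh n y') = ph (sh n y) + ((ofs n y s - ofs n y' s' + c : ℤ) : K) := by
    push_cast
    rw [eq_sub_of_add_eq h1]; ring
  apply near n (mm y) y y' _ _ _ h4
  · have a1 : max (-s) 0 = 0 := by omega
    have a2 : max (-s') 0 = 0 := by omega
    simp only [ofs, a1, a2, mul_zero, zero_add]
    simp only [hi] at hs2 hs2'
    rw [hm] at hs2' ⊢
    have b1 : (8:ℤ)^(n+1+mm y) = 8 * 8^(n+mm y) := by ring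
    rw [b1, abs_le]
    rcases eps_bi (y (mm y)) with ⟨q1, q2⟩ | ⟨q1, q2⟩ <;> rcases eps_bi (y' (mm y)) with ⟨q3, q4⟩ | ⟨q3, q4⟩ <;>
      rw [q1, q3] <;> rw [q2] at hs2 <;> rw [q4] at hs2' <;> constructor <;> omega
  · intro j hj
    have hmp := mm_pos y
    by_cases hj2 : j = mm y - 1
    · rw [hj2, mm_spec (X_ex hy), ← hm, mm_spec (X_ex hy')]
    · rw [mm_lt (y := y) (by omega), mm_lt (y := y') (by omega)]

theorem closeA {n : ℕ} {y y' : ℕ → Bool} {s s' : ℤ} {c d1 d2 : ℤ}
    (hs1 : lo n y ≤ s) (hs1' : lo n y' ≤ s')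
    (hc : |c| < 8^n) (hd1 : |d1| < 8^n) (_hd2 : |d2| < 8^n)
    (h : pos n y' s' = pos n y s + ((c : K), d1, d2)) (hs : s ≤ 8^(n + mm y) + 4 * 8^n)
    (hs' : s' ≤ 8^(n + mm y') + 4 * 8^n) :
    y' = y ∨ (y' = fl 0 y ∧ s < 4 * 8^n ∧ s' < 4 * 8^n) := by
  simp only [pos, Prod.mk_add_mk, Prod.mk.injEq] at h
  obtain ⟨h1, h2, h3⟩ := h
  have hp := ppos n
  have hP := pP n y
  have hP' := pP n y'
  rw [abs_lt] at hc hd1
  have h4 : ph (sh n y') = ph (sh n y) + ((ofs n y s - ofs n y' s' + c : ℤ) : K) := by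
    push_cast
    rw [eq_sub_of_add_eq h1]; ring
  have a1 : max (s - 8^(n + mm y) - 4 * 8^n) 0 = 0 := by omega
  have a2 : max (s' - 8^(n + mm y') - 4 * 8^n) 0 = 0 := by omega
  simp only [ofs, a1, a2, mul_zero, add_zero] at h4
  have hb : |eps (y 0) * max (-s) 0 - eps (y' 0) * max (-s') 0 + c| ≤ 2 * 8^(n+1+0) := by
    have b1 : (8:ℤ)^(n+1+0) = 8 * 8^n := by ring
    rw [b1, abs_le]
    simp only [lo] at hs1 hs1'
    rcases eps_bi (y 0) with ⟨q1, q2⟩ | ⟨q1, q2⟩ <;> rcases eps_bi (y' 0) with ⟨q3, q4⟩ | ⟨q3, q4⟩ <;>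
      rw [q1, q3] <;> rw [q2] at hs1 <;> rw [q4] at hs1' <;> constructor <;> omega
  rcases near n 0 y y' _ hb (by simp) h4 with h5 | h5
  · left; exact h5
  · right
    refine ⟨h5, ?_⟩
    have h6 : (eps (y 0) * 8^(n+1+0) : ℤ) = eps (y 0) * max (-s) 0 - eps (y' 0) * max (-s') 0 + c := by
      apply cast_inj
      have h8 : ph (sh n y') = ph (sh n y) + ((eps (y 0) * 8^(n+1+0) : ℤ) : K) := by rw [h5, ph_fl]
      rw [h8] at h4
      exact add_left_cancel h4
    have h7 : s < 0 ∨ s' < 0 := by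
      by_contra hcon
      push Not at hcon
      have c1 : max (-s) 0 = 0 := by omega
      have c2 : max (-s') 0 = 0 := by omega
      have b1 : (8:ℤ)^(n+1+0) = 8 * 8^n := by ring
      rw [c1, c2, b1] at h6
      rcases eps_abs (y 0) with q | q <;> rw [q] at h6 <;> omega
    omega

theorem close {n n' : ℕ} {y y' : ℕ → Bool} {s s' : ℤ} {c d1 d2 : ℤ}
    (hy : y ∈ X) (hy' : y' ∈ X)
    (hs1 : lo n y ≤ s) (hs2 : s ≤ hi n y) (hs1' : lo n' y' ≤ s') (hs2' : s' ≤ hi n' y')
    (hc : |c| < 8^n) (hd1 : |d1| < 8^n) (hd2 : |d2| < 8^n)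
    (h : pos n' y' s' = pos n y s + ((c : K), d1, d2)) :
    n' = n ∧ (y' = y ∨ (y' = fl 0 y ∧ s < 4 * 8^n ∧ s' < 4 * 8^n) ∨
      (y' = fl (mm y) y ∧ 4 * 8^n ≤ s ∧ 4 * 8^n ≤ s')) := by
  have hn : n' = n := by
    have h3 : 8 * 8^n' + max 0 (min (s' - 8^(n' + mm y')) (4 * 8^n')) =
      8 * 8^n + max 0 (min (s - 8^(n + mm y)) (4 * 8^n)) + d2 := by
      have := congrArg (fun p : H => p.2.2) h
      simpa [pos] using this
    have hp := ppos n
    have hp' := ppos n'
    refine slice_eq (le_max_left _ _) ?_ (le_max_left _ _) ?_ hd2 h3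
    · exact max_le (by omega) (min_le_right _ _)
    · exact max_le (by omega) (min_le_right _ _)
  refine ⟨hn, ?_⟩
  subst hn
  have hp := ppos n'
  have hP := pP n' y
  have hP' := pP n' y'
  by_cases hs : 8^(n' + mm y) + 4 * 8^n' < s
  · obtain ⟨h1, h2, h3⟩ := closeB hy hy' hs2 hs2' hc hd1 hd2 h hs
    rcases h2 with h2 | h2
    · left; exact h2
    · right; right; exact ⟨h2, by omega, h3⟩
  · by_cases hs' : 8^(n' + mm y') + 4 * 8^n' < s'
    · have h' : pos n' y s = pos n' y' s' + (((-c : ℤ) : K), -d1, -d2) := by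
        rw [h]
        push_cast
        ext1
        · simp
        · ext1 <;> simp
      obtain ⟨h1, h2, h3⟩ := closeB hy' hy hs2' hs2 (by rwa [abs_neg]) (by rwa [abs_neg]) (by rwa [abs_neg]) h' hs'
      rcases h2 with h2 | h2
      · left; exact h2.symm
      · right; right
        refine ⟨?_, h3, by omega⟩
        rw [h1, h2, fl_fl]
    · rcases closeA hs1 hs1' hc hd1 hd2 h (by omega) (by omega) with h2 | h2
      · left; exact h2
      · right; left; exact h2

end Pool.Agent.H382C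

namespace Pool.Agent.H382C

theorem bi_eps_not (b : Bool) : (eps b = 1 ∧ bi b = 0 ∧ eps (!b) = -1 ∧ bi (!b) = 1) ∨
    (eps b = -1 ∧ bi b = 1 ∧ eps (!b) = 1 ∧ bi (!b) = 0) := by
  cases b <;> simp [eps, bi]

theorem lo_hi (n : ℕ) (y : ℕ → Bool) : lo n y < 0 ∧ 0 < hi n y := by
  have hp := ppos n
  have hP := pP n y
  simp only [lo, hi]
  rcases eps_bi (y 0) with ⟨q1, q2⟩ | ⟨q1, q2⟩ <;> rcases eps_bi (y (mm y)) with ⟨q3, q4⟩ | ⟨q3, q4⟩ <;>
    rw [q2, q4] <;> constructor <;> omega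

theorem pos_inj {n n' : ℕ} {y y' : ℕ → Bool} {s s' : ℤ}
    (hy : y ∈ X) (hy' : y' ∈ X)
    (hs1 : lo n y ≤ s) (hs2 : s ≤ hi n y) (hs1' : lo n' y' ≤ s') (hs2' : s' ≤ hi n' y')
    (h : pos n' y' s' = pos n y s) : n' = n ∧ y' = y ∧ s' = s := by
  have hp := ppos n
  have h0 : pos n' y' s' = pos n y s + (((0 : ℤ) : K), 0, 0) := by rw [h]; simp
  obtain ⟨hn, h1⟩ := close hy hy' hs1 hs2 hs1' hs2' (by simp) (by simp) (by simp) h0
  subst hn
  refine ⟨rfl, ?_⟩
  have hP := pP n' y
  have hP' := pP n' y'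
  simp only [pos, Prod.mk.injEq] at h
  obtain ⟨h2, h3, h4⟩ := h
  rcases h1 with h1 | ⟨h1, h5, h6⟩ | ⟨h1, h5, h6⟩
  · subst h1
    refine ⟨rfl, ?_⟩
    have h5 := cast_inj (add_left_cancel h2)
    simp only [ofs] at h5
    rcases eps_abs (y' 0) with q | q <;> rcases eps_abs (y' (mm y')) with q' | q' <;>
      rw [q, q'] at h5 <;> omega
  · exfalso
    have h7 : (eps (y 0) * 8^(n'+1+0) : ℤ) + ofs n' y' s' = ofs n' y s := by
      apply cast_inj
      have h8 : ph (sh n' y') = ph (sh n' y) + ((eps (y 0) * 8^(n'+1+0) : ℤ) : K) := by rw [h1, ph_fl]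
      rw [h8, add_assoc] at h2
      rw [Int.cast_add]
      exact add_left_cancel h2
    have a1 : max (s - 8^(n' + mm y) - 4 * 8^n') 0 = 0 := by omega
    have a2 : max (s' - 8^(n' + mm y') - 4 * 8^n') 0 = 0 := by omega
    have b1 : (8:ℤ)^(n'+1+0) = 8 * 8^n' := by ring
    have b2 : y' 0 = !(y 0) := by rw [h1, fl_self]
    simp only [ofs, a1, a2, b1, b2, mul_zero, add_zero] at h7
    simp only [lo, b2] at hs1 hs1'
    rcases bi_eps_not (y 0) with ⟨q1, q2, q3, q4⟩ | ⟨q1, q2, q3, q4⟩ <;> rw [q1, q3] at h7 <;>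
      rw [q2] at hs1 <;> rw [q4] at hs1' <;> omega
  · exfalso
    have hm : mm y' = mm y := by rw [h1, mm_fl (X_ex hy)]
    have h7 : (eps (y (mm y)) * 8^(n'+1+mm y) : ℤ) + ofs n' y' s' = ofs n' y s := by
      apply cast_inj
      have h8 : ph (sh n' y') = ph (sh n' y) + ((eps (y (mm y)) * 8^(n'+1+mm y) : ℤ) : K) := by
        rw [h1, ph_fl]
      rw [h8, add_assoc] at h2
      rw [Int.cast_add]
      exact add_left_cancel h2
    have a1 : max (-s) 0 = 0 := by omega
    have a2 : max (-s') 0 = 0 := by omega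
    have b1 : (8:ℤ)^(n'+1+mm y) = 8 * 8^(n' + mm y) := by ring
    have b2 : y' (mm y) = !(y (mm y)) := by rw [h1, fl_self]
    simp only [ofs, a1, a2, b1, b2, hm, mul_zero, zero_add] at h7
    simp only [hi, hm, b2] at hs2 hs2'
    rcases bi_eps_not (y (mm y)) with ⟨q1, q2, q3, q4⟩ | ⟨q1, q2, q3, q4⟩ <;> rw [q1, q3] at h7 <;>
      rw [q2] at hs2 <;> rw [q4] at hs2' <;> omega

def Valid (n : ℕ) (y : ℕ → Bool) (s : ℤ) : Prop := y ∈ X ∧ lo n y ≤ s ∧ s ≤ hi n y

/-- next vertex and dart -/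
noncomputable def nx (n : ℕ) (y : ℕ → Bool) (s : ℤ) (i : Bool) : (ℕ → Bool) × ℤ × Bool :=
  if i then (if s < hi n y then (y, s+1, false) else (fl (mm y) y, hi n (fl (mm y) y), true))
  else (if lo n y < s then (y, s-1, true) else (fl 0 y, lo n (fl 0 y), false))

theorem nx_valid {n : ℕ} {y : ℕ → Bool} {s : ℤ} (h : Valid n y s) (i : Bool) :
    Valid n (nx n y s i).1 (nx n y s i).2.1 := by
  obtain ⟨h1, h2, h3⟩ := h
  have hlh := lo_hi n y
  cases i
  · simp only [nx, Bool.false_eq_true, if_false]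
    split_ifs with h4
    · exact ⟨h1, by simp only; omega, by simp only; omega⟩
    · refine ⟨X_fl h1 0, le_rfl, ?_⟩
      have := lo_hi n (fl 0 y)
      simp only; omega
  · simp only [nx, if_true]
    split_ifs with h4
    · exact ⟨h1, by simp only; omega, by simp only; omega⟩
    · refine ⟨X_fl h1 _, ?_, le_rfl⟩
      have := lo_hi n (fl (mm y) y)
      simp only; omega

theorem nx_nx {n : ℕ} {y : ℕ → Bool} {s : ℤ} (h : Valid n y s) (i : Bool) :
    nx n (nx n y s i).1 (nx n y s i).2.1 (nx n y s i).2.2 = (y, s, i) := by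
  obtain ⟨h1, h2, h3⟩ := h
  cases i
  · by_cases h4 : lo n y < s
    · have e : nx n y s false = (y, s-1, true) := by simp [nx, h4]
      rw [e]
      have : s - 1 < hi n y := by omega
      simp [nx, this]
    · have e : nx n y s false = (fl 0 y, lo n (fl 0 y), false) := by simp [nx, h4]
      rw [e]
      simp only [nx, Bool.false_eq_true, if_false, lt_irrefl, fl_fl]
      have : s = lo n y := by omega
      rw [this]
  · by_cases h4 : s < hi n y
    · have e : nx n y s true = (y, s+1, false) := by simp [nx, h4]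
      rw [e]
      have : lo n y < s + 1 := by omega
      simp [nx, this]
    · have e : nx n y s true = (fl (mm y) y, hi n (fl (mm y) y), true) := by simp [nx, h4]
      rw [e]
      simp only [nx, if_true, lt_irrefl, if_false, mm_fl (X_ex h1), fl_fl]
      have : s = hi n y := by omega
      rw [this]

theorem even_pow8 (a : ℕ) : ∃ k : ℤ, (8:ℤ)^(a+1) = 2 * k := ⟨4 * 8^a, by ring⟩

theorem nx_par {n : ℕ} {y : ℕ → Bool} {s : ℤ} (h : Valid n y s) (i : Bool) :
    (nx n y s i).2.1 % 2 = 0 ↔ ¬ (s % 2 = 0) := by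
  obtain ⟨h1, h2, h3⟩ := h
  cases i
  · by_cases h4 : lo n y < s
    · have e : nx n y s false = (y, s-1, true) := by simp [nx, h4]
      rw [e]; simp only; omega
    · have e : nx n y s false = (fl 0 y, lo n (fl 0 y), false) := by simp [nx, h4]
      rw [e]
      have h5 : s = lo n y := by omega
      simp only [lo, fl_self] at h5 ⊢
      rcases bi_eps_not (y 0) with ⟨q1, q2, q3, q4⟩ | ⟨q1, q2, q3, q4⟩ <;> rw [q2] at h5 <;> rw [q4] <;> omega
  · by_cases h4 : s < hi n y
    · have e : nx n y s true = (y, s+1, false) := by simp [nx, h4]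
      rw [e]; simp only; omega
    · have e : nx n y s true = (fl (mm y) y, hi n (fl (mm y) y), true) := by simp [nx, h4]
      rw [e]
      have h5 : s = hi n y := by omega
      simp only [hi, mm_fl (X_ex h1), fl_self] at h5 ⊢
      obtain ⟨k, hk⟩ := even_pow8 (n + mm y - 1)
      have hmp := mm_pos y
      rw [show n + mm y - 1 + 1 = n + mm y by omega] at hk
      rcases bi_eps_not (y (mm y)) with ⟨q1, q2, q3, q4⟩ | ⟨q1, q2, q3, q4⟩ <;> rw [q2] at h5 <;> rw [q4] <;> omega

/-- explicit displacement -/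
def disp (n : ℕ) (s : ℤ) (m : ℕ) (b b' : Bool) (i : Bool) : H :=
  if i then
    (if s < 0 then (((- eps b : ℤ) : K), 0, 0) else if s < 8^(n+m) then (0, 1, 0)
      else if s < 8^(n+m) + 4 * 8^n then (0, 0, 1) else (((eps b' : ℤ) : K), 0, 0))
  else
    (if s ≤ 0 then (((eps b : ℤ) : K), 0, 0) else if s ≤ 8^(n+m) then (0, -1, 0)
      else if s ≤ 8^(n+m) + 4 * 8^n then (0, 0, -1) else (((- eps b' : ℤ) : K), 0, 0))

theorem pos_step {n : ℕ} {y y' : ℕ → Bool} {s s' : ℤ} {e c d1 d2 : ℤ}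
    (h1 : ph (sh n y') = ph (sh n y) + (e : K)) (h2 : e + ofs n y' s' = c + ofs n y s)
    (h3 : max 0 (min s' (8^(n + mm y'))) = d1 + max 0 (min s (8^(n + mm y))))
    (h4 : max 0 (min (s' - 8^(n + mm y')) (4 * 8^n)) = d2 + max 0 (min (s - 8^(n + mm y)) (4 * 8^n))) :
    pos n y' s' = ((c : K), d1, d2) + pos n y s := by
  simp only [pos, Prod.mk_add_mk, Prod.mk.injEq]
  refine ⟨?_, h3, ?_⟩
  · rw [h1, add_assoc, ← Int.cast_add, h2, Int.cast_add]
    abel
  · rw [h4]; ring

theorem nx_pos {n : ℕ} {y : ℕ → Bool} {s : ℤ} (h : Valid n y s) (i : Bool) :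
    pos n (nx n y s i).1 (nx n y s i).2.1 = disp n s (mm y) (y 0) (y (mm y)) i + pos n y s := by
  obtain ⟨h1, h2, h3⟩ := h
  have hp := ppos n
  have hP := pP n y
  have z0 : ((0 : ℤ) : K) = 0 := Int.cast_zero
  cases i
  · by_cases h4 : lo n y < s
    · have e : nx n y s false = (y, s-1, true) := by simp [nx, h4]
      rw [e]
      simp only [disp, Bool.false_eq_true, if_false]
      have e0 : ph (sh n y) = ph (sh n y) + ((0 : ℤ) : K) := by simp
      split_ifs with c1 c2 c3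
      all_goals try rw [← z0]
      all_goals refine pos_step e0 ?_ (by omega) (by omega)
      all_goals simp only [ofs]
      all_goals rcases eps_abs (y 0) with q | q <;> rcases eps_abs (y (mm y)) with q' | q' <;>
            rw [q, q'] <;> omega
    · have e : nx n y s false = (fl 0 y, lo n (fl 0 y), false) := by simp [nx, h4]
      rw [e]
      have c1 : s ≤ 0 := by
        have := lo_hi n y; omega
      simp only [disp, Bool.false_eq_true, if_false, c1, if_true]
      have h5 : s = lo n y := by omega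
      have hP' := pP n (fl 0 y)
      have h6 := lo_hi n (fl 0 y)
      refine pos_step (ph_fl n 0 y) ?_ (by omega) (by omega)
      have a1 : max (s - 8^(n + mm y) - 4 * 8^n) 0 = 0 := by omega
      have a2 : max (lo n (fl 0 y) - 8^(n + mm (fl 0 y)) - 4 * 8^n) 0 = 0 := by omega
      have b1 : (8:ℤ)^(n+1+0) = 8 * 8^n := by ring
      simp only [ofs, a1, a2, b1, mul_zero, add_zero]
      simp only [h5, lo, fl_self]
      rcases bi_eps_not (y 0) with ⟨q1, q2, q3, q4⟩ | ⟨q1, q2, q3, q4⟩ <;> rw [q1, q2, q3, q4] <;> omega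
  · by_cases h4 : s < hi n y
    · have e : nx n y s true = (y, s+1, false) := by simp [nx, h4]
      rw [e]
      simp only [disp, if_true]
      have e0 : ph (sh n y) = ph (sh n y) + ((0 : ℤ) : K) := by simp
      split_ifs with c1 c2 c3
      all_goals try rw [← z0]
      all_goals refine pos_step e0 ?_ (by omega) (by omega)
      all_goals simp only [ofs]
      all_goals rcases eps_abs (y 0) with q | q <;> rcases eps_abs (y (mm y)) with q' | q' <;>
            rw [q, q'] <;> omega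
    · have e : nx n y s true = (fl (mm y) y, hi n (fl (mm y) y), true) := by simp [nx, h4]
      rw [e]
      have h5 : s = hi n y := by omega
      have hm : mm (fl (mm y) y) = mm y := mm_fl (X_ex h1)
      have hbb : bi (y (mm y)) ≤ 1 := by cases y (mm y) <;> simp [bi]
      have hbb' : bi (!y (mm y)) ≤ 1 := by cases y (mm y) <;> simp [bi]
      have c1 : ¬ s < 0 := by rw [h5]; have := lo_hi n y; omega
      have c2 : ¬ s < 8^(n + mm y) := by rw [h5]; simp only [hi]; omega
      have c3 : ¬ s < 8^(n + mm y) + 4 * 8^n := by rw [h5]; simp only [hi]; omega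
      simp only [disp, if_true, c1, c2, c3, if_false]
      have h6 : hi n (fl (mm y) y) = 5 * 8^(n + mm y) + 4 * 8^n - bi (!y (mm y)) := by
        simp only [hi, hm, fl_self]
      have h7 : s = 5 * 8^(n + mm y) + 4 * 8^n - bi (y (mm y)) := by rw [h5]; simp only [hi]
      rw [h6]
      refine pos_step (ph_fl n (mm y) y) ?_ (by rw [hm]; omega) (by rw [hm]; omega)
      have b1 : (8:ℤ)^(n+1+mm y) = 8 * 8^(n+mm y) := by ring
      simp only [ofs, b1, hm, fl_self]
      have a1 : max (-s) 0 = 0 := by omega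
      have a2 : max (-(5 * 8 ^ (n + mm y) + 4 * 8 ^ n - bi !y (mm y))) 0 = 0 := by omega
      rw [a1, a2, h7]
      rcases bi_eps_not (y (mm y)) with ⟨q1, q2, q3, q4⟩ | ⟨q1, q2, q3, q4⟩ <;> rw [q1, q2, q3, q4] <;> omega

end Pool.Agent.H382C

namespace Pool.Agent.H382C
open Function

theorem two_decomp {G : Type} [Group G] [MeasurableSpace G] {V : Type} (vp : V → G)
    (hinj : Function.Injective vp) (ι : V × Bool → V × Bool) (hι : ∀ x, ι (ι x) = x)
    (SA : Set V) (hSA : ∀ x, (ι x).1 ∈ SA ↔ x.1 ∉ SA) {r : ℕ} (Δ : Fin r → G)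
    (hΔinj : Function.Injective Δ)
    (hΔ : ∀ x, ∃ j, vp (ι x).1 = Δ j * vp x.1)
    (hmeas : ∀ i i' j, MeasurableSet
      (vp '' {v | v ∈ SA ∧ (ι (v,i)).2 = i' ∧ vp (ι (v,i)).1 = Δ j * vp v})) :
    ∃ (k : ℕ) (P : Fin k → Set (G × ℕ)) (g : Fin k → G) (σ : Fin k → Equiv.Perm ℕ),
      (∀ i, MeasurableSet (P i)) ∧
      Pairwise (fun i j => Disjoint (P i) (P j)) ∧
      (⋃ i, P i) = (vp '' SA) ×ˢ Set.Iio 2 ∧
      Pairwise (fun i j =>
        Disjoint ((fun p : G × ℕ => (g i * p.1, σ i p.2)) '' P i)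
                 ((fun p : G × ℕ => (g j * p.1, σ j p.2)) '' P j)) ∧
      (⋃ i, (fun p : G × ℕ => (g i * p.1, σ i p.2)) '' P i) = (vp '' SAᶜ) ×ˢ Set.Iio 2 := by
  classical
  let lev : Bool → ℕ := fun b => if b then 1 else 0
  have hlev : Function.Injective lev := by
    intro a b; cases a <;> cases b <;> simp [lev]
  have hlev2 : ∀ b, lev b < 2 := by intro b; cases b <;> simp [lev]
  have hlev3 : ∀ t, t < 2 → ∃ b, lev b = t := by
    intro t ht
    interval_cases t
    · exact ⟨false, rfl⟩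
    · exact ⟨true, rfl⟩
  let D : Bool → Bool → Fin r → Set V := fun i i' j =>
    {v | v ∈ SA ∧ (ι (v,i)).2 = i' ∧ vp (ι (v,i)).1 = Δ j * vp v}
  let P : Bool × Bool × Fin r → Set (G × ℕ) := fun t => (vp '' D t.1 t.2.1 t.2.2) ×ˢ {lev t.1}
  let g : Bool × Bool × Fin r → G := fun t => Δ t.2.2
  let σ : Bool × Bool × Fin r → Equiv.Perm ℕ := fun t => Equiv.swap (lev t.1) (lev t.2.1)
  have hP1 : ∀ t, MeasurableSet (P t) := fun t => (hmeas _ _ _).prod (measurableSet_singleton _)
  -- membership in pieces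
  have memP : ∀ t x, x ∈ P t ↔ ∃ v, v ∈ D t.1 t.2.1 t.2.2 ∧ x = (vp v, lev t.1) := by
    intro t x
    constructor
    · rintro ⟨⟨v, hv, hv2⟩, hx2⟩
      exact ⟨v, hv, Prod.ext hv2.symm hx2⟩
    · rintro ⟨v, hv, rfl⟩
      exact ⟨⟨v, hv, rfl⟩, rfl⟩
  have memI : ∀ t x, x ∈ (fun p : G × ℕ => (g t * p.1, σ t p.2)) '' P t ↔
      ∃ v, v ∈ D t.1 t.2.1 t.2.2 ∧ x = (vp (ι (v, t.1)).1, lev (ι (v, t.1)).2) := by
    intro t x
    constructor
    · rintro ⟨p, hp, rfl⟩
      obtain ⟨v, hv, rfl⟩ := (memP t p).mp hp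
      refine ⟨v, hv, ?_⟩
      obtain ⟨h1, h2, h3⟩ := hv
      simp only [g, σ, Equiv.swap_apply_left, h2, h3]
    · rintro ⟨v, hv, rfl⟩
      refine ⟨(vp v, lev t.1), (memP t _).mpr ⟨v, hv, rfl⟩, ?_⟩
      obtain ⟨h1, h2, h3⟩ := hv
      simp only [g, σ, Equiv.swap_apply_left, h2, h3]
  have uniq : ∀ (t t' : Bool × Bool × Fin r) (v : V) (i : Bool), v ∈ D t.1 t.2.1 t.2.2 → v ∈ D t'.1 t'.2.1 t'.2.2 → t.1 = i → t'.1 = i → t = t' := by
    rintro ⟨a, b, c⟩ ⟨a', b', c'⟩ v i ⟨h1, h2, h3⟩ ⟨h1', h2', h3'⟩ ha ha'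
    simp only at ha ha' h2 h2' h3 h3'
    subst ha; subst ha'
    have : Δ c = Δ c' := mul_right_cancel (h3.symm.trans h3')
    rw [← h2, ← h2', hΔinj this]
  have hP2 : Pairwise (fun i j => Disjoint (P i) (P j)) := by
    intro t t' htt
    rw [Set.disjoint_left]
    intro x hx hx'
    obtain ⟨v, hv, h1⟩ := (memP t x).mp hx
    obtain ⟨v', hv', h2⟩ := (memP t' x).mp hx'
    rw [h1] at h2
    have e1 : v = v' := hinj (congrArg Prod.fst h2)
    have e2 : t.1 = t'.1 := hlev (congrArg Prod.snd h2)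
    subst e1
    exact htt (uniq t t' v t.1 hv hv' rfl e2.symm)
  have hP3 : (⋃ i, P i) = (vp '' SA) ×ˢ Set.Iio 2 := by
    ext x
    simp only [Set.mem_iUnion]
    constructor
    · rintro ⟨t, ht⟩
      obtain ⟨v, hv, rfl⟩ := (memP t x).mp ht
      exact ⟨⟨v, hv.1, rfl⟩, hlev2 _⟩
    · rintro ⟨⟨v, hv, hv2⟩, hx2⟩
      obtain ⟨b, hb⟩ := hlev3 x.2 hx2
      obtain ⟨j, hj⟩ := hΔ (v, b)
      refine ⟨(b, (ι (v,b)).2, j), (memP _ _).mpr ⟨v, ⟨hv, rfl, hj⟩, Prod.ext hv2.symm hb.symm⟩⟩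
  have hP4 : Pairwise (fun i j =>
        Disjoint ((fun p : G × ℕ => (g i * p.1, σ i p.2)) '' P i)
                 ((fun p : G × ℕ => (g j * p.1, σ j p.2)) '' P j)) := by
    intro t t' htt
    rw [Set.disjoint_left]
    intro x hx hx'
    obtain ⟨v, hv, h1⟩ := (memI t x).mp hx
    obtain ⟨v', hv', h2⟩ := (memI t' x).mp hx'
    rw [h1] at h2
    have e1 : (ι (v, t.1)).1 = (ι (v', t'.1)).1 := hinj (congrArg Prod.fst h2)
    have e2 : (ι (v, t.1)).2 = (ι (v', t'.1)).2 := hlev (congrArg Prod.snd h2)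
    have e3 : ι (v, t.1) = ι (v', t'.1) := Prod.ext e1 e2
    have e4 : (v, t.1) = (v', t'.1) := by rw [← hι (v, t.1), e3, hι]
    have e5 : v = v' := congrArg Prod.fst e4
    have e6 : t.1 = t'.1 := congrArg Prod.snd e4
    subst e5
    exact htt (uniq t t' v t.1 hv hv' rfl e6.symm)
  have hP5 : (⋃ i, (fun p : G × ℕ => (g i * p.1, σ i p.2)) '' P i) = (vp '' SAᶜ) ×ˢ Set.Iio 2 := by
    ext x
    simp only [Set.mem_iUnion]
    constructor
    · rintro ⟨t, ht⟩
      obtain ⟨v, hv, rfl⟩ := (memI t x).mp ht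
      refine ⟨⟨_, ?_, rfl⟩, hlev2 _⟩
      intro hc
      exact (hSA (v, t.1)).mp hc hv.1
    · rintro ⟨⟨w, hw, hw2⟩, hx2⟩
      obtain ⟨b, hb⟩ := hlev3 x.2 hx2
      obtain ⟨j, hj⟩ := hΔ (ι (w, b))
      rw [hι] at hj
      refine ⟨((ι (w,b)).2, b, j), (memI _ _).mpr ⟨(ι (w,b)).1, ⟨?_, ?_, ?_⟩, ?_⟩⟩
      · exact (hSA (w,b)).mpr hw
      · simp only [Prod.mk.eta, hι]
      · simp only [Prod.mk.eta, hι]; exact hj
      · simp only [Prod.mk.eta, hι]
        exact Prod.ext hw2.symm hb.symm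
  let e := Fintype.equivFin (Bool × Bool × Fin r)
  refine ⟨Fintype.card (Bool × Bool × Fin r), P ∘ e.symm, g ∘ e.symm, σ ∘ e.symm, ?_, ?_, ?_, ?_, ?_⟩
  · intro i; exact hP1 _
  · intro i j hij; exact hP2 (e.symm.injective.ne hij)
  · rw [← hP3]
    exact e.symm.surjective.iUnion_comp P
  · intro i j hij; exact hP4 (e.symm.injective.ne hij)
  · rw [← hP5]
    exact e.symm.surjective.iUnion_comp (fun t => (fun p : G × ℕ => (g t * p.1, σ t p.2)) '' P t)

/-! topology -/

example (q : ℕ) : DiscreteTopology (ZMod (8^q)) := inferInstance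
example : CompactSpace K := inferInstance
example : LocallyCompactSpace (Multiplicative H) := inferInstance
example : IsTopologicalGroup (Multiplicative H) := inferInstance
example : T2Space (Multiplicative H) := inferInstance

theorem ph_cont (n : ℕ) : Continuous (fun y : ℕ → Bool => ph (sh n y)) := by
  apply continuous_pi
  intro q
  simp only [ph, Phi]
  have h1 : ∀ l, Continuous (fun y : ℕ → Bool => bi (sh n y l)) := by
    intro l
    by_cases hl : l < n + 1
    · simp only [sh, if_pos hl]; exact continuous_const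
    · simp only [sh, if_neg hl]
      have : Continuous (fun b : Bool => bi b) := continuous_of_discreteTopology
      exact this.comp (continuous_apply _)
  have h2 : Continuous (fun y : ℕ → Bool => ∑ l ∈ Finset.range q, bi (sh n y l) * 8^l) := by
    apply continuous_finsetSum
    intro l _
    exact (h1 l).mul continuous_const
  have h3 : Continuous (fun z : ℤ => (z : ZMod (8^q))) := continuous_of_discreteTopology
  exact h3.comp h2

theorem ph_inj (n : ℕ) : Function.Injective (fun y : ℕ → Bool => ph (sh n y)) := by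
  intro y y' h
  have h1 : ph (sh n y) = ph (sh n y') + ((0 : ℤ) : K) := by simpa using h
  have h2 := ph_sub_TL _ _ 0 (n+1) (by simp) h1
  rcases near n 0 y' y 0 (by simp) (by simp) h1 with h3 | h3
  · exact h3
  · exfalso
    have h4 := ph_fl n 0 y'
    rw [← h3, h1] at h4
    have h5 := cast_inj (add_left_cancel h4)
    rcases eps_abs (y' 0) with q | q <;> rw [q] at h5
    · have : (0:ℤ) < 1 * 8^(n+1+0) := by positivity
      omega
    · have : (0:ℤ) < 8^(n+1+0) := by positivity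
      omega

end Pool.Agent.H382C

namespace Pool.Agent.H382C
open Function

/-- the group -/
def GG : Type := Multiplicative H

noncomputable instance : CommGroup GG := inferInstanceAs (CommGroup (Multiplicative H))
instance : TopologicalSpace GG := inferInstanceAs (TopologicalSpace (Multiplicative H))
instance : IsTopologicalGroup GG := inferInstanceAs (IsTopologicalGroup (Multiplicative H))
instance : LocallyCompactSpace GG := inferInstanceAs (LocallyCompactSpace (Multiplicative H))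
instance : T2Space GG := inferInstanceAs (T2Space (Multiplicative H))
instance : MeasurableSpace GG := borel GG
instance : BorelSpace GG := ⟨rfl⟩

def tg : H → GG := Multiplicative.ofAdd

theorem tg_inj {a b : H} (h : tg a = tg b) : a = b := Multiplicative.ofAdd.injective h

theorem tg_add (a b : H) : tg (a + b) = tg a * tg b := rfl

theorem tg_cont : Continuous tg := continuous_ofAdd

theorem X_meas : MeasurableSet X := by
  have : X = ⋂ N : ℕ, ⋃ i : ℕ, {y : ℕ → Bool | N ≤ i ∧ y i = true} := by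
    ext y; simp [X]
  rw [this]
  refine MeasurableSet.iInter fun N => MeasurableSet.iUnion fun i => ?_
  have : {y : ℕ → Bool | N ≤ i ∧ y i = true} = {y | N ≤ i} ∩ (fun y => y i) ⁻¹' {true} := by
    ext y; simp
  rw [this]
  exact (MeasurableSet.const _).inter (measurable_pi_apply i (measurableSet_singleton _))

theorem dig_meas (i : ℕ) (b : Bool) : MeasurableSet {y : ℕ → Bool | y i = b} := by
  have h : {y : ℕ → Bool | y i = b} = (fun y : ℕ → Bool => y i) ⁻¹' {b} := by ext y; simp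
  rw [h]
  exact measurable_pi_apply i (measurableSet_singleton b)

theorem mm_meas (m : ℕ) : MeasurableSet {y : ℕ → Bool | y ∈ X ∧ mm y = m} := by
  have : {y : ℕ → Bool | y ∈ X ∧ mm y = m} = X ∩ ({y | 1 ≤ m} ∩ ({y | y (m-1) = true} ∩
      ⋂ j : ℕ, {y : ℕ → Bool | j < m-1 → y j = false})) := by
    ext y
    simp only [Set.mem_ofPred_eq, Set.mem_inter_iff, Set.mem_iInter]
    constructor
    · rintro ⟨h1, h2⟩
      refine ⟨h1, h2 ▸ mm_pos y, h2 ▸ mm_spec (X_ex h1), ?_⟩
      intro j hj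
      subst h2
      exact mm_lt hj
    · rintro ⟨h1, h2, h3, h4⟩
      exact ⟨h1, mm_eq h2 h3 h4⟩
  rw [this]
  refine X_meas.inter ((MeasurableSet.const _).inter ((dig_meas _ _).inter (MeasurableSet.iInter fun j => ?_)))
  have : {y : ℕ → Bool | j < m-1 → y j = false} = {y | ¬ (j < m-1)} ∪ {y | y j = false} := by
    ext y; simp [imp_iff_not_or]
  rw [this]
  exact (MeasurableSet.const _).union (dig_meas _ _)

theorem meas_img (n : ℕ) (E : Set (ℕ → Bool)) (hE : MeasurableSet E) (k : H) :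
    MeasurableSet ((fun y => tg ((ph (sh n y), 0, 0) + k)) '' E) := by
  have hc : Continuous (fun y => tg ((ph (sh n y), 0, 0) + k)) := by
    apply tg_cont.comp
    apply Continuous.add _ continuous_const
    exact (ph_cont n).prodMk continuous_const
  have hi : Function.Injective (fun y => tg ((ph (sh n y), 0, 0) + k)) := by
    intro y y' h
    have h1 := add_right_cancel (tg_inj h)
    exact ph_inj n (congrArg Prod.fst h1)
  exact (hc.isClosedEmbedding hi).measurableEmbedding.measurableSet_image.mpr hE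

theorem meas_piece (C : ℕ → ℤ → ℕ → Bool → Bool → Prop) :
    MeasurableSet {h : GG | ∃ n y s, y ∈ X ∧ C n s (mm y) (y 0) (y (mm y)) ∧ h = tg (pos n y s)} := by
  have : {h : GG | ∃ n y s, y ∈ X ∧ C n s (mm y) (y 0) (y (mm y)) ∧ h = tg (pos n y s)} =
    ⋃ n : ℕ, ⋃ s : ℤ, ⋃ m : ℕ, ⋃ b : Bool, ⋃ b' : Bool,
      (fun y => tg ((ph (sh n y), 0, 0) +
        (((eps b * max (-s) 0 + eps b' * max (s - 8^(n + m) - 4 * 8^n) 0 : ℤ) : K), max 0 (min s (8^(n + m))),
          8 * 8^n + max 0 (min (s - 8^(n + m)) (4 * 8^n))))) ''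
        (({y | y ∈ X ∧ mm y = m} ∩ ({y | y 0 = b} ∩ {y | y m = b'})) ∩ {y | C n s m b b'}) := by
    ext h
    simp only [Set.mem_iUnion, Set.mem_ofPred_eq]
    constructor
    · rintro ⟨n, y, s, h1, h2, rfl⟩
      refine ⟨n, s, mm y, y 0, y (mm y), y, ⟨⟨⟨h1, rfl⟩, rfl, rfl⟩, h2⟩, ?_⟩
      simp only [pos, ofs, Prod.mk_add_mk, zero_add]
    · rintro ⟨n, s, m, b, b', y, ⟨⟨⟨h1, h2⟩, h3, h4⟩, h5⟩, rfl⟩
      simp only [Set.mem_ofPred_eq] at h3 h4 h5
      subst h2; subst h3; subst h4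
      refine ⟨n, y, s, h1, h5, ?_⟩
      simp only [pos, ofs, Prod.mk_add_mk, zero_add]
  rw [this]
  refine MeasurableSet.iUnion fun n => MeasurableSet.iUnion fun s => MeasurableSet.iUnion fun m =>
    MeasurableSet.iUnion fun b => MeasurableSet.iUnion fun b' => ?_
  apply meas_img
  exact ((mm_meas m).inter ((dig_meas _ _).inter (dig_meas _ _))).inter (MeasurableSet.const _)

/-- vertices -/
def V : Type := {v : ℕ × (ℕ → Bool) × ℤ // Valid v.1 v.2.1 v.2.2}

noncomputable def vp (v : V) : GG := tg (pos v.1.1 v.1.2.1 v.1.2.2)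

theorem vp_inj : Function.Injective vp := by
  rintro ⟨⟨n, y, s⟩, h1, h2, h3⟩ ⟨⟨n', y', s'⟩, h1', h2', h3'⟩ h
  have h0 := tg_inj h
  simp only at h0 h1 h2 h3 h1' h2' h3'
  obtain ⟨e1, e2, e3⟩ := pos_inj h1' h1 h2' h3' h2 h3 h0
  subst e1; subst e2; subst e3; rfl

noncomputable def io (x : V × Bool) : V × Bool :=
  (⟨(x.1.1.1, (nx x.1.1.1 x.1.1.2.1 x.1.1.2.2 x.2).1, (nx x.1.1.1 x.1.1.2.1 x.1.1.2.2 x.2).2.1),
    nx_valid x.1.2 x.2⟩, (nx x.1.1.1 x.1.1.2.1 x.1.1.2.2 x.2).2.2)

theorem io_io (x : V × Bool) : io (io x) = x := by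
  obtain ⟨⟨⟨n, y, s⟩, hv⟩, i⟩ := x
  have h := nx_nx hv i
  simp only at h
  simp only [io]
  ext1
  · apply Subtype.ext
    simp only
    rw [h]
  · simp only
    rw [h]

def SA : Set V := {v | v.1.2.2 % 2 = 0}

theorem io_SA (x : V × Bool) : (io x).1 ∈ SA ↔ x.1 ∉ SA := nx_par x.1.2 x.2

def DD : Fin 6 → H := ![(((1 : ℤ) : K), 0, 0), (((-1 : ℤ) : K), 0, 0), (0, 1, 0), (0, -1, 0), (0, 0, 1), (0, 0, -1)]

theorem DD_inj : Function.Injective DD := by
  have h1 : ((1 : ℤ) : K) ≠ ((-1 : ℤ) : K) := by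
    intro h; have := cast_inj h; omega
  have h1' : ((-1 : ℤ) : K) ≠ ((1 : ℤ) : K) := fun h => h1 h.symm
  have h2 : ((1 : ℤ) : K) ≠ 0 := by
    intro h; have := cast_inj (h.trans Int.cast_zero.symm); omega
  have h3 : ((-1 : ℤ) : K) ≠ 0 := by
    intro h; have := cast_inj (h.trans Int.cast_zero.symm); omega
  intro a b h
  fin_cases a <;> fin_cases b <;> simp [DD, Prod.ext_iff] at h ⊢ <;> first | exact h1 (by simpa using h) | exact h1' (by simpa using h)

theorem disp_DD (n : ℕ) (s : ℤ) (m : ℕ) (b b' : Bool) (i : Bool) : ∃ j, disp n s m b b' i = DD j := by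
  have hb : ∀ c : Bool, ∃ j, (((eps c : ℤ) : K), (0:ℤ), (0:ℤ)) = DD j := by
    intro c; cases c
    · exact ⟨0, rfl⟩
    · exact ⟨1, rfl⟩
  have hb' : ∀ c : Bool, ∃ j, (((- eps c : ℤ) : K), (0:ℤ), (0:ℤ)) = DD j := by
    intro c; cases c
    · exact ⟨1, rfl⟩
    · exact ⟨0, rfl⟩
  simp only [disp]
  split_ifs
  · exact hb' b
  · exact ⟨2, rfl⟩
  · exact ⟨4, rfl⟩
  · exact hb b'
  · exact hb b
  · exact ⟨3, rfl⟩
  · exact ⟨5, rfl⟩
  · exact hb' b'

theorem io_vp (x : V × Bool) : vp (io x).1 =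
    tg (disp x.1.1.1 x.1.1.2.2 (mm x.1.1.2.1) (x.1.1.2.1 0) (x.1.1.2.1 (mm x.1.1.2.1)) x.2) * vp x.1 := by
  simp only [vp]
  rw [← tg_add, ← nx_pos x.1.2 x.2]
  rfl

/-- `nx` dart as explicit function of the data -/
theorem nx_dart (n : ℕ) (y : ℕ → Bool) (s : ℤ) (i : Bool) :
    (nx n y s i).2.2 = (if i then (if s < 5 * 8^(n + mm y) + 4 * 8^n - bi (y (mm y)) then false else true)
      else (if - (4 * 8^n) + bi (y 0) < s then true else false)) := by
  have h1 : hi n y = 5 * 8^(n + mm y) + 4 * 8^n - bi (y (mm y)) := rfl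
  have h2 : lo n y = - (4 * 8^n) + bi (y 0) := rfl
  rw [← h1, ← h2]
  simp only [nx]
  split_ifs <;> rfl

theorem half1 : ∃ (k : ℕ) (P : Fin k → Set (GG × ℕ)) (g : Fin k → GG) (σ : Fin k → Equiv.Perm ℕ),
      (∀ i, MeasurableSet (P i)) ∧
      Pairwise (fun i j => Disjoint (P i) (P j)) ∧
      (⋃ i, P i) = (vp '' SA) ×ˢ Set.Iio 2 ∧
      Pairwise (fun i j =>
        Disjoint ((fun p : GG × ℕ => (g i * p.1, σ i p.2)) '' P i)
                 ((fun p : GG × ℕ => (g j * p.1, σ j p.2)) '' P j)) ∧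
      (⋃ i, (fun p : GG × ℕ => (g i * p.1, σ i p.2)) '' P i) = (vp '' SAᶜ) ×ˢ Set.Iio 2 := by
  refine two_decomp vp vp_inj io io_io SA io_SA (fun j => tg (DD j)) (fun a b h => DD_inj (tg_inj h)) ?_ ?_
  · intro x
    obtain ⟨j, hj⟩ := disp_DD x.1.1.1 x.1.1.2.2 (mm x.1.1.2.1) (x.1.1.2.1 0) (x.1.1.2.1 (mm x.1.1.2.1)) x.2
    exact ⟨j, by rw [io_vp, hj]⟩
  · intro i i' j
    convert meas_piece (fun n s m b b' => (-(4 * 8^n) + bi b ≤ s ∧ s ≤ 5 * 8^(n + m) + 4 * 8^n - bi b') ∧ s % 2 = 0 ∧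
      ((if i then (if s < 5 * 8^(n + m) + 4 * 8^n - bi b' then false else true)
      else (if - (4 * 8^n) + bi b < s then true else false)) = i') ∧ disp n s m b b' i = DD j) using 1
    ext h
    simp only [Set.mem_image, Set.mem_ofPred_eq]
    constructor
    · rintro ⟨⟨⟨n, y, s⟩, h1, h2, h3⟩, ⟨h4, h5, h6⟩, rfl⟩
      refine ⟨n, y, s, h1, ⟨⟨h2, h3⟩, h4, ?_, ?_⟩, rfl⟩
      · rw [← h5]; exact (nx_dart n y s i).symm
      · rw [io_vp] at h6
        exact tg_inj (mul_right_cancel h6)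
    · rintro ⟨n, y, s, h1, ⟨⟨h2, h3⟩, h4, h5, h6⟩, rfl⟩
      refine ⟨⟨(n, y, s), h1, h2, h3⟩, ⟨h4, ?_, ?_⟩, rfl⟩
      · rw [← h5]; exact nx_dart n y s i
      · rw [io_vp]; simp only; rw [h6]

end Pool.Agent.H382C

namespace Pool.Agent.H382C
open Function Topology

theorem cyl {U : Set (ℕ → Bool)} (hU : IsOpen U) {y0 : ℕ → Bool} (h0 : y0 ∈ U) :
    ∃ N : ℕ, ∀ y : ℕ → Bool, (∀ i, i < N → y i = y0 i) → y ∈ U := by
  obtain ⟨I, u, h1, h2⟩ := isOpen_pi_iff.mp hU y0 h0
  refine ⟨I.sup id + 1, fun y hy => h2 ?_⟩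
  intro i hi
  have : i ≤ I.sup id := Finset.le_sup (f := id) hi
  rw [hy i (by omega)]
  exact (h1 i hi).2

theorem fin_int (z : ℕ → Bool) (M : ℕ) (h : ∀ l, M ≤ l → z l = false) : ∃ c : ℤ, ph z = (c : K) := by
  refine ⟨∑ l ∈ Finset.range M, bi (z l) * 8^l, ?_⟩
  funext q
  simp only [ph, Phi, Pi.intCast_apply]
  rcases le_total M q with hq | hq
  · congr 1
    symm
    apply Finset.sum_subset (Finset.range_subset_range.mpr hq)
    intro l _ hl
    have := h l (by simpa using hl)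
    simp [this, bi]
  · rw [ZMod.intCast_eq_intCast_iff_dvd_sub, ← Finset.sum_sdiff (Finset.range_subset_range.mpr hq),
      add_sub_cancel_right]
    apply Finset.dvd_sum
    intro l hl
    push_cast
    apply Dvd.dvd.mul_left
    apply pow_dvd_pow
    simpa using (Finset.mem_sdiff.mp hl).2

theorem ph_cont0 : Continuous ph := by
  apply continuous_pi
  intro q
  simp only [ph, Phi]
  have h1 : ∀ l, Continuous (fun y : ℕ → Bool => bi (y l)) := by
    intro l
    have : Continuous (fun b : Bool => bi b) := continuous_of_discreteTopology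
    exact this.comp (continuous_apply _)
  have h2 : Continuous (fun y : ℕ → Bool => ∑ l ∈ Finset.range q, bi (y l) * 8^l) := by
    apply continuous_finsetSum
    intro l _
    exact (h1 l).mul continuous_const
  have h3 : Continuous (fun z : ℤ => (z : ZMod (8^q))) := continuous_of_discreteTopology
  exact h3.comp h2

theorem bad_residual (n : ℕ) (γ : K) (hγ : ∀ c : ℤ, γ ≠ (c : K)) :
    ∀ᶠ y in residual (ℕ → Bool), ∀ z, ph z ≠ ph (sh n y) + γ := by
  have hset : {y : ℕ → Bool | ∀ z, ph z ≠ ph (sh n y) + γ} =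
      ((fun y => ph (sh n y) + γ) ⁻¹' (Set.range ph))ᶜ := by
    ext y; simp
  have hcl : IsClosed ((fun y => ph (sh n y) + γ) ⁻¹' (Set.range ph)) := by
    apply IsClosed.preimage ((ph_cont n).add continuous_const)
    exact (isCompact_range ph_cont0).isClosed
  change {y : ℕ → Bool | ∀ z, ph z ≠ ph (sh n y) + γ} ∈ residual _
  rw [hset]
  apply residual_of_dense_open hcl.isOpen_compl
  rw [dense_iff_inter_open]
  rintro U hU ⟨y0, hy0⟩
  obtain ⟨N, hN⟩ := cyl hU hy0
  by_contra hcon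
  rw [Set.not_nonempty_iff_eq_empty] at hcon
  let y1 : ℕ → Bool := fun i => if i < N then y0 i else false
  let y2 : ℕ → Bool := fun i => if i < N then y0 i else true
  have hy1 : y1 ∈ U := hN y1 (fun i hi => by simp [y1, hi])
  have hy2 : y2 ∈ U := hN y2 (fun i hi => by simp [y2, hi])
  have hb1 : ∃ z, ph z = ph (sh n y1) + γ := by
    by_contra hc
    have : y1 ∈ U ∩ ((fun y => ph (sh n y) + γ) ⁻¹' (Set.range ph))ᶜ := ⟨hy1, hc⟩
    rw [hcon] at this
    exact this
  have hb2 : ∃ z, ph z = ph (sh n y2) + γ := by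
    by_contra hc
    have : y2 ∈ U ∩ ((fun y => ph (sh n y) + γ) ⁻¹' (Set.range ph))ᶜ := ⟨hy2, hc⟩
    rw [hcon] at this
    exact this
  obtain ⟨z1, hz1⟩ := hb1
  obtain ⟨z2, hz2⟩ := hb2
  have hd : Phi (fun l => (bi (z2 l) - bi (z1 l)) - (bi (sh n y2 l) - bi (sh n y1 l))) = ((0 : ℤ) : K) := by
    rw [← Phi_sub, ← Phi_sub, ← Phi_sub]
    change (ph z2 - ph z1) - (ph (sh n y2) - ph (sh n y1)) = _
    rw [hz1, hz2]; simp
  have hd2 := TL _ (fun l => by
    have a1 := bi_abs (z2 l) (z1 l)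
    have a2 := bi_abs (sh n y2 l) (sh n y1 l)
    rw [abs_le] at a1 a2 ⊢
    constructor <;> linarith) 0 0 (by simp) hd
  have hz1' : ∀ l, n + 1 + N ≤ l → z1 l = false := by
    intro l hl
    have h1 := hd2.1 l (by omega)
    have h2 : sh n y2 l = true := by
      simp only [sh, y2]
      rw [if_neg (by omega), if_neg (by omega)]
    have h3 : sh n y1 l = false := by
      simp only [sh, y1]
      rw [if_neg (by omega), if_neg (by omega)]
    rw [h2, h3] at h1
    cases h4 : z1 l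
    · rfl
    · cases h5 : z2 l <;> simp [h4, h5, bi] at h1
  have hs1 : ∀ l, n + 1 + N ≤ l → sh n y1 l = false := by
    intro l hl
    simp only [sh, y1]
    rw [if_neg (by omega), if_neg (by omega)]
  obtain ⟨c1, hc1⟩ := fin_int z1 _ hz1'
  obtain ⟨c2, hc2⟩ := fin_int (sh n y1) _ hs1
  apply hγ (c1 - c2)
  push_cast
  rw [← hc1, ← hc2, hz1]; abel

theorem X_residual : ∀ᶠ y in residual (ℕ → Bool), y ∈ X := by
  have : ∀ N : ℕ, ∀ᶠ y in residual (ℕ → Bool), ∃ i, N ≤ i ∧ y i = true := by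
    intro N
    have ho : IsOpen {y : ℕ → Bool | ∃ i, N ≤ i ∧ y i = true} := by
      have : {y : ℕ → Bool | ∃ i, N ≤ i ∧ y i = true} = ⋃ i : ℕ, ⋃ _ : N ≤ i, (fun y : ℕ → Bool => y i) ⁻¹' {true} := by
        ext y; simp
      rw [this]
      exact isOpen_iUnion fun i => isOpen_iUnion fun _ => (isOpen_discrete _).preimage (continuous_apply i)
    apply residual_of_dense_open ho
    rw [dense_iff_inter_open]
    rintro U hU ⟨y0, hy0⟩
    obtain ⟨M, hM⟩ := cyl hU hy0
    refine ⟨fun i => if i < M then y0 i else true, hM _ (fun i hi => by simp [hi]), max M N, le_max_right _ _, ?_⟩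
    have : ¬ (max M N < M) := by simp
    simp [this]
  exact eventually_countable_forall.mpr this

/-- flip as a homeomorphism -/
noncomputable def flH (k : ℕ) : (ℕ → Bool) ≃ₜ (ℕ → Bool) where
  toFun := fl k
  invFun := fl k
  left_inv := fl_fl k
  right_inv := fl_fl k
  continuous_toFun := by
    unfold fl
    have : Continuous (fun b : Bool => !b) := continuous_of_discreteTopology
    exact continuous_id.update k (this.comp (continuous_apply k))
  continuous_invFun := by
    unfold fl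
    have : Continuous (fun b : Bool => !b) := continuous_of_discreteTopology
    exact continuous_id.update k (this.comp (continuous_apply k))

theorem fl_residual (k : ℕ) {p : (ℕ → Bool) → Prop} (h : ∀ᶠ y in residual (ℕ → Bool), p y) :
    ∀ᶠ y in residual (ℕ → Bool), p (fl k y) := by
  have := (flH k).residual_map_eq
  rw [← this] at h
  exact h

/-- the final Baire category argument -/
theorem baire_contra (c : (ℕ → Bool) → ℤ) (hc : Measurable c)
    (h : ∀ᶠ y in residual (ℕ → Bool), ∀ k, (c (fl k y) + c y) % 2 = 1) : False := by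
  have hm : MeasurableSet {y | c y % 2 = 0} := hc (MeasurableSet.of_discrete (s := {t : ℤ | t % 2 = 0}))
  obtain ⟨U, hU, hCU⟩ := hm.residualEq_isOpen
  have hCU' : ∀ᶠ y in residual (ℕ → Bool), (c y % 2 = 0 ↔ y ∈ U) := by
    filter_upwards [hCU] with y hy
    exact iff_of_eq hy
  rcases U.eq_empty_or_nonempty with hU0 | ⟨y0, hy0⟩
  · have : ∀ᶠ y in residual (ℕ → Bool), False := by
      filter_upwards [h, hCU', fl_residual 0 hCU'] with y h1 h2 h3
      rw [hU0] at h2 h3
      simp only [Set.mem_empty_iff_false, iff_false] at h2 h3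
      have := h1 0
      omega
    have h2 := dense_of_mem_residual this
    obtain ⟨y, hy⟩ := h2.nonempty
    exact hy
  · obtain ⟨N, hN⟩ := cyl hU hy0
    have : ∀ᶠ y in residual (ℕ → Bool), ¬ (∀ i, i < N → y i = y0 i) := by
      filter_upwards [h, hCU', fl_residual N hCU'] with y h1 h2 h3 h4
      have a1 : c y % 2 = 0 := h2.mpr (hN y h4)
      have a2 : c (fl N y) % 2 = 0 := h3.mpr (hN _ (fun i hi => by rw [fl_ne (by omega)]; exact h4 i hi))
      have := h1 N
      omega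
    have h2 := dense_of_mem_residual this
    have ho : IsOpen {y : ℕ → Bool | ∀ i, i < N → y i = y0 i} := by
      have : {y : ℕ → Bool | ∀ i, i < N → y i = y0 i} = ⋂ i ∈ Finset.range N, (fun y : ℕ → Bool => y i) ⁻¹' {y0 i} := by
        ext y; simp
      rw [this]
      exact isOpen_biInter_finset fun i _ => (isOpen_discrete _).preimage (continuous_apply i)
    obtain ⟨y, hy1, hy2⟩ := h2.inter_open_nonempty _ ho ⟨y0, fun i _ => rfl⟩
    exact hy2 hy1

end Pool.Agent.H382C

namespace Pool.Agent.H382C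
open Function Topology

theorem parity {T : Type} [DecidableEq T] (μ : T → T) (Q : Finset T) (h1 : ∀ v ∈ Q, μ (μ v) = v)
    (h2 : ∀ v ∈ Q, μ v ≠ v) :
    (Q.card : ZMod 2) = ∑ v ∈ Q, if μ v ∈ Q then (0:ZMod 2) else 1 := by
  have e1 : ∑ v ∈ Q.filter (fun v => μ v ∈ Q), (1 : ZMod 2) = 0 := by
    apply Finset.sum_involution (fun v _ => μ v)
    · intro a _; decide
    · intro a ha _; exact h2 a (Finset.mem_filter.mp ha).1
    · intro a ha
      obtain ⟨h3, h4⟩ := Finset.mem_filter.mp ha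
      exact Finset.mem_filter.mpr ⟨h4, by rw [h1 a h3]; exact h3⟩
    · intro a ha; exact h1 a (Finset.mem_filter.mp ha).1
  have e2 : (Q.card : ZMod 2) = ∑ v ∈ Q, (1 : ZMod 2) := by simp
  rw [e2, ← Finset.sum_filter_add_sum_filter_not Q (fun v => μ v ∈ Q), e1, zero_add,
    Finset.sum_filter]
  apply Finset.sum_congr rfl
  intro v _
  by_cases h : μ v ∈ Q <;> simp [h]

abbrev T := ℕ × (ℕ → Bool) × ℤ

structure Match (n : ℕ) (μ : T → T) (Gen : (ℕ → Bool) → Prop) : Prop where
  gX : ∀ y, Gen y → y ∈ X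
  gf : ∀ y k, Gen y → Gen (fl k y)
  inv : ∀ y s, Gen y → lo n y ≤ s → s ≤ hi n y → μ (μ (n,y,s)) = (n,y,s)
  ne : ∀ y s, Gen y → lo n y ≤ s → s ≤ hi n y → μ (n,y,s) ≠ (n,y,s)
  near : ∀ y s, Gen y → lo n y ≤ s → s ≤ hi n y → ∃ y' s', μ (n,y,s) = (n,y',s') ∧
    lo n y' ≤ s' ∧ s' ≤ hi n y' ∧ 
    |max 0 (min s' (8^(n+mm y'))) - max 0 (min s (8^(n+mm y)))| < 8^n ∧ 
    (y' = y ∨ (y' = fl 0 y ∧ s < 4*8^n ∧ s' < 4*8^n) ∨ (y' = fl (mm y) y ∧ 4*8^n ≤ s ∧ 4*8^n ≤ s'))

open Classical in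
noncomputable def cz (n : ℕ) (μ : T → T) (y : ℕ → Bool) : ZMod 2 :=
  ∑ s ∈ Finset.Ico (0:ℤ) (4*8^n), ∑ s' ∈ Finset.Ico (4*8^n : ℤ) (8*8^n), 
    if μ (n,y,s) = (n,y,s') then 1 else 0

theorem two_eq_zero : (2 : ZMod 2) = 0 := by decide

open Classical in
theorem low {n : ℕ} {μ : T → T} {Gen : (ℕ → Bool) → Prop} (M : Match n μ Gen) {x : ℕ → Bool} (hx : Gen x) :
    cz n μ x + cz n μ (fl 0 x) = 1 := by
  have hp := ppos n
  set Q : Finset T := (Finset.Ico (lo n x) (4*8^n)).image (fun s => ((n, x, s) : T)) ∪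
    (Finset.Ico (lo n (fl 0 x)) (4*8^n)).image (fun s => ((n, fl 0 x, s) : T)) with hQ
  have hx' := M.gf x 0 hx
  have memQ : ∀ y s, ((n, y, s) : T) ∈ Q ↔ (y = x ∨ y = fl 0 x) ∧ lo n y ≤ s ∧ s < 4*8^n := by
    intro y s
    simp only [hQ, Finset.mem_union, Finset.mem_image, Finset.mem_Ico, Prod.mk.injEq, true_and]
    constructor
    · rintro (⟨a, h1, rfl, rfl⟩ | ⟨a, h1, rfl, rfl⟩)
      · exact ⟨Or.inl rfl, h1.1, h1.2⟩
      · exact ⟨Or.inr rfl, h1.1, h1.2⟩
    · rintro ⟨rfl | rfl, h1, h2⟩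
      · exact Or.inl ⟨s, ⟨h1, h2⟩, rfl, rfl⟩
      · exact Or.inr ⟨s, ⟨h1, h2⟩, rfl, rfl⟩
  have form : ∀ v ∈ Q, ∃ y s, v = (n, y, s) ∧ (y = x ∨ y = fl 0 x) ∧ Gen y ∧ lo n y ≤ s ∧ s < 4*8^n ∧ s ≤ hi n y := by
    rintro ⟨n', y, s⟩ hv
    have hn : n' = n := by
      simp only [hQ, Finset.mem_union, Finset.mem_image, Prod.mk.injEq] at hv
      rcases hv with ⟨a, h1, h2, h3⟩ | ⟨a, h1, h2, h3⟩ <;> exact h2.symm
    subst hn
    have h1 := (memQ y s).mp hv
    refine ⟨y, s, rfl, h1.1, ?_, h1.2.1, h1.2.2, ?_⟩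
    · rcases h1.1 with h | h <;> rw [h] <;> assumption
    · have h2 := pP n' y
      simp only [hi]
      rcases eps_bi (y (mm y)) with ⟨q1, q2⟩ | ⟨q1, q2⟩ <;> rw [q2] <;> omega
  have hpar := parity μ Q
    (by intro v hv
        obtain ⟨y, s, rfl, h1, h2, h3, h4, h5⟩ := form v hv
        exact M.inv y s h2 h3 h5)
    (by intro v hv
        obtain ⟨y, s, rfl, h1, h2, h3, h4, h5⟩ := form v hv
        exact M.ne y s h2 h3 h5)
  have F : ∀ y s, ((n, y, s) : T) ∈ Q → (if μ (n,y,s) ∈ Q then (0:ZMod 2) else 1) =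
      ∑ s' ∈ Finset.Ico (4*8^n : ℤ) (8*8^n), if μ (n,y,s) = (n,y,s') then (1 : ZMod 2) else 0 := by
    intro y s hv
    obtain ⟨y_, s_, e, h1, h2, h3, h4, h5⟩ := form _ hv
    simp only [Prod.mk.injEq, true_and] at e
    obtain ⟨rfl, rfl⟩ := e
    obtain ⟨y', s', e1, e2, e3, e4, e5⟩ := M.near y s h2 h3 h5
    rw [e1]
    have hP := pP n y
    rcases e5 with rfl | ⟨rfl, a1, a2⟩ | ⟨rfl, a1, a2⟩
    · by_cases h6 : s' < 4*8^n
      · rw [if_pos ((memQ _ _).mpr ⟨h1, e2, h6⟩)]
        symm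
        apply Finset.sum_eq_zero
        intro t ht
        rw [Finset.mem_Ico] at ht
        rw [if_neg]
        simp only [Prod.mk.injEq, true_and]
        omega
      · rw [if_neg (fun hc => h6 ((memQ _ _).mp hc).2.2)]
        rw [abs_lt] at e4
        rw [Finset.sum_eq_single s']
        · simp
        · intro t ht hts
          rw [if_neg]
          simp only [Prod.mk.injEq, true_and]
          exact fun h => hts h.symm
        · intro hc
          exfalso; apply hc
          rw [Finset.mem_Ico]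
          omega
    · have h6 : fl 0 y = x ∨ fl 0 y = fl 0 x := by
        rcases h1 with rfl | rfl
        · right; rfl
        · left; exact fl_fl 0 x
      rw [if_pos ((memQ _ _).mpr ⟨h6, e2, a2⟩)]
      symm
      apply Finset.sum_eq_zero
      intro t ht
      rw [if_neg]
      simp only [Prod.mk.injEq, true_and, not_and]
      intro hc; exact absurd hc (fl_neq 0 y)
    · omega
  have G : ∀ y, (y = x ∨ y = fl 0 x) → ∑ s ∈ Finset.Ico (lo n y) (4*8^n), (if μ (n,y,s) ∈ Q then (0:ZMod 2) else 1) =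
      cz n μ y := by
    intro y hy
    have hgy : Gen y := by rcases hy with h | h <;> rw [h] <;> assumption
    have h1 : ∑ s ∈ Finset.Ico (lo n y) (4*8^n), (if μ (n,y,s) ∈ Q then (0:ZMod 2) else 1) =
       ∑ s ∈ Finset.Ico (lo n y) (4*8^n), 
        ∑ s' ∈ Finset.Ico (4*8^n : ℤ) (8*8^n), if μ (n,y,s) = (n,y,s') then (1 : ZMod 2) else 0 := by
      apply Finset.sum_congr rfl
      intro s hs
      rw [Finset.mem_Ico] at hs
      exact F y s ((memQ y s).mpr ⟨hy, hs.1, hs.2⟩)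
    rw [h1]
    symm
    unfold cz
    have hlh := lo_hi n y
    apply Finset.sum_subset
    · apply Finset.Ico_subset_Ico_left; omega
    · intro s hs hs2
      simp only [Finset.mem_Ico, not_and, not_lt] at hs hs2
      have hs0 : s < 0 := by
        by_contra hc
        have := hs2 (by omega)
        omega
      apply Finset.sum_eq_zero
      intro t ht
      rw [Finset.mem_Ico] at ht
      rw [if_neg]
      intro hc
      obtain ⟨y', s', e1, e2, e3, e4, e5⟩ := M.near y s hgy hs.1 (by omega)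
      rw [e1] at hc
      simp only [Prod.mk.injEq, true_and] at hc
      obtain ⟨rfl, rfl⟩ := hc
      have hP := pP n y'
      rw [abs_lt] at e4
      omega
  have hdisj : Disjoint ((Finset.Ico (lo n x) (4*8^n)).image (fun s => ((n, x, s) : T)))
    ((Finset.Ico (lo n (fl 0 x)) (4*8^n)).image (fun s => ((n, fl 0 x, s) : T))) := by
    rw [Finset.disjoint_left]
    intro v hv hv'
    simp only [Finset.mem_image] at hv hv'
    obtain ⟨a, _, rfl⟩ := hv
    obtain ⟨b, _, hb⟩ := hv'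
    simp only [Prod.mk.injEq, true_and] at hb
    exact fl_neq 0 x hb.1
  have inj : ∀ y : ℕ → Bool, Function.Injective (fun s : ℤ => ((n, y, s) : T)) := by
    intro y a b h
    simpa using h
  have hcard : (Q.card : ZMod 2) = 1 := by
    rw [hQ, Finset.card_union_of_disjoint hdisj, Finset.card_image_of_injective _ (inj x),
      Finset.card_image_of_injective _ (inj (fl 0 x)), Int.card_Ico, Int.card_Ico]
    have h1 := lo_hi n x
    have h2 := lo_hi n (fl 0 x)
    have h3 : (((4 * 8 ^ n - lo n x).toNat + (4 * 8 ^ n - lo n (fl 0 x)).toNat : ℕ) : ℤ) = 2 * (8 * 8^n - 1) + 1 := by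
      push_cast
      rw [Int.toNat_of_nonneg (by omega), Int.toNat_of_nonneg (by omega)]
      simp only [lo, fl_self]
      rcases bi_eps_not (x 0) with ⟨q1, q2, q3, q4⟩ | ⟨q1, q2, q3, q4⟩ <;> rw [q2, q4] <;> ring
    have h4 : (((4 * 8 ^ n - lo n x).toNat + (4 * 8 ^ n - lo n (fl 0 x)).toNat : ℕ) : ZMod 2) =
        ((2 * (8 * 8^n - 1) + 1 : ℤ) : ZMod 2) := by
      rw [← h3]; push_cast; rfl
    rw [h4]
    push_cast
    rw [two_eq_zero]; ring
  rw [hcard, hQ, Finset.sum_union hdisj, Finset.sum_image (fun a _ b _ h => inj x h),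
    Finset.sum_image (fun a _ b _ h => inj (fl 0 x) h)] at hpar
  rw [hpar, ← G x (Or.inl rfl), ← G (fl 0 x) (Or.inr rfl)]

end Pool.Agent.H382C

namespace Pool.Agent.H382C
open Function Topology

open Classical in
theorem up {n : ℕ} {μ : T → T} {Gen : (ℕ → Bool) → Prop} (M : Match n μ Gen) {x : ℕ → Bool} (hx : Gen x) :
    cz n μ x + cz n μ (fl (mm x) x) = 1 := by
  have hp := ppos n
  have hmx : mm (fl (mm x) x) = mm x := mm_fl (X_ex (M.gX x hx))
  set Q : Finset T := (Finset.Icc (4*8^n) (hi n x)).image (fun s => ((n, x, s) : T)) ∪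
    (Finset.Icc (4*8^n) (hi n (fl (mm x) x))).image (fun s => ((n, fl (mm x) x, s) : T)) with hQ
  have hx' := M.gf x (mm x) hx
  have memQ : ∀ y s, ((n, y, s) : T) ∈ Q ↔ (y = x ∨ y = fl (mm x) x) ∧ 4*8^n ≤ s ∧ s ≤ hi n y := by
    intro y s
    simp only [hQ, Finset.mem_union, Finset.mem_image, Finset.mem_Icc, Prod.mk.injEq, true_and]
    constructor
    · rintro (⟨a, h1, rfl, rfl⟩ | ⟨a, h1, rfl, rfl⟩)
      · exact ⟨Or.inl rfl, h1.1, h1.2⟩
      · exact ⟨Or.inr rfl, h1.1, h1.2⟩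
    · rintro ⟨rfl | rfl, h1, h2⟩
      · exact Or.inl ⟨s, ⟨h1, h2⟩, rfl, rfl⟩
      · exact Or.inr ⟨s, ⟨h1, h2⟩, rfl, rfl⟩
  have form : ∀ v ∈ Q, ∃ y s, v = (n, y, s) ∧ (y = x ∨ y = fl (mm x) x) ∧ Gen y ∧ lo n y ≤ s ∧ 4*8^n ≤ s ∧ s ≤ hi n y := by
    rintro ⟨n', y, s⟩ hv
    have hn : n' = n := by
      simp only [hQ, Finset.mem_union, Finset.mem_image, Prod.mk.injEq] at hv
      rcases hv with ⟨a, h1, h2, h3⟩ | ⟨a, h1, h2, h3⟩ <;> exact h2.symm
    subst hn
    have h1 := (memQ y s).mp hv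
    refine ⟨y, s, rfl, h1.1, ?_, ?_, h1.2.1, h1.2.2⟩
    · rcases h1.1 with h | h <;> rw [h] <;> assumption
    · have h2 := lo_hi n' y
      omega
  have hpar := parity μ Q
    (by intro v hv
        obtain ⟨y, s, rfl, h1, h2, h3, h4, h5⟩ := form v hv
        exact M.inv y s h2 h3 h5)
    (by intro v hv
        obtain ⟨y, s, rfl, h1, h2, h3, h4, h5⟩ := form v hv
        exact M.ne y s h2 h3 h5)
  have F : ∀ y s, ((n, y, s) : T) ∈ Q → (if μ (n,y,s) ∈ Q then (0:ZMod 2) else 1) =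
      ∑ s' ∈ Finset.Ico (0 : ℤ) (4*8^n), if μ (n,y,s) = (n,y,s') then (1 : ZMod 2) else 0 := by
    intro y s hv
    obtain ⟨y_, s_, e, h1, h2, h3, h4, h5⟩ := form _ hv
    simp only [Prod.mk.injEq, true_and] at e
    obtain ⟨rfl, rfl⟩ := e
    obtain ⟨y', s', e1, e2, e3, e4, e5⟩ := M.near y s h2 h3 h5
    rw [e1]
    have hP := pP n y
    rcases e5 with rfl | ⟨rfl, a1, a2⟩ | ⟨rfl, a1, a2⟩
    · by_cases h6 : 4*8^n ≤ s'
      · rw [if_pos ((memQ _ _).mpr ⟨h1, h6, e3⟩)]
        symm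
        apply Finset.sum_eq_zero
        intro t ht
        rw [Finset.mem_Ico] at ht
        rw [if_neg]
        simp only [Prod.mk.injEq, true_and]
        omega
      · rw [if_neg (fun hc => h6 ((memQ _ _).mp hc).2.1)]
        rw [abs_lt] at e4
        rw [Finset.sum_eq_single s']
        · simp
        · intro t ht hts
          rw [if_neg]
          simp only [Prod.mk.injEq, true_and]
          exact fun h => hts h.symm
        · intro hc
          exfalso; apply hc
          rw [Finset.mem_Ico]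
          omega
    · omega
    · have h6 : fl (mm y) y = x ∨ fl (mm y) y = fl (mm x) x := by
        rcases h1 with rfl | rfl
        · right; rfl
        · left; rw [hmx]; exact fl_fl _ x
      rw [if_pos ((memQ _ _).mpr ⟨h6, a2, e3⟩)]
      symm
      apply Finset.sum_eq_zero
      intro t ht
      rw [if_neg]
      simp only [Prod.mk.injEq, true_and, not_and]
      intro hc; exact absurd hc (fl_neq _ y)
  have G : ∀ y, (y = x ∨ y = fl (mm x) x) →
      ∑ s ∈ Finset.Icc (4*8^n) (hi n y), (if μ (n,y,s) ∈ Q then (0:ZMod 2) else 1) = cz n μ y := by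
    intro y hy
    have hgy : Gen y := by rcases hy with h | h <;> rw [h] <;> assumption
    have h1 : ∑ s ∈ Finset.Icc (4*8^n) (hi n y), (if μ (n,y,s) ∈ Q then (0:ZMod 2) else 1) =
       ∑ s ∈ Finset.Icc (4*8^n) (hi n y), 
        ∑ s' ∈ Finset.Ico (0 : ℤ) (4*8^n), if μ (n,y,s) = (n,y,s') then (1 : ZMod 2) else 0 := by
      apply Finset.sum_congr rfl
      intro s hs
      rw [Finset.mem_Icc] at hs
      exact F y s ((memQ y s).mpr ⟨hy, hs.1, hs.2⟩)
    rw [h1]
    have hlh := lo_hi n y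
    have hP := pP n y
    have hhi : 8 * 8^n ≤ hi n y := by
      simp only [hi]
      rcases eps_bi (y (mm y)) with ⟨q1, q2⟩ | ⟨q1, q2⟩ <;> rw [q2] <;> omega
    have h2 : ∑ s ∈ Finset.Icc (4*8^n) (hi n y), 
        (∑ s' ∈ Finset.Ico (0 : ℤ) (4*8^n), if μ (n,y,s) = (n,y,s') then (1 : ZMod 2) else 0) = 
        ∑ s ∈ Finset.Ico (4*8^n : ℤ) (8*8^n), 
        ∑ s' ∈ Finset.Ico (0 : ℤ) (4*8^n), if μ (n,y,s) = (n,y,s') then (1 : ZMod 2) else 0 := by
      symm
      apply Finset.sum_subset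
      · intro s hs
        rw [Finset.mem_Ico] at hs
        rw [Finset.mem_Icc]
        omega
      · intro s hs hs2
        simp only [Finset.mem_Ico, Finset.mem_Icc, not_and, not_lt] at hs hs2
        have hs0 : 8*8^n ≤ s := hs2 hs.1
        apply Finset.sum_eq_zero
        intro t ht
        rw [Finset.mem_Ico] at ht
        rw [if_neg]
        intro hc
        obtain ⟨y', s', e1, e2, e3, e4, e5⟩ := M.near y s hgy (by omega) hs.2
        rw [e1] at hc
        simp only [Prod.mk.injEq, true_and] at hc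
        obtain ⟨rfl, rfl⟩ := hc
        rw [abs_lt] at e4
        omega
    rw [h2]
    unfold cz
    rw [Finset.sum_comm]
    apply Finset.sum_congr rfl
    intro s hs
    apply Finset.sum_congr rfl
    intro s' hs'
    rw [Finset.mem_Ico] at hs hs'
    have hiff : μ (n, y, s') = (n, y, s) ↔ μ (n, y, s) = (n, y, s') := by
      constructor
      · intro h; rw [← h]; exact M.inv y s' hgy (by omega) (by omega)
      · intro h; rw [← h]; exact M.inv y s hgy (by omega) (by omega)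
    by_cases h3 : μ (n, y, s') = (n, y, s)
    · rw [if_pos h3, if_pos (hiff.mp h3)]
    · rw [if_neg h3, if_neg (fun h => h3 (hiff.mpr h))]
  have hdisj : Disjoint ((Finset.Icc (4*8^n) (hi n x)).image (fun s => ((n, x, s) : T)))
    ((Finset.Icc (4*8^n) (hi n (fl (mm x) x))).image (fun s => ((n, fl (mm x) x, s) : T))) := by
    rw [Finset.disjoint_left]
    intro v hv hv'
    simp only [Finset.mem_image] at hv hv'
    obtain ⟨a, _, rfl⟩ := hv
    obtain ⟨b, _, hb⟩ := hv'
    simp only [Prod.mk.injEq, true_and] at hb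
    exact fl_neq _ x hb.1
  have inj : ∀ y : ℕ → Bool, Function.Injective (fun s : ℤ => ((n, y, s) : T)) := by
    intro y a b h
    simpa using h
  have hcard : (Q.card : ZMod 2) = 1 := by
    rw [hQ, Finset.card_union_of_disjoint hdisj, Finset.card_image_of_injective _ (inj x),
      Finset.card_image_of_injective _ (inj (fl (mm x) x)), Int.card_Icc, Int.card_Icc]
    have hP := pP n x
    have h1 : hi n x = 5 * 8^(n + mm x) + 4 * 8^n - bi (x (mm x)) := rfl
    have h2 : hi n (fl (mm x) x) = 5 * 8^(n + mm x) + 4 * 8^n - bi (!x (mm x)) := by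
      simp only [hi, hmx, fl_self]
    have h3 : (((hi n x + 1 - 4 * 8 ^ n).toNat + (hi n (fl (mm x) x) + 1 - 4 * 8 ^ n).toNat : ℕ) : ℤ) =
        2 * (5 * 8^(n + mm x)) + 1 := by
      push_cast
      rw [h1, h2]
      rcases bi_eps_not (x (mm x)) with ⟨q1, q2, q3, q4⟩ | ⟨q1, q2, q3, q4⟩ <;> rw [q2, q4] <;>
        rw [Int.toNat_of_nonneg (by omega), Int.toNat_of_nonneg (by omega)] <;> ring
    have h4 : (((hi n x + 1 - 4 * 8 ^ n).toNat + (hi n (fl (mm x) x) + 1 - 4 * 8 ^ n).toNat : ℕ) : ZMod 2) =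
        ((2 * (5 * 8^(n + mm x)) + 1 : ℤ) : ZMod 2) := by
      rw [← h3]; push_cast; rfl
    rw [h4]
    push_cast
    rw [two_eq_zero]; ring
  rw [hcard, hQ, Finset.sum_union hdisj, Finset.sum_image (fun a _ b _ h => inj x h),
    Finset.sum_image (fun a _ b _ h => inj (fl (mm x) x) h)] at hpar
  rw [hpar, ← G x (Or.inl rfl), ← G (fl (mm x) x) (Or.inr rfl)]

/-- every digit flip changes the parity -/
theorem flips {n : ℕ} {μ : T → T} {Gen : (ℕ → Bool) → Prop} (M : Match n μ Gen) (k : ℕ) :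
    ∀ x, Gen x → cz n μ (fl k x) = cz n μ x + 1 := by
  have aux : ∀ a b : ZMod 2, a + b = 1 → b = a + 1 := by decide
  have comm : ∀ (j k : ℕ) (y : ℕ → Bool), fl j (fl k y) = fl k (fl j y) := by
    intro j k y
    by_cases h : j = k
    · rw [h]
    · unfold fl
      rw [Function.update_of_ne h, Function.update_of_ne (fun e => h e.symm), Function.update_comm h]
  induction k using Nat.strong_induction_on with
  | _ k ih =>
    rcases Nat.eq_zero_or_pos k with rfl | hk
    · intro x hx; exact aux _ _ (low M hx)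
    · have key : ∀ j, j ≤ k → ∀ y, Gen y → (∀ i, j ≤ i → i < k → y i = decide (i = k - 1)) →
          cz n μ (fl k y) = cz n μ y + 1 := by
        intro j
        induction j with
        | zero =>
          intro _ y hy hpat
          have hm : mm y = k := by
            apply mm_eq hk
            · rw [hpat (k-1) (by omega) (by omega)]; simp
            · intro i hi
              rw [hpat i (by omega) (by omega)]
              simp; omega
          have := up M hy
          rw [hm] at this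
          exact aux _ _ this
        | succ j ihj =>
          intro hj y hy hpat
          by_cases h : y j = decide (j = k-1)
          · apply ihj (by omega) y hy
            intro i hi1 hi2
            rcases Nat.eq_or_lt_of_le hi1 with h2 | h2
            · rw [← h2]; exact h
            · exact hpat i h2 hi2
          · have hy' := M.gf y j hy
            have h1 := ihj (by omega) (fl j y) hy' (by
              intro i hi1 hi2
              rcases Nat.eq_or_lt_of_le hi1 with h2 | h2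
              · rw [← h2, fl_self]
                have hb : ∀ a b : Bool, ¬ a = b → (!a) = b := by decide
                exact hb _ _ h
              · rw [fl_ne (by omega)]; exact hpat i h2 hi2)
            have h2 := ih j (by omega) y hy
            have h3 := ih j (by omega) (fl k y) (M.gf y k hy)
            rw [comm, h1, h2] at h3
            have : ∀ a b : ZMod 2, a + 1 + 1 = b + 1 → b = a + 1 := by decide
            exact this _ _ h3
      intro x hx
      exact key k le_rfl x hx (by intro i h1 h2; omega)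

end Pool.Agent.H382C

namespace Pool.Agent.H382C
open Function Topology

/-- K-coordinate is an integer -/
def IsInt (γ : K) : Prop := ∃ c : ℤ, γ = (c : K)

theorem not_isInt_add {γ : K} (h : ¬ IsInt γ) (c : ℤ) : ∀ d : ℤ, γ + (c : K) ≠ (d : K) := by
  intro d hd
  apply h
  refine ⟨d - c, ?_⟩
  push_cast
  rw [← hd]; abel

theorem not_isInt_neg {γ : K} (h : ¬ IsInt γ) (c : ℤ) : ∀ d : ℤ, -γ + (c : K) ≠ (d : K) := by
  intro d hd
  apply h
  refine ⟨c - d, ?_⟩
  push_cast
  rw [← hd]; abel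

def ug : GG → H := Multiplicative.toAdd

theorem ug_mul (a b : GG) : ug (a * b) = ug a + ug b := rfl
theorem ug_tg (a : H) : ug (tg a) = a := rfl
theorem ug_inj {a b : GG} (h : ug a = ug b) : a = b := h

theorem half2 (k : ℕ) (P : Fin k → Set GG) (g : Fin k → GG)
    (hPm : ∀ i, MeasurableSet (P i))
    (hPd : Pairwise (fun i j => Disjoint (P i) (P j)))
    (hPu : (⋃ i, P i) = vp '' SA)
    (hId : Pairwise (fun i j => Disjoint ((fun x : GG => g i * x) '' P i) ((fun x : GG => g j * x) '' P j)))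
    (hIu : (⋃ i, (fun x : GG => g i * x) '' P i) = vp '' SAᶜ) : False := by
  classical
  -- choose the slice
  have hn : ∃ n : ℕ, ∀ i : Fin k, (∀ c : ℤ, (ug (g i)).1 = (c : K) → |c| < 8^n) ∧ |(ug (g i)).2.1| < 8^n ∧
      |(ug (g i)).2.2| < 8^n := by
    have h1 : ∀ z : ℤ, |z| < 8 ^ (z.natAbs) := by
      intro z
      have : z.natAbs < 8 ^ z.natAbs := Nat.lt_pow_self (by norm_num)
      rw [Int.abs_eq_natAbs]
      exact_mod_cast this
    have hmono : ∀ (z : ℤ) (a b : ℕ), |z| < 8^a → a ≤ b → |z| < 8^b := by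
      intro z a b h hab
      exact lt_of_lt_of_le h (pow_le_pow_right₀ (by norm_num) hab)
    have h2 : ∀ i : Fin k, ∃ n : ℕ, (∀ c : ℤ, (ug (g i)).1 = (c : K) → |c| < 8^n) ∧ |(ug (g i)).2.1| < 8^n ∧
      |(ug (g i)).2.2| < 8^n := by
      intro i
      by_cases hi : IsInt (ug (g i)).1
      · obtain ⟨c, hc⟩ := hi
        refine ⟨c.natAbs + (ug (g i)).2.1.natAbs + (ug (g i)).2.2.natAbs, ?_, ?_, ?_⟩
        · intro c' hc'
          have : c' = c := cast_inj (hc'.symm.trans hc)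
          rw [this]
          exact hmono _ _ _ (h1 c) (by omega)
        · exact hmono _ _ _ (h1 _) (by omega)
        · exact hmono _ _ _ (h1 _) (by omega)
      · refine ⟨(ug (g i)).2.1.natAbs + (ug (g i)).2.2.natAbs, ?_, ?_, ?_⟩
        · intro c' hc'; exact absurd ⟨c', hc'⟩ hi
        · exact hmono _ _ _ (h1 _) (by omega)
        · exact hmono _ _ _ (h1 _) (by omega)
    choose N hN using h2
    refine ⟨Finset.univ.sup N, fun i => ?_⟩
    have hle : N i ≤ Finset.univ.sup N := Finset.le_sup (Finset.mem_univ i)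
    exact ⟨fun c hc => hmono _ _ _ ((hN i).1 c hc) hle, hmono _ _ _ (hN i).2.1 hle, hmono _ _ _ (hN i).2.2 hle⟩
  obtain ⟨n, hn⟩ := hn
  -- generic points
  let Gen : (ℕ → Bool) → Prop := fun y => y ∈ X ∧ ∀ i, ¬ IsInt (ug (g i)).1 → ∀ (c : ℤ) (z : ℕ → Bool),
    ph z ≠ ph (sh n y) + ((ug (g i)).1 + (c : K)) ∧ ph z ≠ ph (sh n y) + (-(ug (g i)).1 + (c : K))
  have hGenRes : ∀ᶠ y in residual (ℕ → Bool), Gen y := by
    apply X_residual.and
    rw [eventually_countable_forall]
    intro i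
    by_cases hi : IsInt (ug (g i)).1
    · exact Filter.Eventually.of_forall (fun y h => absurd hi h)
    · have h1 : ∀ c : ℤ, ∀ᶠ y in residual (ℕ → Bool), ∀ z : ℕ → Bool,
          ph z ≠ ph (sh n y) + ((ug (g i)).1 + (c : K)) ∧ ph z ≠ ph (sh n y) + (-(ug (g i)).1 + (c : K)) := by
        intro c
        filter_upwards [bad_residual n _ (not_isInt_add hi c), bad_residual n _ (not_isInt_neg hi c)] with y h1 h2 z
        exact ⟨h1 z, h2 z⟩
      filter_upwards [eventually_countable_forall.mpr h1] with y h2 _ c z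
      exact h2 c z
  have hGenfl : ∀ y j, Gen y → Gen (fl j y) := by
    rintro y j ⟨h1, h2⟩
    refine ⟨X_fl h1 j, ?_⟩
    intro i hi c z
    have h3 := h2 i hi (eps (y j) * 8^(n+1+j) + c) z
    rw [ph_fl]
    constructor
    · intro h4; apply h3.1; rw [h4]; push_cast; ring
    · intro h4; apply h3.2; rw [h4]; push_cast; ring
  -- the matching relation
  let S : V → V → Prop := fun v w => ∃ i, (vp v ∈ P i ∧ vp w = g i * vp v) ∨ (vp w ∈ P i ∧ vp v = g i * vp w)
  have hSsymm : ∀ v w, S v w → S w v := by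
    rintro v w ⟨i, h | h⟩
    · exact ⟨i, Or.inr h⟩
    · exact ⟨i, Or.inl h⟩
  have inA : ∀ v i, vp v ∈ P i → v ∈ SA := by
    intro v i h
    have : vp v ∈ vp '' SA := hPu ▸ Set.mem_iUnion.mpr ⟨i, h⟩
    obtain ⟨w, hw, hw2⟩ := this
    rwa [← vp_inj hw2]
  have inB : ∀ v w i, vp w ∈ P i → vp v = g i * vp w → v ∉ SA := by
    intro v w i h1 h2
    have : vp v ∈ vp '' SAᶜ := hIu ▸ Set.mem_iUnion.mpr ⟨i, ⟨vp w, h1, h2.symm⟩⟩
    obtain ⟨w', hw, hw2⟩ := this
    rwa [← vp_inj hw2]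
  have hPeq : ∀ (a : GG) i j, a ∈ P i → a ∈ P j → i = j := by
    intro a i j h1 h2
    by_contra hij
    exact Set.disjoint_left.mp (hPd hij) h1 h2
  have hIeq : ∀ (a : GG) i j, a ∈ (fun x : GG => g i * x) '' P i → a ∈ (fun x : GG => g j * x) '' P j → i = j := by
    intro a i j h1 h2
    by_contra hij
    exact Set.disjoint_left.mp (hId hij) h1 h2
  have hSA : ∀ v w, S v w → (v ∈ SA ↔ w ∉ SA) := by
    rintro v w ⟨i, ⟨h1, h2⟩ | ⟨h1, h2⟩⟩
    · exact ⟨fun _ => inB w v i h1 h2, fun _ => inA v i h1⟩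
    · exact ⟨fun h => absurd h (inB v w i h1 h2), fun h => absurd (inA w i h1) h⟩
  have hSuniq : ∀ v w w', S v w → S v w' → w = w' := by
    rintro v w w' ⟨i, ⟨h1, h2⟩ | ⟨h1, h2⟩⟩ ⟨j, ⟨h3, h4⟩ | ⟨h3, h4⟩⟩
    · have := hPeq _ i j h1 h3
      subst this
      exact vp_inj (h2.trans h4.symm)
    · exact absurd (inA v i h1) (inB v w' j h3 h4)
    · exact absurd (inA v j h3) (inB v w i h1 h2)
    · have := hIeq (vp v) i j ⟨_, h1, h2.symm⟩ ⟨_, h3, h4.symm⟩
      subst this
      exact vp_inj (mul_left_cancel (h2.symm.trans h4))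
  have hSex : ∀ v, ∃ w, S v w := by
    intro v
    by_cases hv : v ∈ SA
    · have h1 : vp v ∈ ⋃ i, P i := hPu ▸ ⟨v, hv, rfl⟩
      obtain ⟨i, hi⟩ := Set.mem_iUnion.mp h1
      have h2 : g i * vp v ∈ vp '' SAᶜ := hIu ▸ Set.mem_iUnion.mpr ⟨i, ⟨vp v, hi, rfl⟩⟩
      obtain ⟨w, hw, hw2⟩ := h2
      exact ⟨w, i, Or.inl ⟨hi, hw2⟩⟩
    · have h1 : vp v ∈ ⋃ i, (fun x : GG => g i * x) '' P i := hIu ▸ ⟨v, hv, rfl⟩
      obtain ⟨i, a, ha, ha2⟩ := Set.mem_iUnion.mp h1
      have h2 : a ∈ vp '' SA := hPu ▸ Set.mem_iUnion.mpr ⟨i, ha⟩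
      obtain ⟨w, hw, hw2⟩ := h2
      refine ⟨w, i, Or.inr ⟨?_, ?_⟩⟩
      · rw [hw2]; exact ha
      · rw [hw2]; exact ha2.symm
  choose m hm using hSex
  have hmm : ∀ v, m (m v) = v := fun v => hSuniq (m v) _ _ (hm (m v)) (hSsymm _ _ (hm v))
  have hmne : ∀ v, m v ≠ v := by
    intro v h
    have := hSA _ _ (hm v)
    rw [h] at this
    tauto
  -- extension to triples
  let μ : T → T := fun t => if h : Valid t.1 t.2.1 t.2.2 then (m ⟨t, h⟩).1 else t
  have hμ : ∀ t (h : Valid t.1 t.2.1 t.2.2), μ t = (m ⟨t, h⟩).1 := by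
    intro t h; simp only [μ, dif_pos h]
  have hM : Match n μ Gen := by
    refine ⟨fun y h => h.1, hGenfl, ?_, ?_, ?_⟩
    · intro y s hy h1 h2
      have hv : Valid n y s := ⟨hy.1, h1, h2⟩
      rw [hμ (n,y,s) hv, hμ _ (m ⟨(n,y,s), hv⟩).2]
      exact congrArg Subtype.val (hmm ⟨(n,y,s), hv⟩)
    · intro y s hy h1 h2
      have hv : Valid n y s := ⟨hy.1, h1, h2⟩
      rw [hμ (n,y,s) hv]
      intro h
      exact hmne _ (Subtype.ext h)
    · intro y s hy h1 h2
      have hv : Valid n y s := ⟨hy.1, h1, h2⟩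
      rw [hμ (n,y,s) hv]
      obtain ⟨i, hi⟩ := hm ⟨(n,y,s), hv⟩
      generalize hw : m ⟨(n,y,s), hv⟩ = w at hi
      obtain ⟨⟨n', y', s'⟩, hv'⟩ := w
      have key : ∃ (c : ℤ) (d1 d2 : ℤ), |c| < 8^n ∧ |d1| < 8^n ∧ |d2| < 8^n ∧
          pos n' y' s' = pos n y s + ((c : K), d1, d2) := by
        rcases hi with ⟨_, h3⟩ | ⟨_, h3⟩
        · have h4 : pos n' y' s' = ug (g i) + pos n y s := congrArg ug h3
          by_cases hI : IsInt (ug (g i)).1
          · obtain ⟨c, hc⟩ := hI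
            refine ⟨c, (ug (g i)).2.1, (ug (g i)).2.2, (hn i).1 c hc, (hn i).2.1, (hn i).2.2, ?_⟩
            rw [h4, ← hc, add_comm]
          · exfalso
            have h5 := congrArg Prod.fst h4
            simp only [pos, Prod.fst_add] at h5
            apply (hy.2 i hI (ofs n y s - ofs n' y' s') (sh n' y')).1
            rw [eq_sub_of_add_eq h5]
            push_cast; ring
        · have h4 : pos n y s = ug (g i) + pos n' y' s' := congrArg ug h3
          by_cases hI : IsInt (ug (g i)).1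
          · obtain ⟨c, hc⟩ := hI
            refine ⟨-c, -(ug (g i)).2.1, -(ug (g i)).2.2, ?_, ?_, ?_, ?_⟩
            · rw [abs_neg]; exact (hn i).1 c hc
            · rw [abs_neg]; exact (hn i).2.1
            · rw [abs_neg]; exact (hn i).2.2
            · have h5 : (((-c : ℤ) : K), -(ug (g i)).2.1, -(ug (g i)).2.2) = - ug (g i) := by
                rw [Int.cast_neg, ← hc]; rfl
              rw [h4, h5]; abel
          · exfalso
            have h5 := congrArg Prod.fst h4
            simp only [pos, Prod.fst_add] at h5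
            apply (hy.2 i hI (ofs n y s - ofs n' y' s') (sh n' y')).2
            have h6 : ph (sh n' y') = ph (sh n y) + (ofs n y s : K) - (ug (g i)).1 - (ofs n' y' s' : K) := by
              rw [h5]; ring
            rw [h6]
            push_cast; ring
      obtain ⟨c, d1, d2, hc, hd1, hd2, hpos⟩ := key
      obtain ⟨e1, e2⟩ := close hy.1 hv'.1 h1 h2 hv'.2.1 hv'.2.2 hc hd1 hd2 hpos
      subst e1
      refine ⟨y', s', rfl, hv'.2.1, hv'.2.2, ?_, e2⟩
      have h7 : max 0 (min s' (8^(n' + mm y'))) = max 0 (min s (8^(n' + mm y))) + d1 :=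
        congrArg (fun p : H => p.2.1) hpos
      rw [h7, add_sub_cancel_left]
      exact hd1
  -- measurable count
  have hp := ppos n
  let q : (ℕ → Bool) → ℤ → GG := fun y s => tg (ph (sh n y), s, 8 * 8^n)
  have hqc : ∀ s, Continuous (fun y => q y s) := by
    intro s
    exact tg_cont.comp ((ph_cont n).prodMk continuous_const)
  have hq : ∀ y s, 0 ≤ s → s < 8 * 8^n → tg (pos n y s) = q y s := by
    intro y s h1 h2
    have hP := pP n y
    have a1 : max (-s) 0 = 0 := by omega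
    have a2 : max (s - 8^(n + mm y) - 4 * 8^n) 0 = 0 := by omega
    have a3 : max 0 (min s (8^(n + mm y))) = s := by omega
    have a4 : max 0 (min (s - 8^(n + mm y)) (4 * 8^n)) = 0 := by omega
    simp only [pos, q, ofs, a1, a2, a3, a4, mul_zero, add_zero, Int.cast_zero]
  let r : (ℕ → Bool) → ℤ → ℤ → Prop := fun y s s' => ∃ i, (q y s ∈ P i ∧ q y s' = g i * q y s) ∨
    (q y s' ∈ P i ∧ q y s = g i * q y s')
  have hrm : ∀ s s', MeasurableSet {y | r y s s'} := by
    intro s s'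
    have : {y | r y s s'} = ⋃ i, (((fun y => q y s) ⁻¹' P i ∩ {y | q y s' = g i * q y s}) ∪
        ((fun y => q y s') ⁻¹' P i ∩ {y | q y s = g i * q y s'})) := by
      ext y; simp [r]
    rw [this]
    refine MeasurableSet.iUnion fun i => ?_
    have h1 : ∀ t t', MeasurableSet {y | q y t' = g i * q y t} := fun t t' =>
      (isClosed_eq (hqc t') (continuous_const.mul (hqc t))).measurableSet
    exact (((hqc s).measurable (hPm i)).inter (h1 _ _)).union (((hqc s').measurable (hPm i)).inter (h1 _ _))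
  let c : (ℕ → Bool) → ℤ := fun y => ∑ s ∈ Finset.Ico (0:ℤ) (4*8^n), ∑ s' ∈ Finset.Ico (4*8^n : ℤ) (8*8^n),
    if r y s s' then 1 else 0
  have hcm : Measurable c := by
    apply Finset.measurable_sum
    intro s _
    apply Finset.measurable_sum
    intro s' _
    exact Measurable.ite (hrm s s') measurable_const measurable_const
  have hiff : ∀ y s s', Gen y → 0 ≤ s → s < 8 * 8^n → 0 ≤ s' → s' < 8 * 8^n →
      (r y s s' ↔ μ (n, y, s) = (n, y, s')) := by
    intro y s s' hy h1 h2 h3 h4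
    have hlh := lo_hi n y
    have hP := pP n y
    have hhi : 8 * 8^n ≤ hi n y := by
      simp only [hi]
      rcases eps_bi (y (mm y)) with ⟨q1, q2⟩ | ⟨q1, q2⟩ <;> rw [q2] <;> omega
    have hv : Valid n y s := ⟨hy.1, by omega, by omega⟩
    have hv' : Valid n y s' := ⟨hy.1, by omega, by omega⟩
    have hS : S ⟨(n,y,s), hv⟩ ⟨(n,y,s'), hv'⟩ ↔ r y s s' := by
      simp only [S, r, vp, hq y s h1 h2, hq y s' h3 h4]
    rw [← hS, hμ (n,y,s) hv]
    constructor
    · intro h5
      have h6 := hSuniq _ _ _ (hm ⟨(n,y,s), hv⟩) h5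
      exact congrArg Subtype.val h6
    · intro h5
      have h6 := hm ⟨(n,y,s), hv⟩
      have h7 : m ⟨(n,y,s), hv⟩ = ⟨(n,y,s'), hv'⟩ := Subtype.ext h5
      rwa [h7] at h6
  have hcz : ∀ y, Gen y → ((c y : ℤ) : ZMod 2) = cz n μ y := by
    intro y hy
    simp only [c, cz]
    push_cast
    apply Finset.sum_congr rfl
    intro s hs
    apply Finset.sum_congr rfl
    intro s' hs'
    rw [Finset.mem_Ico] at hs hs'
    have := hiff y s s' hy hs.1 (by omega) (by omega) hs'.2
    by_cases h : r y s s'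
    · rw [if_pos h, if_pos (this.mp h)]
    · rw [if_neg h, if_neg (fun h2 => h (this.mpr h2))]
  apply baire_contra c hcm
  filter_upwards [hGenRes] with y hy j
  have h1 := flips hM j y hy
  rw [← hcz y hy, ← hcz _ (hGenfl y j hy)] at h1
  have h2 : ((c (fl j y) + c y : ℤ) : ZMod 2) = ((1 : ℤ) : ZMod 2) := by
    push_cast
    rw [h1]
    have : ∀ a : ZMod 2, a + 1 + a = 1 := by decide
    exact this _
  rw [ZMod.intCast_eq_intCast_iff_dvd_sub] at h2
  push_cast at h2
  omega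

end Pool.Agent.H382C
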