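import Mathlib

set_option autoImplicit false

open Set Topology Filter

namespace Pool.Agent.H382Nodec

/-! ### Definitions -/

/-- An ultrafilter on `ℕ` is rapid if it is nonprincipal and for every `f : ℕ → ℕ` it has a member
`A` with at most `n` elements below `f n`, for every `n`. -/
def Rapid (U : Ultrafilter ℕ) : Prop :=
  (∀ n : ℕ, {n} ∉ U) ∧ ∀ f : ℕ → ℕ, ∃ A ∈ U, ∀ n : ℕ, (A ∩ Iio (f n)).ncard ≤ n

/-- There is no rapid ultrafilter on `ℕ` (consistent with ZFC: Miller 1980, it holds in Laver's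
model of the Borel Conjecture). -/
def NoRapid : Prop := ∀ U : Ultrafilter ℕ, ¬ Rapid U

/-! ### Ramsey's theorem for pairs, for lists -/

theorem ramsey {α : Type*} (r : α → α → Prop) : ∀ m m' : ℕ, ∃ N : ℕ, ∀ l : List α, N ≤ l.length →
    (∃ l' : List α, l'.Sublist l ∧ l'.length = m ∧ l'.Pairwise r) ∨
    (∃ l' : List α, l'.Sublist l ∧ l'.length = m' ∧ l'.Pairwise (fun a b => ¬ r a b)) := by
  classical
  intro m
  induction m with
  | zero => intro m'; exact ⟨0, fun l _ => Or.inl ⟨[], List.nil_sublist l, rfl, List.Pairwise.nil⟩⟩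
  | succ m ihm =>
    intro m'
    induction m' with
    | zero => exact ⟨0, fun l _ => Or.inr ⟨[], List.nil_sublist l, rfl, List.Pairwise.nil⟩⟩
    | succ m' ihm' =>
      obtain ⟨N1, h1⟩ := ihm (m' + 1)
      obtain ⟨N2, h2⟩ := ihm'
      refine ⟨N1 + N2 + 1, fun l hl => ?_⟩
      match l, hl with
      | [], hl => simp at hl
      | x :: t, hl =>
        have hl' : N1 + N2 ≤ t.length := by simpa using hl
        set t1 := t.filter (fun y => decide (r x y)) with ht1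
        set t2 := t.filter (fun y => !decide (r x y)) with ht2
        have hlen : t.length = t1.length + t2.length := by
          rw [ht1, ht2]
          have := List.length_eq_length_filter_add (l := t) (fun y => decide (r x y))
          simpa using this
        have hs1 : t1.Sublist (x :: t) := (List.filter_sublist).trans (List.sublist_cons_self x t)
        have hs2 : t2.Sublist (x :: t) := (List.filter_sublist).trans (List.sublist_cons_self x t)
        by_cases hc : N1 ≤ t1.length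
        · rcases h1 t1 hc with ⟨l', hl'1, hl'2, hl'3⟩ | ⟨l', hl'1, hl'2, hl'3⟩
          · left
            refine ⟨x :: l', ?_, by simp [hl'2], ?_⟩
            · exact (hl'1.trans (List.filter_sublist)).cons_cons x
            · refine List.Pairwise.cons ?_ hl'3
              intro y hy
              have := hl'1.subset hy
              rw [ht1, List.mem_filter] at this
              simpa using this.2
          · right
            exact ⟨l', hl'1.trans hs1, hl'2, hl'3⟩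
        · have hc2 : N2 ≤ t2.length := by omega
          rcases h2 t2 hc2 with ⟨l', hl'1, hl'2, hl'3⟩ | ⟨l', hl'1, hl'2, hl'3⟩
          · left
            exact ⟨l', hl'1.trans hs2, hl'2, hl'3⟩
          · right
            refine ⟨x :: l', ?_, by simp [hl'2], ?_⟩
            · exact (hl'1.trans (List.filter_sublist)).cons_cons x
            · refine List.Pairwise.cons ?_ hl'3
              intro y hy
              have := hl'1.subset hy
              rw [ht2, List.mem_filter] at this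
              simpa using this.2

/-! ### Vast sets -/

section vast

variable {G : Type*} [Group G]

/-- every long list of different elements contains `a` before `b` with `a⁻¹ * b ∈ V` -/
def Vast (V : Set G) : Prop :=
  ∃ m : ℕ, ∀ l : List G, l.Nodup → m ≤ l.length → ¬ l.Pairwise (fun a b => a⁻¹ * b ∉ V)

theorem Vast.inter {V V' : Set G} (h : Vast V) (h' : Vast V') : Vast (V ∩ V') := by
  obtain ⟨m, hm⟩ := h
  obtain ⟨m', hm'⟩ := h'
  obtain ⟨N, hN⟩ := ramsey (fun a b : G => a⁻¹ * b ∈ V) m' m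
  refine ⟨N, fun l hl hlen hp => ?_⟩
  rcases hN l hlen with ⟨l', h1, h2, h3⟩ | ⟨l', h1, h2, h3⟩
  · apply hm' l' (hl.sublist h1) h2.ge
    refine (List.Pairwise.and h3 (hp.sublist h1)).imp ?_
    rintro a b ⟨ha, hb⟩ hc
    exact hb ⟨ha, hc⟩
  · exact hm l' (hl.sublist h1) h2.ge h3

theorem vast_univ : Vast (univ : Set G) := by
  refine ⟨2, fun l _ hlen hp => ?_⟩
  match l, hlen, hp with
  | [], hlen, _ => simp at hlen
  | [a], hlen, _ => simp at hlen
  | a :: b :: t, _, hp =>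
    have := List.rel_of_pairwise_cons hp (List.mem_cons_self)
    simp at this

theorem vast_compl {S : Set G} (hS : ∀ u ∈ S, ∀ v ∈ S, u * v ∉ S) : Vast (Sᶜ) := by
  refine ⟨3, fun l _ hlen hp => ?_⟩
  match l, hlen, hp with
  | [], hlen, _ => simp at hlen
  | [a], hlen, _ => simp at hlen
  | [a, b], hlen, _ => simp at hlen
  | a :: b :: c :: t, _, hp =>
    simp only [mem_compl_iff, not_not, List.pairwise_cons, List.mem_cons, forall_eq_or_imp] at hp
    obtain ⟨⟨hab, hac, _⟩, ⟨hbc, _⟩, _⟩ := hp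
    have := hS _ hab _ hbc
    apply this
    have e : a⁻¹ * b * (b⁻¹ * c) = a⁻¹ * c := by group
    rw [e]
    exact hac

theorem vast_subgroup (L : Subgroup G) [L.FiniteIndex] : Vast (L : Set G) := by
  classical
  have : Finite (G ⧸ L) := Subgroup.finite_quotient_of_finiteIndex
  have : Fintype (G ⧸ L) := Fintype.ofFinite _
  refine ⟨Fintype.card (G ⧸ L) + 1, fun l _ hlen hp => ?_⟩
  have hn : (l.map (fun a => (QuotientGroup.mk a : G ⧸ L))).Nodup := by
    rw [List.Nodup, List.pairwise_map]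
    refine hp.imp ?_
    intro a b hab heq
    exact hab (QuotientGroup.eq.1 heq)
  have := hn.length_le_card
  rw [List.length_map] at this
  omega

end vast

/-! ### The consequence of the absence of rapid ultrafilters -/

theorem block (hNR : NoRapid) (F : Filter ℕ) [NeBot F] (hF : ∀ n : ℕ, {k | n ≤ k} ∈ F)
    (h : ℕ → ℕ) : ∃ s : ℕ → ℕ, StrictMono s ∧
      ∀ A ∈ F, ∃ n, h (s n) < (A ∩ Ico (s n) (s (n + 1))).ncard := by
  classical
  have hU := hNR (Ultrafilter.of F)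
  have hle : ((Ultrafilter.of F : Ultrafilter ℕ) : Filter ℕ) ≤ F := Ultrafilter.of_le F
  have hnp : ∀ n : ℕ, {n} ∉ (Ultrafilter.of F) := by
    intro n hn
    have h1 : {k | n + 1 ≤ k} ∈ (Ultrafilter.of F) := hle (hF (n + 1))
    have h2 := Filter.inter_mem hn h1
    have : ({n} : Set ℕ) ∩ {k | n + 1 ≤ k} = ∅ := by
      ext k
      simp only [mem_inter_iff, mem_singleton_iff, mem_setOf_eq, mem_empty_iff_false, iff_false]
      omega
    rw [this] at h2
    exact (Ultrafilter.of F).neBot.ne (Filter.empty_mem_iff_bot.1 h2)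
  have hf : ∃ f : ℕ → ℕ, ∀ A ∈ (Ultrafilter.of F), ∃ n : ℕ, n < (A ∩ Iio (f n)).ncard := by
    by_contra hcon
    push Not at hcon
    exact hU ⟨hnp, hcon⟩
  obtain ⟨f, hf⟩ := hf
  -- monotone version
  let g : ℕ → ℕ := fun n => ∑ i ∈ Finset.range (n + 1), f i
  have hgmono : Monotone g := by
    intro a b hab
    exact Finset.sum_le_sum_of_subset (Finset.range_mono (by omega))
  have hfg : ∀ n, f n ≤ g n := by
    intro n
    exact Finset.single_le_sum (f := f) (fun i _ => Nat.zero_le _) (Finset.mem_range.2 (by omega))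
  have hfin : ∀ (A : Set ℕ) (b : ℕ), (A ∩ Iio b).Finite := fun A b =>
    (finite_Iio b).subset inter_subset_right
  have hg : ∀ A ∈ (Ultrafilter.of F), ∃ n : ℕ, n < (A ∩ Iio (g n)).ncard := by
    intro A hA
    obtain ⟨n, hn⟩ := hf A hA
    refine ⟨n, hn.trans_le (ncard_le_ncard ?_ (hfin _ _))⟩
    intro k hk
    exact ⟨hk.1, lt_of_lt_of_le hk.2 (hfg n)⟩
  -- the sequence
  let step : ℕ → ℕ := fun w => max (g (h w + w)) (h w + w) + 1
  let w : ℕ → ℕ := fun n => step^[n] 0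
  have hw1 : ∀ i, g (h (w i) + w i) < w (i + 1) := by
    intro i
    have : w (i + 1) = step (w i) := Function.iterate_succ_apply' step i 0
    rw [this]
    exact Nat.lt_succ_of_le (le_max_left _ _)
  have hw2 : ∀ i, h (w i) + w i < w (i + 1) := by
    intro i
    have : w (i + 1) = step (w i) := Function.iterate_succ_apply' step i 0
    rw [this]
    exact Nat.lt_succ_of_le (le_max_right _ _)
  have hwm : StrictMono w := strictMono_nat_of_lt_succ fun i => by
    have := hw2 i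
    omega
  by_contra hcon
  push Not at hcon
  obtain ⟨A1, hA1, hA1'⟩ := hcon (fun n => w (2 * n)) (fun a b hab => hwm (by omega))
  obtain ⟨A2, hA2, hA2'⟩ := hcon (fun n => w (2 * n + 1)) (fun a b hab => hwm (by omega))
  have hA : ∀ i, ((A1 ∩ A2) ∩ Ico (w i) (w (i + 2))).ncard ≤ h (w i) := by
    intro i
    rcases Nat.even_or_odd' i with ⟨k, rfl | rfl⟩
    · refine le_trans (ncard_le_ncard ?_ ((finite_Ico _ _).subset inter_subset_right)) (hA1' k)
      rintro x ⟨hx, hx'⟩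
      exact ⟨hx.1, by simpa [mul_add] using hx'⟩
    · refine le_trans (ncard_le_ncard ?_ ((finite_Ico _ _).subset inter_subset_right)) (hA2' k)
      rintro x ⟨hx, hx'⟩
      refine ⟨hx.2, ?_⟩
      have e : 2 * (k + 1) + 1 = 2 * k + 1 + 2 := by ring
      simp only [e]
      exact hx'
  have hA'' : ∀ i, ((A1 ∩ A2) ∩ Iio (w (i + 2))).ncard ≤ h (w i) + w i := by
    intro i
    have hsub : (A1 ∩ A2) ∩ Iio (w (i + 2)) ⊆ ((A1 ∩ A2) ∩ Ico (w i) (w (i + 2))) ∪ Iio (w i) := by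
      rintro x ⟨hx, hx'⟩
      by_cases hc : x < w i
      · exact Or.inr hc
      · exact Or.inl ⟨hx, not_lt.1 hc, hx'⟩
    refine (ncard_le_ncard hsub (((finite_Ico _ _).subset inter_subset_right).union
      (finite_Iio _))).trans ((ncard_union_le _ _).trans ?_)
    have : (Iio (w i)).ncard = w i := by
      rw [ncard_eq_toFinset_card']
      simp
    rw [this]
    exact Nat.add_le_add_right (hA i) _
  set A' : Set ℕ := (A1 ∩ A2) ∩ {k | g (h (w 0) + w 0) ≤ k} with hA'def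
  have hA'mem : A' ∈ (Ultrafilter.of F) :=
    hle (Filter.inter_mem (Filter.inter_mem hA1 hA2) (hF _))
  obtain ⟨n, hn⟩ := hg A' hA'mem
  by_cases hc : n ≤ h (w 0) + w 0
  · have : A' ∩ Iio (g n) = ∅ := by
      ext k
      simp only [hA'def, mem_inter_iff, mem_setOf_eq, mem_Iio, mem_empty_iff_false, iff_false]
      rintro ⟨⟨_, hk⟩, hk'⟩
      have := hgmono hc
      omega
    rw [this, ncard_empty] at hn
    omega
  · have hex : ∃ j, n < h (w j) + w j := by
      refine ⟨n + 1, ?_⟩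
      have : n + 1 ≤ w (n + 1) := hwm.id_le (n + 1)
      omega
    have hj := Nat.find_spec hex
    set j := Nat.find hex with hjdef
    have hj0 : j ≠ 0 := by
      intro h0
      rw [h0] at hj
      omega
    obtain ⟨i, hi⟩ := Nat.exists_eq_succ_of_ne_zero hj0
    have hi' : ¬ n < h (w i) + w i := Nat.find_min hex (by omega)
    have hgn : g n < w (i + 2) := by
      have h1 : g n ≤ g (h (w (i + 1)) + w (i + 1)) := hgmono (by rw [hi] at hj; exact hj.le)
      exact h1.trans_lt (hw1 (i + 1))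
    have h3 : (A' ∩ Iio (g n)).ncard ≤ h (w i) + w i := by
      refine le_trans (ncard_le_ncard ?_ (hfin _ _)) (hA'' i)
      rintro x ⟨hx, hx'⟩
      exact ⟨hx.1, lt_trans hx' hgn⟩
    omega

/-! ### Crowded nowhere dense sets from a tree of translates -/

/-- there is a nonempty nowhere dense set without isolated points -/
def Good (G : Type*) [TopologicalSpace G] : Prop :=
  ∃ A : Set G, A.Nonempty ∧ IsNowhereDense A ∧ ∀ a ∈ A, ¬ ∃ U : Set G, IsOpen U ∧ U ∩ A = {a}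

section tree

variable {G : Type*} [Group G] [TopologicalSpace G]

/-- `Q` is closed and discrete away from `1` (and `1 ∉ Q`) -/
def CD (Q : Set G) : Prop := (1 : G) ∉ Q ∧ ∀ g : G, g ≠ 1 → ∃ R ∈ 𝓝 g, (Q ∩ R).Finite

/-- `Q` accumulates at `1` -/
def Acc (Q : Set G) : Prop := ∀ U ∈ 𝓝 (1 : G), (Q ∩ U).Nonempty

theorem CD.mono {Q Q' : Set G} (h : CD Q) (hs : Q' ⊆ Q) : CD Q' :=
  ⟨fun h1 => h.1 (hs h1), fun g hg => by
    obtain ⟨R, hR, hf⟩ := h.2 g hg
    exact ⟨R, hR, hf.subset (inter_subset_inter_left _ hs)⟩⟩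

/-- words in `D`, read from the left -/
inductive Loc (D : Set G) (O : G → Set G) : Set G → G → Prop
  | one (N : Set G) : Loc D O N 1
  | cons (N : Set G) (d y : G) (hd : d ∈ D) (hN : d ∈ N)
      (h : Loc D O {v | d * v ∈ N ∧ d * v ∈ O d} y) : Loc D O N (d * y)

omit [TopologicalSpace G] in
theorem Loc.mem {D : Set G} {O : G → Set G} (hO : ∀ d ∈ D, d ∈ O d) {N : Set G} {y : G}
    (h : Loc D O N y) : 1 ∈ N → y ∈ N := by
  induction h with
  | one N => exact id
  | cons N d y hd hN h ih =>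
    intro _
    exact (ih (by simpa using ⟨hN, hO d hd⟩)).1

omit [TopologicalSpace G] in
theorem Loc.cases' {D : Set G} {O : G → Set G} (hO : ∀ d ∈ D, d ∈ O d) {N : Set G} {y : G}
    (h : Loc D O N y) : y = 1 ∨ ∃ d ∈ D, d ∈ N ∧ y ∈ O d ∧ y ∈ N ∧
      Loc D O {v | d * v ∈ N ∧ d * v ∈ O d} (d⁻¹ * y) := by
  cases h with
  | one => exact Or.inl rfl
  | cons _ d y hd hN h =>
    right
    have h1 := h.mem hO (by simpa using ⟨hN, hO d hd⟩)
    refine ⟨d, hd, hN, h1.2, h1.1, ?_⟩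
    rwa [inv_mul_cancel_left]

theorem Loc.localize [ContinuousMul G] {D : Set G} {O : G → Set G} (hO : ∀ d ∈ D, d ∈ O d)
    (hOo : ∀ d ∈ D, IsOpen (O d)) (hO1 : ∀ d ∈ D, (1 : G) ∉ O d)
    (hdis : ∀ d ∈ D, ∀ d' ∈ D, ∀ x, x ∈ O d → x ∈ O d' → d = d')
    {M : Set G} {x : G} (h : Loc D O M x) : IsOpen M → (1 : G) ∈ M →
      ∃ N : Set G, IsOpen N ∧ (1 : G) ∈ N ∧ (∀ v ∈ N, x * v ∈ M) ∧
        (∀ a, Loc D O M a → x⁻¹ * a ∈ N → Loc D O N (x⁻¹ * a)) ∧
        (∀ y, Loc D O N y → Loc D O M (x * y)) := by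
  induction h with
  | one M =>
    intro hM h1
    refine ⟨M, hM, h1, by simp, ?_, by simp⟩
    intro a ha _
    simpa using ha
  | cons M d x hd hdM h ih =>
    intro hM h1
    have hMo : IsOpen {v | d * v ∈ M ∧ d * v ∈ O d} := by
      have : {v | d * v ∈ M ∧ d * v ∈ O d} = (fun v => d * v) ⁻¹' (M ∩ O d) := rfl
      rw [this]
      exact (hM.inter (hOo d hd)).preimage (continuous_const_mul d)
    obtain ⟨N, hN1, hN2, hN3, hN4, hN5⟩ := ih hMo (by simpa using ⟨hdM, hO d hd⟩)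
    refine ⟨N, hN1, hN2, ?_, ?_, ?_⟩
    · intro v hv
      rw [mul_assoc]
      exact (hN3 v hv).1
    · intro a ha hav
      have e1 : d * (x * ((d * x)⁻¹ * a)) = a := by group
      have h2 := hN3 _ hav
      have h3 : a ∈ O d := by
        have := h2.2
        rwa [e1] at this
      rcases ha.cases' hO with rfl | ⟨d', hd', _, haO, _, hL⟩
      · exact absurd h3 (hO1 d hd)
      · have hdd : d = d' := hdis d hd d' hd' a h3 haO
        subst hdd
        have h4 := hN4 _ hL (by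
          have e2 : x⁻¹ * (d⁻¹ * a) = (d * x)⁻¹ * a := by group
          rw [e2]
          exact hav)
        have e2 : x⁻¹ * (d⁻¹ * a) = (d * x)⁻¹ * a := by group
        rwa [e2] at h4
    · intro y hy
      rw [mul_assoc]
      exact Loc.cons M d (x * y) hd hdM (hN5 y hy)

theorem tree [IsTopologicalGroup G] [T2Space G] [Countable G] {D : Set G} (hCD : CD D)
    (hAcc : Acc D) (O : G → Set G) (hO : ∀ d ∈ D, O d ∈ 𝓝 d)
    (hW : ({1} ∪ ⋃ d ∈ D, O d) ∉ 𝓝 (1 : G)) : Good G := by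
  classical
  obtain ⟨idx, hidx⟩ := exists_injective_nat G
  have hlow : ∀ n : ℕ, {y : G | idx y < n}.Finite := fun n =>
    Set.Finite.preimage hidx.injOn (finite_Iio n)
  -- closed neighbourhoods `R y`
  have hR : ∀ y : G, ∃ R : Set G, y ≠ 1 → (R ∈ 𝓝 y ∧ IsClosed R ∧ R ∩ D ⊆ {y} ∧ (1 : G) ∉ R) := by
    intro y
    by_cases hy : y = 1
    · exact ⟨∅, fun h => absurd hy h⟩
    obtain ⟨R0, hR0, hfin⟩ := hCD.2 y hy
    have h1 : ((D ∩ R0) \ {y})ᶜ ∈ 𝓝 y :=
      ((hfin.subset diff_subset).isClosed.isOpen_compl).mem_nhds (by simp)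
    have h2 : ({1}ᶜ : Set G) ∈ 𝓝 y := isOpen_compl_singleton.mem_nhds hy
    obtain ⟨R, hR, hRc, hRs⟩ := exists_mem_nhds_isClosed_subset
      (inter_mem (inter_mem hR0 h1) h2)
    refine ⟨R, fun _ => ⟨hR, hRc, ?_, ?_⟩⟩
    · rintro z ⟨hz, hzD⟩
      by_contra hne
      exact (hRs hz).1.2 ⟨⟨hzD, (hRs hz).1.1⟩, hne⟩
    · intro h
      exact (hRs h).2 rfl
  choose R hR using hR
  have hD1 : ∀ d ∈ D, d ≠ 1 := fun d hd h => hCD.1 (h ▸ hd)
  have hC : ∀ d : G, ∃ C : Set G, d ∈ D → (C ∈ 𝓝 d ∧ IsClosed C ∧ C ⊆ O d) := by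
    intro d
    by_cases hd : d ∈ D
    · obtain ⟨C, h1, h2, h3⟩ := exists_mem_nhds_isClosed_subset (hO d hd)
      exact ⟨C, fun _ => ⟨h1, h2, h3⟩⟩
    · exact ⟨∅, fun h => absurd h hd⟩
  choose C hC using hC
  let O' : G → Set G := fun d => interior (R d ∩ C d) \ ⋃ y ∈ {y : G | idx y < idx d ∧ y ≠ 1}, R y
  have hfin' : ∀ d, {y : G | idx y < idx d ∧ y ≠ 1}.Finite := fun d =>
    (hlow (idx d)).subset fun y hy => hy.1
  have hO'o : ∀ d ∈ D, IsOpen (O' d) := by
    intro d _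
    refine isOpen_interior.sdiff ?_
    exact (hfin' d).isClosed_biUnion fun y hy => (hR y hy.2).2.1
  have hO'mem : ∀ d ∈ D, d ∈ O' d := by
    intro d hd
    refine ⟨?_, ?_⟩
    · rw [mem_interior_iff_mem_nhds]
      exact inter_mem (hR d (hD1 d hd)).1 (hC d hd).1
    · intro h
      simp only [mem_iUnion] at h
      obtain ⟨y, hy, hdy⟩ := h
      have := (hR y hy.2).2.2.1 ⟨hdy, hd⟩
      rw [mem_singleton_iff] at this
      rw [this] at hy
      exact lt_irrefl _ hy.1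
  have hO'R : ∀ d, O' d ⊆ R d := fun d x hx => (interior_subset hx.1).1
  have hO'C : ∀ d, O' d ⊆ C d := fun d x hx => (interior_subset hx.1).2
  have hO'1 : ∀ d ∈ D, (1 : G) ∉ O' d := fun d hd h => (hR d (hD1 d hd)).2.2.2 (hO'R d h)
  have hdisR : ∀ d y, idx y < idx d → y ≠ 1 → ∀ x, x ∈ O' d → x ∉ R y := by
    intro d y hlt hy x hx hxR
    apply hx.2
    simp only [mem_iUnion]
    exact ⟨y, ⟨hlt, hy⟩, hxR⟩
  have hdis : ∀ d ∈ D, ∀ d' ∈ D, ∀ x, x ∈ O' d → x ∈ O' d' → d = d' := by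
    intro d hd d' hd' x hx hx'
    rcases lt_trichotomy (idx d) (idx d') with h | h | h
    · exact absurd (hO'R d hx) (hdisR d' d h (hD1 d hd) x hx')
    · exact hidx h
    · exact absurd (hO'R d' hx') (hdisR d d' h (hD1 d' hd') x hx)
  -- points outside `W` have neighbourhoods missing all `O' d`
  have hout : ∀ y : G, y ≠ 1 → (∀ d ∈ D, y ∉ O d) → ∃ N ∈ 𝓝 y, ∀ d ∈ D, ∀ x ∈ N, x ∉ O' d := by
    intro y hy hyO
    refine ⟨R y ∩ (⋃ d ∈ {d : G | idx d < idx y + 1 ∧ d ∈ D}, C d)ᶜ, inter_mem (hR y hy).1 ?_, ?_⟩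
    · refine IsOpen.mem_nhds ?_ ?_
      · refine (Set.Finite.isClosed_biUnion ?_ ?_).isOpen_compl
        · exact (hlow (idx y + 1)).subset fun d hd => hd.1
        · intro d hd
          exact (hC d hd.2).2.1
      · intro h
        simp only [mem_iUnion] at h
        obtain ⟨d, hd, hyC⟩ := h
        exact hyO d hd.2 ((hC d hd.2).2.2 hyC)
    · rintro d hd x ⟨hxR, hxC⟩ hxO
      by_cases hlt : idx y < idx d
      · exact hdisR d y hlt hy x hxO hxR
      · apply hxC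
        simp only [mem_iUnion]
        exact ⟨d, ⟨by omega, hd⟩, hO'C d hxO⟩
  -- the set
  refine ⟨{x | Loc D O' univ x}, ⟨1, Loc.one _⟩, ?_, ?_⟩
  · rw [IsNowhereDense]
    by_contra hne
    rw [← ne_eq, ← nonempty_iff_ne_empty] at hne
    obtain ⟨z, hz⟩ := hne
    have hzc : z ∈ closure {x | Loc D O' univ x} := interior_subset hz
    rw [mem_closure_iff] at hzc
    obtain ⟨x, hxI, hx⟩ := hzc _ isOpen_interior hz
    obtain ⟨N, hNo, hN1, hN3, hN4, hN5⟩ := Loc.localize hO'mem hO'o hO'1 hdis hx isOpen_univ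
      (mem_univ _)
    have hV : {v | x * v ∈ interior (closure {x | Loc D O' univ x})} ∩ N ∈ 𝓝 (1 : G) := by
      refine inter_mem ?_ (hNo.mem_nhds hN1)
      refine (isOpen_interior.preimage (continuous_const_mul x)).mem_nhds ?_
      simpa using hxI
    have : ∃ y ∈ {v | x * v ∈ interior (closure {x | Loc D O' univ x})} ∩ N,
        y ∉ ({1} ∪ ⋃ d ∈ D, O d) := by
      by_contra hcon
      push Not at hcon
      exact hW (mem_of_superset hV hcon)
    obtain ⟨y, ⟨hyI, hyN⟩, hyW⟩ := this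
    have hy1 : y ≠ 1 := fun h => hyW (Or.inl h)
    have hyO : ∀ d ∈ D, y ∉ O d := fun d hd h => hyW (Or.inr (mem_iUnion₂.2 ⟨d, hd, h⟩))
    obtain ⟨K, hK, hKO⟩ := hout y hy1 hyO
    have hyc : x * y ∈ closure {x | Loc D O' univ x} := interior_subset hyI
    have hnb : {w | x⁻¹ * w ∈ K ∩ (N ∩ {1}ᶜ)} ∈ 𝓝 (x * y) := by
      refine (continuous_const_mul x⁻¹).continuousAt.preimage_mem_nhds ?_
      simp only [inv_mul_cancel_left]
      exact inter_mem hK (inter_mem (hNo.mem_nhds hyN) (isOpen_compl_singleton.mem_nhds hy1))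
    obtain ⟨a, haK, haL⟩ := mem_closure_iff_nhds.1 hyc _ hnb
    have haK' : x⁻¹ * a ∈ K ∩ (N ∩ {1}ᶜ) := haK
    have := hN4 a haL haK'.2.1
    rcases this.cases' hO'mem with h | ⟨d, hd, _, h, _, _⟩
    · exact haK'.2.2 h
    · exact hKO d hd _ haK'.1 h
  · rintro x hx ⟨U, hUo, hU⟩
    obtain ⟨N, hNo, hN1, hN3, hN4, hN5⟩ := Loc.localize hO'mem hO'o hO'1 hdis hx isOpen_univ
      (mem_univ _)
    have hxU : x ∈ U := by
      have : x ∈ U ∩ {x | Loc D O' univ x} := by rw [hU]; rfl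
      exact this.1
    have hV : {v | x * v ∈ U} ∩ N ∈ 𝓝 (1 : G) := by
      refine inter_mem ?_ (hNo.mem_nhds hN1)
      refine (hUo.preimage (continuous_const_mul x)).mem_nhds ?_
      simpa using hxU
    obtain ⟨d, hd, hdU, hdN⟩ := hAcc _ hV
    have h1 : Loc D O' N d := by
      have := Loc.cons (D := D) (O := O') N d 1 hd hdN (Loc.one _)
      rwa [mul_one] at this
    have h2 : x * d ∈ U ∩ {x | Loc D O' univ x} := ⟨hdU, hN5 d h1⟩
    rw [hU, mem_singleton_iff] at h2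
    have : d = 1 := by simpa using h2
    exact hCD.1 (this ▸ hd)

/-- two disjoint closed discrete sets accumulating at `1` give a good set -/
theorem good_of_disjoint [IsTopologicalGroup G] [T2Space G] [Countable G] {D D' : Set G}
    (hCD : CD D) (hAcc : Acc D) (hCD' : CD D') (hAcc' : Acc D') (hdisj : ∀ x ∈ D, x ∉ D') :
    Good G := by
  refine tree hCD hAcc (fun _ => D'ᶜ) ?_ ?_
  · intro d hd
    have hd1 : d ≠ 1 := fun h => hCD.1 (h ▸ hd)
    obtain ⟨R, hR, hfin⟩ := hCD'.2 d hd1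
    have h1 : (D' ∩ R)ᶜ ∈ 𝓝 d := hfin.isClosed.isOpen_compl.mem_nhds fun h => hdisj d hd h.1
    filter_upwards [h1, hR] with x hx hxR hxD
    exact hx ⟨hxD, hxR⟩
  · intro hW
    obtain ⟨x, hx, hxW⟩ := hAcc' _ hW
    rcases hxW with h | h
    · exact hCD'.1 (h ▸ hx)
    · simp only [mem_iUnion] at h
      obtain ⟨_, _, h⟩ := h
      exact h hx

end tree

/-! ### The core argument -/

section core

variable {G : Type*} [Group G] [TopologicalSpace G]

theorem exists_small [IsTopologicalGroup G] [T2Space G] (g : G) (hg : g ≠ 1) :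
    ∃ S ∈ 𝓝 g, Sᶜ ∈ 𝓝 (1 : G) ∧ ∀ u ∈ S, ∀ v ∈ S, u * v ∉ S := by
  have h1 : g * g ≠ g := by simpa using hg
  obtain ⟨A, B, hA, hB, hgA, hgB, hAB⟩ := t2_separation h1.symm
  obtain ⟨A', B', hA', hB', hgA', hgB', hAB'⟩ := t2_separation hg
  have h2 : {p : G × G | p.1 * p.2 ∈ B} ∈ 𝓝 (g, g) :=
    (hB.preimage (continuous_fst.mul continuous_snd)).mem_nhds hgB
  rw [nhds_prod_eq, Filter.mem_prod_same_iff] at h2
  obtain ⟨S1, hS1, hS1'⟩ := h2
  refine ⟨A ∩ S1 ∩ A', inter_mem (inter_mem (hA.mem_nhds hgA) hS1) (hA'.mem_nhds hgA'), ?_, ?_⟩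
  · refine mem_of_superset (hB'.mem_nhds hgB') ?_
    intro x hx hx'
    exact (disjoint_left.1 hAB') hx'.2 hx
  · intro u hu v hv huv
    have h3 : u * v ∈ B := hS1' (show (u, v) ∈ S1 ×ˢ S1 from ⟨hu.1.2, hv.1.2⟩)
    exact (disjoint_left.1 hAB) huv.1.1 h3

theorem exists_W [IsTopologicalGroup G] [T2Space G] [Countable G] :
    ∃ W : ℕ → Set G, (∀ k, Vast (W k)) ∧
      ∀ g : G, g ≠ 1 → ∃ i : ℕ, ∃ R ∈ 𝓝 g, ∀ k, i ≤ k → ∀ x ∈ W k, x ∉ R := by
  classical
  obtain ⟨e, he⟩ := exists_surjective_nat G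
  have hS : ∀ g : G, ∃ S : Set G, g ≠ 1 → (S ∈ 𝓝 g ∧ ∀ u ∈ S, ∀ v ∈ S, u * v ∉ S) := by
    intro g
    by_cases hg : g = 1
    · exact ⟨∅, fun h => absurd hg h⟩
    · obtain ⟨S, h1, _, h2⟩ := exists_small g hg
      exact ⟨S, fun _ => ⟨h1, h2⟩⟩
  choose S hS using hS
  let X : ℕ → Set G := fun i => if e i = 1 then univ else (S (e i))ᶜ
  let W : ℕ → Set G := fun k => Nat.rec univ (fun k Wk => Wk ∩ X k) k
  have hWs : ∀ k, W (k + 1) = W k ∩ X k := fun k => rfl
  have hX : ∀ k, Vast (X k) := by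
    intro k
    by_cases h : e k = 1
    · simp only [X, if_pos h]
      exact vast_univ
    · simp only [X, if_neg h]
      exact vast_compl (hS _ h).2
  refine ⟨W, ?_, ?_⟩
  · intro k
    induction k with
    | zero => exact vast_univ
    | succ k ih =>
      rw [hWs]
      exact ih.inter (hX k)
  · intro g hg
    obtain ⟨i, rfl⟩ := he g
    refine ⟨i + 1, S (e i), (hS _ hg).1, ?_⟩
    intro k hk x hx hxS
    have hanti : Antitone W := antitone_nat_of_succ_le fun k => by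
      rw [hWs]
      exact inter_subset_left
    have h1 := hanti hk hx
    rw [hWs] at h1
    have h2 := h1.2
    simp only [X, if_neg hg] at h2
    exact h2 hxS

theorem cd_of_blocks {W : ℕ → Set G}
    (hW : ∀ g : G, g ≠ 1 → ∃ i : ℕ, ∃ R ∈ 𝓝 g, ∀ k, i ≤ k → ∀ x ∈ W k, x ∉ R)
    (Q : ℕ → Set G) (c : ℕ → ℕ) (hc : ∀ n, n ≤ c n) (hfin : ∀ n, (Q n).Finite)
    (h1 : ∀ n, (1 : G) ∉ Q n) (hQ : ∀ n, Q n ⊆ W (c n)) : CD (⋃ n, Q n) := by
  refine ⟨fun h => ?_, fun g hg => ?_⟩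
  · obtain ⟨n, hn⟩ := mem_iUnion.1 h
    exact h1 n hn
  · obtain ⟨i, R, hR, hi⟩ := hW g hg
    refine ⟨R, hR, ((finite_Iio i).biUnion fun n _ => hfin n).subset ?_⟩
    rintro x ⟨hx, hxR⟩
    obtain ⟨n, hn⟩ := mem_iUnion.1 hx
    by_cases hni : n < i
    · exact mem_biUnion hni hn
    · exact absurd hxR (hi (c n) (le_trans (not_lt.1 hni) (hc n)) x (hQ n hn))

theorem quot [IsTopologicalGroup G] (hNR : NoRapid) (F0 : Filter G) [NeBot F0]
    (hF0 : F0 ≤ 𝓝 1) (J : G → ℕ) (hJ : ∀ n : ℕ, {x | n ≤ J x} ∈ F0) (V : ℕ → Set G)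
    (hV : ∀ k, Vast (V k)) : ∃ s : ℕ → ℕ, StrictMono s ∧ ∀ A ∈ F0, ∀ U ∈ 𝓝 (1 : G),
      ∃ n, ∃ x ∈ A, ∃ y ∈ A, J x < s (n + 1) ∧ J y < s (n + 1) ∧ J x + 2 ≤ J y ∧
        x⁻¹ * y ∈ V (s n) ∧ x⁻¹ * y ∈ U := by
  classical
  choose m hm using hV
  obtain ⟨s, hs, hsA⟩ := block hNR (Filter.map J F0) (fun n => hJ n) (fun k => 2 * m k)
  refine ⟨s, hs, fun A hA U hU => ?_⟩
  have hUV : ∃ V0 ∈ 𝓝 (1 : G), ∀ v ∈ V0, ∀ w ∈ V0, v⁻¹ * w ∈ U := by
    have h2 : {p : G × G | p.1⁻¹ * p.2 ∈ U} ∈ 𝓝 ((1 : G), (1 : G)) := by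
      have hc : Continuous (fun p : G × G => p.1⁻¹ * p.2) := continuous_fst.inv.mul continuous_snd
      exact hc.continuousAt.preimage_mem_nhds (by simpa using hU)
    rw [nhds_prod_eq, Filter.mem_prod_same_iff] at h2
    obtain ⟨V0, hV0, h3⟩ := h2
    exact ⟨V0, hV0, fun v hv w hw => h3 (show (v, w) ∈ V0 ×ˢ V0 from ⟨hv, hw⟩)⟩
  obtain ⟨V0, hV0, hV0U⟩ := hUV
  have hA' : J '' (A ∩ V0) ∈ Filter.map J F0 := image_mem_map (inter_mem hA (hF0 hV0))
  obtain ⟨n, hn⟩ := hsA _ hA'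
  refine ⟨n, ?_⟩
  set T : Set ℕ := J '' (A ∩ V0) ∩ Ico (s n) (s (n + 1)) with hT
  have hTfin : T.Finite := (finite_Ico _ _).subset inter_subset_right
  have hpar : ∃ ε : ℕ, m (s n) ≤ (T ∩ {t | t % 2 = ε}).ncard := by
    by_contra hcon
    push Not at hcon
    have h0 := hcon 0
    have h1 := hcon 1
    have hsub : T ⊆ (T ∩ {t | t % 2 = 0}) ∪ (T ∩ {t | t % 2 = 1}) := by
      intro t ht
      rcases Nat.mod_two_eq_zero_or_one t with h | h
      · exact Or.inl ⟨ht, h⟩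
      · exact Or.inr ⟨ht, h⟩
    have := (ncard_le_ncard hsub ((hTfin.subset inter_subset_left).union
      (hTfin.subset inter_subset_left))).trans (ncard_union_le _ _)
    omega
  obtain ⟨ε, hε⟩ := hpar
  have hfinε : (T ∩ {t | t % 2 = ε}).Finite := hTfin.subset inter_subset_left
  set Tf : Finset ℕ := hfinε.toFinset with hTf
  have hcard : m (s n) ≤ Tf.card := by
    rw [hTf, ← ncard_eq_toFinset_card _ hfinε]
    exact hε
  have hchoose : ∀ t : ℕ, ∃ y : G, t ∈ T → (y ∈ A ∩ V0 ∧ J y = t) := by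
    intro t
    by_cases ht : t ∈ T
    · obtain ⟨y, hy, hyt⟩ := ht.1
      exact ⟨y, fun _ => ⟨hy, hyt⟩⟩
    · exact ⟨1, fun h => absurd h ht⟩
  choose ys hys using hchoose
  have hmemT : ∀ t ∈ Tf, t ∈ T ∧ t % 2 = ε := by
    intro t ht
    have := hfinε.mem_toFinset.1 ht
    exact this
  by_contra hcon
  have hlt : (Tf.sort (· ≤ ·)).Pairwise (· < ·) := Finset.sortedLT_sort Tf |>.pairwise
  apply hm (s n) ((Tf.sort (· ≤ ·)).map ys)
  · refine List.Nodup.map_on ?_ (Finset.sort_nodup Tf (· ≤ ·))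
    intro a ha b hb hab
    have ha' := hmemT a ((Finset.mem_sort _).1 ha)
    have hb' := hmemT b ((Finset.mem_sort _).1 hb)
    rw [← (hys a ha'.1).2, ← (hys b hb'.1).2, hab]
  · rw [List.length_map, Finset.length_sort]
    exact hcard
  · rw [List.pairwise_map]
    refine hlt.imp_of_mem ?_
    intro a b ha hb hab hmem
    have ha' := hmemT a ((Finset.mem_sort _).1 ha)
    have hb' := hmemT b ((Finset.mem_sort _).1 hb)
    have hya := hys a ha'.1
    have hyb := hys b hb'.1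
    apply hcon
    refine ⟨ys a, hya.1.1, ys b, hyb.1.1, ?_, ?_, ?_, hmem, hV0U _ hya.1.2 _ hyb.1.2⟩
    · rw [hya.2]; exact ha'.1.2.2
    · rw [hyb.2]; exact hb'.1.2.2
    · rw [hya.2, hyb.2]; omega

theorem good_core [IsTopologicalGroup G] [T2Space G] [Countable G] (hNR : NoRapid)
    (hnd : (𝓝[≠] (1 : G)).NeBot) (L : ℕ → Subgroup G) (hLa : Antitone L)
    (hLf : ∀ k, (L k).FiniteIndex) (hLs : ∀ g : G, g ≠ 1 → ∃ k, g ∉ L k) : Good G := by
  classical
  obtain ⟨W, hWv, hWR⟩ := exists_W (G := G)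
  obtain ⟨idx, hidx⟩ := exists_injective_nat G
  have hlow : ∀ n : ℕ, {y : G | idx y < n}.Finite := fun n =>
    Set.Finite.preimage hidx.injOn (finite_Iio n)
  -- first set
  have hVL : ∀ k, Vast (W k ∩ (L k : Set G)) := fun k => by
    have := hLf k
    exact (hWv k).inter (vast_subgroup (L k))
  have hfinnhds : ∀ X : Set G, X.Finite → (1 : G) ∉ X → Xᶜ ∈ 𝓝 (1 : G) := fun X hX h1 =>
    hX.isClosed.isOpen_compl.mem_nhds h1
  obtain ⟨s, hs, hsA⟩ := quot hNR (𝓝[≠] (1 : G)) nhdsWithin_le_nhds idx (by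
    intro n
    rw [mem_nhdsWithin_iff_exists_mem_nhds_inter]
    refine ⟨({y : G | idx y < n} \ {1})ᶜ, hfinnhds _ ((hlow n).subset diff_subset) (by simp), ?_⟩
    rintro x ⟨hx, hx1⟩
    by_contra hlt
    have hlt' : idx x < n := not_le.1 hlt
    exact hx ⟨hlt', hx1⟩) (fun k => W k ∩ (L k : Set G)) hVL
  let Q : ℕ → Set G := fun n => {z | (∃ x y : G, idx x < s (n + 1) ∧ idx y < s (n + 1) ∧
    z = x⁻¹ * y) ∧ z ≠ 1 ∧ z ∈ W (s n) ∩ (L (s n) : Set G)}
  have hQfin : ∀ n, (Q n).Finite := by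
    intro n
    refine (((hlow (s (n + 1))).prod (hlow (s (n + 1)))).image
      (fun p : G × G => p.1⁻¹ * p.2)).subset ?_
    rintro z ⟨⟨x, y, hx, hy, rfl⟩, _⟩
    exact ⟨(x, y), ⟨hx, hy⟩, rfl⟩
  have hQ1 : ∀ n, (1 : G) ∉ Q n := fun n h => h.2.1 rfl
  have hCD : CD (⋃ n, Q n) :=
    cd_of_blocks hWR Q s (fun n => hs.id_le n) hQfin hQ1 (fun n z hz => hz.2.2.1)
  have hAcc : Acc (⋃ n, Q n) := by
    intro U hU
    obtain ⟨n, x, _, y, _, hx, hy, hxy, hV, hzU⟩ := hsA univ univ_mem U hU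
    refine ⟨x⁻¹ * y, mem_iUnion.2 ⟨n, ⟨x, y, hx, hy, rfl⟩, ?_, hV⟩, hzU⟩
    intro h
    have : x = y := by
      have := inv_mul_eq_one.1 h
      exact this
    rw [this] at hxy
    omega
  set D : Set G := ⋃ n, Q n with hD
  have hD1 : ∀ d ∈ D, d ≠ 1 := fun d hd h => hCD.1 (h ▸ hd)
  -- levels
  let τ : G → ℕ := fun g => if h : ∃ k, g ∉ L k then Nat.find h else 0
  have hτ1 : ∀ g : G, g ≠ 1 → g ∉ L (τ g) := by
    intro g hg
    have h := hLs g hg
    simp only [τ, dif_pos h]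
    exact Nat.find_spec h
  have hτ2 : ∀ (g : G) (k : ℕ), k < τ g → g ∈ L k := by
    intro g k hk
    by_cases h : ∃ k, g ∉ L k
    · simp only [τ, dif_pos h] at hk
      by_contra hc
      exact Nat.find_min h hk hc
    · push Not at h
      exact h k
  have hτ3 : ∀ g : G, g ≠ 1 → ∀ k, g ∈ L k → k < τ g := by
    intro g hg k hk
    by_contra hc
    exact hτ1 g hg (hLa (not_lt.1 hc) hk)
  have hDfin : ∀ t : ℕ, {z : G | z ∈ D ∧ τ z ≤ t}.Finite := by
    intro t
    refine ((finite_Iio t).biUnion fun n _ => hQfin n).subset ?_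
    rintro z ⟨hz, hzt⟩
    obtain ⟨n, hn⟩ := mem_iUnion.1 hz
    have h1 : s n < τ z := hτ3 z hn.2.1 (s n) hn.2.2.2
    have h2 : n ≤ s n := hs.id_le n
    exact mem_biUnion (show n ∈ Iio t from by simp only [mem_Iio]; omega) hn
  have hB : ∀ t : ℕ, ∃ B : ℕ, ∀ y ∈ D, ∀ z ∈ D, τ y ≤ t → τ z ≤ t → τ (y * z) < B := by
    intro t
    have hf := ((hDfin t).prod (hDfin t)).image (fun p : G × G => τ (p.1 * p.2))
    obtain ⟨B, hB⟩ := hf.bddAbove
    refine ⟨B + 1, fun y hy z hz hyt hzt => ?_⟩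
    exact Nat.lt_succ_of_le (hB ⟨(y, z), ⟨⟨hy, hyt⟩, ⟨hz, hzt⟩⟩, rfl⟩)
  choose B hB using hB
  let a : ℕ → ℕ := fun n => (fun w => max (B w) w + 1)^[n] 0
  have ha : ∀ j, a (j + 1) = max (B (a j)) (a j) + 1 := fun j =>
    Function.iterate_succ_apply' (fun w => max (B w) w + 1) j 0
  have ham : StrictMono a := strictMono_nat_of_lt_succ fun j => by
    rw [ha j]
    have := le_max_right (B (a j)) (a j)
    omega
  have hex : ∀ t : ℕ, ∃ j, t ≤ a j := fun t => ⟨t, ham.id_le t⟩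
  let j : ℕ → ℕ := fun t => Nat.find (hex t)
  have hj1 : ∀ t, t ≤ a (j t) := fun t => Nat.find_spec (hex t)
  have hj2 : ∀ t i, i < j t → a i < t := fun t i hi => not_le.1 (Nat.find_min (hex t) hi)
  let J : G → ℕ := fun g => j (τ g)
  have hJfin : ∀ n : ℕ, {z : G | z ∈ D ∧ J z < n}.Finite := by
    intro n
    refine (hDfin (a n)).subset ?_
    rintro z ⟨hz, hzn⟩
    exact ⟨hz, (hj1 (τ z)).trans (ham.monotone hzn.le)⟩
  have hne : NeBot (𝓝[D] (1 : G)) := by
    rw [← mem_closure_iff_nhdsWithin_neBot, mem_closure_iff_nhds]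
    intro U hU
    obtain ⟨z, hz, hzU⟩ := hAcc U hU
    exact ⟨z, hzU, hz⟩
  obtain ⟨s', hs', hsA'⟩ := quot hNR (𝓝[D] (1 : G)) nhdsWithin_le_nhds J (by
    intro n
    rw [mem_nhdsWithin_iff_exists_mem_nhds_inter]
    refine ⟨({z : G | z ∈ D ∧ J z < n})ᶜ, hfinnhds _ (hJfin n) (fun h => hCD.1 h.1), ?_⟩
    rintro x ⟨hx, hxD⟩
    by_contra hlt
    have hlt' : J x < n := not_le.1 hlt
    exact hx ⟨hxD, hlt'⟩) W hWv
  let Q' : ℕ → Set G := fun n => {w | ∃ y ∈ D, ∃ y' ∈ D, J y < s' (n + 1) ∧ J y' < s' (n + 1) ∧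
    J y + 2 ≤ J y' ∧ w = y⁻¹ * y' ∧ w ∈ W (s' n)}
  have hQfin' : ∀ n, (Q' n).Finite := by
    intro n
    refine (((hJfin (s' (n + 1))).prod (hJfin (s' (n + 1)))).image
      (fun p : G × G => p.1⁻¹ * p.2)).subset ?_
    rintro w ⟨y, hy, y', hy', h1, h2, _, rfl, _⟩
    exact ⟨(y, y'), ⟨⟨hy, h1⟩, ⟨hy', h2⟩⟩, rfl⟩
  have hQ1' : ∀ n, (1 : G) ∉ Q' n := by
    rintro n ⟨y, hy, y', hy', _, _, h3, h4, _⟩
    have : y = y' := inv_mul_eq_one.1 h4.symm
    rw [this] at h3
    omega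
  have hCD' : CD (⋃ n, Q' n) := by
    refine cd_of_blocks hWR Q' s' (fun n => hs'.id_le n) hQfin' hQ1' ?_
    rintro n w ⟨y, hy, y', hy', _, _, _, _, h⟩
    exact h
  have hAcc' : Acc (⋃ n, Q' n) := by
    intro U hU
    obtain ⟨n, x, hx, y, hy, h1, h2, h3, h4, h5⟩ := hsA' D self_mem_nhdsWithin U hU
    exact ⟨x⁻¹ * y, mem_iUnion.2 ⟨n, x, hx, y, hy, h1, h2, h3, rfl, h4⟩, h5⟩
  refine good_of_disjoint hCD hAcc hCD' hAcc' ?_
  intro w hw hw'
  obtain ⟨n, y, hy, y', hy', _, _, h3, h4, _⟩ := mem_iUnion.1 hw'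
  have hy1 := hD1 y hy
  have hy1' := hD1 y' hy'
  have hw1 := hD1 w hw
  -- comparison of levels
  have h5 : a (j (τ y) + 1) < τ y' := hj2 (τ y') (j (τ y) + 1) (by
    have : J y + 2 ≤ J y' := h3
    simp only [J] at this
    omega)
  have h6 : τ y ≤ a (j (τ y)) := hj1 (τ y)
  have h7 : a (j (τ y)) < a (j (τ y) + 1) := ham (Nat.lt_succ_self _)
  have h8 : y' ∈ L (τ y) := hτ2 y' (τ y) (by omega)
  have h9 : τ w ≤ τ y := by
    by_contra hc
    push Not at hc
    have h10 : w ∈ L (τ y) := hτ2 w (τ y) hc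
    have h11 : y = y' * w⁻¹ := by
      rw [h4]
      group
    apply hτ1 y hy1
    have h12 : y' * w⁻¹ ∈ L (τ y) := (L (τ y)).mul_mem h8 ((L (τ y)).inv_mem h10)
    rwa [← h11] at h12
  have h13 : τ (y * w) < B (a (j (τ y))) := hB (a (j (τ y))) y hy w hw h6 (h9.trans h6)
  have h14 : y * w = y' := by
    rw [h4]
    group
  rw [h14] at h13
  have h15 : B (a (j (τ y))) < a (j (τ y) + 1) := by
    rw [ha]
    have := le_max_left (B (a (j (τ y)))) (a (j (τ y)))
    omega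
  omega

/-- existence of a closed discrete set accumulating at `1` -/
theorem exists_CD [IsTopologicalGroup G] [T2Space G] [Countable G] (hNR : NoRapid)
    (hnd : (𝓝[≠] (1 : G)).NeBot) : ∃ D : Set G, CD D ∧ Acc D := by
  classical
  obtain ⟨W, hWv, hWR⟩ := exists_W (G := G)
  obtain ⟨idx, hidx⟩ := exists_injective_nat G
  have hlow : ∀ n : ℕ, {y : G | idx y < n}.Finite := fun n =>
    Set.Finite.preimage hidx.injOn (finite_Iio n)
  obtain ⟨s, hs, hsA⟩ := quot hNR (𝓝[≠] (1 : G)) nhdsWithin_le_nhds idx (by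
    intro n
    rw [mem_nhdsWithin_iff_exists_mem_nhds_inter]
    refine ⟨({y : G | idx y < n} \ {1})ᶜ,
      ((hlow n).subset diff_subset).isClosed.isOpen_compl.mem_nhds (by simp), ?_⟩
    rintro x ⟨hx, hx1⟩
    by_contra hlt
    have hlt' : idx x < n := not_le.1 hlt
    exact hx ⟨hlt', hx1⟩) W hWv
  let Q : ℕ → Set G := fun n => {z | (∃ x y : G, idx x < s (n + 1) ∧ idx y < s (n + 1) ∧
    z = x⁻¹ * y) ∧ z ≠ 1 ∧ z ∈ W (s n)}
  have hQfin : ∀ n, (Q n).Finite := by
    intro n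
    refine (((hlow (s (n + 1))).prod (hlow (s (n + 1)))).image
      (fun p : G × G => p.1⁻¹ * p.2)).subset ?_
    rintro z ⟨⟨x, y, hx, hy, rfl⟩, _⟩
    exact ⟨(x, y), ⟨hx, hy⟩, rfl⟩
  refine ⟨⋃ n, Q n, cd_of_blocks hWR Q s (fun n => hs.id_le n) hQfin (fun n h => h.2.1 rfl)
    (fun n z hz => hz.2.2), ?_⟩
  intro U hU
  obtain ⟨n, x, _, y, _, hx, hy, hxy, hV, hzU⟩ := hsA univ univ_mem U hU
  refine ⟨x⁻¹ * y, mem_iUnion.2 ⟨n, ⟨x, y, hx, hy, rfl⟩, ?_, hV⟩, hzU⟩
  intro h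
  rw [inv_mul_eq_one.1 h] at hxy
  omega

omit [TopologicalSpace G] in
theorem exists_chain [Countable G]
    (hrf : ∀ g : G, g ≠ 1 → ∃ L : Subgroup G, L.FiniteIndex ∧ g ∉ L) :
    ∃ L : ℕ → Subgroup G, Antitone L ∧ (∀ k, (L k).FiniteIndex) ∧
      ∀ g : G, g ≠ 1 → ∃ k, g ∉ L k := by
  classical
  obtain ⟨e, he⟩ := exists_surjective_nat G
  have hM : ∀ g : G, ∃ M : Subgroup G, M.FiniteIndex ∧ (g ≠ 1 → g ∉ M) := by
    intro g
    by_cases hg : g = 1
    · exact ⟨⊤, inferInstance, fun h => absurd hg h⟩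
    · obtain ⟨M, h1, h2⟩ := hrf g hg
      exact ⟨M, h1, fun _ => h2⟩
  choose M hM1 hM2 using hM
  let L : ℕ → Subgroup G := fun k => Nat.rec ⊤ (fun k Lk => Lk ⊓ M (e k)) k
  have hLs : ∀ k, L (k + 1) = L k ⊓ M (e k) := fun k => rfl
  refine ⟨L, antitone_nat_of_succ_le fun k => by rw [hLs]; exact inf_le_left, ?_, ?_⟩
  · intro k
    induction k with
    | zero => exact (inferInstance : (⊤ : Subgroup G).FiniteIndex)
    | succ k ih =>
      rw [hLs]
      have h1 : (M (e k)).FiniteIndex := hM1 (e k)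
      have h2 : (L k).FiniteIndex := ih
      exact ⟨Subgroup.index_inf_ne_zero h2.index_ne_zero h1.index_ne_zero⟩
  · intro g hg
    obtain ⟨k, rfl⟩ := he g
    refine ⟨k + 1, fun h => ?_⟩
    rw [hLs] at h
    exact hM2 _ hg h.2

theorem good_rf [IsTopologicalGroup G] [T2Space G] [Countable G] (hNR : NoRapid)
    (hnd : (𝓝[≠] (1 : G)).NeBot)
    (hrf : ∀ g : G, g ≠ 1 → ∃ L : Subgroup G, L.FiniteIndex ∧ g ∉ L) : Good G := by
  obtain ⟨L, h1, h2, h3⟩ := exists_chain hrf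
  exact good_core hNR hnd L h1 h2 h3

end core

/-! ### Passing to subgroups -/

theorem good_of_subspace {X : Type*} [TopologicalSpace X] (S : Set X) (h : Good S) : Good X := by
  obtain ⟨A, ⟨a0, ha0⟩, hnd, hcr⟩ := h
  refine ⟨(↑) '' A, ⟨_, a0, ha0, rfl⟩, ?_, ?_⟩
  · rw [IsNowhereDense] at hnd ⊢
    by_contra hne
    rw [← ne_eq, ← nonempty_iff_ne_empty] at hne
    obtain ⟨z, hz⟩ := hne
    have hzc := mem_closure_iff.1 (interior_subset hz) _ isOpen_interior hz
    obtain ⟨x, hxI, a, ha, rfl⟩ := hzc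
    have : a ∈ interior (closure A) := by
      rw [mem_interior]
      refine ⟨Subtype.val ⁻¹' interior (closure (Subtype.val '' A : Set X)), ?_,
        isOpen_interior.preimage continuous_subtype_val, hxI⟩
      intro b hb
      rw [Topology.IsInducing.subtypeVal.closure_eq_preimage_closure_image]
      have hb' : (b : X) ∈ interior (closure (Subtype.val '' A : Set X)) := hb
      have hb'' : (b : X) ∈ closure (Subtype.val '' A : Set X) := interior_subset hb'
      exact hb''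
    rw [hnd] at this
    exact this
  · rintro _ ⟨a, ha, rfl⟩ ⟨U, hU, hUA⟩
    refine hcr a ha ⟨(↑) ⁻¹' U, hU.preimage continuous_subtype_val, ?_⟩
    ext b
    constructor
    · rintro ⟨hb, hbA⟩
      have : (b : X) ∈ U ∩ (↑) '' A := ⟨hb, b, hbA, rfl⟩
      rw [hUA] at this
      exact Subtype.ext this
    · intro hb
      rw [mem_singleton_iff] at hb
      subst hb
      have : (b : X) ∈ U ∩ (↑) '' A := by rw [hUA]; rfl
      exact ⟨this.1, ha⟩

theorem neBot_of_not_discrete {G : Type*} [Group G] [TopologicalSpace G] [IsTopologicalGroup G]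
    (h : ¬ DiscreteTopology G) : (𝓝[≠] (1 : G)).NeBot := by
  rw [discreteTopology_iff_isOpen_singleton_one] at h
  rw [← mem_closure_iff_nhdsWithin_neBot]
  by_contra hc
  apply h
  have h1 : (closure ({1}ᶜ : Set G))ᶜ = {1} := by
    apply Subset.antisymm
    · intro x hx
      by_contra hx1
      exact hx (subset_closure hx1)
    · rintro x hx
      rw [mem_singleton_iff] at hx
      rw [hx]
      exact hc
  rw [← h1]
  exact isClosed_closure.isOpen_compl

/-! ### Commutative groups -/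

theorem boolean_rf {K : Type*} [CommGroup K] (h : ∀ x : K, x * x = 1) (g : K) (hg : g ≠ 1) :
    ∃ L : Subgroup K, L.FiniteIndex ∧ g ∉ L := by
  let _ : Module (ZMod 2) (Additive K) := AddCommGroup.zmodModule (n := 2) (fun x => by
    rw [two_nsmul]
    exact h x.toMul)
  have h1 : ¬ (∀ φ : Module.Dual (ZMod 2) (Additive K), φ (Additive.ofMul g) = 0) := by
    rw [Module.forall_dual_apply_eq_zero_iff]
    intro h0
    exact hg h0
  push Not at h1
  obtain ⟨f, hf⟩ := h1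
  refine ⟨(AddMonoidHom.toMultiplicativeRight f.toAddMonoidHom).ker, inferInstance, ?_⟩
  intro hk
  rw [MonoidHom.mem_ker] at hk
  exact hf hk

theorem CD.inv {G : Type*} [Group G] [TopologicalSpace G] [IsTopologicalGroup G] {D : Set G}
    (h : CD D) : CD {x | x⁻¹ ∈ D} := by
  refine ⟨fun h1 => h.1 (by simpa using h1), fun g hg => ?_⟩
  obtain ⟨R, hR, hf⟩ := h.2 g⁻¹ (by simpa using hg)
  refine ⟨{x | x⁻¹ ∈ R}, continuous_inv.continuousAt.preimage_mem_nhds hR, ?_⟩
  exact (hf.preimage inv_injective.injOn).subset fun x hx => hx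

theorem Acc.inv {G : Type*} [Group G] [TopologicalSpace G] [IsTopologicalGroup G] {D : Set G}
    (h : Acc D) : Acc {x | x⁻¹ ∈ D} := by
  intro U hU
  obtain ⟨x, hx, hxU⟩ := h {x | x⁻¹ ∈ U}
    (continuous_inv.continuousAt.preimage_mem_nhds (by simpa using hU))
  exact ⟨x⁻¹, by simpa using hx, hxU⟩

theorem good_comm {G : Type*} [CommGroup G] [TopologicalSpace G] [IsTopologicalGroup G]
    [T2Space G] [Countable G] (hNR : NoRapid) (hnd : (𝓝[≠] (1 : G)).NeBot) : Good G := by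
  classical
  by_contra hG
  obtain ⟨idx, hidx⟩ := exists_injective_nat G
  obtain ⟨D, hCD, hAcc⟩ := exists_CD hNR hnd
  let K : Subgroup G :=
    { carrier := {x | x * x = 1}
      one_mem' := by simp
      mul_mem' := by
        intro a b ha hb
        simp only [mem_setOf_eq] at ha hb ⊢
        calc a * b * (a * b) = (a * a) * (b * b) := by
              rw [mul_assoc, ← mul_assoc b a b, mul_comm b a, mul_assoc a b b, ← mul_assoc]
          _ = 1 := by rw [ha, hb, mul_one]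
      inv_mem' := by
        intro a ha
        simp only [mem_setOf_eq] at ha ⊢
        rw [← mul_inv, ha, inv_one] }
  have hK2 : ∀ x : K, x * x = 1 := fun x => Subtype.ext x.2
  by_cases hKd : DiscreteTopology K
  · -- then there are two disjoint closed discrete sets accumulating at `1`
    obtain ⟨U, hU, hUK⟩ : ∃ U ∈ 𝓝 (1 : G), ∀ x ∈ U, x * x = 1 → x = 1 := by
      have h1 : ({1} : Set K) ∈ 𝓝 (1 : K) := by
        rw [nhds_discrete]
        exact mem_pure.2 rfl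
      rw [nhds_induced, mem_comap] at h1
      obtain ⟨U, hU, hU'⟩ := h1
      refine ⟨U, hU, fun x hx hxx => ?_⟩
      have : (⟨x, hxx⟩ : K) ∈ ({1} : Set K) := hU' hx
      exact congrArg Subtype.val (mem_singleton_iff.1 this)
    have key : ∀ D1 : Set G, CD D1 → Acc D1 → (∀ x ∈ D1, x⁻¹ ∉ D1) → False := by
      intro D1 h1 h2 h3
      exact hG (good_of_disjoint h1 h2 h1.inv h2.inv h3)
    have hA : ¬ Acc {d | d ∈ D ∧ idx d < idx d⁻¹} := by
      intro h
      refine key _ (hCD.mono fun d hd => hd.1) h ?_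
      rintro x ⟨_, hx⟩ ⟨_, hx'⟩
      rw [inv_inv] at hx'
      omega
    have hB : ¬ Acc {d | d ∈ D ∧ idx d⁻¹ < idx d} := by
      intro h
      refine key _ (hCD.mono fun d hd => hd.1) h ?_
      rintro x ⟨_, hx⟩ ⟨_, hx'⟩
      rw [inv_inv] at hx'
      omega
    simp only [Acc, not_forall] at hA hB
    obtain ⟨U1, hU1, hU1'⟩ := hA
    obtain ⟨U2, hU2, hU2'⟩ := hB
    obtain ⟨d, hd, hdU, hdU1, hdU2⟩ := hAcc (U ∩ (U1 ∩ U2)) (inter_mem hU (inter_mem hU1 hU2))
    have hd1 : d ≠ 1 := fun h => hCD.1 (h ▸ hd)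
    have hne : d ≠ d⁻¹ := by
      intro h
      apply hd1
      apply hUK d hdU
      nth_rewrite 1 [h]
      exact inv_mul_cancel d
    rcases lt_or_gt_of_ne (fun h => hne (hidx h) : idx d ≠ idx d⁻¹) with h | h
    · exact hU1' ⟨d, ⟨hd, h⟩, hdU1⟩
    · exact hU2' ⟨d, ⟨hd, h⟩, hdU2⟩
  · apply hG
    apply good_of_subspace (K : Set G)
    exact good_rf (G := K) hNR (neBot_of_not_discrete hKd) (boolean_rf hK2)

end Pool.Agent.H382Nodec
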