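import Pool.Agent.Helper382.NodecA

set_option autoImplicit false

open Set Topology Filter

namespace Pool.Agent.H382Nodec

variable {G : Type*} [Group G] [TopologicalSpace G]

omit [TopologicalSpace G] in
theorem Loc.mono {D : Set G} {O : G → Set G} {N : Set G} {y : G} (h : Loc D O N y) :
    ∀ M : Set G, N ⊆ M → Loc D O M y := by
  induction h with
  | one N => intro M _; exact Loc.one M
  | cons N d y hd hN h ih =>
    intro M hM
    exact Loc.cons M d y hd (hM hN) (ih _ fun v hv => ⟨hM hv.1, hv.2⟩)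

/-- In a group without good sets there are self-similar neighbourhoods of `1`. -/
theorem tree2 [IsTopologicalGroup G] [T2Space G] [Countable G] (hG : ¬ Good G) {D : Set G}
    (hCD : CD D) (hAcc : Acc D) (O : G → Set G) (hO : ∀ d ∈ D, O d ∈ 𝓝 d) :
    ∃ T ∈ 𝓝 (1 : G), ∀ z ∈ T, z ≠ 1 → ∃ d ∈ D, z ∈ O d ∧ d⁻¹ * z ∈ T := by
  classical
  obtain ⟨idx, hidx⟩ := exists_injective_nat G
  have hlow : ∀ n : ℕ, {y : G | idx y < n}.Finite := fun n =>
    Set.Finite.preimage hidx.injOn (finite_Iio n)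
  -- closed neighbourhoods `R y`
  have hR : ∀ y : G, ∃ R : Set G, y ≠ 1 → (R ∈ 𝓝 y ∧ IsClosed R ∧ R ∩ D ⊆ {y} ∧ (1 : G) ∉ R) := by
    intro y
    by_cases hy : y = 1
    · exact ⟨∅, fun h => absurd hy h⟩
    obtain ⟨R0, hR0, hfin⟩ := hCD.2 y hy
    have h1 : ((D ∩ R0) \ {y})ᶜ ∈ 𝓝 y :=
      ((hfin.subset diff_subset).isClosed.isOpen_compl).mem_nhds (by simp)
    have h2 : ({1}ᶜ : Set G) ∈ 𝓝 y := isOpen_compl_singleton.mem_nhds hy
    obtain ⟨R, hR, hRc, hRs⟩ := exists_mem_nhds_isClosed_subset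
      (inter_mem (inter_mem hR0 h1) h2)
    refine ⟨R, fun _ => ⟨hR, hRc, ?_, ?_⟩⟩
    · rintro z ⟨hz, hzD⟩
      by_contra hne
      exact (hRs hz).1.2 ⟨⟨hzD, (hRs hz).1.1⟩, hne⟩
    · intro h
      exact (hRs h).2 rfl
  choose R hR using hR
  have hD1 : ∀ d ∈ D, d ≠ 1 := fun d hd h => hCD.1 (h ▸ hd)
  have hC : ∀ d : G, ∃ C : Set G, d ∈ D → (C ∈ 𝓝 d ∧ IsClosed C ∧ C ⊆ O d) := by
    intro d
    by_cases hd : d ∈ D
    · obtain ⟨C, h1, h2, h3⟩ := exists_mem_nhds_isClosed_subset (hO d hd)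
      exact ⟨C, fun _ => ⟨h1, h2, h3⟩⟩
    · exact ⟨∅, fun h => absurd h hd⟩
  choose C hC using hC
  let O' : G → Set G := fun d => interior (R d ∩ C d) \ ⋃ y ∈ {y : G | idx y < idx d ∧ y ≠ 1}, R y
  have hfin' : ∀ d, {y : G | idx y < idx d ∧ y ≠ 1}.Finite := fun d =>
    (hlow (idx d)).subset fun y hy => hy.1
  have hO'o : ∀ d ∈ D, IsOpen (O' d) := by
    intro d _
    refine isOpen_interior.sdiff ?_
    exact (hfin' d).isClosed_biUnion fun y hy => (hR y hy.2).2.1
  have hO'mem : ∀ d ∈ D, d ∈ O' d := by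
    intro d hd
    refine ⟨?_, ?_⟩
    · rw [mem_interior_iff_mem_nhds]
      exact inter_mem (hR d (hD1 d hd)).1 (hC d hd).1
    · intro h
      simp only [mem_iUnion] at h
      obtain ⟨y, hy, hdy⟩ := h
      have := (hR y hy.2).2.2.1 ⟨hdy, hd⟩
      rw [mem_singleton_iff] at this
      rw [this] at hy
      exact lt_irrefl _ hy.1
  have hO'R : ∀ d, O' d ⊆ R d := fun d x hx => (interior_subset hx.1).1
  have hO'C : ∀ d, O' d ⊆ C d := fun d x hx => (interior_subset hx.1).2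
  have hO'1 : ∀ d ∈ D, (1 : G) ∉ O' d := fun d hd h => (hR d (hD1 d hd)).2.2.2 (hO'R d h)
  have hdisR : ∀ d y, idx y < idx d → y ≠ 1 → ∀ x, x ∈ O' d → x ∉ R y := by
    intro d y hlt hy x hx hxR
    apply hx.2
    simp only [mem_iUnion]
    exact ⟨y, ⟨hlt, hy⟩, hxR⟩
  have hdis : ∀ d ∈ D, ∀ d' ∈ D, ∀ x, x ∈ O' d → x ∈ O' d' → d = d' := by
    intro d hd d' hd' x hx hx'
    rcases lt_trichotomy (idx d) (idx d') with h | h | h
    · exact absurd (hO'R d hx) (hdisR d' d h (hD1 d hd) x hx')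
    · exact hidx h
    · exact absurd (hO'R d' hx') (hdisR d d' h (hD1 d' hd') x hx)
  set A : Set G := {x | Loc D O' univ x} with hAdef
  have hcrowd : ∀ a ∈ A, ¬ ∃ U : Set G, IsOpen U ∧ U ∩ A = {a} := by
    rintro x hx ⟨U, hUo, hU⟩
    obtain ⟨N, hNo, hN1, hN3, hN4, hN5⟩ := Loc.localize hO'mem hO'o hO'1 hdis hx isOpen_univ
      (mem_univ _)
    have hxU : x ∈ U := by
      have : x ∈ U ∩ A := by rw [hU]; rfl
      exact this.1
    have hV : {v | x * v ∈ U} ∩ N ∈ 𝓝 (1 : G) := by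
      refine inter_mem ?_ (hNo.mem_nhds hN1)
      refine (hUo.preimage (continuous_const_mul x)).mem_nhds ?_
      simpa using hxU
    obtain ⟨d, hd, hdU, hdN⟩ := hAcc _ hV
    have h1 : Loc D O' N d := by
      have := Loc.cons (D := D) (O := O') N d 1 hd hdN (Loc.one _)
      rwa [mul_one] at this
    have h2 : x * d ∈ U ∩ A := ⟨hdU, hN5 d h1⟩
    rw [hU, mem_singleton_iff] at h2
    have : d = 1 := by simpa using h2
    exact hCD.1 (this ▸ hd)
  have hnd : ¬ IsNowhereDense A := fun h => hG ⟨A, ⟨1, Loc.one _⟩, h, hcrowd⟩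
  refine ⟨closure A, ?_, ?_⟩
  · -- the closure is a neighbourhood of `1`
    rw [IsNowhereDense, ← ne_eq, ← nonempty_iff_ne_empty] at hnd
    obtain ⟨z, hz⟩ := hnd
    have hzc : z ∈ closure A := interior_subset hz
    rw [mem_closure_iff] at hzc
    obtain ⟨x, hxI, hx⟩ := hzc _ isOpen_interior hz
    obtain ⟨N, hNo, hN1, hN3, hN4, hN5⟩ := Loc.localize hO'mem hO'o hO'1 hdis hx isOpen_univ
      (mem_univ _)
    have hV : {v | x * v ∈ interior (closure A)} ∩ N ∈ 𝓝 (1 : G) := by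
      refine inter_mem ?_ (hNo.mem_nhds hN1)
      refine (isOpen_interior.preimage (continuous_const_mul x)).mem_nhds ?_
      simpa using hxI
    refine mem_of_superset hV ?_
    rintro y ⟨hyI, hyN⟩
    have hyc : x * y ∈ closure A := interior_subset hyI
    rw [mem_closure_iff_nhds]
    intro K hK
    have hnb : {w | x⁻¹ * w ∈ K ∩ N} ∈ 𝓝 (x * y) := by
      refine (continuous_const_mul x⁻¹).continuousAt.preimage_mem_nhds ?_
      simp only [inv_mul_cancel_left]
      exact inter_mem hK (hNo.mem_nhds hyN)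
    obtain ⟨a, haK, haL⟩ := mem_closure_iff_nhds.1 hyc _ hnb
    have haK' : x⁻¹ * a ∈ K ∩ N := haK
    exact ⟨x⁻¹ * a, haK'.1, (hN4 a haL haK'.2).mono univ (subset_univ _)⟩
  · intro z hz hz1
    -- near `z` only finitely many letters
    set S : Set G := {d : G | idx d < idx z + 1 ∧ d ∈ D} with hS
    have hSfin : S.Finite := (hlow (idx z + 1)).subset fun d hd => hd.1
    let Ad : G → Set G := fun d => {w | Loc D O' univ (d⁻¹ * w) ∧ w ∈ O' d}
    have hsub : R z ∩ ({1}ᶜ : Set G) ∩ A ⊆ ⋃ d ∈ S, Ad d := by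
      rintro w ⟨⟨hwR, hw1⟩, hwA⟩
      rcases (show Loc D O' univ w from hwA).cases' hO'mem with h | ⟨d, hd, _, hwO, _, hL⟩
      · exact absurd h hw1
      · simp only [mem_iUnion]
        refine ⟨d, ⟨?_, hd⟩, hL.mono univ (subset_univ _), hwO⟩
        by_contra hlt
        exact hdisR d z (by omega) hz1 w hwO hwR
    have hzc : z ∈ closure (⋃ d ∈ S, Ad d) := by
      rw [mem_closure_iff_nhds] at hz ⊢
      intro K hK
      obtain ⟨w, hw, hwA⟩ := hz (K ∩ (R z ∩ ({1}ᶜ : Set G)))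
        (inter_mem hK (inter_mem (hR z hz1).1 (isOpen_compl_singleton.mem_nhds hz1)))
      exact ⟨w, hw.1, hsub ⟨hw.2, hwA⟩⟩
    rw [hSfin.closure_biUnion] at hzc
    simp only [mem_iUnion] at hzc
    obtain ⟨d, hd, hzd⟩ := hzc
    refine ⟨d, hd.2, ?_, ?_⟩
    · apply (hC d hd.2).2.2
      exact closure_minimal (fun w hw => hO'C d hw.2) (hC d hd.2).2.1 hzd
    · rw [mem_closure_iff_nhds] at hzd ⊢
      intro K hK
      have hnb : {w | d⁻¹ * w ∈ K} ∈ 𝓝 z :=
        (continuous_const_mul d⁻¹).continuousAt.preimage_mem_nhds hK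
      obtain ⟨w, hw, hwA⟩ := hzd _ hnb
      exact ⟨d⁻¹ * w, hw, hwA.1⟩

/-- a closed nondiscrete subgroup which is not open is a good set -/
theorem good_of_closed_subgroup [IsTopologicalGroup G] (H : Subgroup G)
    (hc : IsClosed (H : Set G)) (hno : ¬ IsOpen (H : Set G)) (hd : ¬ DiscreteTopology H) :
    Good G := by
  refine ⟨H, ⟨1, H.one_mem⟩, ?_, ?_⟩
  · rw [IsNowhereDense, hc.closure_eq]
    by_contra hne
    rw [← ne_eq, ← nonempty_iff_ne_empty] at hne
    obtain ⟨z, hz⟩ := hne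
    exact hno (H.isOpen_of_mem_nhds (mem_interior_iff_mem_nhds.1 hz))
  · rintro a ha ⟨U, hU, hUH⟩
    apply hd
    rw [discreteTopology_iff_isOpen_singleton_one]
    have h1 : ({1} : Set H) = (fun h : H => (⟨a, ha⟩ : H) * h) ⁻¹' ((↑) ⁻¹' U) := by
      ext h
      constructor
      · intro hh
        rw [mem_singleton_iff] at hh
        subst hh
        have : a ∈ U ∩ H := by rw [hUH]; rfl
        simpa using this.1
      · intro hh
        have h2 : a * (h : G) ∈ U ∩ H := ⟨hh, H.mul_mem ha h.2⟩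
        rw [hUH, mem_singleton_iff] at h2
        rw [mem_singleton_iff]
        exact Subtype.ext (by simpa using h2)
    rw [h1]
    exact (hU.preimage continuous_subtype_val).preimage (continuous_const_mul _)

end Pool.Agent.H382Nodec
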