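import Pool.Agent.Helper382.NodecB

set_option autoImplicit false

open Set Topology Filter

namespace Pool.Agent.H382Nodec

variable {G : Type*} [Group G] [TopologicalSpace G]

/-- small neighbourhoods for the letters in `D` -/
theorem exists_letters [IsTopologicalGroup G] [T2Space G] {D : Set G} (hCD : CD D)
    (hcen : ∀ d ∈ D, {x | x * d = d * x} ∈ 𝓝 (1 : G)) (idx : G → ℕ)
    (hidx : Function.Injective idx) :
    ∃ (M R N : G → Set G),
      (∀ d ∈ D, ∀ m ∈ M d, ∀ r ∈ R d, m * r ∈ D → m * r = d) ∧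
      (∀ d ∈ D, ∀ m ∈ M d, m ∉ R d) ∧
      (∀ d ∈ D, N d ∈ 𝓝 (1 : G)) ∧
      (∀ d ∈ D, ∀ v ∈ N d, v⁻¹ ∈ N d) ∧
      (∀ d ∈ D, ∀ v ∈ N d, d * v ∈ R d) ∧
      (∀ d ∈ D, ∀ v ∈ N d, v * d = d * v) ∧
      (∀ d ∈ D, ∀ v ∈ N d, ∀ d' ∈ D, idx d' ≤ idx d → v ∈ M d') ∧
      (∀ d ∈ D, ∀ v ∈ N d, ∀ x ∈ D, idx x < idx d → ∀ w ∈ D, d * v = x * w → v = 1) ∧
      (∀ d ∈ D, ∀ v ∈ N d, ∀ x ∈ D, idx x < idx d → ∀ w ∈ D, d * v = w * x → v = 1) := by
  classical
  have hlow : ∀ n : ℕ, {y : G | idx y ≤ n}.Finite := fun n =>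
    Set.Finite.preimage hidx.injOn (finite_Iic n)
  have hD1 : ∀ d ∈ D, d ≠ 1 := fun d hd h => hCD.1 (h ▸ hd)
  -- isolation neighbourhoods
  have hiso : ∀ g : G, g ≠ 1 → ∃ S ∈ 𝓝 g, ∀ z ∈ S, z ∈ D → z = g := by
    intro g hg
    obtain ⟨R0, hR0, hfin⟩ := hCD.2 g hg
    have h1 : ((D ∩ R0) \ {g})ᶜ ∈ 𝓝 g :=
      ((hfin.subset diff_subset).isClosed.isOpen_compl).mem_nhds (by simp)
    refine ⟨R0 ∩ ((D ∩ R0) \ {g})ᶜ, inter_mem hR0 h1, ?_⟩
    rintro z ⟨hz, hz'⟩ hzD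
    by_contra hne
    exact hz' ⟨⟨hzD, hz⟩, hne⟩
  have hMR : ∀ d : G, ∃ M R : Set G, d ∈ D → (M ∈ 𝓝 (1 : G) ∧ R ∈ 𝓝 d ∧
      (∀ m ∈ M, ∀ r ∈ R, m * r ∈ D → m * r = d) ∧ (∀ m ∈ M, m ∉ R)) := by
    intro d
    by_cases hd : d ∈ D
    swap
    · exact ⟨∅, ∅, fun h => absurd h hd⟩
    obtain ⟨S, hS, hSD⟩ := hiso d (hD1 d hd)
    have h2 : {p : G × G | p.1 * p.2 ∈ S} ∈ 𝓝 ((1 : G), d) := by
      have hc : Continuous (fun p : G × G => p.1 * p.2) := continuous_mul
      exact hc.continuousAt.preimage_mem_nhds (by simpa using hS)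
    rw [nhds_prod_eq, Filter.mem_prod_iff] at h2
    obtain ⟨M0, hM0, R0, hR0, h3⟩ := h2
    obtain ⟨A, B, hA, hB, h1A, hdB, hAB⟩ := t2_separation (hD1 d hd).symm
    refine ⟨M0 ∩ A, R0 ∩ B, fun _ => ⟨inter_mem hM0 (hA.mem_nhds h1A),
      inter_mem hR0 (hB.mem_nhds hdB), ?_, ?_⟩⟩
    · intro m hm r hr hmr
      exact hSD _ (h3 (show (m, r) ∈ M0 ×ˢ R0 from ⟨hm.1, hr.1⟩)) hmr
    · intro m hm hm'
      exact (disjoint_left.1 hAB) hm.2 hm'.2
  choose M R hMR using hMR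
  -- the neighbourhood `N d`
  have hN : ∀ d : G, ∃ N : Set G, d ∈ D → (N ∈ 𝓝 (1 : G) ∧
      (∀ v ∈ N, v⁻¹ ∈ N) ∧ (∀ v ∈ N, d * v ∈ R d) ∧ (∀ v ∈ N, v * d = d * v) ∧
      (∀ v ∈ N, ∀ d' ∈ D, idx d' ≤ idx d → v ∈ M d') ∧
      (∀ v ∈ N, ∀ x ∈ D, idx x < idx d → ∀ w ∈ D, d * v = x * w → v = 1) ∧
      (∀ v ∈ N, ∀ x ∈ D, idx x < idx d → ∀ w ∈ D, d * v = w * x → v = 1)) := by
    intro d
    by_cases hd : d ∈ D
    swap
    · exact ⟨∅, fun h => absurd h hd⟩
    have e1 : ∀ᶠ v in 𝓝 (1 : G), d * v ∈ R d := by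
      have hc : Continuous (fun v : G => d * v) := continuous_const_mul d
      exact hc.continuousAt.eventually_mem (by simpa using (hMR d hd).2.1)
    have e2 : ∀ᶠ v in 𝓝 (1 : G), v * d = d * v := hcen d hd
    have e3 : ∀ᶠ v in 𝓝 (1 : G), ∀ d' ∈ {d' : G | d' ∈ D ∧ idx d' ≤ idx d}, v ∈ M d' := by
      rw [Filter.eventually_all_finite ((hlow (idx d)).subset fun x hx => hx.2)]
      intro d' hd'
      exact (hMR d' hd'.1).1
    have e4 : ∀ᶠ v in 𝓝 (1 : G), ∀ x ∈ {x : G | x ∈ D ∧ idx x < idx d},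
        ∀ w ∈ D, d * v = x * w → v = 1 := by
      rw [Filter.eventually_all_finite ((hlow (idx d)).subset
        fun x (hx : x ∈ {x : G | x ∈ D ∧ idx x < idx d}) => le_of_lt hx.2)]
      rintro x ⟨hx, hxd⟩
      have hne : x⁻¹ * d ≠ 1 := by
        intro h
        have : x = d := inv_mul_eq_one.1 h
        rw [this] at hxd
        exact lt_irrefl _ hxd
      obtain ⟨S, hS, hSD⟩ := hiso _ hne
      have hc : Continuous (fun v : G => x⁻¹ * d * v) := continuous_const_mul _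
      have e : ∀ᶠ v in 𝓝 (1 : G), x⁻¹ * d * v ∈ S :=
        hc.continuousAt.eventually_mem (by simpa using hS)
      filter_upwards [e] with v hv w hw hvw
      have h1 : x⁻¹ * d * v = w := by rw [mul_assoc, hvw]; group
      have h2 := hSD _ hv (by rw [h1]; exact hw)
      have h3 : x⁻¹ * d * v = x⁻¹ * d * 1 := by rw [h2, mul_one]
      exact mul_left_cancel h3
    have e5 : ∀ᶠ v in 𝓝 (1 : G), ∀ x ∈ {x : G | x ∈ D ∧ idx x < idx d},
        ∀ w ∈ D, d * v = w * x → v = 1 := by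
      rw [Filter.eventually_all_finite ((hlow (idx d)).subset
        fun x (hx : x ∈ {x : G | x ∈ D ∧ idx x < idx d}) => le_of_lt hx.2)]
      rintro x ⟨hx, hxd⟩
      have hne : d * x⁻¹ ≠ 1 := by
        intro h
        have : d = x := mul_inv_eq_one.1 h
        rw [this] at hxd
        exact lt_irrefl _ hxd
      obtain ⟨S, hS, hSD⟩ := hiso _ hne
      have hc : Continuous (fun v : G => d * v * x⁻¹) :=
        (continuous_const_mul d).mul continuous_const
      have e : ∀ᶠ v in 𝓝 (1 : G), d * v * x⁻¹ ∈ S :=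
        hc.continuousAt.eventually_mem (by simpa using hS)
      filter_upwards [e] with v hv w hw hvw
      have h1 : d * v * x⁻¹ = w := by rw [hvw]; group
      have h2 := hSD _ hv (by rw [h1]; exact hw)
      have h3 : d * v = d * 1 := by
        rw [mul_one]
        exact mul_right_cancel h2
      exact mul_left_cancel h3
    have e6 := e1.and (e2.and (e3.and (e4.and e5)))
    have hti : Tendsto (fun v : G => v⁻¹) (𝓝 1) (𝓝 1) := by
      have := (continuous_inv (G := G)).tendsto 1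
      simpa using this
    have e7 := e6.and (hti.eventually e6)
    refine ⟨_, fun _ => ⟨e7, ?_, ?_, ?_, ?_, ?_, ?_⟩⟩
    · rintro v ⟨hv, hv'⟩
      exact ⟨hv', by simpa using hv⟩
    · rintro v ⟨hv, _⟩
      exact hv.1
    · rintro v ⟨hv, _⟩
      exact hv.2.1
    · rintro v ⟨hv, _⟩ d' hd' hle
      exact hv.2.2.1 d' ⟨hd', hle⟩
    · rintro v ⟨hv, _⟩ x hx hlt
      exact hv.2.2.2.1 x ⟨hx, hlt⟩
    · rintro v ⟨hv, _⟩ x hx hlt
      exact hv.2.2.2.2 x ⟨hx, hlt⟩
  choose N hN using hN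
  exact ⟨M, R, N, fun d hd => (hMR d hd).2.2.1, fun d hd => (hMR d hd).2.2.2,
    fun d hd => (hN d hd).1, fun d hd => (hN d hd).2.1, fun d hd => (hN d hd).2.2.1,
    fun d hd => (hN d hd).2.2.2.1, fun d hd => (hN d hd).2.2.2.2.1,
    fun d hd => (hN d hd).2.2.2.2.2.1, fun d hd => (hN d hd).2.2.2.2.2.2⟩

theorem mul_nhds [IsTopologicalGroup G] {U : Set G} (hU : U ∈ 𝓝 (1 : G)) :
    ∃ V ∈ 𝓝 (1 : G), ∀ x ∈ V, ∀ y ∈ V, x * y ∈ U := by
  have h2 : {p : G × G | p.1 * p.2 ∈ U} ∈ 𝓝 ((1 : G), (1 : G)) := by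
    have hc : Continuous (fun p : G × G => p.1 * p.2) := continuous_mul
    exact hc.continuousAt.preimage_mem_nhds (by simpa using hU)
  rw [nhds_prod_eq, Filter.mem_prod_same_iff] at h2
  obtain ⟨V, hV, h3⟩ := h2
  exact ⟨V, hV, fun x hx y hy => h3 (show (x, y) ∈ V ×ˢ V from ⟨hx, hy⟩)⟩

/-- In a countable group without good sets, the letters near `1` commute. -/
theorem letters_commute [IsTopologicalGroup G] [T2Space G] [Countable G] (hG : ¬ Good G)
    {D : Set G} (hCD : CD D) (hAcc : Acc D) (hinv : ∀ d ∈ D, d * d = 1)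
    (hcen : ∀ d ∈ D, {x | x * d = d * x} ∈ 𝓝 (1 : G)) :
    ∃ V ∈ 𝓝 (1 : G), ∀ x ∈ D, x ∈ V → ∀ y ∈ D, y ∈ V → x * y = y * x := by
  classical
  obtain ⟨idx, hidx⟩ := exists_injective_nat G
  obtain ⟨M, R, N, hMR, hMR', hN, hNs, hNR, hNc, hNM, hN4, hN5⟩ :=
    exists_letters hCD hcen idx hidx
  have hinv' : ∀ d ∈ D, d⁻¹ = d := fun d hd => inv_eq_of_mul_eq_one_left (hinv d hd)
  -- big neighbourhood
  obtain ⟨Wb, hWb, hWb'⟩ := tree2 hG hCD hAcc (fun d => {z | d⁻¹ * z ∈ N d}) (by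
    intro d hd
    refine (continuous_const_mul d⁻¹).continuousAt.preimage_mem_nhds ?_
    simpa using hN d hd)
  obtain ⟨V, hV, hVV⟩ := mul_nhds hWb
  obtain ⟨V3, hV3, hVV3⟩ := mul_nhds hV
  have hCDV : CD (D ∩ V) := hCD.mono inter_subset_left
  have hAccV : Acc (D ∩ V) := by
    intro U hU
    obtain ⟨x, hx, hxU⟩ := hAcc (V ∩ U) (inter_mem hV hU)
    exact ⟨x, ⟨hx, hxU.1⟩, hxU.2⟩
  obtain ⟨T, hT, hT'⟩ := tree2 hG hCDV hAccV (fun d => {z | d⁻¹ * z ∈ N d ∩ V3}) (by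
    intro d hd
    refine (continuous_const_mul d⁻¹).continuousAt.preimage_mem_nhds ?_
    rw [inv_mul_cancel]
    exact inter_mem (hN d hd.1) hV3)
  obtain ⟨V4, hV4, hVV4⟩ := mul_nhds hT
  -- one step
  have step : ∀ x ∈ D, x ∈ V → ∀ y ∈ D, x * y ≠ y * x → ∀ c ∈ D, c ∈ V → ∀ δ ∈ N c,
      x * y = c * δ → idx c < idx y ∧ c * x ∈ D ∧ c * x = x * c := by
    intro x hx hxV y hy hxy c hc hcV δ hδ hcδ
    have hx2 := hinv x hx
    have hy2 := hinv y hy
    have hc2 := hinv c hc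
    have hcx : c ≠ x := by
      rintro rfl
      have : y = δ := mul_left_cancel hcδ
      rw [this] at hxy
      exact hxy (hNc c hc δ hδ).symm
    have hδ1 : δ ≠ 1 := by
      rintro rfl
      rw [mul_one] at hcδ
      apply hxy
      have h1 : (x * y) * (x * y) = 1 := by rw [hcδ]; exact hc2
      have h2 : x * y = (x * y)⁻¹ := (inv_eq_of_mul_eq_one_left h1).symm
      rw [h2, mul_inv_rev, hinv' x hx, hinv' y hy]
    have hcy : c ≠ y := by
      rintro rfl
      -- `x * c = c * δ`, `δ` commutes with `c`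
      apply hxy
      have h1 := hNc c hc δ hδ
      have h2 : x * c = δ * c := by rw [hcδ, h1]
      have h3 : x = δ := mul_right_cancel h2
      rw [h3]
      exact h1
    have hlty : idx c < idx y := by
      rcases lt_trichotomy (idx c) (idx y) with h | h | h
      · exact h
      · exact absurd (hidx h) hcy
      · exact absurd (hN5 c hc δ hδ y hy h x hx hcδ.symm) hδ1
    refine ⟨hlty, ?_⟩
    have hcx1 : c * x ≠ 1 := by
      intro h
      apply hcx
      have : c = x⁻¹ := eq_inv_of_mul_eq_one_left h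
      rw [this, hinv' x hx]
    have hcxD : c * x ∈ D := by
      obtain ⟨c', hc', hη, _⟩ := hWb' (c * x) (hVV c hcV x hxV) hcx1
      have hη' : c'⁻¹ * (c * x) ∈ N c' := hη
      set η := c'⁻¹ * (c * x) with hηdef
      have hcη : c' * η = c * x := by rw [hηdef]; group
      by_cases hle : idx c' ≤ idx c
      · exfalso
        have h1 : δ⁻¹ ∈ M c' := hNM c hc δ⁻¹ (hNs c hc δ hδ) c' hc' hle
        have h2 : c * x ∈ R c' := by rw [← hcη]; exact hNR c' hc' η hη'
        have h3 : δ⁻¹ * (c * x) = y := by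
          have h4 : δ = c * (x * y) := by rw [hcδ, ← mul_assoc, hc2, one_mul]
          have h5 : c * x = δ * y := by
            rw [h4]
            calc c * x = c * (x * (y * y)) := by rw [hy2, mul_one]
              _ = c * (x * y) * y := by group
          rw [h5]
          group
        have h6 := hMR c' hc' δ⁻¹ h1 (c * x) h2 (by rw [h3]; exact hy)
        rw [h3] at h6
        rw [h6] at hlty
        omega
      · have h1 := hN4 c' hc' η hη' c hc (not_le.1 hle) x hx hcη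
        rw [h1, mul_one] at hcη
        rw [← hcη]
        exact hc'
    refine ⟨hcxD, ?_⟩
    have h1 := hinv _ hcxD
    calc c * x = (c * x)⁻¹ := (inv_eq_of_mul_eq_one_left h1).symm
      _ = x * c := by rw [mul_inv_rev, hinv' x hx, hinv' c hc]
  -- the descent
  have main : ∀ y ∈ D, y ∈ V → y ∈ V3 → ∀ k m : ℕ, idx y ≤ m + k → ∀ x ∈ D, x ∈ V →
      x * y ∈ T → x * y ≠ y * x → (∀ d ∈ D, idx d < m → d⁻¹ * (x * y) ∉ N d) → False := by
    intro y hy hyV hyV3 k
    induction k with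
    | zero =>
      intro m hm x hx hxV hxyT hxy hL
      have hne : x * y ≠ 1 := by
        intro h
        apply hxy
        have h1 : x = y⁻¹ := eq_inv_of_mul_eq_one_left h
        rw [h1]
        group
      obtain ⟨c, hc, hcδ, _⟩ := hT' (x * y) hxyT hne
      have hcδ' : c⁻¹ * (x * y) ∈ N c ∩ V3 := hcδ
      have h1 := step x hx hxV y hy hxy c hc.1 hc.2 _ hcδ'.1 (by group)
      exact hL c hc.1 (by omega) hcδ'.1
    | succ k ih =>
      intro m hm x hx hxV hxyT hxy hL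
      have hne : x * y ≠ 1 := by
        intro h
        apply hxy
        have h1 : x = y⁻¹ := eq_inv_of_mul_eq_one_left h
        rw [h1]
        group
      obtain ⟨c, hc, hcδ, hcT⟩ := hT' (x * y) hxyT hne
      have hcδ' : c⁻¹ * (x * y) ∈ N c ∩ V3 := hcδ
      set δ := c⁻¹ * (x * y) with hδdef
      have hxyc : x * y = c * δ := by rw [hδdef]; group
      obtain ⟨h1, h2, h3⟩ := step x hx hxV y hy hxy c hc.1 hc.2 δ hcδ'.1 hxyc
      have hyx : y * x = c * δ⁻¹ := by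
        have h4 : y * x = (x * y)⁻¹ := by rw [mul_inv_rev, hinv' x hx, hinv' y hy]
        rw [h4, hxyc, mul_inv_rev, hinv' c hc.1]
        exact hNc c hc.1 δ⁻¹ (hNs c hc.1 δ hcδ'.1)
      obtain ⟨h5, h6, h7⟩ := step y hy hyV x hx (Ne.symm hxy) c hc.1 hc.2 δ⁻¹
        (hNs c hc.1 δ hcδ'.1) hyx
      have hcm : m ≤ idx c := by
        by_contra hlt
        exact hL c hc.1 (not_le.1 hlt) hcδ'.1
      have hδ' : c * x * y = δ := by rw [mul_assoc, hδdef, hinv' c hc.1]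
      refine ih (m + 1) (by omega) (c * x) h2 ?_ (by rw [hδ']; exact hcT) ?_ ?_
      · have h8 : c * x = δ * y := by
          rw [← hδ', mul_assoc (c * x), hinv y hy, mul_one]
        rw [h8]
        exact hVV3 δ hcδ'.2 y hyV3
      · intro h
        apply hxy
        have h9 : c * (x * y) = c * (y * x) := by
          calc c * (x * y) = c * x * y := by group
            _ = y * (c * x) := h
            _ = (y * c) * x := by group
            _ = (c * y) * x := by rw [h7]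
            _ = c * (y * x) := by group
        exact mul_left_cancel h9
      · intro d hd hdm hdN
        rw [hδ'] at hdN
        have h8 : δ ∈ R d := by
          have := hNR d hd _ hdN
          rwa [mul_inv_cancel_left] at this
        exact hMR' d hd δ (hNM c hc.1 δ hcδ'.1 d hd (by omega)) h8
  refine ⟨V4 ∩ V ∩ V3, inter_mem (inter_mem hV4 hV) hV3, ?_⟩
  intro x hx hxV y hy hyV
  by_contra hxy
  exact main y hy hyV.1.2 hyV.2 (idx y) 0 (by omega) x hx hxV.1.2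
    (hVV4 x hxV.1.1 y hyV.1.1) hxy (fun d _ h => absurd h (Nat.not_lt_zero _))

end Pool.Agent.H382Nodec
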