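import Pool.Agent.Helper382.NodecC

set_option autoImplicit false

open Set Topology Filter

namespace Pool.Agent.H382Nodec

variable {G : Type*} [Group G] [TopologicalSpace G]

theorem fixed_acc [IsTopologicalGroup G] [T2Space G] [Countable G] (hG : ¬ Good G)
    (φ : G → G) (hφ : Continuous φ) (hφ2 : ∀ x, φ (φ x) = x) (hφ1 : φ 1 = 1) {D : Set G}
    (hCD : CD D) (hAcc : Acc D) : Acc {d | d ∈ D ∧ φ d = d} := by
  classical
  obtain ⟨idx, hidx⟩ := exists_injective_nat G
  have hinj : Function.Injective φ := fun x y h => by rw [← hφ2 x, h, hφ2]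
  have key : ∀ D1 : Set G, CD D1 → Acc D1 → (∀ x ∈ D1, φ x ∉ D1) → False := by
    intro D1 h1 h2 h3
    refine hG (good_of_disjoint (D' := {x | φ x ∈ D1}) h1 h2 ⟨?_, ?_⟩ ?_ h3)
    · intro h
      have h' : φ 1 ∈ D1 := h
      rw [hφ1] at h'
      exact h1.1 h'
    · intro g hg
      have hg' : φ g ≠ 1 := fun h => hg (hinj (by rw [h, hφ1]))
      obtain ⟨R, hR, hf⟩ := h1.2 (φ g) hg'
      exact ⟨{x | φ x ∈ R}, hφ.continuousAt.preimage_mem_nhds hR,
        (hf.preimage hinj.injOn).subset fun x hx => hx⟩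
    · intro U hU
      obtain ⟨x, hx, hxU⟩ := h2 {x | φ x ∈ U} (hφ.continuousAt.preimage_mem_nhds (by rwa [hφ1]))
      exact ⟨φ x, by
        change φ (φ x) ∈ D1
        rw [hφ2]
        exact hx, hxU⟩
  have hA : ¬ Acc {d | d ∈ D ∧ idx d < idx (φ d)} := by
    intro h
    refine key _ (hCD.mono fun d hd => hd.1) h ?_
    rintro x ⟨_, hx⟩ ⟨_, hx'⟩
    rw [hφ2] at hx'
    omega
  have hB : ¬ Acc {d | d ∈ D ∧ idx (φ d) < idx d} := by
    intro h
    refine key _ (hCD.mono fun d hd => hd.1) h ?_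
    rintro x ⟨_, hx⟩ ⟨_, hx'⟩
    rw [hφ2] at hx'
    omega
  simp only [Acc, not_forall] at hA hB
  obtain ⟨U1, hU1, hU1'⟩ := hA
  obtain ⟨U2, hU2, hU2'⟩ := hB
  intro U hU
  obtain ⟨d, hd, hdU, hdU1, hdU2⟩ := hAcc (U ∩ (U1 ∩ U2)) (inter_mem hU (inter_mem hU1 hU2))
  refine ⟨d, ⟨hd, ?_⟩, hdU⟩
  by_contra hne
  rcases lt_or_gt_of_ne (fun h => hne (hidx h).symm : idx d ≠ idx (φ d)) with h | h
  · exact hU1' ⟨d, ⟨hd, h⟩, hdU1⟩
  · exact hU2' ⟨d, ⟨hd, h⟩, hdU2⟩

theorem not_discrete_of_acc (H : Subgroup G) {D : Set G} (hAcc : Acc D)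
    (h1 : (1 : G) ∉ D) (hD : D ⊆ H) : ¬ DiscreteTopology H := by
  intro hd
  have h2 : ({1} : Set H) ∈ 𝓝 (1 : H) := by
    rw [nhds_discrete]
    exact mem_pure.2 rfl
  rw [nhds_induced, mem_comap] at h2
  obtain ⟨U, hU, hU'⟩ := h2
  obtain ⟨x, hx, hxU⟩ := hAcc U hU
  have : (⟨x, hD hx⟩ : H) ∈ ({1} : Set H) := hU' hxU
  have h3 : x = 1 := congrArg Subtype.val (mem_singleton_iff.1 this)
  exact h1 (h3 ▸ hx)

/-- **Countable groups.** If there are no rapid ultrafilters, every countable nondiscrete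
Hausdorff topological group has a crowded nonempty nowhere dense set. -/
theorem good_countable [IsTopologicalGroup G] [T2Space G] [Countable G] (hNR : NoRapid)
    (hnd : (𝓝[≠] (1 : G)).NeBot) : Good G := by
  classical
  by_contra hG
  obtain ⟨D0, hCD0, hAcc0⟩ := exists_CD hNR hnd
  -- involutions
  have hAcc := fixed_acc hG (fun x => x⁻¹) continuous_inv (fun x => inv_inv x) inv_one hCD0 hAcc0
  set D : Set G := {d | d ∈ D0 ∧ d⁻¹ = d} with hD
  have hCD : CD D := hCD0.mono fun d hd => hd.1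
  have hinv : ∀ d ∈ D, d * d = 1 := by
    intro d hd
    nth_rewrite 1 [← hd.2]
    exact inv_mul_cancel d
  -- centralizers
  have hcen : ∀ d ∈ D, {x | x * d = d * x} ∈ 𝓝 (1 : G) := by
    intro d hd
    have hdd := hinv d hd
    have h1 : Acc {x | x ∈ D ∧ d * x * d = x} := by
      refine fixed_acc hG (fun x => d * x * d)
        ((continuous_const_mul d).mul continuous_const) ?_ ?_ hCD hAcc
      · intro x
        calc d * (d * x * d) * d = (d * d) * x * (d * d) := by group
          _ = x := by rw [hdd, one_mul, mul_one]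
      · simp [hdd]
    have hsub : {x | x ∈ D ∧ d * x * d = x} ⊆ (Subgroup.centralizer {d} : Subgroup G) := by
      rintro x ⟨_, hx⟩
      rw [SetLike.mem_coe, Subgroup.mem_centralizer_singleton_iff]
      symm
      calc d * x = d * x * (d * d) := by rw [hdd, mul_one]
        _ = (d * x * d) * d := by group
        _ = x * d := by rw [hx]
    have hnd' : ¬ DiscreteTopology (Subgroup.centralizer {d} : Subgroup G) :=
      not_discrete_of_acc _ h1 (fun h => hCD.1 h.1) hsub
    have hcl : IsClosed ((Subgroup.centralizer {d} : Subgroup G) : Set G) :=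
      Set.isClosed_centralizer {d}
    have hop : IsOpen ((Subgroup.centralizer {d} : Subgroup G) : Set G) := by
      by_contra hno
      exact hG (good_of_closed_subgroup _ hcl hno hnd')
    refine mem_of_superset (hop.mem_nhds (Subgroup.one_mem _)) ?_
    intro x hx
    rw [SetLike.mem_coe, Subgroup.mem_centralizer_singleton_iff] at hx
    exact hx
  obtain ⟨V, hV, hVc⟩ := letters_commute hG hCD hAcc hinv hcen
  have hAccP : Acc (D ∩ V) := by
    intro U hU
    obtain ⟨x, hx, hxU⟩ := hAcc (V ∩ U) (inter_mem hV hU)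
    exact ⟨x, ⟨hx, hxU.1⟩, hxU.2⟩
  have hP1 : (1 : G) ∉ D ∩ V := fun h => hCD.1 h.1
  have hcomm : ∀ a b : (Subgroup.closure (D ∩ V)), a * b = b * a := by
    have := Subgroup.isMulCommutative_closure (k := D ∩ V)
      (fun x hx y hy => hVc x hx.1 hx.2 y hy.1 hy.2)
    intro a b
    exact mul_comm' a b
  let _ : CommGroup (Subgroup.closure (D ∩ V)) :=
    { (inferInstance : Group (Subgroup.closure (D ∩ V))) with mul_comm := hcomm }
  have hndP := not_discrete_of_acc (Subgroup.closure (D ∩ V)) hAccP hP1 Subgroup.subset_closure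
  apply hG
  apply good_of_subspace ((Subgroup.closure (D ∩ V) : Subgroup G) : Set G)
  exact good_comm (G := Subgroup.closure (D ∩ V)) hNR (neBot_of_not_discrete hndP)

end Pool.Agent.H382Nodec
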