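import Mathlib
set_option autoImplicit false
set_option linter.all false

/-!
# Cancellation by two for bounded regular-open sets, part 1: the combinatorial core
Finite sets `D` of vertices of a locally finite graph on one free orbit; `er` = interior, `bd` = boundary, `hh` = Hall slack.
`Hall` : the two-sided Hall condition; `Inv` : every irreducible finite set is small or has slack at least `bd/M`.
`slack` : the initial slack; `stage`, `step` : removal of a tiny pair of balls keeps both; `iterate`, `roe_of_iterate` :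
the Baire category iteration, giving the regular-open equidecomposition.
-/

namespace Pool.Agent.H382RO
open Finset Classical

variable {V : Type}

structure Adj (N : V → Finset V) (Re : Set V) : Prop where
  self : ∀ v, v ∈ N v
  symm : ∀ u v, u ∈ N v → v ∈ N u
  re : ∀ v ∈ Re, ∀ u ∈ N v, u ∈ Re
  inf : ∀ D : Finset V, D.Nonempty → (∀ v ∈ D, v ∈ Re) → ∃ v ∈ D, ¬ N v ⊆ D

noncomputable def er (N : V → Finset V) (D : Finset V) : Finset V := D.filter (fun v => N v ⊆ D)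
noncomputable def dil (N : V → Finset V) (D : Finset V) : Finset V := D.biUnion N
noncomputable def cnt (S : Set V) (D : Finset V) : ℤ := ((D.filter (fun v => v ∈ S)).card : ℤ)
noncomputable def bd (N : V → Finset V) (D : Finset V) : ℤ := (D.card : ℤ) - ((er N D).card : ℤ)
noncomputable def hh (N : V → Finset V) (A B : Set V) (D : Finset V) : ℤ := cnt B D - cnt A (er N D)

noncomputable def val (N : V → Finset V) (A B : Set V) (b : Bool) (D : Finset V) : ℤ :=
  if b then hh N A B D else hh N B A D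

def Red (N : V → Finset V) (Re : Set V) (D : Finset V) : Prop :=
  ∃ b1 D1 b2 D2, (∀ v ∈ D1, v ∈ Re) ∧ (∀ v ∈ D2, v ∈ Re) ∧ bd N D1 < bd N D ∧ bd N D2 < bd N D ∧
    ∀ A B : Set V, val N A B b1 D1 + val N A B b2 D2 ≤ hh N A B D

def Hall (N : V → Finset V) (Re : Set V) (A B : Set V) : Prop :=
  ∀ D : Finset V, (∀ v ∈ D, v ∈ Re) → 0 ≤ hh N A B D ∧ 0 ≤ hh N B A D

def Inv (N : V → Finset V) (Re : Set V) (M : ℤ) (Sm : Finset V → Prop) (A B : Set V) : Prop :=
  ∀ D : Finset V, (∀ v ∈ D, v ∈ Re) → ¬ Red N Re D →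
    Sm D ∨ (bd N D ≤ M * hh N A B D ∧ bd N D ≤ M * hh N B A D)

variable {N : V → Finset V} {Re : Set V}

theorem mem_er {D : Finset V} {v : V} : v ∈ er N D ↔ v ∈ D ∧ N v ⊆ D := by simp [er]
theorem mem_dil {D : Finset V} {v : V} : v ∈ dil N D ↔ ∃ u ∈ D, v ∈ N u := by simp [dil]

theorem er_sub (D : Finset V) : er N D ⊆ D := Finset.filter_subset _ _

theorem bd_nonneg (D : Finset V) : 0 ≤ bd N D := by
  have := Finset.card_le_card (er_sub (N := N) D)
  simp only [bd]; omega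

theorem bd_pos (hN : Adj N Re) {D : Finset V} (hD : D.Nonempty) (hR : ∀ v ∈ D, v ∈ Re) : 0 < bd N D := by
  obtain ⟨v, hv, hv2⟩ := hN.inf D hD hR
  have : er N D ⊂ D := by
    refine ⟨er_sub D, fun h => hv2 ?_⟩
    exact (mem_er.mp (h hv)).2
  have := Finset.card_lt_card this
  simp only [bd]; omega

theorem bd_empty : bd N ∅ = 0 := by simp [bd, er]

theorem cnt_union {S : Set V} {D E : Finset V} (h : Disjoint D E) : cnt S (D ∪ E) = cnt S D + cnt S E := by
  simp only [cnt]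
  rw [Finset.filter_union, Finset.card_union_of_disjoint (Finset.disjoint_filter_filter h)]
  push_cast; rfl

theorem cnt_mono {S : Set V} {D E : Finset V} (h : D ⊆ E) : cnt S D ≤ cnt S E := by
  simp only [cnt]
  exact_mod_cast Finset.card_le_card (Finset.filter_subset_filter _ h)

theorem cnt_nonneg {S : Set V} {D : Finset V} : 0 ≤ cnt S D := by simp [cnt]

theorem cnt_empty {S : Set V} : cnt S ∅ = 0 := by simp [cnt]

theorem val_empty (A B : Set V) (b : Bool) : val N A B b ∅ = 0 := by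
  cases b <;> simp [val, hh, er, cnt_empty]

/-- opening -/
theorem red_open (hN : Adj N Re) {D : Finset V} (hR : ∀ v ∈ D, v ∈ Re) (hne : D.Nonempty)
    (h : dil N (er N D) ≠ D) : Red N Re D := by
  have hsub : dil N (er N D) ⊆ D := by
    intro v hv
    obtain ⟨u, hu, hv2⟩ := mem_dil.mp hv
    exact (mem_er.mp hu).2 hv2
  have her : er N (dil N (er N D)) = er N D := by
    ext v
    rw [mem_er, mem_er]
    constructor
    · rintro ⟨h1, h2⟩
      exact ⟨hsub h1, h2.trans hsub⟩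
    · intro h1
      have h3 : v ∈ er N D := mem_er.mpr h1
      refine ⟨mem_dil.mpr ⟨v, h3, hN.self v⟩, ?_⟩
      intro u hu
      exact mem_dil.mpr ⟨v, h3, hu⟩
  refine ⟨true, dil N (er N D), true, ∅, fun v hv => hR v (hsub hv), by simp, ?_, ?_, ?_⟩
  · have h1 : dil N (er N D) ⊂ D := Finset.ssubset_iff_subset_ne.mpr ⟨hsub, h⟩
    have h2 := Finset.card_lt_card h1
    simp only [bd, her]; omega
  · rw [bd_empty]; exact bd_pos hN hne hR
  · intro A B
    rw [val_empty, add_zero]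
    simp only [val, if_true, hh, her]
    have := cnt_mono (S := B) hsub
    linarith

/-- splitting along a shell -/
theorem shell_split (hN : Adj N Re) {D I Th : Finset V} (hR : ∀ v ∈ D, v ∈ Re) (hIR : ∀ v ∈ I, v ∈ Re)
    (hIN : ∀ v ∈ I, N v ⊆ I ∪ Th)
    (hconn : ∀ S : Finset V, (∃ u ∈ Th, u ∈ S) → (∀ u ∈ Th, u ∈ S → ∀ w ∈ Th, w ∈ N u → w ∈ S) → Th ⊆ S)
    (hfree : ∀ v ∈ Th, v ∈ D → N v ⊆ D)
    {p q : V} (hpD : p ∈ D) (hpI : p ∈ I) (hqI : N q ⊆ I) (hqD : ¬ N q ⊆ D) :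
    D ⊆ I ∨ Red N Re D := by
  by_cases hcase : ∃ u ∈ Th, u ∈ D
  · -- the shell is inside D
    right
    have hTh : Th ⊆ D := hconn D hcase (fun u hu huD w _ hwN => hfree u hu huD hwN)
    have hThN : ∀ v ∈ Th, N v ⊆ D := fun v hv => hfree v hv (hTh hv)
    set C := I \ D with hC
    have hCne : C.Nonempty := by
      obtain ⟨w, hw1, hw2⟩ := Finset.not_subset.mp hqD
      exact ⟨w, Finset.mem_sdiff.mpr ⟨hqI hw1, hw2⟩⟩
    have hCR : ∀ v ∈ C, v ∈ Re := fun v hv => hIR v (Finset.mem_sdiff.mp hv).1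
    have hdCR : ∀ v ∈ dil N C, v ∈ Re := by
      intro v hv
      obtain ⟨u, hu, hv2⟩ := mem_dil.mp hv
      exact hN.re u (hCR u hu) v hv2
    -- D1 = D ∪ C = D ∪ I
    have hD1 : D ∪ C = D ∪ I := by
      ext v; simp only [hC, Finset.mem_union, Finset.mem_sdiff]; tauto
    have hDC : Disjoint D C := by
      rw [Finset.disjoint_left]; intro v h1 h2; exact (Finset.mem_sdiff.mp h2).2 h1
    -- dil C is inside I
    have hdilI : dil N C ⊆ I := by
      intro v hv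
      obtain ⟨u, hu, hv2⟩ := mem_dil.mp hv
      have hu' := Finset.mem_sdiff.mp hu
      have h1 := hIN u hu'.1 hv2
      rcases Finset.mem_union.mp h1 with h2 | h2
      · exact h2
      · exfalso
        exact hu'.2 (hThN v h2 (hN.symm _ _ hv2))
    have her1 : er N (D ∪ C) = er N D ∪ dil N C := by
      ext v
      rw [Finset.mem_union, mem_er, mem_er]
      constructor
      · rintro ⟨h1, h2⟩
        by_cases h3 : N v ⊆ D
        · left
          exact ⟨h3 (hN.self v), h3⟩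
        · right
          obtain ⟨w, hw1, hw2⟩ := Finset.not_subset.mp h3
          have hwC : w ∈ C := by
            rcases Finset.mem_union.mp (h2 hw1) with h4 | h4
            · exact absurd h4 hw2
            · exact h4
          exact mem_dil.mpr ⟨w, hwC, hN.symm _ _ hw1⟩
      · rintro (⟨h1, h2⟩ | h1)
        · exact ⟨Finset.mem_union_left _ h1, h2.trans Finset.subset_union_left⟩
        · have h2 := hdilI h1
          rw [hD1]
          refine ⟨Finset.mem_union_right _ h2, ?_⟩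
          intro w hw
          rcases Finset.mem_union.mp (hIN v h2 hw) with h3 | h3
          · exact Finset.mem_union_right _ h3
          · exact Finset.mem_union_left _ (hTh h3)
    have hdis2 : Disjoint (er N D) (dil N C) := by
      rw [Finset.disjoint_left]
      intro v h1 h2
      obtain ⟨u, hu, hv2⟩ := mem_dil.mp h2
      exact (Finset.mem_sdiff.mp hu).2 ((mem_er.mp h1).2 (hN.symm _ _ hv2))
    have hCdil : C ⊆ dil N C := fun v hv => mem_dil.mpr ⟨v, hv, hN.self v⟩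
    have hCer : C ⊆ er N (dil N C) := by
      intro v hv
      exact mem_er.mpr ⟨hCdil hv, fun w hw => mem_dil.mpr ⟨v, hv, hw⟩⟩
    have hD1R : ∀ v ∈ D ∪ C, v ∈ Re := by
      intro v hv
      rcases Finset.mem_union.mp hv with h | h
      · exact hR v h
      · exact hCR v h
    -- cardinalities
    have c1 : ((D ∪ C).card : ℤ) = D.card + C.card := by
      rw [Finset.card_union_of_disjoint hDC]; push_cast; rfl
    have c2 : ((er N (D ∪ C)).card : ℤ) = (er N D).card + (dil N C).card := by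
      rw [her1, Finset.card_union_of_disjoint hdis2]; push_cast; rfl
    have c3 : C.card < (dil N C).card := by
      obtain ⟨v, hv, hv2⟩ := hN.inf C hCne hCR
      apply Finset.card_lt_card
      refine ⟨hCdil, fun h => hv2 ?_⟩
      intro w hw
      exact h (mem_dil.mpr ⟨v, hv, hw⟩)
    have c4 : C.card ≤ (er N (dil N C)).card := Finset.card_le_card hCer
    have c5 : 0 < bd N (D ∪ C) := bd_pos hN ⟨p, Finset.mem_union_left _ hpD⟩ hD1R
    refine ⟨true, D ∪ C, false, dil N C, hD1R, hdCR, ?_, ?_, ?_⟩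
    · simp only [bd, c1, c2]; omega
    · simp only [bd, c1, c2] at c5 ⊢; omega
    · intro A B
      simp only [val, if_true, Bool.false_eq_true, if_false, hh]
      rw [cnt_union hDC, her1, cnt_union hdis2]
      have := cnt_mono (S := B) hCer
      linarith
  · -- the shell misses D
    push Not at hcase
    by_cases hDI : D ⊆ I
    · left; exact hDI
    · right
      set D1 := D ∩ I with hD1
      set D2 := D \ I with hD2
      have hU : D1 ∪ D2 = D := by
        ext v; simp only [hD1, hD2, Finset.mem_union, Finset.mem_inter, Finset.mem_sdiff]; tauto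
      have hDis : Disjoint D1 D2 := by
        rw [Finset.disjoint_left]; intro v h1 h2
        exact (Finset.mem_sdiff.mp h2).2 (Finset.mem_inter.mp h1).2
      have hne1 : D1.Nonempty := ⟨p, Finset.mem_inter.mpr ⟨hpD, hpI⟩⟩
      have hne2 : D2.Nonempty := by
        obtain ⟨w, hw1, hw2⟩ := Finset.not_subset.mp hDI
        exact ⟨w, Finset.mem_sdiff.mpr ⟨hw1, hw2⟩⟩
      have hR1 : ∀ v ∈ D1, v ∈ Re := fun v hv => hR v (Finset.mem_inter.mp hv).1
      have hR2 : ∀ v ∈ D2, v ∈ Re := fun v hv => hR v (Finset.mem_sdiff.mp hv).1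
      have her : er N D = er N D1 ∪ er N D2 := by
        ext v
        rw [Finset.mem_union, mem_er, mem_er, mem_er]
        constructor
        · rintro ⟨h1, h2⟩
          by_cases h3 : v ∈ I
          · left
            refine ⟨Finset.mem_inter.mpr ⟨h1, h3⟩, ?_⟩
            intro w hw
            refine Finset.mem_inter.mpr ⟨h2 hw, ?_⟩
            rcases Finset.mem_union.mp (hIN v h3 hw) with h4 | h4
            · exact h4
            · exact absurd (h2 hw) (hcase w h4)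
          · right
            refine ⟨Finset.mem_sdiff.mpr ⟨h1, h3⟩, ?_⟩
            intro w hw
            refine Finset.mem_sdiff.mpr ⟨h2 hw, fun h4 => ?_⟩
            rcases Finset.mem_union.mp (hIN w h4 (hN.symm _ _ hw)) with h5 | h5
            · exact h3 h5
            · exact hcase v h5 h1
        · rintro (⟨h1, h2⟩ | ⟨h1, h2⟩)
          · exact ⟨(Finset.mem_inter.mp h1).1, h2.trans Finset.inter_subset_left⟩
          · exact ⟨(Finset.mem_sdiff.mp h1).1, h2.trans Finset.sdiff_subset⟩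
      have hDis2 : Disjoint (er N D1) (er N D2) :=
        Finset.disjoint_of_subset_left (er_sub _) (Finset.disjoint_of_subset_right (er_sub _) hDis)
      have c1 : (D.card : ℤ) = D1.card + D2.card := by
        rw [← hU, Finset.card_union_of_disjoint hDis]; push_cast; rfl
      have c2 : ((er N D).card : ℤ) = (er N D1).card + (er N D2).card := by
        rw [her, Finset.card_union_of_disjoint hDis2]; push_cast; rfl
      have c3 := bd_pos hN hne1 hR1
      have c4 := bd_pos hN hne2 hR2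
      refine ⟨true, D1, true, D2, hR1, hR2, ?_, ?_, ?_⟩
      · simp only [bd, c1, c2] at c3 c4 ⊢; omega
      · simp only [bd, c1, c2] at c3 c4 ⊢; omega
      · intro A B
        simp only [val, if_true, hh]
        have e1 : cnt B D = cnt B D1 + cnt B D2 := by rw [← hU, cnt_union hDis]
        have e2 : cnt A (er N D) = cnt A (er N D1) + cnt A (er N D2) := by rw [her, cnt_union hDis2]
        linarith

end Pool.Agent.H382RO

namespace Pool.Agent.H382RO
open Finset Classical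

variable {V : Type} {N : V → Finset V} {Re : Set V}

theorem cnt_diff {S T : Set V} (h : T ⊆ S) (D : Finset V) : cnt (S \ T) D = cnt S D - cnt T D := by
  simp only [cnt]
  have : D.filter (fun v => v ∈ S) = D.filter (fun v => v ∈ S \ T) ∪ D.filter (fun v => v ∈ T) := by
    ext v
    simp only [Finset.mem_union, Finset.mem_filter, Set.mem_sdiff]
    constructor
    · rintro ⟨h1, h2⟩
      by_cases h3 : v ∈ T
      · right; exact ⟨h1, h3⟩
      · left; exact ⟨h1, h2, h3⟩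
    · rintro (⟨h1, h2, h3⟩ | ⟨h1, h2⟩)
      · exact ⟨h1, h2⟩
      · exact ⟨h1, h h2⟩
  rw [this, Finset.card_union_of_disjoint]
  · push_cast
    rw [add_sub_cancel_right]
    congr!
  · rw [Finset.disjoint_left]
    intro v h1 h2
    exact (Finset.mem_filter.mp h1).2.2 (Finset.mem_filter.mp h2).2

def fsts (Pz : Set (V × V)) : Set V := {v | ∃ p ∈ Pz, p.1 = v}
def snds (Pz : Set (V × V)) : Set V := {v | ∃ p ∈ Pz, p.2 = v}

theorem half_stage {A B : Set V} {M : ℤ} (hM : 1 ≤ M) {Sm' : Finset V → Prop}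
    (Pz : Set (V × V)) (hinj1 : ∀ p ∈ Pz, ∀ q ∈ Pz, p.1 = q.1 → p = q)
    (hA : ∀ p ∈ Pz, p.1 ∈ A) (hB : ∀ p ∈ Pz, p.2 ∈ B)
    (hself : ∀ v, v ∈ N v)
    (Out : V × V → Finset V) (hdisj : ∀ p ∈ Pz, ∀ q ∈ Pz, p ≠ q → Disjoint (Out p) (Out q))
    {D : Finset V} (hnS : ¬ Sm' D) 
    (hsh : ∀ p ∈ Pz, p.2 ∈ D → ¬ N p.1 ⊆ D → Sm' D ∨ 2 * M ≤ ((((D \ er N D) ∩ Out p).card : ℕ) : ℤ))
    (hb : bd N D ≤ M * hh N A B D) :
    bd N D ≤ 2 * M * hh N (A \ fsts Pz) (B \ snds Pz) D := by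
  have hXA : fsts Pz ⊆ A := by rintro v ⟨p, hp, rfl⟩; exact hA p hp
  have hYB : snds Pz ⊆ B := by rintro v ⟨p, hp, rfl⟩; exact hB p hp
  set Hf := D.filter (fun w => ∃ p ∈ Pz, p.2 = w ∧ ¬ N p.1 ⊆ D) with hHf
  have h1 : cnt (snds Pz) D ≤ cnt (fsts Pz) (er N D) + Hf.card := by
    simp only [cnt]
    have hsub : D.filter (fun v => v ∈ snds Pz) ⊆
        D.filter (fun v => ∃ p ∈ Pz, p.2 = v ∧ N p.1 ⊆ D) ∪ Hf := by
      intro v hv
      obtain ⟨h2, p, hp, hp2⟩ := Finset.mem_filter.mp hv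
      by_cases h3 : N p.1 ⊆ D
      · exact Finset.mem_union_left _ (Finset.mem_filter.mpr ⟨h2, p, hp, hp2, h3⟩)
      · exact Finset.mem_union_right _ (Finset.mem_filter.mpr ⟨h2, p, hp, hp2, h3⟩)
    have h4 : (D.filter (fun v => ∃ p ∈ Pz, p.2 = v ∧ N p.1 ⊆ D)).card ≤
        ((er N D).filter (fun v => v ∈ fsts Pz)).card := by
      have hch : ∀ v, ∃ u, v ∈ D.filter (fun v => ∃ p ∈ Pz, p.2 = v ∧ N p.1 ⊆ D) →
          (u, v) ∈ Pz ∧ N u ⊆ D := by
        intro v
        by_cases h : v ∈ D.filter (fun v => ∃ p ∈ Pz, p.2 = v ∧ N p.1 ⊆ D)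
        · obtain ⟨_, p, hp, rfl, hp3⟩ := Finset.mem_filter.mp h
          exact ⟨p.1, fun _ => ⟨hp, hp3⟩⟩
        · exact ⟨v, fun h' => absurd h' h⟩
      choose u hu using hch
      apply Finset.card_le_card_of_injOn u
      · intro v hv
        obtain ⟨h5, h6⟩ := hu v hv
        exact Finset.mem_coe.mpr (Finset.mem_filter.mpr ⟨mem_er.mpr ⟨h6 (hself _), h6⟩, ⟨_, h5, rfl⟩⟩)
      · intro v hv w hw hvw
        have h5 := (hu v hv).1
        have h6 := (hu w hw).1
        have := hinj1 _ h5 _ h6 hvw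
        exact congrArg Prod.snd this
    have h5 := Finset.card_le_card hsub
    have h6 := Finset.card_union_le (D.filter (fun v => ∃ p ∈ Pz, p.2 = v ∧ N p.1 ⊆ D)) Hf
    have h7 : (D.filter (fun v => v ∈ snds Pz)).card ≤ ((er N D).filter (fun v => v ∈ fsts Pz)).card + Hf.card := by
      omega
    exact_mod_cast h7
  have h2 : 2 * M * (Hf.card : ℤ) ≤ bd N D := by
    have hch : ∀ w, ∃ p, w ∈ Hf → p ∈ Pz ∧ p.2 = w ∧ ¬ N p.1 ⊆ D := by
      intro w
      by_cases h : w ∈ Hf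
      · obtain ⟨_, p, hp⟩ := Finset.mem_filter.mp h
        exact ⟨p, fun _ => hp⟩
      · exact ⟨(w, w), fun h' => absurd h' h⟩
    choose pw hpw using hch
    have h3 : (Hf.biUnion (fun w => (D \ er N D) ∩ Out (pw w))) ⊆ D \ er N D := by
      intro v hv
      obtain ⟨w, _, hv2⟩ := Finset.mem_biUnion.mp hv
      exact (Finset.mem_inter.mp hv2).1
    have h4 := Finset.card_le_card h3
    rw [Finset.card_biUnion] at h4
    · have h5 : (Hf.card : ℤ) * (2 * M) ≤ ∑ w ∈ Hf, ((((D \ er N D) ∩ Out (pw w)).card : ℕ) : ℤ) := by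
        rw [← nsmul_eq_mul, ← Finset.sum_const]
        apply Finset.sum_le_sum
        intro w hw
        obtain ⟨h6, h7, h8⟩ := hpw w hw
        have hwD := (Finset.mem_filter.mp hw).1
        rcases hsh _ h6 (by rw [h7]; exact hwD) h8 with h9 | h9
        · exact absurd h9 hnS
        · exact h9
      have h6 : ((D \ er N D).card : ℤ) = bd N D := by
        rw [bd, Finset.card_sdiff_of_subset (er_sub D)]
        have := Finset.card_le_card (er_sub (N := N) D)
        omega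
      rw [← h6]
      have h7 : ((∑ w ∈ Hf, (((D \ er N D) ∩ Out (pw w)).card) : ℕ) : ℤ) ≤ ((D \ er N D).card : ℤ) := by
        exact_mod_cast h4
      push_cast at h7
      linarith
    · intro a ha b hb hab
      have h5 : pw a ≠ pw b := by
        intro h; apply hab
        rw [← (hpw a ha).2.1, ← (hpw b hb).2.1, h]
      exact Finset.disjoint_of_subset_left Finset.inter_subset_right
        (Finset.disjoint_of_subset_right Finset.inter_subset_right
          (hdisj _ (hpw a ha).1 _ (hpw b hb).1 h5))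
  have h3 : hh N A B D - Hf.card ≤ hh N (A \ fsts Pz) (B \ snds Pz) D := by
    simp only [hh, cnt_diff hXA, cnt_diff hYB]
    linarith
  nlinarith

def swapP (Pz : Set (V × V)) : Set (V × V) := {p | (p.2, p.1) ∈ Pz}

theorem fsts_swap (Pz : Set (V × V)) : fsts (swapP Pz) = snds Pz := by
  ext v
  constructor
  · rintro ⟨p, hp, rfl⟩; exact ⟨_, hp, rfl⟩
  · rintro ⟨p, hp, rfl⟩; exact ⟨(p.2, p.1), hp, rfl⟩

theorem snds_swap (Pz : Set (V × V)) : snds (swapP Pz) = fsts Pz := by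
  ext v
  constructor
  · rintro ⟨p, hp, rfl⟩; exact ⟨_, hp, rfl⟩
  · rintro ⟨p, hp, rfl⟩; exact ⟨(p.2, p.1), hp, rfl⟩

theorem Hall.symm {A B : Set V} (h : Hall N Re A B) : Hall N Re B A := fun D hD => ⟨(h D hD).2, (h D hD).1⟩

theorem cnt_congr {S T : Set V} {D : Finset V} (h : ∀ v ∈ D, v ∈ S ↔ v ∈ T) : cnt S D = cnt T D := by
  simp only [cnt]
  rw [Finset.filter_congr h]

theorem stage (hN : Adj N Re) {A B : Set V} {M : ℤ} (hM : 1 ≤ M) {Sm Sm' : Finset V → Prop}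
    (hSm : ∀ D, Sm D → Sm' D) (hH : Hall N Re A B) (hI : Inv N Re M Sm A B)
    (Pz : Set (V × V)) (hinj1 : ∀ p ∈ Pz, ∀ q ∈ Pz, p.1 = q.1 → p = q)
    (hinj2 : ∀ p ∈ Pz, ∀ q ∈ Pz, p.2 = q.2 → p = q)
    (hA : ∀ p ∈ Pz, p.1 ∈ A) (hB : ∀ p ∈ Pz, p.2 ∈ B)
    (hsingle : ∀ p ∈ Pz, Hall N Re (A \ {p.1}) (B \ {p.2}))
    (Out : V × V → Finset V) (hdisj : ∀ p ∈ Pz, ∀ q ∈ Pz, p ≠ q → Disjoint (Out p) (Out q))
    (hsh : ∀ p ∈ Pz, ∀ D : Finset V, (∀ v ∈ D, v ∈ Re) → ¬ Red N Re D →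
      ((p.2 ∈ D ∧ ¬ N p.1 ⊆ D) ∨ (p.1 ∈ D ∧ ¬ N p.2 ⊆ D)) →
      Sm' D ∨ 2 * M ≤ ((((D \ er N D) ∩ Out p).card : ℕ) : ℤ))
    (hsmall : ∀ D, Sm' D → ∀ p ∈ Pz, ∀ q ∈ Pz, (p.1 ∈ D ∨ p.2 ∈ D) → (q.1 ∈ D ∨ q.2 ∈ D) → p = q) :
    Hall N Re (A \ fsts Pz) (B \ snds Pz) ∧ Inv N Re (2 * M) Sm' (A \ fsts Pz) (B \ snds Pz) := by
  have hI' : Inv N Re (2 * M) Sm' (A \ fsts Pz) (B \ snds Pz) := by
    intro D hD hirr
    by_cases hS : Sm' D
    · left; exact hS
    · right
      rcases hI D hD hirr with h | ⟨h1, h2⟩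
      · exact absurd (hSm D h) hS
      · constructor
        · exact half_stage hM Pz hinj1 hA hB hN.self Out hdisj hS
            (fun p hp h3 h4 => hsh p hp D hD hirr (Or.inl ⟨h3, h4⟩)) h1
        · have := half_stage (A := B) (B := A) hM (swapP Pz)
            (fun p hp q hq h => by
              have := hinj2 _ hp _ hq h
              exact Prod.ext (congrArg Prod.snd this) (congrArg Prod.fst this))
            (fun p hp => hB _ hp) (fun p hp => hA _ hp) hN.self (fun p => Out (p.2, p.1))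
            (fun p hp q hq h => hdisj _ hp _ hq (fun e => h (Prod.ext (congrArg Prod.snd e) (congrArg Prod.fst e))))
            hS (fun p hp h3 h4 => hsh (p.2, p.1) hp D hD hirr (Or.inr ⟨h3, h4⟩)) h2
          rwa [fsts_swap, snds_swap] at this
  refine ⟨?_, hI'⟩
  -- Hall by induction on the boundary
  have key : ∀ (k : ℕ) (D : Finset V), (bd N D).toNat ≤ k → (∀ v ∈ D, v ∈ Re) →
      0 ≤ hh N (A \ fsts Pz) (B \ snds Pz) D ∧ 0 ≤ hh N (B \ snds Pz) (A \ fsts Pz) D := by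
    intro k
    induction k using Nat.strong_induction_on with
    | _ k ih =>
      intro D hk hD
      by_cases hred : Red N Re D
      · obtain ⟨b1, D1, b2, D2, hD1, hD2, hb1, hb2, hval⟩ := hred
        have n1 := bd_nonneg (N := N) D1
        have n2 := bd_nonneg (N := N) D2
        have i1 := ih (bd N D1).toNat (by omega) D1 le_rfl hD1
        have i2 := ih (bd N D2).toNat (by omega) D2 le_rfl hD2
        have v1 := hval (A \ fsts Pz) (B \ snds Pz)
        have v2 := hval (B \ snds Pz) (A \ fsts Pz)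
        have w1 : ∀ b : Bool, ∀ E : Finset V, (0 ≤ hh N (A \ fsts Pz) (B \ snds Pz) E ∧
            0 ≤ hh N (B \ snds Pz) (A \ fsts Pz) E) → 0 ≤ val N (A \ fsts Pz) (B \ snds Pz) b E := by
          intro b E h; cases b
          · exact h.2
          · exact h.1
        have w2 : ∀ b : Bool, ∀ E : Finset V, (0 ≤ hh N (A \ fsts Pz) (B \ snds Pz) E ∧
            0 ≤ hh N (B \ snds Pz) (A \ fsts Pz) E) → 0 ≤ val N (B \ snds Pz) (A \ fsts Pz) b E := by
          intro b E h; cases b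
          · exact h.1
          · exact h.2
        constructor
        · linarith [w1 b1 D1 i1, w1 b2 D2 i2]
        · linarith [w2 b1 D1 i1, w2 b2 D2 i2]
      · rcases hI' D hD hred with hS | ⟨h1, h2⟩
        · -- small set
          by_cases hex : ∃ p ∈ Pz, (p.1 ∈ D ∨ p.2 ∈ D)
          · obtain ⟨p, hp, hpD⟩ := hex
            have e1 : ∀ v ∈ D, v ∈ A \ fsts Pz ↔ v ∈ A \ {p.1} := by
              intro v hv
              simp only [Set.mem_sdiff, Set.mem_singleton_iff]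
              constructor
              · rintro ⟨h3, h4⟩
                exact ⟨h3, fun h5 => h4 ⟨p, hp, h5.symm⟩⟩
              · rintro ⟨h3, h4⟩
                refine ⟨h3, ?_⟩
                rintro ⟨q, hq, rfl⟩
                exact h4 (by rw [hsmall D hS p hp q hq hpD (Or.inl hv)])
            have e2 : ∀ v ∈ D, v ∈ B \ snds Pz ↔ v ∈ B \ {p.2} := by
              intro v hv
              simp only [Set.mem_sdiff, Set.mem_singleton_iff]
              constructor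
              · rintro ⟨h3, h4⟩
                exact ⟨h3, fun h5 => h4 ⟨p, hp, h5.symm⟩⟩
              · rintro ⟨h3, h4⟩
                refine ⟨h3, ?_⟩
                rintro ⟨q, hq, rfl⟩
                exact h4 (by rw [hsmall D hS p hp q hq hpD (Or.inr hv)])
            have h3 := hsingle p hp D hD
            simp only [hh] at h3 ⊢
            rw [cnt_congr e2, cnt_congr e1, cnt_congr (fun v hv => e1 v (er_sub D hv)),
              cnt_congr (fun v hv => e2 v (er_sub D hv))]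
            exact h3
          · push Not at hex
            have e1 : ∀ v ∈ D, v ∈ A \ fsts Pz ↔ v ∈ A := by
              intro v hv
              simp only [Set.mem_sdiff, and_iff_left_iff_imp]
              rintro _ ⟨q, hq, rfl⟩
              exact (hex q hq).1 hv
            have e2 : ∀ v ∈ D, v ∈ B \ snds Pz ↔ v ∈ B := by
              intro v hv
              simp only [Set.mem_sdiff, and_iff_left_iff_imp]
              rintro _ ⟨q, hq, rfl⟩
              exact (hex q hq).2 hv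
            have h3 := hH D hD
            simp only [hh] at h3 ⊢
            rw [cnt_congr e2, cnt_congr e1, cnt_congr (fun v hv => e1 v (er_sub D hv)),
              cnt_congr (fun v hv => e2 v (er_sub D hv))]
            exact h3
        · have n := bd_nonneg (N := N) D
          constructor
          · by_contra hc
            push Not at hc
            nlinarith
          · by_contra hc
            push Not at hc
            nlinarith
  intro D hD
  exact key _ D le_rfl hD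

end Pool.Agent.H382RO

namespace Pool.Agent.H382RO
open Finset Classical

variable {V : Type} {N : V → Finset V} {Re : Set V}

theorem hall_inj (hN : Adj N Re) {A B : Set V} (hAR : A ⊆ Re)
    (h : ∀ D : Finset V, (∀ v ∈ D, v ∈ Re) → 0 ≤ hh N A B D) :
    ∃ f : A → B, Function.Injective f ∧ ∀ a : A, ((f a : B) : V) ∈ N a := by
  let t : A → Finset V := fun a => (N a).filter (fun v => v ∈ B)
  have hcond : ∀ s : Finset A, s.card ≤ (s.biUnion t).card := by
    intro s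
    set E := s.map (Function.Embedding.subtype _) with hE
    have hEA : ∀ v ∈ E, v ∈ A := by
      intro v hv
      obtain ⟨a, _, rfl⟩ := Finset.mem_map.mp hv
      exact a.2
    have hDR : ∀ v ∈ dil N E, v ∈ Re := by
      intro v hv
      obtain ⟨u, hu, hv2⟩ := mem_dil.mp hv
      exact hN.re u (hAR (hEA u hu)) v hv2
    have h1 := h (dil N E) hDR
    simp only [hh, cnt] at h1
    have h2 : E.card ≤ ((er N (dil N E)).filter (fun v => v ∈ A)).card := by
      apply Finset.card_le_card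
      intro v hv
      refine Finset.mem_filter.mpr ⟨mem_er.mpr ⟨mem_dil.mpr ⟨v, hv, hN.self v⟩, ?_⟩, hEA v hv⟩
      intro w hw
      exact mem_dil.mpr ⟨v, hv, hw⟩
    have h3 : (dil N E).filter (fun v => v ∈ B) = s.biUnion t := by
      ext v
      simp only [Finset.mem_filter, mem_dil, Finset.mem_biUnion, t, hE, Finset.mem_map]
      constructor
      · rintro ⟨⟨u, ⟨a, ha, rfl⟩, hv⟩, hB⟩
        exact ⟨a, ha, hv, hB⟩
      · rintro ⟨a, ha, hv, hB⟩
        exact ⟨⟨_, ⟨a, ha, rfl⟩, hv⟩, hB⟩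
    rw [h3] at h1
    have h4 : E.card = s.card := Finset.card_map _
    omega
  obtain ⟨f, hf1, hf2⟩ := (Finset.all_card_le_biUnion_card_iff_exists_injective t).mp hcond
  refine ⟨fun a => ⟨f a, (Finset.mem_filter.mp (hf2 a)).2⟩, ?_, fun a => (Finset.mem_filter.mp (hf2 a)).1⟩
  intro a b hab
  exact hf1 (congrArg Subtype.val hab)

theorem cnt_le {S T : Set V} {D E : Finset V} (F : V → V) (h1 : ∀ v ∈ D, v ∈ S → F v ∈ E ∧ F v ∈ T)
    (h2 : ∀ v ∈ D, ∀ w ∈ D, v ∈ S → w ∈ S → F v = F w → v = w) : cnt S D ≤ cnt T E := by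
  simp only [cnt]
  have : (D.filter (fun v => v ∈ S)).card ≤ (E.filter (fun v => v ∈ T)).card := by
    apply Finset.card_le_card_of_injOn F
    · intro v hv
      obtain ⟨h3, h4⟩ := Finset.mem_filter.mp (Finset.mem_coe.mp hv)
      exact Finset.mem_coe.mpr (Finset.mem_filter.mpr (h1 v h3 h4))
    · intro v hv w hw hvw
      obtain ⟨h3, h4⟩ := Finset.mem_filter.mp (Finset.mem_coe.mp hv)
      obtain ⟨h5, h6⟩ := Finset.mem_filter.mp (Finset.mem_coe.mp hw)
      exact h2 v h3 w h5 h4 h6 hvw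
  exact_mod_cast this

theorem single_removal (hN : Adj N Re) {A B : Set V} (hAR : A ⊆ Re) (hBR : B ⊆ Re) (hH : Hall N Re A B)
    {x : V} (hx : x ∈ A) : ∃ y ∈ B, y ∈ N x ∧ Hall N Re (A \ {x}) (B \ {y}) := by
  obtain ⟨f, hf1, hf2⟩ := hall_inj hN hAR (fun D hD => (hH D hD).1)
  obtain ⟨g, hg1, hg2⟩ := hall_inj hN hBR (fun D hD => (hH D hD).2)
  obtain ⟨π, hπ, hπ2⟩ := Function.Embedding.schroeder_bernstein_of_rel hf1 hg1
    (fun (a : A) (b : B) => (b : V) ∈ N a) hf2 (fun b => hN.symm _ _ (hg2 b))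
  refine ⟨π ⟨x, hx⟩, (π ⟨x, hx⟩).2, hπ2 _, ?_⟩
  intro D hD
  constructor
  · simp only [hh, sub_nonneg]
    let F : V → V := fun v => if h : v ∈ A then (π ⟨v, h⟩ : V) else v
    apply cnt_le F
    · rintro v h1 ⟨h2, h3⟩
      simp only [F, dif_pos h2]
      refine ⟨(mem_er.mp h1).2 (hπ2 ⟨v, h2⟩), (π ⟨v, h2⟩).2, ?_⟩
      intro h4
      have h5 := hπ.1 (Subtype.ext h4)
      exact h3 (congrArg Subtype.val h5)
    · rintro v _ w _ ⟨h2, h3⟩ ⟨h2', h3'⟩ hvw
      simp only [F, dif_pos h2, dif_pos h2'] at hvw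
      have h5 := hπ.1 (Subtype.ext hvw)
      exact congrArg Subtype.val h5
  · simp only [hh, sub_nonneg]
    have hsurj := hπ.2
    choose ψ hψ using hsurj
    let F : V → V := fun v => if h : v ∈ B then (ψ ⟨v, h⟩ : V) else v
    apply cnt_le F
    · rintro v h1 ⟨h2, h3⟩
      simp only [F, dif_pos h2]
      refine ⟨(mem_er.mp h1).2 ?_, (ψ ⟨v, h2⟩).2, ?_⟩
      · have h4 := hπ2 (ψ ⟨v, h2⟩)
        rw [hψ] at h4
        exact hN.symm _ _ h4
      · intro h4
        apply h3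
        have h5 : ψ ⟨v, h2⟩ = ⟨x, hx⟩ := Subtype.ext h4
        have h6 := hψ ⟨v, h2⟩
        rw [h5] at h6
        exact (congrArg Subtype.val h6).symm
    · rintro v _ w _ ⟨h2, h3⟩ ⟨h2', h3'⟩ hvw
      simp only [F, dif_pos h2, dif_pos h2'] at hvw
      have h5 : ψ ⟨v, h2⟩ = ψ ⟨w, h2'⟩ := Subtype.ext hvw
      have h6 := hψ ⟨v, h2⟩
      rw [h5, hψ] at h6
      exact (congrArg Subtype.val h6).symm

/-! balls -/

noncomputable def ball (nb : V → Finset V) : ℕ → V → Finset V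
  | 0, v => {v}
  | (r+1), v => (ball nb r v).biUnion nb

variable {nb : V → Finset V}

theorem mem_ball_succ {r : ℕ} {v w : V} : w ∈ ball nb (r+1) v ↔ ∃ u ∈ ball nb r v, w ∈ nb u := by
  simp [ball]

theorem mem_ball_self (hs : ∀ v, v ∈ nb v) (r : ℕ) (v : V) : v ∈ ball nb r v := by
  induction r with
  | zero => simp [ball]
  | succ r ih => exact mem_ball_succ.mpr ⟨v, ih, hs v⟩

theorem ball_trans {r s : ℕ} {u v w : V} (h1 : v ∈ ball nb r u) (h2 : w ∈ ball nb s v) :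
    w ∈ ball nb (r+s) u := by
  induction s generalizing w with
  | zero =>
    simp only [ball, Finset.mem_singleton] at h2
    rw [h2]; exact h1
  | succ s ih =>
    obtain ⟨x, hx, hx2⟩ := mem_ball_succ.mp h2
    exact mem_ball_succ.mpr ⟨x, ih hx, hx2⟩

theorem ball_one {u v : V} : v ∈ ball nb 1 u ↔ v ∈ nb u := by
  rw [mem_ball_succ]; simp [ball]

theorem ball_symm (hsym : ∀ u v, u ∈ nb v → v ∈ nb u) {r : ℕ} {u v : V} (h : v ∈ ball nb r u) :
    u ∈ ball nb r v := by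
  induction r generalizing v with
  | zero => simp only [ball, Finset.mem_singleton] at h ⊢; exact h.symm
  | succ r ih =>
    obtain ⟨x, hx, hx2⟩ := mem_ball_succ.mp h
    have h1 := ih hx
    have h2 : x ∈ ball nb 1 v := ball_one.mpr (hsym _ _ hx2)
    have h3 := ball_trans h2 h1
    rwa [add_comm] at h3

theorem ball_mono (hs : ∀ v, v ∈ nb v) {r s : ℕ} (h : r ≤ s) (v : V) : ball nb r v ⊆ ball nb s v := by
  intro w hw
  obtain ⟨t, rfl⟩ := Nat.exists_eq_add_of_le h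
  exact ball_trans hw (mem_ball_self hs t w)

theorem ball_re (hre : ∀ v ∈ Re, ∀ u ∈ nb v, u ∈ Re) {r : ℕ} {v w : V} (hv : v ∈ Re) (h : w ∈ ball nb r v) :
    w ∈ Re := by
  induction r generalizing w with
  | zero => simp only [ball, Finset.mem_singleton] at h; rw [h]; exact hv
  | succ r ih =>
    obtain ⟨x, hx, hx2⟩ := mem_ball_succ.mp h
    exact hre x (ih hx) w hx2

theorem ball_card {c : ℕ} (hc : ∀ v, (nb v).card ≤ c) (r : ℕ) (v : V) : (ball nb r v).card ≤ c ^ r := by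
  induction r with
  | zero => simp [ball]
  | succ r ih =>
    calc (ball nb (r+1) v).card ≤ ∑ u ∈ ball nb r v, (nb u).card := Finset.card_biUnion_le
      _ ≤ ∑ _u ∈ ball nb r v, c := Finset.sum_le_sum (fun u _ => hc u)
      _ = (ball nb r v).card * c := by rw [Finset.sum_const, smul_eq_mul]
      _ ≤ c ^ r * c := Nat.mul_le_mul_right _ ih
      _ = c ^ (r+1) := by ring

/-- discrete intermediate value along a chain -/
theorem chain_ivt (hs : ∀ v, v ∈ nb v) {D : Finset V} {ρ : ℕ} :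
    ∀ (k : ℕ) (e w : V), w ∈ ball nb k e → ball nb ρ e ⊆ D → ¬ ball nb ρ w ⊆ D →
    ∃ u, u ∈ ball nb k e ∧ ball nb ρ u ⊆ D ∧ ¬ ball nb (ρ+1) u ⊆ D := by
  intro k
  induction k with
  | zero =>
    intro e w hw h1 h2
    simp only [ball, Finset.mem_singleton] at hw
    rw [hw] at h2; exact absurd h1 h2
  | succ k ih =>
    intro e w hw h1 h2
    obtain ⟨x, hx, hx2⟩ := mem_ball_succ.mp hw
    by_cases h3 : ball nb ρ x ⊆ D
    · refine ⟨x, ball_mono hs (Nat.le_succ k) e hx, h3, fun h4 => h2 ?_⟩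
      intro y hy
      apply h4
      have : w ∈ ball nb 1 x := ball_one.mpr hx2
      have := ball_trans this hy
      rwa [add_comm] at this
    · obtain ⟨u, hu1, hu2, hu3⟩ := ih e x hx h1 h3
      exact ⟨u, ball_mono hs (Nat.le_succ k) e hu1, hu2, hu3⟩

/-- the initial slack -/
theorem slack (hs : ∀ v, v ∈ nb v) (hsym : ∀ u v, u ∈ nb v → v ∈ nb u)
    {c : ℕ} (hc : ∀ v, (nb v).card ≤ c)
    {ρ R : ℕ} (hR : 2 * ρ + 2 ≤ R) {A B : Set V} 
    (hsyn : ∀ v ∈ Re, ∃ a ∈ ball nb ρ v, a ∈ A)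
    (hH1 : ∀ D : Finset V, (∀ v ∈ D, v ∈ Re) → cnt A (er nb D) ≤ cnt B D)
    {D : Finset V} (hD : ∀ v ∈ D, v ∈ Re) (hopen : dil (ball nb R) (er (ball nb R) D) = D) :
    bd (ball nb R) D ≤ (c : ℤ) ^ (2 * R + ρ) * hh (ball nb R) A B D := by
  set N := ball nb R with hN
  set E1 := (er nb D).filter (fun v => v ∈ A) with hE1
  set E2 := (er N D).filter (fun v => v ∈ A) with hE2
  have hsub : E2 ⊆ E1 := by
    intro v hv
    obtain ⟨h1, h2⟩ := Finset.mem_filter.mp hv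
    obtain ⟨h3, h4⟩ := mem_er.mp h1
    refine Finset.mem_filter.mpr ⟨mem_er.mpr ⟨h3, ?_⟩, h2⟩
    intro w hw
    apply h4
    exact ball_mono hs (by omega) v (ball_one.mpr hw)
  -- extra points
  have hext : ∀ v ∈ D \ er N D, ∃ a ∈ E1 \ E2, v ∈ ball nb (2*R+ρ) a := by
    intro v hv
    obtain ⟨hvD, hvE⟩ := Finset.mem_sdiff.mp hv
    have h1 : v ∈ dil N (er N D) := by rw [hopen]; exact hvD
    obtain ⟨e, he, hve⟩ := mem_dil.mp h1
    have h2 : ¬ N v ⊆ D := fun h => hvE (mem_er.mpr ⟨hvD, h⟩)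
    obtain ⟨w, hw, hwD⟩ := Finset.not_subset.mp h2
    have hwe : w ∈ ball nb (R+R) e := ball_trans hve hw
    have he2 : ball nb (ρ+1) e ⊆ D := (ball_mono hs (by omega) e).trans (mem_er.mp he).2
    have hw2 : ¬ ball nb (ρ+1) w ⊆ D := fun h => hwD (h (mem_ball_self hs _ w))
    -- we want u close to v: path from v to w or from e to v
    obtain ⟨u, hu1, hu2, hu3⟩ : ∃ u, u ∈ ball nb R v ∧ ball nb (ρ+1) u ⊆ D ∧ ¬ ball nb (ρ+1+1) u ⊆ D := by
      by_cases h3 : ball nb (ρ+1) v ⊆ D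
      · exact chain_ivt hs R v w hw h3 hw2
      · -- path from e to v; all vertices within R of v? use the reversed ball
        -- chain from e to v inside ball R e; we need closeness to v: use a reversed chain
        have hrev : ∀ (k : ℕ) (x : V), e ∈ ball nb k x → ¬ ball nb (ρ+1) x ⊆ D →
            ∃ u, u ∈ ball nb k x ∧ ball nb (ρ+1) u ⊆ D ∧ ¬ ball nb (ρ+1+1) u ⊆ D := by
          intro k
          induction k with
          | zero =>
            intro x hx hx2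
            simp only [ball, Finset.mem_singleton] at hx
            rw [← hx] at hx2; exact absurd he2 hx2
          | succ k ih =>
            intro x hx hx2
            -- first step from x
            have hx' : x ∈ ball nb (k+1) e := ball_symm hsym hx
            obtain ⟨y, hy, hy2⟩ := mem_ball_succ.mp hx'
            have hy3 : e ∈ ball nb k y := ball_symm hsym hy
            have hyx : y ∈ ball nb 1 x := ball_one.mpr (hsym _ _ hy2)
            by_cases h4 : ball nb (ρ+1) y ⊆ D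
            · refine ⟨y, ?_, h4, fun h5 => hx2 ?_⟩
              · have := ball_mono hs (show 1 ≤ k+1 by omega) x hyx
                exact this
              · intro z hz
                apply h5
                have := ball_trans (ball_one.mpr hy2 : x ∈ ball nb 1 y) hz
                rwa [add_comm] at this
            · obtain ⟨u, hu1, hu2, hu3⟩ := ih y hy3 h4
              refine ⟨u, ?_, hu2, hu3⟩
              have := ball_trans hyx hu1
              rwa [add_comm] at this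
        exact hrev R v (ball_symm hsym hve) h3
    have huR : u ∈ Re := hD u (hu2 (mem_ball_self hs _ u))
    obtain ⟨a, ha1, ha2⟩ := hsyn u huR
    have hua : u ∈ ball nb ρ a := ball_symm hsym ha1
    refine ⟨a, ?_, ?_⟩
    · rw [Finset.mem_sdiff]
      constructor
      · refine Finset.mem_filter.mpr ⟨mem_er.mpr ⟨?_, ?_⟩, ha2⟩
        · exact hu2 (ball_mono hs (Nat.le_succ ρ) u ha1)
        · intro z hz
          exact hu2 (ball_trans ha1 (ball_one.mpr hz))
      · intro h3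
        have h4 := (mem_er.mp (Finset.mem_filter.mp h3).1).2
        apply hu3
        intro z hz
        apply h4
        have := ball_trans hua hz
        exact ball_mono hs (by omega) a this
    · have h5 : a ∈ ball nb (R + ρ) v := ball_trans hu1 ha1
      exact ball_mono hs (by omega) a (ball_symm hsym h5)
  have hcard : (D \ er N D).card ≤ (E1 \ E2).card * c ^ (2*R+ρ) := by
    calc (D \ er N D).card ≤ ((E1 \ E2).biUnion (fun a => ball nb (2*R+ρ) a)).card := by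
          apply Finset.card_le_card
          intro v hv
          obtain ⟨a, ha, ha2⟩ := hext v hv
          exact Finset.mem_biUnion.mpr ⟨a, ha, ha2⟩
      _ ≤ ∑ a ∈ E1 \ E2, (ball nb (2*R+ρ) a).card := Finset.card_biUnion_le
      _ ≤ ∑ _a ∈ E1 \ E2, c ^ (2*R+ρ) := Finset.sum_le_sum (fun a _ => ball_card hc _ a)
      _ = (E1 \ E2).card * c ^ (2*R+ρ) := by rw [Finset.sum_const, smul_eq_mul]
  have hb : bd N D = ((D \ er N D).card : ℤ) := by
    rw [bd, Finset.card_sdiff_of_subset (er_sub D)]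
    have := Finset.card_le_card (er_sub (N := N) D)
    omega
  have h1 := hH1 D hD
  have h2 : cnt A (er nb D) = (E1.card : ℤ) := rfl
  have h3 : cnt A (er N D) = (E2.card : ℤ) := rfl
  have h4 : ((E1 \ E2).card : ℤ) = E1.card - E2.card := by
    rw [Finset.card_sdiff_of_subset hsub]
    have := Finset.card_le_card hsub
    omega
  have h5 : ((E1 \ E2).card : ℤ) ≤ hh N A B D := by
    rw [h4]; simp only [hh, h3]; linarith
  rw [hb]
  have h6 : ((D \ er N D).card : ℤ) ≤ ((E1 \ E2).card : ℤ) * (c : ℤ) ^ (2*R+ρ) := by exact_mod_cast hcard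
  calc ((D \ er N D).card : ℤ) ≤ ((E1 \ E2).card : ℤ) * (c : ℤ) ^ (2*R+ρ) := h6
    _ ≤ hh N A B D * (c : ℤ) ^ (2*R+ρ) := mul_le_mul_of_nonneg_right h5 (by positivity)
    _ = (c : ℤ) ^ (2*R+ρ) * hh N A B D := mul_comm _ _

end Pool.Agent.H382RO

namespace Pool.Agent.H382RO
open Finset Classical Topology

section base
variable {X : Type} [MetricSpace X]

noncomputable def nbx (Q : Set X) (Sg : Finset (X ≃ᵢ X)) (x : X) (γ : X ≃ᵢ X) : Finset (X ≃ᵢ X) :=
  if γ x ∈ Q then (Sg.image (fun σ => σ * γ)).filter (fun δ => δ x ∈ Q) else {γ}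

def Rex (Γ : Subgroup (X ≃ᵢ X)) (Q : Set X) (x : X) : Set (X ≃ᵢ X) := {γ | γ ∈ Γ ∧ γ x ∈ Q}

noncomputable def Wd (Sg : Finset (X ≃ᵢ X)) : ℕ → Finset (X ≃ᵢ X)
  | 0 => {1}
  | (r+1) => (Wd Sg r).biUnion (fun w => Sg.image (fun σ => σ * w))

variable {Q : Set X} {Sg : Finset (X ≃ᵢ X)} {Γ : Subgroup (X ≃ᵢ X)}

theorem mem_nbx {x : X} {γ δ : X ≃ᵢ X} (h : γ x ∈ Q) : δ ∈ nbx Q Sg x γ ↔ ∃ σ ∈ Sg, δ = σ * γ ∧ δ x ∈ Q := by
  simp only [nbx, if_pos h, Finset.mem_filter, Finset.mem_image]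
  constructor
  · rintro ⟨⟨σ, h1, h2⟩, h3⟩; exact ⟨σ, h1, h2.symm, h3⟩
  · rintro ⟨σ, h1, h2, h3⟩; exact ⟨⟨σ, h1, h2.symm⟩, h3⟩

theorem mem_nbx' {x : X} {γ δ : X ≃ᵢ X} (h : γ x ∉ Q) : δ ∈ nbx Q Sg x γ ↔ δ = γ := by
  simp [nbx, h]

theorem nbx_self (h1 : (1 : X ≃ᵢ X) ∈ Sg) (x : X) (γ : X ≃ᵢ X) : γ ∈ nbx Q Sg x γ := by
  by_cases h : γ x ∈ Q
  · exact (mem_nbx h).mpr ⟨1, h1, by simp, h⟩
  · exact (mem_nbx' h).mpr rfl

theorem nbx_symm (hinv : ∀ σ ∈ Sg, σ⁻¹ ∈ Sg) (x : X) (u v : X ≃ᵢ X) (h : u ∈ nbx Q Sg x v) :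
    v ∈ nbx Q Sg x u := by
  by_cases hv : v x ∈ Q
  · obtain ⟨σ, h1, h2, h3⟩ := (mem_nbx hv).mp h
    refine (mem_nbx h3).mpr ⟨σ⁻¹, hinv σ h1, ?_, hv⟩
    rw [h2]; group
  · rw [(mem_nbx' hv).mp h]
    exact (mem_nbx' hv).mpr rfl

theorem nbx_re (hS : ∀ σ ∈ Sg, σ ∈ Γ) (x : X) : ∀ v ∈ Rex Γ Q x, ∀ u ∈ nbx Q Sg x v, u ∈ Rex Γ Q x := by
  rintro v ⟨h1, h2⟩ u hu
  obtain ⟨σ, h3, h4, h5⟩ := (mem_nbx h2).mp hu
  exact ⟨h4 ▸ Γ.mul_mem (hS σ h3) h1, h5⟩

theorem nbx_card (x : X) (v : X ≃ᵢ X) : (nbx Q Sg x v).card ≤ Sg.card + 1 := by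
  by_cases h : v x ∈ Q
  · simp only [nbx, if_pos h]
    calc _ ≤ (Sg.image (fun σ => σ * v)).card := Finset.card_filter_le _ _
      _ ≤ Sg.card := Finset.card_image_le
      _ ≤ Sg.card + 1 := Nat.le_succ _
  · simp [nbx, h]

theorem nbx_mul (x : X) (γ δ : X ≃ᵢ X) :
    nbx Q Sg x (γ * δ) = (nbx Q Sg (δ x) γ).image (fun u => u * δ) := by
  ext w
  by_cases h : γ (δ x) ∈ Q
  · have h' : (γ * δ) x ∈ Q := h
    rw [mem_nbx h', Finset.mem_image]
    constructor
    · rintro ⟨σ, h1, h2, h3⟩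
      refine ⟨σ * γ, (mem_nbx h).mpr ⟨σ, h1, rfl, ?_⟩, ?_⟩
      · rw [h2] at h3; exact h3
      · rw [h2, mul_assoc]
    · rintro ⟨u, hu, rfl⟩
      obtain ⟨σ, h1, rfl, h3⟩ := (mem_nbx h).mp hu
      exact ⟨σ, h1, by rw [mul_assoc], h3⟩
  · have h' : (γ * δ) x ∉ Q := h
    rw [mem_nbx' h', Finset.mem_image]
    constructor
    · rintro rfl; exact ⟨γ, (mem_nbx' h).mpr rfl, rfl⟩
    · rintro ⟨u, hu, rfl⟩; rw [(mem_nbx' h).mp hu]

theorem ballx_mul (x : X) (r : ℕ) (γ δ : X ≃ᵢ X) :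
    ball (nbx Q Sg x) r (γ * δ) = (ball (nbx Q Sg (δ x)) r γ).image (fun u => u * δ) := by
  induction r with
  | zero => simp [ball]
  | succ r ih =>
    ext w
    rw [mem_ball_succ, Finset.mem_image]
    constructor
    · rintro ⟨u, hu, hw⟩
      rw [ih, Finset.mem_image] at hu
      obtain ⟨u', hu', rfl⟩ := hu
      rw [nbx_mul, Finset.mem_image] at hw
      obtain ⟨w', hw', rfl⟩ := hw
      exact ⟨w', mem_ball_succ.mpr ⟨u', hu', hw'⟩, rfl⟩
    · rintro ⟨w', hw', rfl⟩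
      obtain ⟨u', hu', hw''⟩ := mem_ball_succ.mp hw'
      refine ⟨u' * δ, ?_, ?_⟩
      · rw [ih]; exact Finset.mem_image_of_mem _ hu'
      · rw [nbx_mul]; exact Finset.mem_image_of_mem _ hw''

theorem ballx_wd (h1 : (1 : X ≃ᵢ X) ∈ Sg) (x : X) (r : ℕ) (γ w : X ≃ᵢ X) (h : w ∈ ball (nbx Q Sg x) r γ) :
    ∃ u ∈ Wd Sg r, w = u * γ := by
  induction r generalizing w with
  | zero =>
    simp only [ball, Finset.mem_singleton] at h
    exact ⟨1, by simp [Wd], by rw [h, one_mul]⟩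
  | succ r ih =>
    obtain ⟨u, hu, hw⟩ := mem_ball_succ.mp h
    obtain ⟨u', hu', rfl⟩ := ih u hu
    by_cases hQ : (u' * γ) x ∈ Q
    · obtain ⟨σ, h2, h3, h4⟩ := (mem_nbx hQ).mp hw
      refine ⟨σ * u', ?_, by rw [h3, mul_assoc]⟩
      simp only [Wd, Finset.mem_biUnion, Finset.mem_image]
      exact ⟨u', hu', σ, h2, rfl⟩
    · rw [(mem_nbx' hQ).mp hw]
      refine ⟨u', ?_, rfl⟩
      simp only [Wd, Finset.mem_biUnion, Finset.mem_image]
      exact ⟨u', hu', 1, h1, one_mul _⟩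

theorem wd_mem (hS : ∀ σ ∈ Sg, σ ∈ Γ) (r : ℕ) : ∀ w ∈ Wd Sg r, w ∈ Γ := by
  induction r with
  | zero => intro w hw; simp only [Wd, Finset.mem_singleton] at hw; rw [hw]; exact Γ.one_mem
  | succ r ih =>
    intro w hw
    simp only [Wd, Finset.mem_biUnion, Finset.mem_image] at hw
    obtain ⟨u, hu, σ, hσ, rfl⟩ := hw
    exact Γ.mul_mem (hS σ hσ) (ih u hu)

/-! local constancy -/

theorem ev_mem {S : Set X} {γ : X ≃ᵢ X} {x : X} (h : γ x ∉ frontier S) :
    ∀ᶠ y in 𝓝 x, (γ y ∈ S ↔ γ x ∈ S) := by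
  by_cases hx : γ x ∈ S
  · have h1 : γ x ∈ interior S := by
      by_contra hc
      exact h ⟨subset_closure hx, hc⟩
    have h2 : ∀ᶠ y in 𝓝 x, γ y ∈ interior S :=
      γ.continuous.continuousAt.eventually (isOpen_interior.mem_nhds h1)
    filter_upwards [h2] with y hy
    exact ⟨fun _ => hx, fun _ => interior_subset hy⟩
  · have h1 : γ x ∈ (closure S)ᶜ := by
      intro hc
      apply h
      exact ⟨hc, fun h2 => hx (interior_subset h2)⟩
    have h2 : ∀ᶠ y in 𝓝 x, γ y ∈ (closure S)ᶜ :=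
      γ.continuous.continuousAt.eventually (isClosed_closure.isOpen_compl.mem_nhds h1)
    filter_upwards [h2] with y hy
    exact ⟨fun h3 => absurd (subset_closure h3) hy, fun h3 => absurd h3 hx⟩

theorem ev_nbx (hS : ∀ σ ∈ Sg, σ ∈ Γ) {x : X} (hgen : ∀ γ ∈ Γ, γ x ∉ frontier Q) {γ : X ≃ᵢ X} (hγ : γ ∈ Γ) :
    ∀ᶠ y in 𝓝 x, nbx Q Sg y γ = nbx Q Sg x γ := by
  have h1 := ev_mem (hgen γ hγ)
  have h2 : ∀ᶠ y in 𝓝 x, ∀ σ ∈ Sg, ((σ * γ) y ∈ Q ↔ (σ * γ) x ∈ Q) := by
    rw [Filter.eventually_all_finset]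
    intro σ hσ
    exact ev_mem (hgen _ (Γ.mul_mem (hS σ hσ) hγ))
  filter_upwards [h1, h2] with y hy1 hy2
  ext w
  by_cases hx : γ x ∈ Q
  · rw [mem_nbx hx, mem_nbx (hy1.mpr hx)]
    constructor
    · rintro ⟨σ, h3, rfl, h5⟩; exact ⟨σ, h3, rfl, (hy2 σ h3).mp h5⟩
    · rintro ⟨σ, h3, rfl, h5⟩; exact ⟨σ, h3, rfl, (hy2 σ h3).mpr h5⟩
  · rw [mem_nbx' hx, mem_nbx' (fun h => hx (hy1.mp h))]

theorem ev_ball (hS : ∀ σ ∈ Sg, σ ∈ Γ) {x : X} (hgen : ∀ γ ∈ Γ, γ x ∉ frontier Q) (r : ℕ) {γ : X ≃ᵢ X}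
    (hγ : γ ∈ Γ) : ∀ᶠ y in 𝓝 x, ball (nbx Q Sg y) r γ = ball (nbx Q Sg x) r γ := by
  have hmem : ∀ r, ∀ u ∈ ball (nbx Q Sg x) r γ, u ∈ Γ := by
    intro r
    induction r with
    | zero => intro u hu; simp only [ball, Finset.mem_singleton] at hu; rw [hu]; exact hγ
    | succ r ih =>
      intro u hu
      obtain ⟨v, hv, hu2⟩ := mem_ball_succ.mp hu
      by_cases hQ : v x ∈ Q
      · obtain ⟨σ, h2, rfl, h4⟩ := (mem_nbx hQ).mp hu2
        exact Γ.mul_mem (hS σ h2) (ih v hv)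
      · rw [(mem_nbx' hQ).mp hu2]; exact ih v hv
  induction r with
  | zero => exact Filter.Eventually.of_forall (fun y => rfl)
  | succ r ih =>
    have h2 : ∀ᶠ y in 𝓝 x, ∀ u ∈ ball (nbx Q Sg x) r γ, nbx Q Sg y u = nbx Q Sg x u := by
      rw [Filter.eventually_all_finset]
      intro u hu
      exact ev_nbx hS hgen (hmem r u hu)
    filter_upwards [ih, h2] with y hy1 hy2
    simp only [ball]
    rw [hy1]
    exact Finset.biUnion_congr rfl hy2

end base

end Pool.Agent.H382RO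

namespace Pool.Agent.H382RO
open Finset Classical Topology

structure Sys (X : Type) [MetricSpace X] where
  Q : Set X
  Sg : Finset (X ≃ᵢ X)
  Γ : Subgroup (X ≃ᵢ X)
  x0 : X
  R : ℕ
  Qopen : IsOpen Q
  one : (1 : X ≃ᵢ X) ∈ Sg
  inv : ∀ σ ∈ Sg, σ⁻¹ ∈ Sg
  sub : ∀ σ ∈ Sg, σ ∈ Γ
  cou : (Γ : Set (X ≃ᵢ X)).Countable
  genQ : ∀ γ ∈ Γ, γ x0 ∉ frontier Q
  free : ∀ γ ∈ Γ, γ x0 = x0 → γ = 1
  dense : ∀ U : Set X, IsOpen U → U.Nonempty → U ⊆ Q → ∃ γ ∈ Γ, γ x0 ∈ U
  R1 : 1 ≤ R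
  inf : ∀ D : Finset (X ≃ᵢ X), D.Nonempty → (∀ v ∈ D, v ∈ Rex Γ Q x0) → ∃ v ∈ D, ¬ nbx Q Sg x0 v ⊆ D
  shell : ∀ ζ ∈ Γ, ζ x0 ∈ Q → ∀ K : Finset (X ≃ᵢ X), (∀ v ∈ K, ∃ s, v ∈ ball (nbx Q Sg (ζ x0)) s 1) →
    ∃ I Th : Finset (X ≃ᵢ X), K ⊆ I ∧ Disjoint I Th ∧ (∀ v ∈ I ∪ Th, ∃ s, v ∈ ball (nbx Q Sg (ζ x0)) s 1) ∧
      (∀ v ∈ I, ball (nbx Q Sg (ζ x0)) R v ⊆ I ∪ Th) ∧
      (∀ S : Set (X ≃ᵢ X), (∃ u ∈ Th, u ∈ S) → (∀ u ∈ Th, u ∈ S → ∀ w ∈ Th, w ∈ ball (nbx Q Sg (ζ x0)) R u → w ∈ S) →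
        ∀ w ∈ Th, w ∈ S)

section sys
variable {X : Type} [MetricSpace X] (σ : Sys X)

noncomputable def NN (x : X) : (X ≃ᵢ X) → Finset (X ≃ᵢ X) := ball (nbx σ.Q σ.Sg x) σ.R
def Re (x : X) : Set (X ≃ᵢ X) := Rex σ.Γ σ.Q x
def Ax (x : X) (S : Set X) : Set (X ≃ᵢ X) := {γ | γ ∈ σ.Γ ∧ γ x ∈ S}

theorem NN_mul (x : X) (γ δ : X ≃ᵢ X) : NN σ x (γ * δ) = (NN σ (δ x) γ).image (fun u => u * δ) :=
  ballx_mul x σ.R γ δ

theorem adj0 : Adj (NN σ σ.x0) (Re σ σ.x0) where
  self := fun v => mem_ball_self (nbx_self σ.one σ.x0) _ v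
  symm := fun _ _ h => ball_symm (nbx_symm σ.inv σ.x0) h
  re := fun _ hv _ hu => ball_re (nbx_re σ.sub σ.x0) hv hu
  inf := by
    intro D h1 h2
    obtain ⟨v, hv, hv2⟩ := σ.inf D h1 h2
    refine ⟨v, hv, fun h => hv2 ?_⟩
    intro w hw
    exact h (ball_mono (nbx_self σ.one σ.x0) σ.R1 v (ball_one.mpr hw))

theorem cnt_image {f : (X ≃ᵢ X) → (X ≃ᵢ X)} (hf : Function.Injective f) (S : Set (X ≃ᵢ X)) (E : Finset (X ≃ᵢ X)) :
    cnt S (E.image f) = cnt {γ | f γ ∈ S} E := by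
  simp only [cnt]
  rw [Finset.filter_image, Finset.card_image_of_injective _ hf]
  rfl

theorem mul_inj (δ : X ≃ᵢ X) : Function.Injective (fun u : X ≃ᵢ X => u * δ) := fun _ _ h => mul_right_cancel h

theorem er_relabel (x : X) (δ : X ≃ᵢ X) (E : Finset (X ≃ᵢ X)) :
    er (NN σ x) (E.image (fun u => u * δ)) = (er (NN σ (δ x)) E).image (fun u => u * δ) := by
  ext w
  rw [mem_er, Finset.mem_image, Finset.mem_image]
  constructor
  · rintro ⟨⟨u, hu, rfl⟩, h2⟩
    refine ⟨u, mem_er.mpr ⟨hu, ?_⟩, rfl⟩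
    intro v hv
    have h3 : v * δ ∈ NN σ x (u * δ) := by
      rw [NN_mul]; exact Finset.mem_image_of_mem _ hv
    obtain ⟨v', hv', h4⟩ := Finset.mem_image.mp (h2 h3)
    have := mul_right_cancel h4
    rwa [← this]
  · rintro ⟨u, hu, rfl⟩
    obtain ⟨h1, h2⟩ := mem_er.mp hu
    refine ⟨⟨u, h1, rfl⟩, ?_⟩
    rw [NN_mul]
    exact Finset.image_subset_image h2

theorem hh_relabel (x : X) (δ : X ≃ᵢ X) (S T : Set (X ≃ᵢ X)) (E : Finset (X ≃ᵢ X)) :
    hh (NN σ x) S T (E.image (fun u => u * δ)) = hh (NN σ (δ x)) {γ | γ * δ ∈ S} {γ | γ * δ ∈ T} E := by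
  simp only [hh]
  rw [er_relabel, cnt_image (mul_inj δ), cnt_image (mul_inj δ)]

theorem hall_relabel {x : X} {δ : X ≃ᵢ X} (hδ : δ ∈ σ.Γ) {S T : Set (X ≃ᵢ X)}
    (h : Hall (NN σ (δ x)) (Re σ (δ x)) {γ | γ * δ ∈ S} {γ | γ * δ ∈ T}) : Hall (NN σ x) (Re σ x) S T := by
  intro D hD
  have e : D = (D.image (fun u => u * δ⁻¹)).image (fun u => u * δ) := by
    rw [Finset.image_image]
    ext w
    simp
  have h1 := h (D.image (fun u => u * δ⁻¹)) (by
    intro v hv
    obtain ⟨u, hu, rfl⟩ := Finset.mem_image.mp hv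
    obtain ⟨h2, h3⟩ := hD u hu
    refine ⟨σ.Γ.mul_mem h2 (σ.Γ.inv_mem hδ), ?_⟩
    have : (u * δ⁻¹) (δ x) = u x := by
      change u (δ⁻¹ (δ x)) = u x
      congr 1
      exact δ.symm_apply_apply x
    rw [this]; exact h3)
  rw [e, hh_relabel σ x δ, hh_relabel σ x δ]
  exact h1

def PP (A' B' : Set X) (x : X) (g : X ≃ᵢ X) : Prop :=
  g ∈ NN σ x 1 ∧ g x ∈ B' ∧ Hall (NN σ x) (Re σ x) (Ax σ x A' \ {1}) (Ax σ x B' \ {g})

theorem PP_ex {A' B' : Set X} (hA : A' ⊆ σ.Q) (hB : B' ⊆ σ.Q)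
    (hH : Hall (NN σ σ.x0) (Re σ σ.x0) (Ax σ σ.x0 A') (Ax σ σ.x0 B'))
    {δ : X ≃ᵢ X} (hδ : δ ∈ σ.Γ) (hδA : δ σ.x0 ∈ A') : ∃ g ∈ Wd σ.Sg σ.R, PP σ A' B' (δ σ.x0) g := by
  obtain ⟨y, hy1, hy2, hy3⟩ := single_removal (adj0 σ)
    (fun γ (hγ : γ ∈ Ax σ σ.x0 A') => (⟨hγ.1, hA hγ.2⟩ : γ ∈ Re σ σ.x0))
    (fun γ (hγ : γ ∈ Ax σ σ.x0 B') => (⟨hγ.1, hB hγ.2⟩ : γ ∈ Re σ σ.x0)) hH (x := δ) ⟨hδ, hδA⟩
  rw [← one_mul δ, NN_mul] at hy2
  obtain ⟨g, hg, rfl⟩ := Finset.mem_image.mp hy2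
  obtain ⟨u, hu, hgu⟩ := ballx_wd σ.one _ _ _ _ hg
  rw [mul_one] at hgu
  subst hgu
  refine ⟨g, hu, hg, hy1.2, ?_⟩
  have hinv : δ⁻¹ (δ σ.x0) = σ.x0 := δ.symm_apply_apply _
  apply hall_relabel σ (σ.Γ.inv_mem hδ)
  rw [hinv]
  convert hy3 using 1
  · ext γ
    simp only [Ax, Set.mem_ofPred_eq, Set.mem_sdiff, Set.mem_singleton_iff]
    have e1 : (γ * δ⁻¹) (δ σ.x0) = γ σ.x0 := by
      change γ (δ⁻¹ (δ σ.x0)) = _; rw [hinv]
    rw [e1]
    constructor
    · rintro ⟨⟨h1, h2⟩, h3⟩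
      refine ⟨⟨?_, h2⟩, ?_⟩
      · have := σ.Γ.mul_mem h1 hδ
        simpa using this
      · intro h4; apply h3; rw [h4]; simp
    · rintro ⟨⟨h1, h2⟩, h3⟩
      refine ⟨⟨σ.Γ.mul_mem h1 (σ.Γ.inv_mem hδ), h2⟩, ?_⟩
      intro h4; apply h3; exact mul_inv_eq_one.mp h4
  · ext γ
    simp only [Ax, Set.mem_ofPred_eq, Set.mem_sdiff, Set.mem_singleton_iff]
    have e1 : (γ * δ⁻¹) (δ σ.x0) = γ σ.x0 := by
      change γ (δ⁻¹ (δ σ.x0)) = _; rw [hinv]
    rw [e1]
    constructor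
    · rintro ⟨⟨h1, h2⟩, h3⟩
      refine ⟨⟨?_, h2⟩, ?_⟩
      · have := σ.Γ.mul_mem h1 hδ
        simpa using this
      · intro h4; apply h3; rw [h4]; simp
    · rintro ⟨⟨h1, h2⟩, h3⟩
      refine ⟨⟨σ.Γ.mul_mem h1 (σ.Γ.inv_mem hδ), h2⟩, ?_⟩
      intro h4; apply h3; exact mul_inv_eq_iff_eq_mul.mp h4

theorem genx {S : Set X} (hS : ∀ γ ∈ σ.Γ, γ σ.x0 ∉ frontier S) {ζ : X ≃ᵢ X} (hζ : ζ ∈ σ.Γ) :
    ∀ γ ∈ σ.Γ, γ (ζ σ.x0) ∉ frontier S := fun γ hγ => hS (γ * ζ) (σ.Γ.mul_mem hγ hζ)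

theorem PP_open {A' B' : Set X} (hgA : ∀ γ ∈ σ.Γ, γ σ.x0 ∉ frontier A')
    (hgB : ∀ γ ∈ σ.Γ, γ σ.x0 ∉ frontier B') {ζ : X ≃ᵢ X} (hζ : ζ ∈ σ.Γ) {g : X ≃ᵢ X} (hg : g ∈ σ.Γ)
    (hP : ¬ PP σ A' B' (ζ σ.x0) g) : ∀ᶠ y in 𝓝 (ζ σ.x0), ¬ PP σ A' B' y g := by
  have hgQ' := genx σ σ.genQ hζ
  have hgA' := genx σ hgA hζ
  have hgB' := genx σ hgB hζ
  by_cases h1 : g ∈ NN σ (ζ σ.x0) 1
  · by_cases h2 : g (ζ σ.x0) ∈ B'
    · have h3 : ¬ Hall (NN σ (ζ σ.x0)) (Re σ (ζ σ.x0)) (Ax σ (ζ σ.x0) A' \ {1}) (Ax σ (ζ σ.x0) B' \ {g}) :=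
        fun h => hP ⟨h1, h2, h⟩
      unfold Hall at h3
      push Not at h3
      obtain ⟨D, hD, hval⟩ := h3
      have hDΓ : ∀ v ∈ D, v ∈ σ.Γ := fun v hv => (hD v hv).1
      have e1 : ∀ᶠ y in 𝓝 (ζ σ.x0), ∀ v ∈ D, NN σ y v = NN σ (ζ σ.x0) v := by
        rw [Filter.eventually_all_finset]
        exact fun v hv => ev_ball σ.sub hgQ' σ.R (hDΓ v hv)
      have e2 : ∀ᶠ y in 𝓝 (ζ σ.x0), ∀ v ∈ D, (v y ∈ A' ↔ v (ζ σ.x0) ∈ A') := by
        rw [Filter.eventually_all_finset]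
        exact fun v hv => ev_mem (hgA' v (hDΓ v hv))
      have e3 : ∀ᶠ y in 𝓝 (ζ σ.x0), ∀ v ∈ D, (v y ∈ B' ↔ v (ζ σ.x0) ∈ B') := by
        rw [Filter.eventually_all_finset]
        exact fun v hv => ev_mem (hgB' v (hDΓ v hv))
      have e4 : ∀ᶠ y in 𝓝 (ζ σ.x0), ∀ v ∈ D, (v y ∈ σ.Q ↔ v (ζ σ.x0) ∈ σ.Q) := by
        rw [Filter.eventually_all_finset]
        exact fun v hv => ev_mem (hgQ' v (hDΓ v hv))
      filter_upwards [e1, e2, e3, e4] with y y1 y2 y3 y4
      rintro ⟨_, _, hHy⟩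
      have hDy : ∀ v ∈ D, v ∈ Re σ y := fun v hv => ⟨hDΓ v hv, (y4 v hv).mpr (hD v hv).2⟩
      have hv := hHy D hDy
      have her : er (NN σ y) D = er (NN σ (ζ σ.x0)) D := by
        unfold er
        apply Finset.filter_congr
        intro v hv
        rw [y1 v hv]
      have c1 : ∀ v ∈ D, v ∈ Ax σ y A' \ {1} ↔ v ∈ Ax σ (ζ σ.x0) A' \ {1} := by
        intro v hv
        simp only [Ax, Set.mem_sdiff, Set.mem_ofPred_eq, y2 v hv]
      have c2 : ∀ v ∈ D, v ∈ Ax σ y B' \ {g} ↔ v ∈ Ax σ (ζ σ.x0) B' \ {g} := by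
        intro v hv
        simp only [Ax, Set.mem_sdiff, Set.mem_ofPred_eq, y3 v hv]
      simp only [hh] at hv hval
      rw [her, cnt_congr c1, cnt_congr c2, cnt_congr (fun v hv => c1 v (er_sub D hv)),
        cnt_congr (fun v hv => c2 v (er_sub D hv))] at hv
      exact absurd hv.2 (not_le.mpr (hval hv.1))
    · have := ev_mem (hgB' g hg)
      filter_upwards [this] with y hy h3
      exact h2 (hy.mp h3.2.1)
  · have : ∀ᶠ y in 𝓝 (ζ σ.x0), NN σ y 1 = NN σ (ζ σ.x0) 1 := ev_ball σ.sub hgQ' σ.R σ.Γ.one_mem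
    filter_upwards [this] with y hy h3
    apply h1
    rw [← hy]; exact h3.1

theorem cover (P : X → (X ≃ᵢ X) → Prop) (F : Finset (X ≃ᵢ X))
    (hop : ∀ ζ ∈ σ.Γ, ∀ g ∈ F, ¬ P (ζ σ.x0) g → ∀ᶠ y in 𝓝 (ζ σ.x0), ¬ P y g) :
    ∀ W : Set X, IsOpen W → W.Nonempty → W ⊆ σ.Q → (∀ ζ ∈ σ.Γ, ζ σ.x0 ∈ W → ∃ g ∈ F, P (ζ σ.x0) g) →
    ∃ g ∈ F, ∃ W' : Set X, IsOpen W' ∧ W'.Nonempty ∧ W' ⊆ W ∧ ∀ ζ ∈ σ.Γ, ζ σ.x0 ∈ W' → P (ζ σ.x0) g := by
  induction F using Finset.induction_on with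
  | empty =>
    intro W hW1 hW2 hW3 hex
    obtain ⟨γ, hγ, hγ2⟩ := σ.dense W hW1 hW2 hW3
    obtain ⟨g, hg, _⟩ := hex γ hγ hγ2
    exact absurd hg (Finset.notMem_empty g)
  | insert g F _ ih =>
    intro W hW1 hW2 hW3 hex
    by_cases hall : ∀ ζ ∈ σ.Γ, ζ σ.x0 ∈ W → P (ζ σ.x0) g
    · exact ⟨g, Finset.mem_insert_self _ _, W, hW1, hW2, subset_rfl, hall⟩
    · push Not at hall
      obtain ⟨ζ, hζ, hζW, hζP⟩ := hall
      have h1 := hop ζ hζ g (Finset.mem_insert_self _ _) hζP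
      have h2 : ∀ᶠ y in 𝓝 (ζ σ.x0), y ∈ W := hW1.mem_nhds hζW
      obtain ⟨U, hU1, hU2, hU3⟩ := mem_nhds_iff.mp (h1.and h2)
      obtain ⟨g', hg', W', h3, h4, h5, h6⟩ := ih
        (fun ζ' hζ' g' hg' => hop ζ' hζ' g' (Finset.mem_insert_of_mem hg')) U hU2 ⟨_, hU3⟩
        (fun y hy => hW3 (hU1 hy).2) (by
          intro ζ' hζ' hζU
          obtain ⟨g', hg', hP'⟩ := hex ζ' hζ' (hU1 hζU).2
          rcases Finset.mem_insert.mp hg' with rfl | h7
          · exact absurd hP' (hU1 hζU).1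
          · exact ⟨g', h7, hP'⟩)
      exact ⟨g', Finset.mem_insert_of_mem hg', W', h3, h4, fun y hy => (hU1 (h5 hy)).2, h6⟩

end sys

end Pool.Agent.H382RO

namespace Pool.Agent.H382RO
open Finset Classical Topology

section step
variable {X : Type} [MetricSpace X] (σ : Sys X)

def Shell (z : X) (K I Th : Finset (X ≃ᵢ X)) : Prop :=
  K ⊆ I ∧ (∀ v ∈ I ∪ Th, ∃ s, v ∈ ball (nbx σ.Q σ.Sg z) s 1) ∧ (∀ v ∈ I, NN σ z v ⊆ I ∪ Th) ∧
    (∀ S : Set (X ≃ᵢ X), (∃ u ∈ Th, u ∈ S) → (∀ u ∈ Th, u ∈ S → ∀ w ∈ Th, w ∈ NN σ z u → w ∈ S) →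
        ∀ w ∈ Th, w ∈ S)

theorem nested {ζ : X ≃ᵢ X} (hζ : ζ ∈ σ.Γ) (hζQ : ζ σ.x0 ∈ σ.Q) (K0 : Finset (X ≃ᵢ X))
    (hK0 : ∀ v ∈ K0, ∃ s, v ∈ ball (nbx σ.Q σ.Sg (ζ σ.x0)) s 1) (k : ℕ) :
    ∃ I Th : ℕ → Finset (X ≃ᵢ X), (∀ i, i < k → Shell σ (ζ σ.x0) K0 (I i) (Th i)) ∧
      (∀ i, i < k → ∀ j, j < k → i ≠ j → Disjoint (Th i) (Th j)) := by
  induction k with
  | zero => exact ⟨fun _ => ∅, fun _ => ∅, fun i hi => absurd hi (Nat.not_lt_zero i), fun i hi => absurd hi (Nat.not_lt_zero i)⟩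
  | succ k ih =>
    obtain ⟨I, Th, h1, h2⟩ := ih
    obtain ⟨I', Th', h3, h4, h5, h6, h7⟩ := σ.shell ζ hζ hζQ (K0 ∪ (range k).biUnion (fun i => I i ∪ Th i)) (by
      intro v hv
      rcases Finset.mem_union.mp hv with h | h
      · exact hK0 v h
      · obtain ⟨i, hi, hv2⟩ := Finset.mem_biUnion.mp h
        exact (h1 i (Finset.mem_range.mp hi)).2.1 v hv2)
    have hsub : ∀ i, i < k → Th i ⊆ I' := by
      intro i hi v hv
      apply h3
      exact Finset.mem_union_right _ (Finset.mem_biUnion.mpr ⟨i, Finset.mem_range.mpr hi, Finset.mem_union_right _ hv⟩)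
    refine ⟨Function.update I k I', Function.update Th k Th', ?_, ?_⟩
    · intro i hi
      rcases Nat.lt_succ_iff_lt_or_eq.mp hi with h | h
      · rw [Function.update_of_ne (by omega), Function.update_of_ne (by omega)]
        exact h1 i h
      · subst h
        rw [Function.update_self, Function.update_self]
        exact ⟨fun v hv => h3 (Finset.mem_union_left _ hv), h5, h6, h7⟩
    · intro i hi j hj hij
      rcases Nat.lt_succ_iff_lt_or_eq.mp hi with h | h <;> rcases Nat.lt_succ_iff_lt_or_eq.mp hj with h' | h'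
      · rw [Function.update_of_ne (by omega), Function.update_of_ne (by omega)]
        exact h2 i h j h' hij
      · subst h'
        rw [Function.update_of_ne (by omega), Function.update_self]
        exact Finset.disjoint_of_subset_left (hsub i h) h4
      · subst h
        rw [Function.update_self, Function.update_of_ne (by omega)]
        exact (Finset.disjoint_of_subset_left (hsub j h') h4).symm
      · omega

def Sm (s : ℕ) (D : Finset (X ≃ᵢ X)) : Prop := ∃ v ∈ Re σ σ.x0, D ⊆ ball (nbx σ.Q σ.Sg σ.x0) s v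

theorem wd_comp (r : ℕ) (u : X ≃ᵢ X) (x : X) (h : u ∈ ball (nbx σ.Q σ.Sg x) r 1) : u ∈ Wd σ.Sg r := by
  obtain ⟨w, hw, hw2⟩ := ballx_wd σ.one _ _ _ _ h
  rw [mul_one] at hw2
  rwa [hw2]

theorem comp_bound {x : X} (F : Finset (X ≃ᵢ X)) (h : ∀ v ∈ F, ∃ s, v ∈ ball (nbx σ.Q σ.Sg x) s 1) :
    ∃ s, ∀ v ∈ F, v ∈ ball (nbx σ.Q σ.Sg x) s 1 := by
  induction F using Finset.induction_on with
  | empty => exact ⟨0, fun v hv => absurd hv (Finset.notMem_empty v)⟩
  | insert a F _ ih =>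
    obtain ⟨s1, h1⟩ := h a (Finset.mem_insert_self _ _)
    obtain ⟨s2, h2⟩ := ih (fun v hv => h v (Finset.mem_insert_of_mem hv))
    refine ⟨max s1 s2, fun v hv => ?_⟩
    rcases Finset.mem_insert.mp hv with rfl | h3
    · exact ball_mono (nbx_self σ.one x) (le_max_left _ _) _ h1
    · exact ball_mono (nbx_self σ.one x) (le_max_right _ _) _ (h2 v h3)

theorem frontier_gen {S : Set X} {c : X} {r : ℝ} (hS : ∀ γ ∈ σ.Γ, γ σ.x0 ∉ frontier S)
    (hr : ∀ γ ∈ σ.Γ, dist (γ σ.x0) c ≠ r) : ∀ γ ∈ σ.Γ, γ σ.x0 ∉ frontier (S \ Metric.closedBall c r) := by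
  intro γ hγ h
  rw [Set.sdiff_eq] at h
  rcases frontier_inter_subset _ _ h with h1 | h1
  · exact hS γ hγ h1.1
  · have h2 := h1.2
    rw [frontier_compl] at h2
    have h3 := Metric.frontier_closedBall_subset_sphere h2
    exact hr γ hγ (Metric.mem_sphere.mp h3)

theorem step {A' B' : Set X} (hA : A' ⊆ σ.Q) (hB : B' ⊆ σ.Q) (hBo : IsOpen B')
    (hgA : ∀ γ ∈ σ.Γ, γ σ.x0 ∉ frontier A') (hgB : ∀ γ ∈ σ.Γ, γ σ.x0 ∉ frontier B')
    {M : ℤ} (hM : 1 ≤ M) {s : ℕ} (hH : Hall (NN σ σ.x0) (Re σ σ.x0) (Ax σ σ.x0 A') (Ax σ σ.x0 B'))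
    (hI : Inv (NN σ σ.x0) (Re σ σ.x0) M (Sm σ s) (Ax σ σ.x0 A') (Ax σ σ.x0 B'))
    {W : Set X} (hWo : IsOpen W) (hWne : W.Nonempty) (hWA : W ⊆ A') :
    ∃ (z : X) (r : ℝ) (g : X ≃ᵢ X), 0 < r ∧ g ∈ Wd σ.Sg σ.R ∧ Metric.closedBall z r ⊆ W ∧
      Metric.closedBall (g z) r ⊆ B' ∧
      (∀ γ ∈ σ.Γ, γ σ.x0 ∉ frontier (A' \ Metric.closedBall z r)) ∧
      (∀ γ ∈ σ.Γ, γ σ.x0 ∉ frontier (B' \ Metric.closedBall (g z) r)) ∧
      ∃ M' : ℤ, 1 ≤ M' ∧ ∃ s' : ℕ, 
        Hall (NN σ σ.x0) (Re σ σ.x0) (Ax σ σ.x0 (A' \ Metric.closedBall z r)) (Ax σ σ.x0 (B' \ Metric.closedBall (g z) r)) ∧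
        Inv (NN σ σ.x0) (Re σ σ.x0) M' (Sm σ s') (Ax σ σ.x0 (A' \ Metric.closedBall z r))
          (Ax σ σ.x0 (B' \ Metric.closedBall (g z) r)) := by
  -- a uniform choice of the group element
  obtain ⟨g, hgW, W', hW'o, hW'ne, hW'W, hPP⟩ := cover σ (PP σ A' B') (Wd σ.Sg σ.R)
    (fun ζ hζ g hg hP => PP_open σ hgA hgB hζ (wd_mem σ.sub _ g hg) hP) W hWo hWne (hWA.trans hA)
    (fun ζ hζ hζW => PP_ex σ hA hB hH hζ (hWA hζW))
  have hgΓ := wd_mem σ.sub _ g hgW
  obtain ⟨ζ, hζ, hζW'⟩ := σ.dense W' hW'o hW'ne (hW'W.trans (hWA.trans hA))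
  set z := ζ σ.x0 with hz
  have hzA : z ∈ A' := hWA (hW'W hζW')
  have hzQ : z ∈ σ.Q := hA hzA
  have hPz := hPP ζ hζ hζW'
  have hself : ∀ (x : X) (γ : X ≃ᵢ X), γ ∈ nbx σ.Q σ.Sg x γ := fun x γ => nbx_self σ.one x γ
  -- shells
  obtain ⟨I, Th, hsh, hThd⟩ := nested σ hζ hzQ (ball (nbx σ.Q σ.Sg z) (2 * σ.R) 1)
    (fun v hv => ⟨_, hv⟩) (2 * M).toNat
  set k := (2 * M).toNat with hk
  set O := (range k).biUnion (fun i => I i ∪ Th i) with hO
  obtain ⟨s1, hs1⟩ := comp_bound σ O (by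
    intro v hv
    obtain ⟨i, hi, hv2⟩ := Finset.mem_biUnion.mp hv
    exact (hsh i (Finset.mem_range.mp hi)).2.1 v hv2)
  set s' := max s s1 with hs'
  -- choice of the radius
  have hgQ' := genx σ σ.genQ hζ
  have hOΓ : ∀ v ∈ O, v ∈ σ.Γ := fun v hv => wd_mem σ.sub _ v (wd_comp σ _ _ _ (hs1 v hv))
  have ev1 : ∀ᶠ y in 𝓝 z, ∀ v ∈ O, NN σ y v = NN σ z v := by
    rw [Filter.eventually_all_finset]
    exact fun v hv => ev_ball σ.sub hgQ' σ.R (hOΓ v hv)
  have ev2 : ∀ᶠ y in 𝓝 z, ball (nbx σ.Q σ.Sg y) s1 1 = ball (nbx σ.Q σ.Sg z) s1 1 :=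
    ev_ball σ.sub hgQ' s1 σ.Γ.one_mem
  have ev3 : ∀ᶠ y in 𝓝 z, ball (nbx σ.Q σ.Sg y) (2 * σ.R) 1 = ball (nbx σ.Q σ.Sg z) (2 * σ.R) 1 :=
    ev_ball σ.sub hgQ' _ σ.Γ.one_mem
  have ev4 : ∀ᶠ y in 𝓝 z, y ∈ W' := hW'o.mem_nhds hζW'
  have ev5 : ∀ᶠ y in 𝓝 z, g y ∈ B' := g.continuous.continuousAt.eventually (hBo.mem_nhds hPz.2.1)
  obtain ⟨ε1, hε1, hball⟩ := Metric.nhds_basis_closedBall.mem_iff.mp
    ((ev1.and (ev2.and (ev3.and (ev4.and ev5)))))
  have ev6 : ∀ᶠ ε in 𝓝[>] (0:ℝ), ∀ w ∈ Wd σ.Sg (2 * s' + 2 * σ.R), w ≠ 1 → 2 * ε < dist (w z) z := by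
    rw [Filter.eventually_all_finset]
    intro w hw
    by_cases hw1 : w = 1
    · exact Filter.Eventually.of_forall (fun ε h => absurd hw1 h)
    · have hne : w z ≠ z := by
        intro h
        apply hw1
        have h2 : (ζ⁻¹ * w * ζ) σ.x0 = σ.x0 := by
          change ζ⁻¹ (w (ζ σ.x0)) = σ.x0
          rw [← hz, h, hz]
          exact ζ.symm_apply_apply _
        have h3 := σ.free _ (σ.Γ.mul_mem (σ.Γ.mul_mem (σ.Γ.inv_mem hζ) (wd_mem σ.sub _ w hw)) hζ) h2
        have h4 : w = ζ * (ζ⁻¹ * w * ζ) * ζ⁻¹ := by group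
        rw [h4, h3]; group
      have hpos : 0 < dist (w z) z := dist_pos.mpr hne
      filter_upwards [Ioo_mem_nhdsGT (half_pos hpos)] with ε hε _
      have := hε.2
      linarith
  obtain ⟨ε2, hε2, hε2pos⟩ := (ev6.and self_mem_nhdsWithin).exists
  have hε2pos' : 0 < ε2 := hε2pos
  -- avoid a countable set of radii
  have hcount : (Set.range (fun γ : σ.Γ => dist ((γ : X ≃ᵢ X) σ.x0) z) ∪
      Set.range (fun γ : σ.Γ => dist ((γ : X ≃ᵢ X) σ.x0) (g z))).Countable := by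
    have : Countable σ.Γ := σ.cou.to_subtype
    exact (Set.countable_range _).union (Set.countable_range _)
  obtain ⟨r, hr1, hr2⟩ := (hcount.dense_compl ℝ).exists_mem_open (isOpen_Ioo (a := 0) (b := min ε1 ε2))
    ⟨min ε1 ε2 / 2, by constructor <;> [skip; skip] <;> have := lt_min hε1 hε2pos' <;> linarith⟩
  obtain ⟨hr0, hrm⟩ := hr2
  have hrε1 : r < ε1 := lt_of_lt_of_le hrm (min_le_left _ _)
  have hrε2 : r < ε2 := lt_of_lt_of_le hrm (min_le_right _ _)
  have hrz : ∀ γ ∈ σ.Γ, dist (γ σ.x0) z ≠ r := fun γ hγ h => hr1 (Or.inl ⟨⟨γ, hγ⟩, h⟩)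
  have hrg : ∀ γ ∈ σ.Γ, dist (γ σ.x0) (g z) ≠ r := fun γ hγ h => hr1 (Or.inr ⟨⟨γ, hγ⟩, h⟩)
  have hcb : ∀ y ∈ Metric.closedBall z r, y ∈ Metric.closedBall z ε1 :=
    fun y hy => Metric.closedBall_subset_closedBall hrε1.le hy
  have hgball : ∀ y, y ∈ Metric.closedBall (g z) r ↔ g⁻¹ y ∈ Metric.closedBall z r := by
    intro y
    rw [Metric.mem_closedBall, Metric.mem_closedBall]
    have : dist (g⁻¹ y) z = dist y (g z) := by
      rw [← g.dist_eq (g⁻¹ y) z]
      congr 1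
      exact g.apply_symm_apply y
    rw [this]
  -- the pairs
  set Pz : Set ((X ≃ᵢ X) × (X ≃ᵢ X)) := {p | p.1 ∈ σ.Γ ∧ p.1 σ.x0 ∈ Metric.closedBall z r ∧ p.2 = g * p.1} with hPz'
  have hp1 : ∀ p ∈ Pz, p.1 σ.x0 ∈ W' := fun p hp => (hball (hcb _ hp.2.1)).2.2.2.1
  have hfst : Ax σ σ.x0 (A' \ Metric.closedBall z r) = Ax σ σ.x0 A' \ fsts Pz := by
    ext γ
    constructor
    · rintro ⟨h1, h2, h3⟩
      refine ⟨⟨h1, h2⟩, ?_⟩
      rintro ⟨p, hp, rfl⟩
      exact h3 hp.2.1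
    · rintro ⟨⟨h1, h2⟩, h3⟩
      refine ⟨h1, h2, fun h4 => h3 ⟨(γ, g * γ), ⟨h1, h4, rfl⟩, rfl⟩⟩
  have hsnd : Ax σ σ.x0 (B' \ Metric.closedBall (g z) r) = Ax σ σ.x0 B' \ snds Pz := by
    ext γ
    constructor
    · rintro ⟨h1, h2, h3⟩
      refine ⟨⟨h1, h2⟩, ?_⟩
      rintro ⟨p, hp, rfl⟩
      apply h3
      rw [hgball, hp.2.2]
      have : g⁻¹ ((g * p.1) σ.x0) = p.1 σ.x0 := g.symm_apply_apply _
      rw [this]; exact hp.2.1
    · rintro ⟨⟨h1, h2⟩, h3⟩
      refine ⟨h1, h2, fun h4 => h3 ⟨(g⁻¹ * γ, γ), ⟨σ.Γ.mul_mem (σ.Γ.inv_mem hgΓ) h1, ?_, ?_⟩, rfl⟩⟩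
      · exact (hgball _).mp h4
      · simp
  -- sparseness
  have hsparse : ∀ p ∈ Pz, ∀ q ∈ Pz, ∀ w ∈ Wd σ.Sg (2 * s' + 2 * σ.R), q.1 = w * p.1 → p = q := by
    intro p hp q hq w hw hqw
    have hw1 : w = 1 := by
      by_contra hw1
      have h1 := hε2 w hw hw1
      have h2 : q.1 σ.x0 = w (p.1 σ.x0) := by rw [hqw]; rfl
      have h3 := hq.2.1
      rw [h2, Metric.mem_closedBall] at h3
      have h4 := hp.2.1
      rw [Metric.mem_closedBall, ← w.dist_eq] at h4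
      have h5 := dist_triangle_left (w z) z (w (p.1 σ.x0))
      linarith
    rw [hw1, one_mul] at hqw
    refine Prod.ext hqw.symm ?_
    rw [hp.2.2, hq.2.2, hqw]
  have hWmono : ∀ {a b : ℕ}, a ≤ b → ∀ w ∈ Wd σ.Sg a, w ∈ Wd σ.Sg b := by
    intro a b hab
    induction hab with
    | refl => exact fun w hw => hw
    | step _ ih =>
      intro w hw
      simp only [Wd, Finset.mem_biUnion, Finset.mem_image]
      exact ⟨w, ih w hw, 1, σ.one, one_mul w⟩
  have hself0 := hself σ.x0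
  have hsymm0 := nbx_symm (Q := σ.Q) σ.inv σ.x0
  have hDI : ∀ p ∈ Pz, ∀ i, i < k → ∀ D : Finset (X ≃ᵢ X), D ⊆ (I i).image (fun u => u * p.1) → Sm σ s' D := by
    intro p hp i hi D hD
    refine ⟨p.1, ⟨hp.1, hA (hWA (hW'W (hp1 p hp)))⟩, ?_⟩
    intro v hv
    obtain ⟨u, hu, rfl⟩ := Finset.mem_image.mp (hD hv)
    have hx := hball (hcb _ hp.2.1)
    have h1 : u ∈ ball (nbx σ.Q σ.Sg z) s1 1 :=
      hs1 u (Finset.mem_biUnion.mpr ⟨i, Finset.mem_range.mpr hi, Finset.mem_union_left _ hu⟩)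
    rw [← hx.2.1] at h1
    have h2 : u * p.1 ∈ ball (nbx σ.Q σ.Sg σ.x0) s1 (1 * p.1) := by
      rw [ballx_mul]; exact Finset.mem_image_of_mem _ h1
    rw [one_mul] at h2
    exact ball_mono hself0 (le_max_right _ _) _ h2
  have hmain := stage (adj0 σ) hM (Sm := Sm σ s) (Sm' := Sm σ s')
    (fun D ⟨v, hv, hv2⟩ => ⟨v, hv, hv2.trans (ball_mono hself0 (le_max_left _ _) v)⟩) hH hI Pz
    (fun p hp q hq h => Prod.ext h (by rw [hp.2.2, hq.2.2, h]))
    (fun p hp q hq h => by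
      have h1 : p.1 = q.1 := by
        rw [hp.2.2, hq.2.2] at h
        exact mul_left_cancel h
      exact Prod.ext h1 h)
    (fun p hp => ⟨hp.1, hWA (hW'W (hp1 p hp))⟩)
    (fun p hp => ⟨by rw [hp.2.2]; exact σ.Γ.mul_mem hgΓ hp.1, by
      rw [hp.2.2]; exact (hball (hcb _ hp.2.1)).2.2.2.2⟩)
    (by
      intro p hp
      have h1 := (hPP p.1 hp.1 (hp1 p hp)).2.2
      apply hall_relabel σ hp.1
      convert h1 using 1
      · ext γ
        simp only [Ax, Set.mem_ofPred_eq, Set.mem_sdiff, Set.mem_singleton_iff]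
        constructor
        · rintro ⟨⟨h1, h2⟩, h3⟩
          refine ⟨⟨?_, h2⟩, ?_⟩
          · have := σ.Γ.mul_mem h1 (σ.Γ.inv_mem hp.1)
            simpa using this
          · intro h4; apply h3; rw [h4]; simp
        · rintro ⟨⟨h1, h2⟩, h3⟩
          refine ⟨⟨σ.Γ.mul_mem h1 hp.1, h2⟩, ?_⟩
          intro h4; apply h3
          exact mul_eq_right.mp h4
      · ext γ
        simp only [Ax, Set.mem_ofPred_eq, Set.mem_sdiff, Set.mem_singleton_iff]
        constructor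
        · rintro ⟨⟨h1, h2⟩, h3⟩
          refine ⟨⟨?_, h2⟩, ?_⟩
          · have := σ.Γ.mul_mem h1 (σ.Γ.inv_mem hp.1)
            simpa using this
          · intro h4; apply h3; rw [h4, hp.2.2]
        · rintro ⟨⟨h1, h2⟩, h3⟩
          refine ⟨⟨σ.Γ.mul_mem h1 hp.1, h2⟩, ?_⟩
          intro h4; apply h3
          rw [hp.2.2] at h4
          exact mul_right_cancel h4)
    (fun p => O.image (fun u => u * p.1))
    (by
      intro p hp q hq hpq
      rw [Finset.disjoint_left]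
      intro v hv hv'
      apply hpq
      obtain ⟨u, hu, rfl⟩ := Finset.mem_image.mp hv
      obtain ⟨u', hu', h1⟩ := Finset.mem_image.mp hv'
      -- q.1 in the ball of radius s1 + s1 around p.1
      have hxp := hball (hcb _ hp.2.1)
      have hxq := hball (hcb _ hq.2.1)
      have h2 : u * p.1 ∈ ball (nbx σ.Q σ.Sg σ.x0) s1 (1 * p.1) := by
        rw [ballx_mul]; apply Finset.mem_image_of_mem; rw [hxp.2.1]; exact hs1 u hu
      have h3 : u' * q.1 ∈ ball (nbx σ.Q σ.Sg σ.x0) s1 (1 * q.1) := by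
        rw [ballx_mul]; apply Finset.mem_image_of_mem; rw [hxq.2.1]; exact hs1 u' hu'
      rw [one_mul] at h2 h3
      have h4 := ball_symm hsymm0 h3
      rw [h1] at h4
      obtain ⟨w, hw, hw2⟩ := ballx_wd σ.one _ _ _ _ (ball_trans h2 h4)
      exact hsparse p hp q hq w (hWmono (by omega) w hw) hw2)
    (by
      intro p hp D hD hirr hharm
      by_contra hcon
      push Not at hcon
      obtain ⟨hnS, hlt⟩ := hcon
      have hx := hball (hcb _ hp.2.1)
      obtain ⟨hx1, hx2, hx3, hx4, hx5⟩ := hx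
      -- a free shell
      have hfree : ∃ i, i < k ∧ ∀ u ∈ Th i, u * p.1 ∉ D \ er (NN σ σ.x0) D := by
        by_contra hc
        push Not at hc
        have hch : ∀ i, ∃ v, i < k → v ∈ Th i ∧ v * p.1 ∈ D \ er (NN σ σ.x0) D := by
          intro i
          by_cases hi : i < k
          · obtain ⟨v, h1, h2⟩ := hc i hi
            exact ⟨v, fun _ => ⟨h1, h2⟩⟩
          · exact ⟨1, fun h => absurd h hi⟩
        choose v hv using hch
        have hle : (range k).card ≤ ((D \ er (NN σ σ.x0) D) ∩ O.image (fun u => u * p.1)).card := by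
          apply Finset.card_le_card_of_injOn (fun i => v i * p.1)
          · intro i hi
            have hi' := Finset.mem_range.mp (Finset.mem_coe.mp hi)
            apply Finset.mem_coe.mpr
            refine Finset.mem_inter.mpr ⟨(hv i hi').2, Finset.mem_image_of_mem _ ?_⟩
            exact Finset.mem_biUnion.mpr ⟨i, Finset.mem_range.mpr hi', Finset.mem_union_right _ (hv i hi').1⟩
          · intro i hi j hj hij
            have hi' := Finset.mem_range.mp (Finset.mem_coe.mp hi)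
            have hj' := Finset.mem_range.mp (Finset.mem_coe.mp hj)
            by_contra hne
            have h1 : v i = v j := mul_right_cancel hij
            have h2 := hThd i hi' j hj' hne
            exact Finset.disjoint_left.mp h2 (hv i hi').1 (h1 ▸ (hv j hj').1)
        rw [Finset.card_range] at hle
        omega
      obtain ⟨i, hi, hfr⟩ := hfree
      obtain ⟨sh1, sh2, sh3, sh4⟩ := hsh i hi
      have hIO : ∀ u ∈ I i, u ∈ O := fun u hu =>
        Finset.mem_biUnion.mpr ⟨i, Finset.mem_range.mpr hi, Finset.mem_union_left _ hu⟩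
      have hThO : ∀ u ∈ Th i, u ∈ O := fun u hu =>
        Finset.mem_biUnion.mpr ⟨i, Finset.mem_range.mpr hi, Finset.mem_union_right _ hu⟩
      have hpRe : p.1 ∈ Re σ σ.x0 := ⟨hp.1, hA (hWA (hW'W hx4))⟩
      -- facts around p.1
      have hB1 : ∀ u, u ∈ ball (nbx σ.Q σ.Sg z) (2 * σ.R) 1 → u * p.1 ∈ (I i).image (fun u => u * p.1) :=
        fun u hu => Finset.mem_image_of_mem _ (sh1 hu)
      have hgN : g ∈ NN σ z 1 := hPz.1
      have hgB : g ∈ ball (nbx σ.Q σ.Sg z) (2 * σ.R) 1 := ball_mono (hself z) (by omega) 1 hgN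
      have h1B : (1 : X ≃ᵢ X) ∈ ball (nbx σ.Q σ.Sg z) (2 * σ.R) 1 := mem_ball_self (hself z) _ 1
      have hp1I : p.1 ∈ (I i).image (fun u => u * p.1) := by
        have := hB1 1 h1B; rwa [one_mul] at this
      have hp2I : p.2 ∈ (I i).image (fun u => u * p.1) := by
        rw [hp.2.2]; exact hB1 g hgB
      have hN1 : NN σ σ.x0 p.1 ⊆ (I i).image (fun u => u * p.1) := by
        intro v hv
        have : v ∈ NN σ σ.x0 (1 * p.1) := by rwa [one_mul]
        rw [NN_mul] at this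
        obtain ⟨u, hu, rfl⟩ := Finset.mem_image.mp this
        apply hB1
        rw [← hx3]
        exact ball_mono (hself _) (by omega) 1 hu
      have hN2 : NN σ σ.x0 p.2 ⊆ (I i).image (fun u => u * p.1) := by
        intro v hv
        rw [hp.2.2, NN_mul] at hv
        obtain ⟨u, hu, rfl⟩ := Finset.mem_image.mp hv
        apply hB1
        rw [← hx3]
        have hg1 : g ∈ ball (nbx σ.Q σ.Sg (p.1 σ.x0)) σ.R 1 := (hPP p.1 hp.1 hx4).1
        have := ball_trans hg1 hu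
        rwa [← two_mul] at this
      have hsplit : ∀ a b : X ≃ᵢ X, a ∈ D → a ∈ (I i).image (fun u => u * p.1) →
          NN σ σ.x0 b ⊆ (I i).image (fun u => u * p.1) → ¬ NN σ σ.x0 b ⊆ D → False := by
        intro a b ha1 ha2 hb1 hb2
        rcases shell_split (adj0 σ) (I := (I i).image (fun u => u * p.1)) (Th := (Th i).image (fun u => u * p.1)) hD
          (by
            intro v hv
            obtain ⟨u, hu, rfl⟩ := Finset.mem_image.mp hv
            have h1 : u ∈ ball (nbx σ.Q σ.Sg z) s1 1 := hs1 u (hIO u hu)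
            rw [← hx2] at h1
            have h2 : u * p.1 ∈ ball (nbx σ.Q σ.Sg σ.x0) s1 (1 * p.1) := by
              rw [ballx_mul]; exact Finset.mem_image_of_mem _ h1
            rw [one_mul] at h2
            exact ball_re (nbx_re σ.sub σ.x0) hpRe h2)
          (by
            intro v hv
            obtain ⟨u, hu, rfl⟩ := Finset.mem_image.mp hv
            rw [NN_mul, hx1 u (hIO u hu), ← Finset.image_union]
            exact Finset.image_subset_image (sh3 u hu))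
          (by
            intro S hS1 hS2
            have h1 := sh4 {u | u * p.1 ∈ S} (by
              obtain ⟨w, hw, hw2⟩ := hS1
              obtain ⟨u, hu, rfl⟩ := Finset.mem_image.mp hw
              exact ⟨u, hu, hw2⟩) (by
              intro u hu huS w hw hwN
              apply hS2 _ (Finset.mem_image_of_mem _ hu) huS _ (Finset.mem_image_of_mem _ hw)
              rw [NN_mul, hx1 u (hThO u hu)]
              exact Finset.mem_image_of_mem _ hwN)
            intro w hw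
            obtain ⟨u, hu, rfl⟩ := Finset.mem_image.mp hw
            exact h1 u hu)
          (by
            intro v hv hvD
            obtain ⟨u, hu, rfl⟩ := Finset.mem_image.mp hv
            have h1 := hfr u hu
            have h2 : u * p.1 ∈ er (NN σ σ.x0) D := by
              by_contra hc
              exact h1 (Finset.mem_sdiff.mpr ⟨hvD, hc⟩)
            exact (mem_er.mp h2).2)
          ha1 ha2 hb1 hb2 with h | h
        · exact hnS (hDI p hp i hi D h)
        · exact hirr h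
      rcases hharm with ⟨h1, h2⟩ | ⟨h1, h2⟩
      · exact hsplit p.2 p.1 h1 hp2I hN1 h2
      · exact hsplit p.1 p.2 h1 hp1I hN2 h2)
    (by
      rintro D ⟨v, hv, hvD⟩ p hp q hq hpD hqD
      have hbd : ∀ p ∈ Pz, (p.1 ∈ D ∨ p.2 ∈ D) → p.1 ∈ ball (nbx σ.Q σ.Sg σ.x0) (s' + σ.R) v := by
        intro p hp hpD
        rcases hpD with h | h
        · exact ball_mono hself0 (by omega) v (hvD h)
        · have h1 := hvD h
          have h2 : p.2 ∈ ball (nbx σ.Q σ.Sg σ.x0) σ.R p.1 := by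
            have h3 : g ∈ ball (nbx σ.Q σ.Sg (p.1 σ.x0)) σ.R 1 := (hPP p.1 hp.1 (hp1 p hp)).1
            have h4 : g * p.1 ∈ ball (nbx σ.Q σ.Sg σ.x0) σ.R (1 * p.1) := by
              rw [ballx_mul]; exact Finset.mem_image_of_mem _ h3
            rwa [one_mul, ← hp.2.2] at h4
          exact ball_trans h1 (ball_symm hsymm0 h2)
      have h1 := ball_symm hsymm0 (hbd p hp hpD)
      have h2 := hbd q hq hqD
      obtain ⟨w, hw, hw2⟩ := ballx_wd σ.one _ _ _ _ (ball_trans h1 h2)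
      exact hsparse p hp q hq w (hWmono (by omega) w hw) hw2)
  refine ⟨z, r, g, hr0, hgW, ?_, ?_, frontier_gen σ hgA hrz, frontier_gen σ hgB hrg, 2 * M, by omega, s', ?_, ?_⟩
  · intro y hy
    exact hW'W (hball (hcb y hy)).2.2.2.1
  · intro y hy
    have h1 := (hgball y).mp hy
    have h2 := (hball (hcb _ h1)).2.2.2.2
    have h3 : g (g⁻¹ y) = y := g.apply_symm_apply y
    rwa [h3] at h2
  · rw [hfst, hsnd]; exact hmain.1
  · rw [hfst, hsnd]; exact hmain.2

end step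

end Pool.Agent.H382RO

namespace Pool.Agent.H382RO
open Finset Classical Topology

section iter
variable {X : Type} [NormedAddCommGroup X] [NormedSpace ℝ X] [SecondCountableTopology X] (σ : Sys X)

def St (A' B' : Set X) : Prop :=
  IsOpen A' ∧ IsOpen B' ∧ A' ⊆ σ.Q ∧ B' ⊆ σ.Q ∧ (∀ γ ∈ σ.Γ, γ σ.x0 ∉ frontier A') ∧
  (∀ γ ∈ σ.Γ, γ σ.x0 ∉ frontier B') ∧ ∃ M : ℤ, 1 ≤ M ∧ ∃ s : ℕ,
    Hall (NN σ σ.x0) (Re σ σ.x0) (Ax σ σ.x0 A') (Ax σ σ.x0 B') ∧
    Inv (NN σ σ.x0) (Re σ σ.x0) M (Sm σ s) (Ax σ σ.x0 A') (Ax σ σ.x0 B')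

theorem St.symm {A' B' : Set X} (h : St σ A' B') : St σ B' A' := by
  obtain ⟨h1, h2, h3, h4, h5, h6, M, hM, s, h7, h8⟩ := h
  refine ⟨h2, h1, h4, h3, h6, h5, M, hM, s, h7.symm, ?_⟩
  intro D hD hr
  rcases h8 D hD hr with h | h
  · exact Or.inl h
  · exact Or.inr ⟨h.2, h.1⟩

noncomputable def FF : Finset (X ≃ᵢ X) := Wd σ.Sg σ.R ∪ (Wd σ.Sg σ.R).image (fun g => g⁻¹)

def Tr (A' B' : Set X) (J : Set X) (g : X ≃ᵢ X) (A'' B'' : Set X) : Prop :=
  IsOpen J ∧ g ∈ FF σ ∧ J ⊆ A' ∧ g '' J ⊆ B' ∧ A'' = A' \ closure J ∧ B'' = B' \ closure (g '' J)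

theorem stepA {A' B' W : Set X} (hS : St σ A' B') (hW : IsOpen W) (hne : W.Nonempty) (hWA : W ⊆ A') :
    ∃ J g A'' B'', Tr σ A' B' J g A'' B'' ∧ St σ A'' B'' ∧ J.Nonempty ∧ J ⊆ W := by
  obtain ⟨h1, h2, h3, h4, h5, h6, M, hM, s, h7, h8⟩ := hS
  obtain ⟨z, r, g, hr, hg, hz, hgz, hf1, hf2, M', hM', s', hH, hI⟩ :=
    step σ h3 h4 h2 h5 h6 hM h7 h8 hW hne hWA
  have hcl : closure (Metric.ball z r) = Metric.closedBall z r := closure_ball z hr.ne'
  have himg : g '' Metric.ball z r = Metric.ball (g z) r := g.image_ball z r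
  have hcl2 : closure (g '' Metric.ball z r) = Metric.closedBall (g z) r := by
    rw [himg]; exact closure_ball _ hr.ne'
  refine ⟨Metric.ball z r, g, A' \ Metric.closedBall z r, B' \ Metric.closedBall (g z) r,
    ⟨Metric.isOpen_ball, Finset.mem_union_left _ hg, ?_, ?_, by rw [hcl], by rw [hcl2]⟩,
    ⟨h1.sdiff Metric.isClosed_closedBall, h2.sdiff Metric.isClosed_closedBall,
      Set.sdiff_subset.trans h3, Set.sdiff_subset.trans h4, hf1, hf2, M', hM', s', hH, hI⟩,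
    ⟨z, Metric.mem_ball_self hr⟩, Metric.ball_subset_closedBall.trans hz⟩
  · exact (Metric.ball_subset_closedBall.trans hz).trans hWA
  · rw [himg]; exact Metric.ball_subset_closedBall.trans hgz

theorem stepB {A' B' W : Set X} (hS : St σ A' B') (hW : IsOpen W) (hne : W.Nonempty) (hWB : W ⊆ B') :
    ∃ J g A'' B'', Tr σ A' B' J g A'' B'' ∧ St σ A'' B'' ∧ (g '' J).Nonempty ∧ g '' J ⊆ W := by
  obtain ⟨h1, h2, h3, h4, h5, h6, M, hM, s, h7, h8⟩ := hS.symm
  obtain ⟨z, r, g, hr, hg, hz, hgz, hf1, hf2, M', hM', s', hH, hI⟩ :=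
    step σ h3 h4 h2 h5 h6 hM h7 h8 hW hne hWB
  have hcl : closure (Metric.ball z r) = Metric.closedBall z r := closure_ball z hr.ne'
  have hcl2 : closure (Metric.ball (g z) r) = Metric.closedBall (g z) r := closure_ball _ hr.ne'
  have himg : ⇑(g⁻¹ : X ≃ᵢ X) '' Metric.ball (g z) r = Metric.ball z r := by
    have := (g⁻¹).image_ball (g z) r
    have e : g⁻¹ (g z) = z := g.symm_apply_apply z
    rw [e] at this
    exact this
  refine ⟨Metric.ball (g z) r, g⁻¹, A' \ Metric.closedBall (g z) r, B' \ Metric.closedBall z r,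
    ⟨Metric.isOpen_ball, Finset.mem_union_right _ (Finset.mem_image_of_mem _ hg), ?_, ?_, by rw [hcl2], by rw [himg, hcl]⟩,
    St.symm σ ⟨h1.sdiff Metric.isClosed_closedBall, h2.sdiff Metric.isClosed_closedBall,
      Set.sdiff_subset.trans h3, Set.sdiff_subset.trans h4, hf1, hf2, M', hM', s', hH, hI⟩, ?_, ?_⟩
  · exact Metric.ball_subset_closedBall.trans hgz
  · rw [himg]; exact (Metric.ball_subset_closedBall.trans hz).trans hWB
  · rw [himg]; exact ⟨z, Metric.mem_ball_self hr⟩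
  · rw [himg]; exact Metric.ball_subset_closedBall.trans hz

theorem one_step (U : Set X) (hU : IsOpen U) (side : Bool) {A' B' : Set X} (hS : St σ A' B') :
    ∃ J g A'' B'', Tr σ A' B' J g A'' B'' ∧ St σ A'' B'' ∧
      (side = true → (A' ∩ U).Nonempty → (J ∩ U).Nonempty) ∧
      (side = false → (B' ∩ U).Nonempty → (g '' J ∩ U).Nonempty) := by
  have hskip : ∃ J g A'' B'', Tr σ A' B' J g A'' B'' ∧ St σ A'' B'' ∧ J = ∅ := by
    refine ⟨∅, 1, A', B', ⟨isOpen_empty, ?_, Set.empty_subset _, by simp, by simp, by simp⟩, hS, rfl⟩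
    apply Finset.mem_union_left
    have : ∀ r, (1 : X ≃ᵢ X) ∈ Wd σ.Sg r := by
      intro r
      induction r with
      | zero => simp [Wd]
      | succ r ih =>
        simp only [Wd, Finset.mem_biUnion, Finset.mem_image]
        exact ⟨1, ih, 1, σ.one, one_mul 1⟩
    exact this _
  cases side with
  | true =>
    by_cases hne : (A' ∩ U).Nonempty
    · obtain ⟨J, g, A'', B'', h1, h2, h3, h4⟩ := stepA σ hS (hS.1.inter hU) hne Set.inter_subset_left
      refine ⟨J, g, A'', B'', h1, h2, fun _ _ => ?_, fun h => absurd h (by simp)⟩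
      obtain ⟨x, hx⟩ := h3
      exact ⟨x, hx, (h4 hx).2⟩
    · obtain ⟨J, g, A'', B'', h1, h2, h3⟩ := hskip
      exact ⟨J, g, A'', B'', h1, h2, fun _ h => absurd h hne, fun h => absurd h (by simp)⟩
  | false =>
    by_cases hne : (B' ∩ U).Nonempty
    · obtain ⟨J, g, A'', B'', h1, h2, h3, h4⟩ := stepB σ hS (hS.2.1.inter hU) hne Set.inter_subset_left
      refine ⟨J, g, A'', B'', h1, h2, fun h => absurd h (by simp), fun _ _ => ?_⟩
      obtain ⟨x, hx⟩ := h3
      exact ⟨x, hx, (h4 hx).2⟩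
    · obtain ⟨J, g, A'', B'', h1, h2, h3⟩ := hskip
      exact ⟨J, g, A'', B'', h1, h2, fun h => absurd h (by simp), fun _ h => absurd h hne⟩

theorem iterate {A B : Set X} (hS : St σ A B) :
    ∃ (J : ℕ → Set X) (g : ℕ → X ≃ᵢ X), (∀ n, IsOpen (J n)) ∧ (∀ n, g n ∈ FF σ) ∧
      (∀ n, J n ⊆ A) ∧ (∀ n, g n '' J n ⊆ B) ∧ (∀ m n, m ≠ n → Disjoint (J m) (J n)) ∧
      (∀ m n, m ≠ n → Disjoint (g m '' J m) (g n '' J n)) ∧
      A ⊆ closure (⋃ n, J n) ∧ B ⊆ closure (⋃ n, g n '' J n) := by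
  obtain ⟨b, hbc, hb0, hbb⟩ := TopologicalSpace.exists_countable_basis X
  have hbne : b.Nonempty := by
    obtain ⟨u, hu, _⟩ := hbb.exists_subset_of_mem_open (Set.mem_univ (0 : X)) isOpen_univ
    exact ⟨u, hu⟩
  obtain ⟨U, hU⟩ := hbc.exists_eq_range hbne
  have hUo : ∀ n, IsOpen (U n) := fun n => hbb.isOpen (hU ▸ Set.mem_range_self n)
  have hex : ∀ (n : ℕ) (p : {p : Set X × Set X // St σ p.1 p.2}), ∃ (J : Set X) (g : X ≃ᵢ X)
      (p' : {p : Set X × Set X // St σ p.1 p.2}), Tr σ p.1.1 p.1.2 J g p'.1.1 p'.1.2 ∧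
        ((n % 2 = 0) → (p.1.1 ∩ U (n / 2)).Nonempty → (J ∩ U (n / 2)).Nonempty) ∧
        ((n % 2 = 1) → (p.1.2 ∩ U (n / 2)).Nonempty → (g '' J ∩ U (n / 2)).Nonempty) := by
    intro n p
    obtain ⟨J, g, A'', B'', h1, h2, h3, h4⟩ := one_step σ (U (n/2)) (hUo _) (decide (n % 2 = 0)) p.2
    refine ⟨J, g, ⟨(A'', B''), h2⟩, h1, fun h => h3 (by simp [h]), fun h => h4 (by simp [h])⟩
  choose J g nxt hT hTA hTB using hex
  let seq : ℕ → {p : Set X × Set X // St σ p.1 p.2} := fun n => Nat.rec ⟨(A, B), hS⟩ (fun n p => nxt n p) n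
  have hseq : ∀ n, seq (n+1) = nxt n (seq n) := fun n => rfl
  have hA1 : ∀ n, (seq (n+1)).1.1 = (seq n).1.1 \ closure (J n (seq n)) := by
    intro n; rw [hseq]; exact (hT n (seq n)).2.2.2.2.1
  have hB1 : ∀ n, (seq (n+1)).1.2 = (seq n).1.2 \ closure (g n (seq n) '' J n (seq n)) := by
    intro n; rw [hseq]; exact (hT n (seq n)).2.2.2.2.2
  have hAmono : ∀ m n, m ≤ n → (seq n).1.1 ⊆ (seq m).1.1 := by
    intro m n h
    induction h with
    | refl => exact subset_rfl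
    | step _ ih => rw [hA1]; exact Set.sdiff_subset.trans ih
  have hBmono : ∀ m n, m ≤ n → (seq n).1.2 ⊆ (seq m).1.2 := by
    intro m n h
    induction h with
    | refl => exact subset_rfl
    | step _ ih => rw [hB1]; exact Set.sdiff_subset.trans ih
  have hAd : ∀ m n, m < n → Disjoint (J m (seq m)) (J n (seq n)) := by
    intro m n h
    rw [Set.disjoint_left]
    intro x hx hx2
    have h1 : x ∈ (seq (m+1)).1.1 := hAmono _ _ h ((hT n (seq n)).2.2.1 hx2)
    rw [hA1] at h1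
    exact h1.2 (subset_closure hx)
  have hBd : ∀ m n, m < n → Disjoint (g m (seq m) '' J m (seq m)) (g n (seq n) '' J n (seq n)) := by
    intro m n h
    rw [Set.disjoint_left]
    intro x hx hx2
    have h1 : x ∈ (seq (m+1)).1.2 := hBmono _ _ h ((hT n (seq n)).2.2.2.1 hx2)
    rw [hB1] at h1
    exact h1.2 (subset_closure hx)
  have hAcov : ∀ n, A ⊆ (seq n).1.1 ∪ closure (⋃ k, J k (seq k)) := by
    intro n
    induction n with
    | zero => exact Set.subset_union_left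
    | succ n ih =>
      intro x hx
      rcases ih hx with h | h
      · by_cases h2 : x ∈ closure (J n (seq n))
        · right; exact closure_mono (Set.subset_iUnion (fun k => J k (seq k)) n) h2
        · left; rw [hA1]; exact ⟨h, h2⟩
      · right; exact h
  have hBcov : ∀ n, B ⊆ (seq n).1.2 ∪ closure (⋃ k, g k (seq k) '' J k (seq k)) := by
    intro n
    induction n with
    | zero => exact Set.subset_union_left
    | succ n ih =>
      intro x hx
      rcases ih hx with h | h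
      · by_cases h2 : x ∈ closure (g n (seq n) '' J n (seq n))
        · right; exact closure_mono (Set.subset_iUnion (fun k => g k (seq k) '' J k (seq k)) n) h2
        · left; rw [hB1]; exact ⟨h, h2⟩
      · right; exact h
  refine ⟨fun n => J n (seq n), fun n => g n (seq n), fun n => (hT n (seq n)).1, fun n => (hT n (seq n)).2.1,
    fun n => ((hT n (seq n)).2.2.1).trans (hAmono 0 n (Nat.zero_le n)),
    fun n => ((hT n (seq n)).2.2.2.1).trans (hBmono 0 n (Nat.zero_le n)), ?_, ?_, ?_, ?_⟩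
  · intro m n h
    rcases lt_or_gt_of_ne h with h1 | h1
    · exact hAd m n h1
    · exact (hAd n m h1).symm
  · intro m n h
    rcases lt_or_gt_of_ne h with h1 | h1
    · exact hBd m n h1
    · exact (hBd n m h1).symm
  · intro x hx
    by_contra hc
    -- a basic neighbourhood of x missing the closure
    obtain ⟨u, hu, hxu, hu2⟩ := hbb.exists_subset_of_mem_open (show x ∈ (closure (⋃ k, J k (seq k)))ᶜ from hc)
      isClosed_closure.isOpen_compl
    rw [hU] at hu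
    obtain ⟨m, rfl⟩ := hu
    have h1 : x ∈ (seq (2*m)).1.1 := by
      rcases hAcov (2*m) hx with h | h
      · exact h
      · exact absurd h hc
    have h2 : (2*m) / 2 = m := by omega
    have h3 := hTA (2*m) (seq (2*m)) (by omega) (by rw [h2]; exact ⟨x, h1, hxu⟩)
    rw [h2] at h3
    obtain ⟨y, hy1, hy2⟩ := h3
    exact hu2 hy2 (subset_closure (Set.mem_iUnion.mpr ⟨_, hy1⟩))
  · intro x hx
    by_contra hc
    obtain ⟨u, hu, hxu, hu2⟩ := hbb.exists_subset_of_mem_open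
      (show x ∈ (closure (⋃ k, g k (seq k) '' J k (seq k)))ᶜ from hc) isClosed_closure.isOpen_compl
    rw [hU] at hu
    obtain ⟨m, rfl⟩ := hu
    have h1 : x ∈ (seq (2*m+1)).1.2 := by
      rcases hBcov (2*m+1) hx with h | h
      · exact h
      · exact absurd h hc
    have h2 : (2*m+1) / 2 = m := by omega
    have h3 := hTB (2*m+1) (seq (2*m+1)) (by omega) (by rw [h2]; exact ⟨x, h1, hxu⟩)
    rw [h2] at h3
    obtain ⟨y, hy1, hy2⟩ := h3
    exact hu2 hy2 (subset_closure (Set.mem_iUnion.mpr ⟨_, hy1⟩))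

/-- regular-open equidecomposability -/
def ROE {X : Type} [MetricSpace X] (A B : Set X) : Prop :=
  ∃ n : ℕ, ∃ P : Fin n → Set X, ∃ g : Fin n → (X ≃ᵢ X),
    (∀ i, interior (closure (P i)) = P i ∧ Bornology.IsBounded (P i)) ∧
    Pairwise (fun i j => Disjoint (P i) (P j)) ∧
    Pairwise (fun i j => Disjoint ((g i) '' (P i)) ((g j) '' (P j))) ∧
    interior (closure (⋃ i, P i)) = A ∧
    interior (closure (⋃ i, (g i) '' (P i))) = B

theorem disj_reg {Y : Type} [TopologicalSpace Y] {U W : Set Y} (hW : IsOpen W) (h : Disjoint U W) :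
    Disjoint (interior (closure U)) (interior (closure W)) := by
  have h1 : Disjoint (closure U) W := h.closure_left hW
  have h2 : Disjoint (interior (closure U)) W := h1.mono_left interior_subset
  have h3 : Disjoint (interior (closure U)) (closure W) := h2.closure_right isOpen_interior
  exact h3.mono_right interior_subset

theorem roe_of_iterate {A B : Set X} (hA : interior (closure A) = A) (hB : interior (closure B) = B)
    (hAb : Bornology.IsBounded A) (hS : St σ A B) : ROE A B := by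
  obtain ⟨J, g, h1, h2, h3, h4, h5, h6, h7, h8⟩ := iterate σ hS
  let e := (FF σ).equivFin
  let P0 : (FF σ) → Set X := fun h => ⋃ n : ℕ, ⋃ _ : g n = (h : X ≃ᵢ X), J n
  have hP0o : ∀ h, IsOpen (P0 h) := fun h => isOpen_iUnion fun n => isOpen_iUnion fun _ => h1 n
  have hP0A : ∀ h, P0 h ⊆ A := fun h => Set.iUnion_subset fun n => Set.iUnion_subset fun _ => h3 n
  have himg : ∀ h : FF σ, (h : X ≃ᵢ X) '' P0 h = ⋃ n : ℕ, ⋃ _ : g n = (h : X ≃ᵢ X), g n '' J n := by
    intro h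
    simp only [P0, Set.image_iUnion]
    apply Set.iUnion_congr; intro n
    apply Set.iUnion_congr; intro hn
    rw [hn]
  have hP0io : ∀ h : FF σ, IsOpen ((h : X ≃ᵢ X) '' P0 h) := fun h =>
    (h : X ≃ᵢ X).toHomeomorph.isOpenMap _ (hP0o h)
  have hd1 : ∀ h k : FF σ, h ≠ k → Disjoint (P0 h) (P0 k) := by
    intro h k hhk
    rw [Set.disjoint_left]
    intro x hx hx2
    simp only [P0, Set.mem_iUnion] at hx hx2
    obtain ⟨n, hn, hxn⟩ := hx
    obtain ⟨m, hm, hxm⟩ := hx2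
    have hnm : n ≠ m := by
      rintro rfl; exact hhk (Subtype.ext (hn.symm.trans hm))
    exact Set.disjoint_left.mp (h5 n m hnm) hxn hxm
  have hd2 : ∀ h k : FF σ, h ≠ k → Disjoint ((h : X ≃ᵢ X) '' P0 h) ((k : X ≃ᵢ X) '' P0 k) := by
    intro h k hhk
    rw [himg, himg, Set.disjoint_left]
    intro x hx hx2
    simp only [Set.mem_iUnion] at hx hx2
    obtain ⟨n, hn, hxn⟩ := hx
    obtain ⟨m, hm, hxm⟩ := hx2
    have hnm : n ≠ m := by
      rintro rfl; exact hhk (Subtype.ext (hn.symm.trans hm))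
    exact Set.disjoint_left.mp (h6 n m hnm) hxn hxm
  have hic : ∀ (k : X ≃ᵢ X) (S : Set X), k '' interior (closure S) = interior (closure (k '' S)) := by
    intro k S
    have e1 := k.toHomeomorph.image_interior (closure S)
    have e2 := k.toHomeomorph.image_closure S
    calc k '' interior (closure S) = interior (k '' closure S) := e1
      _ = interior (closure (k '' S)) := by rw [show k '' closure S = closure (k '' S) from e2]
  refine ⟨(FF σ).card, fun i => interior (closure (P0 (e.symm i))), fun i => (e.symm i : X ≃ᵢ X), ?_, ?_, ?_, ?_, ?_⟩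
  · intro i
    constructor
    · apply subset_antisymm
      · exact interior_mono (closure_minimal interior_subset isClosed_closure)
      · exact interior_maximal subset_closure isOpen_interior
    · exact hAb.closure.subset (interior_subset.trans (closure_mono (hP0A _)))
  · intro i j hij
    exact disj_reg (hP0o _) (hd1 _ _ (e.symm.injective.ne hij))
  · intro i j hij
    rw [hic, hic]
    exact disj_reg (hP0io _) (hd2 _ _ (e.symm.injective.ne hij))
  · have hcl : closure (⋃ i, interior (closure (P0 (e.symm i)))) = closure A := by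
      apply subset_antisymm
      · apply closure_minimal _ isClosed_closure
        exact Set.iUnion_subset fun i => interior_subset.trans (closure_mono (hP0A _))
      · apply closure_minimal _ isClosed_closure
        refine h7.trans (closure_mono ?_)
        intro x hx
        obtain ⟨n, hn⟩ := Set.mem_iUnion.mp hx
        refine Set.mem_iUnion.mpr ⟨e ⟨g n, h2 n⟩, ?_⟩
        rw [Equiv.symm_apply_apply]
        apply interior_maximal subset_closure (hP0o _)
        exact Set.mem_iUnion.mpr ⟨n, Set.mem_iUnion.mpr ⟨rfl, hn⟩⟩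
    rw [hcl, hA]
  · have hcl : closure (⋃ i, (e.symm i : X ≃ᵢ X) '' interior (closure (P0 (e.symm i)))) = closure B := by
      apply subset_antisymm
      · apply closure_minimal _ isClosed_closure
        apply Set.iUnion_subset
        intro i
        rw [hic]
        refine interior_subset.trans (closure_mono ?_)
        rw [himg]
        exact Set.iUnion_subset fun n => Set.iUnion_subset fun _ => h4 n
      · apply closure_minimal _ isClosed_closure
        refine h8.trans (closure_mono ?_)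
        intro x hx
        obtain ⟨n, hn⟩ := Set.mem_iUnion.mp hx
        refine Set.mem_iUnion.mpr ⟨e ⟨g n, h2 n⟩, ?_⟩
        rw [Equiv.symm_apply_apply, hic]
        apply interior_maximal subset_closure (hP0io _)
        rw [himg]
        exact Set.mem_iUnion.mpr ⟨n, Set.mem_iUnion.mpr ⟨rfl, hn⟩⟩
    rw [hcl, hB]

end iter

end Pool.Agent.H382RO
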