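import Pool.Agent.Helper382.RO1
set_option autoImplicit false
set_option linter.all false

/-!
# Part 2: arithmetic of the torus `(ℝ/2ℓℤ)^d` and the torus moves `tor`
-/

namespace Pool.Agent.H382RO
open Finset Classical Topology

/-! arithmetic of the torus -/

theorem indep {k l m : ℤ} (h : (k:ℝ) * (√2 - 1) + (l:ℝ) * (√3 - 1) = m) : k = 0 ∧ l = 0 := by
  have h2 : (√2:ℝ) * √2 = 2 := Real.mul_self_sqrt (by norm_num)
  have h3 : (√3:ℝ) * √3 = 3 := Real.mul_self_sqrt (by norm_num)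
  have h6 : (√2:ℝ) * √3 = √6 := by
    rw [← Real.sqrt_mul (by norm_num)]; norm_num
  have e1 : (k:ℝ) * √2 + l * √3 = ((m + k + l : ℤ) : ℝ) := by push_cast; linarith
  have e2 : ((2 * k * l : ℤ) : ℝ) * √6 = (((m+k+l)^2 - 2 * k^2 - 3 * l^2 : ℤ) : ℝ) := by
    push_cast
    have : ((k:ℝ) * √2 + l * √3)^2 = ((m:ℝ) + k + l)^2 := by rw [e1]; push_cast; ring
    have e3 : ((k:ℝ) * √2 + l * √3)^2 = 2 * k^2 + 3 * l^2 + 2 * k * l * √6 := by
      rw [← h6]
      have : ((k:ℝ) * √2 + l * √3)^2 = k^2 * (√2 * √2) + l^2 * (√3 * √3) + 2 * k * l * (√2 * √3) := by ring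
      rw [this, h2, h3]; ring
    linarith
  have i6 : Irrational (√6:ℝ) := by
    have : ¬ IsSquare (6:ℕ) := by
      rintro ⟨r, hr⟩
      have : r ≤ 2 ∨ 3 ≤ r := by omega
      rcases this with h | h
      · interval_cases r <;> omega
      · nlinarith
    exact_mod_cast irrational_sqrt_natCast_iff.mpr this
  have i3 : Irrational (√3:ℝ) := by
    have : ¬ IsSquare (3:ℕ) := by
      rintro ⟨r, hr⟩
      have : r ≤ 1 ∨ 2 ≤ r := by omega
      rcases this with h | h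
      · interval_cases r <;> omega
      · nlinarith
    exact_mod_cast irrational_sqrt_natCast_iff.mpr this
  have i2 : Irrational (√2:ℝ) := irrational_sqrt_two
  have irr : ∀ (x : ℝ), Irrational x → ∀ (a b : ℤ), (a:ℝ) * x = b → a = 0 := by
    intro x hx a b hab
    by_contra ha
    apply hx
    refine ⟨(b:ℚ) / a, ?_⟩
    have ha' : (a:ℝ) ≠ 0 := by exact_mod_cast ha
    push_cast
    field_simp
    linarith
  have hkl : 2 * k * l = 0 := irr _ i6 _ _ e2
  rcases mul_eq_zero.mp hkl with h | h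
  · have hk : k = 0 := by omega
    subst hk
    refine ⟨rfl, ?_⟩
    apply irr _ i3 l (m + 0 + l)
    rw [← e1]; push_cast; ring
  · subst h
    refine ⟨?_, rfl⟩
    apply irr _ i2 k (m + k + 0)
    rw [← e1]; push_cast; ring

/-- the two rotation amounts for the circle of length `2ℓ` -/
noncomputable def ab (ℓ : ℝ) (c : Bool) : ℝ := if c then 2 * ℓ * (√3 - 1) else 2 * ℓ * (√2 - 1)

theorem ab_range {ℓ : ℝ} (hℓ : 0 < ℓ) (c : Bool) : 0 < ab ℓ c ∧ ab ℓ c < 2 * ℓ := by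
  have h2 : (√2:ℝ) * √2 = 2 := Real.mul_self_sqrt (by norm_num)
  have h3 : (√3:ℝ) * √3 = 3 := Real.mul_self_sqrt (by norm_num)
  have p2 : 0 ≤ √2 := Real.sqrt_nonneg _
  have p3 : 0 ≤ √3 := Real.sqrt_nonneg _
  have q2 : 1 < √2 ∧ √2 < 2 := by constructor <;> nlinarith
  have q3 : 1 < √3 ∧ √3 < 2 := by constructor <;> nlinarith
  cases c
  · simp only [ab, Bool.false_eq_true, if_false]
    constructor <;> nlinarith
  · simp only [ab, if_true]
    constructor <;> nlinarith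

theorem ab_indep {ℓ : ℝ} (hℓ : 0 < ℓ) {k l m : ℤ} (h : (k:ℝ) * ab ℓ false + l * ab ℓ true = m * (2 * ℓ)) :
    k = 0 ∧ l = 0 := by
  apply indep (m := m)
  simp only [ab, if_true, Bool.false_eq_true, if_false] at h
  have : (2 * ℓ) * ((k:ℝ) * (√2 - 1) + l * (√3 - 1)) = (2 * ℓ) * m := by linarith
  exact mul_left_cancel₀ (by positivity) this

theorem ab_dense {ℓ : ℝ} (hℓ : 0 < ℓ) (y ε : ℝ) (hε : 0 < ε) :
    ∃ k n : ℤ, |(k:ℝ) * ab ℓ false + n * (2*ℓ) - y| < ε := by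
  have hd : Dense (AddSubgroup.closure {ab ℓ false, 2 * ℓ} : Set ℝ) := by
    rw [dense_addSubgroupClosure_pair_iff]
    have : ab ℓ false / (2 * ℓ) = √2 - 1 := by
      simp only [ab, Bool.false_eq_true, if_false]
      field_simp
    rw [this]
    have := irrational_sqrt_two.sub_intCast 1
    simpa using this
  obtain ⟨v, hv, hv2⟩ := Metric.dense_iff.mp hd y ε hε
  obtain ⟨k, n, hkn⟩ := AddSubgroup.mem_closure_pair.mp hv2
  refine ⟨k, n, ?_⟩
  rw [Metric.mem_ball, Real.dist_eq] at hv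
  rw [← hkn] at hv
  simpa [zsmul_eq_mul] using hv

end Pool.Agent.H382RO

namespace Pool.Agent.H382RO
open Finset Classical Topology

abbrev EE (d : ℕ) := EuclideanSpace ℝ (Fin d)

noncomputable def tr {d : ℕ} (v : EE d) : EE d ≃ᵢ EE d := IsometryEquiv.addRight v

theorem tr_apply {d : ℕ} (v x : EE d) : tr v x = x + v := rfl

theorem tr_mul {d : ℕ} (v w : EE d) : tr v * tr w = tr (v + w) := by
  ext1 x
  change (x + w) + v = x + (v + w)
  abel

theorem tr_zero {d : ℕ} : tr (0 : EE d) = 1 := by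
  ext1 x
  change x + 0 = x
  simp

theorem tr_inv {d : ℕ} (v : EE d) : (tr v)⁻¹ = tr (-v) := by
  rw [inv_eq_iff_mul_eq_one, tr_mul, add_neg_cancel, tr_zero]

theorem tr_inj {d : ℕ} {v w : EE d} (h : tr v = tr w) : v = w := by
  have h1 : tr v 0 = tr w 0 := by rw [h]
  simpa [tr_apply] using h1

def Qc {d : ℕ} (ℓ : ℝ) : Set (EE d) := {x | ∀ i, |x i| < ℓ}

structure TorSys (d : ℕ) where
  ℓ : ℝ
  hℓ : 0 < ℓ
  Sg : Finset (EE d ≃ᵢ EE d)
  Γ : Subgroup (EE d ≃ᵢ EE d)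
  one : (1 : EE d ≃ᵢ EE d) ∈ Sg
  inv : ∀ σ ∈ Sg, σ⁻¹ ∈ Sg
  sub : ∀ σ ∈ Sg, σ ∈ Γ
  tg : ∀ (i : Fin d) (c : Bool) (e : ℤ) (k : ℤ), (e = 1 ∨ e = -1) → |k| ≤ 1 →
    tr (EuclideanSpace.single i ((e:ℝ) * ab ℓ c + (k:ℝ) * (2 * ℓ))) ∈ Sg
  tl : ∀ i : Fin d, tr (EuclideanSpace.single i (2 * ℓ)) ∈ Γ

section tor
variable {d : ℕ} (τ : TorSys d)

def HG : AddSubgroup (EE d) where
  carrier := {v | tr v ∈ τ.Γ}
  add_mem' := by
    intro a b ha hb
    change tr (a + b) ∈ τ.Γ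
    rw [← tr_mul]; exact τ.Γ.mul_mem ha hb
  zero_mem' := by change tr 0 ∈ τ.Γ; rw [tr_zero]; exact τ.Γ.one_mem
  neg_mem' := by
    intro a ha
    change tr (-a) ∈ τ.Γ
    rw [← tr_inv]; exact τ.Γ.inv_mem ha

noncomputable def vec (κ : Fin d × Bool → ℤ) : EE d :=
  WithLp.toLp 2 (fun i => (κ (i, false) : ℝ) * ab τ.ℓ false + (κ (i, true) : ℝ) * ab τ.ℓ true)

noncomputable def lat (n : Fin d → ℤ) : EE d := WithLp.toLp 2 (fun i => (n i : ℝ) * (2 * τ.ℓ))

noncomputable def rr (p : EE d) : Fin d → ℤ := fun i => -⌊p i / (2 * τ.ℓ) + 1/2⌋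

noncomputable def red (p : EE d) : EE d := p + lat τ (rr τ p)

theorem vec_apply (κ : Fin d × Bool → ℤ) (i : Fin d) :
    vec τ κ i = (κ (i, false) : ℝ) * ab τ.ℓ false + (κ (i, true) : ℝ) * ab τ.ℓ true := rfl

theorem lat_apply (n : Fin d → ℤ) (i : Fin d) : lat τ n i = (n i : ℝ) * (2 * τ.ℓ) := rfl

theorem single_ab (i : Fin d) (c : Bool) : EuclideanSpace.single i (ab τ.ℓ c) ∈ HG τ := by
  have := τ.sub _ (τ.tg i c 1 0 (Or.inl rfl) (by norm_num))
  change tr (EuclideanSpace.single i (ab τ.ℓ c)) ∈ τ.Γ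
  simpa using this

theorem vec_mem (κ : Fin d × Bool → ℤ) : vec τ κ ∈ HG τ := by
  have : vec τ κ = ∑ i, (κ (i, false) • EuclideanSpace.single i (ab τ.ℓ false) +
      κ (i, true) • EuclideanSpace.single i (ab τ.ℓ true)) := by
    ext j
    rw [vec_apply]
    simp only [WithLp.ofLp_sum, Finset.sum_apply, PiLp.add_apply, PiLp.smul_apply, PiLp.single_apply, zsmul_eq_mul]
    rw [Finset.sum_eq_single j]
    · simp
    · intro b _ hb; simp [Ne.symm hb]
    · simp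
  rw [this]
  exact sum_mem fun i _ => add_mem (zsmul_mem (single_ab τ i false) _) (zsmul_mem (single_ab τ i true) _)

theorem lat_mem (n : Fin d → ℤ) : lat τ n ∈ HG τ := by
  have : lat τ n = ∑ i, n i • EuclideanSpace.single i (2 * τ.ℓ) := by
    ext j
    rw [lat_apply]
    simp only [WithLp.ofLp_sum, Finset.sum_apply, PiLp.smul_apply, PiLp.single_apply, zsmul_eq_mul]
    rw [Finset.sum_eq_single j]
    · simp
    · intro b _ hb; simp [Ne.symm hb]
    · simp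
  rw [this]
  exact sum_mem fun i _ => zsmul_mem (show EuclideanSpace.single i (2 * τ.ℓ) ∈ HG τ from τ.tl i) _

theorem red_apply (p : EE d) (i : Fin d) :
    red τ p i = p i - ⌊p i / (2 * τ.ℓ) + 1/2⌋ * (2 * τ.ℓ) := by
  have : red τ p i = p i + lat τ (rr τ p) i := rfl
  rw [this, lat_apply]
  simp only [rr]
  push_cast; ring

theorem red_range (p : EE d) (i : Fin d) : -τ.ℓ ≤ red τ p i ∧ red τ p i < τ.ℓ := by
  rw [red_apply]
  have hℓ := τ.hℓ
  have h1 := Int.floor_le (p i / (2 * τ.ℓ) + 1/2)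
  have h2 := Int.lt_floor_add_one (p i / (2 * τ.ℓ) + 1/2)
  have h3 : p i = (p i / (2 * τ.ℓ)) * (2 * τ.ℓ) := by field_simp
  constructor
  · nlinarith
  · nlinarith

theorem red_add_lat (p : EE d) (n : Fin d → ℤ) : red τ (p + lat τ n) = red τ p := by
  ext i
  rw [red_apply, red_apply]
  have hℓ := τ.hℓ
  have h1 : (p + lat τ n) i = p i + n i * (2 * τ.ℓ) := rfl
  have h2 : (p + lat τ n) i / (2 * τ.ℓ) + 1/2 = (p i / (2 * τ.ℓ) + 1/2) + n i := by
    rw [h1]; field_simp; ring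
  rw [h2, Int.floor_add_intCast, h1]
  push_cast; ring

theorem red_self {p : EE d} (h : ∀ i, -τ.ℓ ≤ p i ∧ p i < τ.ℓ) : red τ p = p := by
  ext i
  rw [red_apply]
  have hℓ := τ.hℓ
  have : ⌊p i / (2 * τ.ℓ) + 1/2⌋ = 0 := by
    rw [Int.floor_eq_zero_iff]
    obtain ⟨h1, h2⟩ := h i
    constructor
    · rw [div_add_div _ _ (by positivity) (by norm_num)]
      apply div_nonneg <;> linarith
    · rw [div_add_div _ _ (by positivity) (by norm_num), div_lt_one (by positivity)]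
      linarith
  rw [this]; simp

theorem vec_add (κ κ' : Fin d × Bool → ℤ) : vec τ (κ + κ') = vec τ κ + vec τ κ' := by
  ext i
  have : (vec τ κ + vec τ κ') i = vec τ κ i + vec τ κ' i := rfl
  rw [this, vec_apply, vec_apply, vec_apply]
  simp only [Pi.add_apply]
  push_cast; ring

theorem vec_zero : vec τ 0 = 0 := by
  ext i
  rw [vec_apply]; simp

theorem vec_lat_inj {κ : Fin d × Bool → ℤ} {n : Fin d → ℤ} (h : vec τ κ = lat τ n) : κ = 0 := by
  funext ⟨i, c⟩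
  have h1 : vec τ κ i = lat τ n i := by rw [h]
  rw [vec_apply, lat_apply] at h1
  have h2 := ab_indep τ.hℓ h1
  cases c
  · exact h2.1
  · exact h2.2

/-- the torus move in terms of group elements -/
noncomputable def tor (z : EE d) (κ : Fin d × Bool → ℤ) (γ : EE d ≃ᵢ EE d) : EE d ≃ᵢ EE d :=
  tr (red τ (γ z + vec τ κ) - γ z) * γ

theorem tor_apply (z : EE d) (κ : Fin d × Bool → ℤ) (γ : EE d ≃ᵢ EE d) :
    (tor τ z κ γ) z = red τ (γ z + vec τ κ) := by
  change γ z + (red τ (γ z + vec τ κ) - γ z) = _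
  abel

theorem tor_mem (z : EE d) (κ : Fin d × Bool → ℤ) {γ : EE d ≃ᵢ EE d} (hγ : γ ∈ τ.Γ) : tor τ z κ γ ∈ τ.Γ := by
  apply τ.Γ.mul_mem _ hγ
  change red τ (γ z + vec τ κ) - γ z ∈ HG τ
  have : red τ (γ z + vec τ κ) - γ z = vec τ κ + lat τ (rr τ (γ z + vec τ κ)) := by
    simp only [red]; abel
  rw [this]
  exact add_mem (vec_mem τ κ) (lat_mem τ _)

theorem tor_add (z : EE d) (κ κ' : Fin d × Bool → ℤ) (γ : EE d ≃ᵢ EE d) :
    tor τ z κ' (tor τ z κ γ) = tor τ z (κ + κ') γ := by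
  unfold tor
  have h0 : (tr (red τ (γ z + vec τ κ) - γ z) * γ) z = red τ (γ z + vec τ κ) := tor_apply τ z κ γ
  rw [h0, ← mul_assoc, tr_mul]
  congr 2
  have h1 : red τ (red τ (γ z + vec τ κ) + vec τ κ') = red τ (γ z + vec τ (κ + κ')) := by
    have : red τ (γ z + vec τ κ) + vec τ κ' = (γ z + vec τ (κ + κ')) + lat τ (rr τ (γ z + vec τ κ)) := by
      rw [vec_add]; simp only [red]; abel
    rw [this, red_add_lat]
  rw [h1]; abel

theorem tor_zero {z : EE d} {γ : EE d ≃ᵢ EE d} (h : γ z ∈ Qc (d := d) τ.ℓ) : tor τ z 0 γ = γ := by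
  unfold tor
  rw [vec_zero, add_zero, red_self, sub_self, tr_zero, one_mul]
  intro i
  have := abs_lt.mp (h i)
  exact ⟨this.1.le, this.2⟩

theorem tor_inj {z : EE d} {κ κ' : Fin d × Bool → ℤ} {γ : EE d ≃ᵢ EE d} (h : tor τ z κ γ = tor τ z κ' γ) :
    κ = κ' := by
  have h1 : red τ (γ z + vec τ κ) = red τ (γ z + vec τ κ') := by
    rw [← tor_apply, ← tor_apply, h]
  have h2 : vec τ (κ - κ') = lat τ (rr τ (γ z + vec τ κ') - rr τ (γ z + vec τ κ)) := by
    have e1 : vec τ (κ - κ') + vec τ κ' = vec τ κ := by rw [← vec_add]; simp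
    have e2 : lat τ (rr τ (γ z + vec τ κ') - rr τ (γ z + vec τ κ)) + lat τ (rr τ (γ z + vec τ κ)) =
        lat τ (rr τ (γ z + vec τ κ')) := by
      ext i
      have : (lat τ (rr τ (γ z + vec τ κ') - rr τ (γ z + vec τ κ)) + lat τ (rr τ (γ z + vec τ κ))) i =
        lat τ (rr τ (γ z + vec τ κ') - rr τ (γ z + vec τ κ)) i + lat τ (rr τ (γ z + vec τ κ)) i := rfl
      rw [this, lat_apply, lat_apply, lat_apply, Pi.sub_apply]
      push_cast; ring
    simp only [red] at h1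
    have e3 : vec τ κ + lat τ (rr τ (γ z + vec τ κ)) = vec τ κ' + lat τ (rr τ (γ z + vec τ κ')) := by
      have := h1
      rw [add_assoc, add_assoc] at this
      exact add_left_cancel this
    have key : ∀ (x y a b p q : EE d), x + a = b → y + p = q → b + p = a + q → x = y := by
      intro x y a b p q h1 h2 h3
      subst h1 h2
      have : x + (a + p) = y + (a + p) := by
        rw [← add_assoc, h3]; abel
      exact add_right_cancel this
    exact key _ _ _ _ _ _ e1 e2 e3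
  have := vec_lat_inj τ h2
  exact sub_eq_zero.mp this

/-- base point conditions -/
structure Base (z : EE d) : Prop where
  hQ : z ∈ Qc (d := d) τ.ℓ
  gen : ∀ γ ∈ τ.Γ, ∀ i, (γ z) i ≠ -τ.ℓ
  free : ∀ γ ∈ τ.Γ, γ z = z → γ = 1

variable {τ} {z : EE d}

theorem Base.tor_Q (hz : Base τ z) (κ : Fin d × Bool → ℤ) {γ : EE d ≃ᵢ EE d} (hγ : γ ∈ τ.Γ) :
    (tor τ z κ γ) z ∈ Qc (d := d) τ.ℓ := by
  intro i
  have h1 := hz.gen _ (tor_mem τ z κ hγ) i
  rw [tor_apply] at h1 ⊢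
  obtain ⟨h2, h3⟩ := red_range τ (γ z + vec τ κ) i
  rw [abs_lt]
  exact ⟨lt_of_le_of_ne h2 (fun h => h1 h.symm), h3⟩

theorem Base.tor_Re (hz : Base τ z) (κ : Fin d × Bool → ℤ) {γ : EE d ≃ᵢ EE d} (hγ : γ ∈ τ.Γ) :
    tor τ z κ γ ∈ Rex τ.Γ (Qc (d := d) τ.ℓ) z := ⟨tor_mem τ z κ hγ, hz.tor_Q κ hγ⟩

theorem Base.eq_of_apply (hz : Base τ z) {γ δ : EE d ≃ᵢ EE d} (hγ : γ ∈ τ.Γ) (hδ : δ ∈ τ.Γ) (h : γ z = δ z) :
    γ = δ := by
  have h1 : (δ⁻¹ * γ) z = z := by
    change δ⁻¹ (γ z) = z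
    rw [h]; exact δ.symm_apply_apply z
  have := hz.free _ (τ.Γ.mul_mem (τ.Γ.inv_mem hδ) hγ) h1
  rw [inv_mul_eq_one] at this
  exact this.symm

/-- a translation by a lattice-type vector which stays in the cube is a torus move -/
theorem tr_eq_tor (κ : Fin d × Bool → ℤ) (n : Fin d → ℤ) {γ : EE d ≃ᵢ EE d}
    (h : γ z + (vec τ κ + lat τ n) ∈ Qc (d := d) τ.ℓ) : tr (vec τ κ + lat τ n) * γ = tor τ z κ γ := by
  unfold tor
  congr 2
  have h1 : red τ (γ z + vec τ κ) = γ z + (vec τ κ + lat τ n) := by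
    rw [← red_add_lat τ _ n, add_assoc]
    apply red_self
    intro i
    have := abs_lt.mp (h i)
    exact ⟨this.1.le, this.2⟩
  rw [h1]; abel

/-- unit steps are moves of the graph -/
theorem Base.unit_step (hz : Base τ z) {γ : EE d ≃ᵢ EE d} (hγ : γ ∈ Rex τ.Γ (Qc (d := d) τ.ℓ) z)
    (j : Fin d × Bool) (e : ℤ) (he : e = 1 ∨ e = -1) :
    tor τ z (Pi.single j e) γ ∈ nbx (Qc (d := d) τ.ℓ) τ.Sg z γ := by
  rw [mem_nbx hγ.2]
  obtain ⟨i, c⟩ := j
  have hℓ := τ.hℓ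
  have hvec : vec τ (Pi.single (i, c) e) = EuclideanSpace.single i ((e:ℝ) * ab τ.ℓ c) := by
    ext j
    rw [vec_apply]
    by_cases hj : j = i
    · subst hj
      cases c <;> simp [Pi.single_apply, PiLp.single_apply]
    · cases c <;> simp [Pi.single_apply, PiLp.single_apply, hj]
  set k : ℤ := -⌊(γ z i + (e:ℝ) * ab τ.ℓ c) / (2 * τ.ℓ) + 1/2⌋ with hk
  have hk1 : |k| ≤ 1 := by
    have h1 := abs_lt.mp (hγ.2 i)
    have h2 := ab_range hℓ c
    have h3 : -(2 * τ.ℓ) < (e:ℝ) * ab τ.ℓ c ∧ (e:ℝ) * ab τ.ℓ c < 2 * τ.ℓ := by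
      rcases he with rfl | rfl
      · push_cast; constructor <;> linarith
      · push_cast; constructor <;> linarith
    have h4 : ⌊(γ z i + (e:ℝ) * ab τ.ℓ c) / (2 * τ.ℓ) + 1/2⌋ < 2 := by
      rw [Int.floor_lt]
      push_cast
      have : (γ z i + (e:ℝ) * ab τ.ℓ c) / (2 * τ.ℓ) < 3/2 := by
        rw [div_lt_iff₀ (by positivity)]; linarith
      linarith
    have h5 : -1 ≤ ⌊(γ z i + (e:ℝ) * ab τ.ℓ c) / (2 * τ.ℓ) + 1/2⌋ := by
      rw [Int.le_floor]
      push_cast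
      have : -(3/2) ≤ (γ z i + (e:ℝ) * ab τ.ℓ c) / (2 * τ.ℓ) := by
        rw [le_div_iff₀ (by positivity)]; linarith
      linarith
    rw [abs_le]; omega
  refine ⟨tr (EuclideanSpace.single i ((e:ℝ) * ab τ.ℓ c + (k:ℝ) * (2 * τ.ℓ))), τ.tg i c e k he hk1, ?_,
    hz.tor_Q _ hγ.1⟩
  unfold tor
  congr 2
  rw [hvec]
  ext j
  have e1 : (red τ (γ z + EuclideanSpace.single i ((e:ℝ) * ab τ.ℓ c)) - γ z) j =
    red τ (γ z + EuclideanSpace.single i ((e:ℝ) * ab τ.ℓ c)) j - γ z j := rfl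
  have e2 : (γ z + EuclideanSpace.single i ((e:ℝ) * ab τ.ℓ c)) j =
    γ z j + EuclideanSpace.single i ((e:ℝ) * ab τ.ℓ c) j := rfl
  rw [e1, red_apply, e2]
  by_cases hj : j = i
  · subst hj
    simp only [PiLp.single_apply, if_true]
    rw [hk]; push_cast; ring
  · simp only [PiLp.single_apply, if_neg hj]
    have h1 := abs_lt.mp (hγ.2 j)
    have h2 : ⌊(γ z j + 0) / (2 * τ.ℓ) + 1/2⌋ = 0 := by
      rw [Int.floor_eq_zero_iff]
      constructor
      · rw [div_add_div _ _ (by positivity) (by norm_num)]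
        apply div_nonneg <;> linarith
      · rw [div_add_div _ _ (by positivity) (by norm_num), div_lt_one (by positivity)]
        linarith
    rw [h2]; simp

end tor

end Pool.Agent.H382RO
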