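import Pool.Agent.Helper382.RO2
set_option autoImplicit false
set_option linter.all false

/-!
# Part 3: connected shells around finite sets, generic points, the instance `mkSys` of the abstract system
-/

namespace Pool.Agent.H382RO
open Finset Classical Topology

/-! paths outside boxes of `ℤ^J` -/

section path
variable {J : Type} [Fintype J] [DecidableEq J]

/-- unit step outside the box of radius `r` -/
def PS (r : ℤ) (a b : J → ℤ) : Prop :=
  (∃ j, r < |a j|) ∧ (∃ j, r < |b j|) ∧ ∃ j, ∃ e : ℤ, (e = 1 ∨ e = -1) ∧ b = a + Pi.single j e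

theorem PS.symm {r : ℤ} {a b : J → ℤ} (h : PS r a b) : PS r b a := by
  obtain ⟨h1, h2, j, e, he, rfl⟩ := h
  refine ⟨h2, h1, j, -e, by omega, ?_⟩
  rw [add_assoc, ← Pi.single_add]; simp

theorem rtg_symm {α : Type} {R : α → α → Prop} (h : ∀ a b, R a b → R b a) {a b : α}
    (hab : Relation.ReflTransGen R a b) : Relation.ReflTransGen R b a := by
  induction hab with
  | refl => exact Relation.ReflTransGen.refl
  | tail _ h2 ih => exact Relation.ReflTransGen.head (h _ _ h2) ih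

theorem slide (r : ℤ) (a : J → ℤ) (i j : J) (hij : j ≠ i) (hj : r < |a j|) (m : ℤ) :
    Relation.ReflTransGen (PS r) a (Function.update a i m) := by
  have key : ∀ n : ℕ, ∀ a : J → ℤ, r < |a j| → ∀ m : ℤ, (m - a i).natAbs = n →
      Relation.ReflTransGen (PS r) a (Function.update a i m) := by
    intro n
    induction n with
    | zero =>
      intro a _ m hm
      have : m = a i := by omega
      rw [this, Function.update_eq_self]
    | succ n ih =>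
      intro a ha m hm
      obtain ⟨e, he, hem⟩ : ∃ e : ℤ, (e = 1 ∨ e = -1) ∧ (m - (a i + e)).natAbs = n := by
        rcases lt_or_ge (a i) m with h | h
        · exact ⟨1, Or.inl rfl, by omega⟩
        · exact ⟨-1, Or.inr rfl, by omega⟩
      have hstep : (a + (Pi.single i e : J → ℤ)) j = a j := by simp [hij]
      have hi : (a + (Pi.single i e : J → ℤ)) i = a i + e := by simp
      have h1 := ih (a + Pi.single i e) (by rw [hstep]; exact ha) m (by rw [hi]; exact hem)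
      have h2 : Function.update (a + Pi.single i e) i m = Function.update a i m := by
        funext x
        by_cases hx : x = i
        · subst hx; simp
        · simp [Function.update_of_ne hx, hx]
      rw [h2] at h1
      exact Relation.ReflTransGen.head ⟨⟨j, ha⟩, ⟨j, by rw [hstep]; exact ha⟩, i, e, he, rfl⟩ h1
  exact key _ a hj m rfl

theorem slide_all (r : ℤ) (a : J → ℤ) (j : J) (hj : r < |a j|) (m : ℤ) (s : Finset J) (hs : j ∉ s) :
    Relation.ReflTransGen (PS r) a (fun x => if x ∈ s then m else a x) := by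
  induction s using Finset.induction_on with
  | empty => simpa using Relation.ReflTransGen.refl
  | insert i s hi ih =>
    have h1 := ih (fun h => hs (Finset.mem_insert_of_mem h))
    have hji : j ≠ i := fun h => hs (h ▸ Finset.mem_insert_self _ _)
    have hjs : j ∉ s := fun h => hs (Finset.mem_insert_of_mem h)
    have h2 := slide r (fun x => if x ∈ s then m else a x) i j hji (by simpa [hjs] using hj) m
    have h3 : Function.update (fun x => if x ∈ s then m else a x) i m =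
        (fun x => if x ∈ insert i s then m else a x) := by
      funext x
      by_cases hx : x = i
      · subst hx; simp
      · rw [Function.update_of_ne hx]
        simp [hx]
    rw [h3] at h2
    exact h1.trans h2

theorem to_center (hJ : ∀ j : J, ∃ i : J, i ≠ j) {r : ℤ} (hr : -1 ≤ r) {a : J → ℤ} (ha : ∃ j, r < |a j|) :
    Relation.ReflTransGen (PS r) a (fun _ => r + 1) := by
  obtain ⟨j, hj⟩ := ha
  obtain ⟨i, hij⟩ := hJ j
  have h1 := slide_all r a j hj (r + 1) (Finset.univ.erase j) (Finset.notMem_erase j _)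
  have hi : r < |(fun x => if x ∈ Finset.univ.erase j then r + 1 else a x) i| := by
    have : i ∈ Finset.univ.erase j := Finset.mem_erase.mpr ⟨hij, Finset.mem_univ _⟩
    simp only [this, if_true]
    rw [abs_of_nonneg (by omega)]; omega
  have h2 := slide r (fun x => if x ∈ Finset.univ.erase j then r + 1 else a x) j i hij hi (r + 1)
  have h3 : Function.update (fun x => if x ∈ Finset.univ.erase j then r + 1 else a x) j (r+1) =
      (fun _ => r + 1) := by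
    funext x
    by_cases hx : x = j
    · subst hx; simp
    · rw [Function.update_of_ne hx]
      simp [hx]
  rw [h3] at h2
  exact h1.trans h2

theorem path_out (hJ : ∀ j : J, ∃ i : J, i ≠ j) {r : ℤ} (hr : -1 ≤ r) {a b : J → ℤ} (ha : ∃ j, r < |a j|)
    (hb : ∃ j, r < |b j|) : Relation.ReflTransGen (PS r) a b :=
  (to_center hJ hr ha).trans (rtg_symm (fun _ _ h => h.symm) (to_center hJ hr hb))

end path

end Pool.Agent.H382RO

namespace Pool.Agent.H382RO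
open Finset Classical Topology

/-! abstract shell construction -/

section abs
variable {V : Type} {nb : V → Finset V}

def RK (nb : V → Finset V) (K : Finset V) (a b : V) : Prop := a ∉ K ∧ b ∉ K ∧ b ∈ nb a

/-- closure property -/
def Conn (N : V → Finset V) (P : Finset V) : Prop :=
  ∀ S : Set V, (∃ u ∈ P, u ∈ S) → (∀ u ∈ P, u ∈ S → ∀ w ∈ P, w ∈ N u → w ∈ S) → ∀ w ∈ P, w ∈ S

theorem path_set {N : V → Finset V} (hN : ∀ v, nb v ⊆ N v) (hNs : ∀ u v, u ∈ N v → v ∈ N u)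
    {K : Finset V} {a w : V} (h : Relation.ReflTransGen (RK nb K) a w) :
    ∃ P : Finset V, a ∈ P ∧ w ∈ P ∧ (∀ v ∈ P, Relation.ReflTransGen (RK nb K) a v) ∧ Conn N P := by
  induction h with
  | refl =>
    refine ⟨{a}, by simp, by simp, ?_, ?_⟩
    · intro v hv
      rw [Finset.mem_singleton.mp hv]
    · rintro S ⟨u, hu, huS⟩ _ w hw
      rw [Finset.mem_singleton.mp hw]; rwa [Finset.mem_singleton.mp hu] at huS
  | @tail b c hb hbc ih =>
    obtain ⟨P, h1, h2, h3, h4⟩ := ih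
    refine ⟨insert c P, Finset.mem_insert_of_mem h1, Finset.mem_insert_self _ _, ?_, ?_⟩
    · intro v hv
      rcases Finset.mem_insert.mp hv with rfl | hv
      · exact hb.tail hbc
      · exact h3 v hv
    · rintro S ⟨u, hu, huS⟩ hcl
      have hP : ∀ w ∈ P, w ∈ S := by
        apply h4 S
        · rcases Finset.mem_insert.mp hu with rfl | hu
          · exact ⟨b, h2, hcl u (Finset.mem_insert_self _ _) huS b (Finset.mem_insert_of_mem h2)
              (hNs _ _ (hN _ hbc.2.2))⟩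
          · exact ⟨u, hu, huS⟩
        · intro u hu huS w hw hwu
          exact hcl u (Finset.mem_insert_of_mem hu) huS w (Finset.mem_insert_of_mem hw) hwu
      intro w hw
      rcases Finset.mem_insert.mp hw with rfl | hw
      · exact hcl b (Finset.mem_insert_of_mem h2) (hP b h2) _ (Finset.mem_insert_self _ _) (hN _ hbc.2.2)
      · exact hP w hw

theorem conn_union {N : V → Finset V} {a : V} (Fm : Finset (Finset V)) (hF : ∀ P ∈ Fm, a ∈ P ∧ Conn N P)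
    (hne : Fm.Nonempty) : Conn N (Fm.biUnion id) := by
  rintro S ⟨u, hu, huS⟩ hcl w hw
  obtain ⟨P, hP, huP⟩ := Finset.mem_biUnion.mp hu
  obtain ⟨P', hP', hwP⟩ := Finset.mem_biUnion.mp hw
  have h1 : ∀ Q ∈ Fm, (∃ u ∈ Q, u ∈ S) → ∀ w ∈ Q, w ∈ S := by
    intro Q hQ hex
    apply (hF Q hQ).2 S hex
    intro u hu huS w hw hwu
    exact hcl u (Finset.mem_biUnion.mpr ⟨Q, hQ, hu⟩) huS w (Finset.mem_biUnion.mpr ⟨Q, hQ, hw⟩) hwu
  have ha : a ∈ S := h1 P hP ⟨u, huP, huS⟩ a (hF P hP).1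
  exact h1 P' hP' ⟨a, (hF P' hP').1, ha⟩ w hwP

theorem shell_abs (hs : ∀ v, v ∈ nb v) (hsym : ∀ u v, u ∈ nb v → v ∈ nb u) {R : ℕ} (hR : 1 ≤ R)
    {C : Set V} (hC : ∀ v ∈ C, ∀ w ∈ nb v, w ∈ C) {K Kst : Finset V} (hKC : ∀ v ∈ K, v ∈ C)
    (hKK : K ⊆ Kst) {δ0 : V} (h0C : δ0 ∈ C) (h0 : δ0 ∉ Kst)
    (hU : ∀ v ∈ C, v ∉ Kst → Relation.ReflTransGen (RK nb K) δ0 v) :
    ∃ I Th : Finset V, K ⊆ I ∧ Disjoint I Th ∧ (∀ v ∈ I ∪ Th, v ∈ C) ∧
      (∀ v ∈ I, ball nb R v ⊆ I ∪ Th) ∧ Conn (ball nb R) Th := by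
  have hRC : ∀ v, Relation.ReflTransGen (RK nb K) δ0 v → v ∈ C := by
    intro v hv
    induction hv with
    | refl => exact h0C
    | tail _ h2 ih => exact hC _ ih _ h2.2.2
  have hRK : ∀ v, Relation.ReflTransGen (RK nb K) δ0 v → v ∉ K := by
    intro v hv
    induction hv with
    | refl => exact fun h => h0 (hKK h)
    | tail _ h2 _ => exact h2.2.1
  have hbC : ∀ v ∈ C, ∀ w ∈ ball nb R v, w ∈ C := fun v hv w hw => ball_re (Re := C) hC hv hw
  let I : Finset V := Kst.filter (fun v => v ∈ C ∧ ¬ Relation.ReflTransGen (RK nb K) δ0 v)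
  have hI : ∀ v, v ∈ I ↔ v ∈ C ∧ ¬ Relation.ReflTransGen (RK nb K) δ0 v := by
    intro v
    simp only [I, Finset.mem_filter]
    constructor
    · exact fun h => h.2
    · intro h
      refine ⟨?_, h⟩
      by_contra hv
      exact h.2 (hU v h.1 hv)
  have hps : ∀ w, Relation.ReflTransGen (RK nb K) δ0 w → ∃ P : Finset V, δ0 ∈ P ∧ w ∈ P ∧
      (∀ v ∈ P, Relation.ReflTransGen (RK nb K) δ0 v) ∧ Conn (ball nb R) P := fun w hw =>
    path_set (fun v u hu => ball_mono hs hR v (ball_one.mpr hu)) (fun u v h => ball_symm hsym h) hw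
  choose! P hP using hps
  let W : Finset V := insert δ0 ((I.biUnion (ball nb R)).filter (fun w => Relation.ReflTransGen (RK nb K) δ0 w))
  have hW : ∀ w ∈ W, Relation.ReflTransGen (RK nb K) δ0 w := by
    intro w hw
    rcases Finset.mem_insert.mp hw with rfl | hw
    · exact Relation.ReflTransGen.refl
    · exact (Finset.mem_filter.mp hw).2
  refine ⟨I, (W.image P).biUnion id, ?_, ?_, ?_, ?_, ?_⟩
  · intro v hv
    rw [hI]
    exact ⟨hKC v hv, fun h => hRK v h hv⟩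
  · rw [Finset.disjoint_left]
    intro v hv hv2
    obtain ⟨Q, hQ, hvQ⟩ := Finset.mem_biUnion.mp hv2
    obtain ⟨w, hw, rfl⟩ := Finset.mem_image.mp hQ
    exact ((hI v).mp hv).2 ((hP w (hW w hw)).2.2.1 v hvQ)
  · intro v hv
    rcases Finset.mem_union.mp hv with h | h
    · exact ((hI v).mp h).1
    · obtain ⟨Q, hQ, hvQ⟩ := Finset.mem_biUnion.mp h
      obtain ⟨w, hw, rfl⟩ := Finset.mem_image.mp hQ
      exact hRC _ ((hP w (hW w hw)).2.2.1 v hvQ)
  · intro v hv w hw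
    have hwC : w ∈ C := hbC v ((hI v).mp hv).1 w hw
    by_cases h : Relation.ReflTransGen (RK nb K) δ0 w
    · apply Finset.mem_union_right
      have hwW : w ∈ W := Finset.mem_insert_of_mem
        (Finset.mem_filter.mpr ⟨Finset.mem_biUnion.mpr ⟨v, hv, hw⟩, h⟩)
      exact Finset.mem_biUnion.mpr ⟨P w, Finset.mem_image_of_mem _ hwW, (hP w h).2.1⟩
    · exact Finset.mem_union_left _ ((hI w).mpr ⟨hwC, h⟩)
  · apply conn_union (a := δ0)
    · intro Q hQ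
      obtain ⟨w, hw, rfl⟩ := Finset.mem_image.mp hQ
      exact ⟨(hP w (hW w hw)).1, (hP w (hW w hw)).2.2.2⟩
    · exact ⟨P δ0, Finset.mem_image_of_mem _ (Finset.mem_insert_self _ _)⟩

end abs

end Pool.Agent.H382RO

namespace Pool.Agent.H382RO
open Finset Classical Topology

section torus
variable {d : ℕ} {τ : TorSys d} {z : EE d}

theorem lift_path (hz : Base τ z) {K : Finset (EE d ≃ᵢ EE d)} {r : ℤ} {γ : EE d ≃ᵢ EE d}
    (hγ : γ ∈ τ.Γ)
    (hout : ∀ κ : Fin d × Bool → ℤ, (∃ j, r < |κ j|) → tor τ z κ γ ∉ K) {a b : Fin d × Bool → ℤ}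
    (h : Relation.ReflTransGen (PS r) a b) :
    Relation.ReflTransGen (RK (nbx (Qc (d := d) τ.ℓ) τ.Sg z) K) (tor τ z a γ) (tor τ z b γ) := by
  induction h with
  | refl => exact Relation.ReflTransGen.refl
  | @tail b c _ h2 ih =>
    refine ih.tail ⟨hout _ h2.1, hout _ h2.2.1, ?_⟩
    obtain ⟨_, _, j, e, he, rfl⟩ := h2
    rw [← tor_add]
    exact hz.unit_step (hz.tor_Re b hγ) j e he

noncomputable def Kst (τ : TorSys d) (z : EE d) (r : ℤ) (K : Finset (EE d ≃ᵢ EE d)) : Finset (EE d ≃ᵢ EE d) :=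
  K.biUnion (fun k => (Fintype.piFinset (fun _ : Fin d × Bool => Finset.Icc (-r) r)).image (fun κ => tor τ z κ k))

theorem mem_Kst {r : ℤ} {K : Finset (EE d ≃ᵢ EE d)} {δ : EE d ≃ᵢ EE d} :
    δ ∈ Kst τ z r K ↔ ∃ k ∈ K, ∃ κ : Fin d × Bool → ℤ, (∀ j, |κ j| ≤ r) ∧ δ = tor τ z κ k := by
  simp only [Kst, Finset.mem_biUnion, Finset.mem_image, Fintype.mem_piFinset, Finset.mem_Icc, abs_le]
  constructor
  · rintro ⟨k, hk, κ, h1, h2⟩; exact ⟨k, hk, κ, h1, h2.symm⟩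
  · rintro ⟨k, hk, κ, h1, h2⟩; exact ⟨k, hk, κ, h1, h2.symm⟩

theorem hJJ (j : Fin d × Bool) : ∃ i : Fin d × Bool, i ≠ j := by
  refine ⟨(j.1, !j.2), ?_⟩
  intro h
  have := congrArg Prod.snd h
  simp at this

theorem claimT (hz : Base τ z) {K : Finset (EE d ≃ᵢ EE d)} (hK : ∀ k ∈ K, k ∈ Rex τ.Γ (Qc (d := d) τ.ℓ) z)
    {r : ℤ} (hr : 0 ≤ r) (hrK : ∀ k ∈ K, ∀ κ, tor τ z κ k ∈ K → ∀ j, |κ j| ≤ r)
    {γ : EE d ≃ᵢ EE d} (hγ : γ ∈ τ.Γ) {κ κ' : Fin d × Bool → ℤ} (hj : Nonempty (Fin d))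
    (h1 : tor τ z κ γ ∉ Kst τ z r K) (h2 : tor τ z κ' γ ∉ Kst τ z r K) :
    Relation.ReflTransGen (RK (nbx (Qc (d := d) τ.ℓ) τ.Sg z) K) (tor τ z κ γ) (tor τ z κ' γ) := by
  by_cases h : ∃ κ0, tor τ z κ0 γ ∈ K
  · obtain ⟨κ0, h0⟩ := h
    have e : ∀ κ, tor τ z κ γ = tor τ z (κ - κ0) (tor τ z κ0 γ) := by
      intro κ
      rw [tor_add]; congr 1; abel
    have hout : ∀ κ, tor τ z κ γ ∉ Kst τ z r K → ∃ j, r < |(κ - κ0) j| := by
      intro κ hκ
      by_contra hc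
      push Not at hc
      apply hκ
      rw [mem_Kst]
      exact ⟨_, h0, κ - κ0, hc, e κ⟩
    rw [e κ, e κ']
    apply lift_path hz (hK _ h0).1 (r := r)
    · intro κ'' ⟨j, hj⟩ hmem
      exact absurd (hrK _ h0 κ'' hmem j) (by omega)
    · exact path_out hJJ (by omega) (hout κ h1) (hout κ' h2)
  · push Not at h
    apply lift_path hz hγ (r := -1)
    · intro κ _; exact h κ
    · obtain ⟨i⟩ := hj
      exact path_out hJJ (le_refl _) ⟨(i, false), by have := abs_nonneg (κ (i, false)); omega⟩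
        ⟨(i, false), by have := abs_nonneg (κ' (i, false)); omega⟩

theorem ex_r (K : Finset (EE d ≃ᵢ EE d)) :
    ∃ r : ℤ, 0 ≤ r ∧ ∀ k ∈ K, ∀ κ, tor τ z κ k ∈ K → ∀ j, |κ j| ≤ r := by
  have hfin : (⋃ k ∈ K, {κ | tor τ z κ k ∈ K}).Finite := by
    apply Set.Finite.biUnion K.finite_toSet
    intro k _
    have : {κ | tor τ z κ k ∈ K} = (fun κ => tor τ z κ k) ⁻¹' (K : Set (EE d ≃ᵢ EE d)) := rfl
    rw [this]
    exact Set.Finite.preimage (Function.Injective.injOn (fun a b h => tor_inj τ h)) K.finite_toSet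
  refine ⟨∑ κ ∈ hfin.toFinset, ∑ j, |κ j|, Finset.sum_nonneg fun κ _ => Finset.sum_nonneg fun j _ => abs_nonneg _, ?_⟩
  intro k hk κ hκ j
  have hmem : κ ∈ hfin.toFinset := by
    rw [Set.Finite.mem_toFinset]
    simp only [Set.mem_iUnion]
    exact ⟨k, hk, hκ⟩
  calc |κ j| ≤ ∑ j, |κ j| := Finset.single_le_sum (f := fun j => |κ j|) (fun j _ => abs_nonneg _) (Finset.mem_univ j)
    _ ≤ _ := Finset.single_le_sum (f := fun κ : Fin d × Bool → ℤ => ∑ j, |κ j|)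
      (fun κ _ => Finset.sum_nonneg fun j _ => abs_nonneg _) hmem

theorem lam_dense {U : Set (EE d)} (hU : IsOpen U) (hne : U.Nonempty) :
    ∃ (κ : Fin d × Bool → ℤ) (n : Fin d → ℤ), vec τ κ + lat τ n ∈ U := by
  obtain ⟨y, hy⟩ := hne
  have hU' : IsOpen ((fun f : Fin d → ℝ => (WithLp.toLp 2 f : EE d)) ⁻¹' U) :=
    hU.preimage (PiLp.continuous_toLp 2 _)
  obtain ⟨ε, hε, hball⟩ := Metric.isOpen_iff.mp hU' (WithLp.ofLp y) hy
  choose k n hkn using fun i : Fin d => ab_dense τ.hℓ (y i) ε hε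
  refine ⟨fun j => if j.2 then 0 else k j.1, n, ?_⟩
  have : (fun i => (k i : ℝ) * ab τ.ℓ false + n i * (2 * τ.ℓ)) ∈ Metric.ball (WithLp.ofLp y) ε := by
    rw [Metric.mem_ball, dist_pi_lt_iff hε]
    intro i
    rw [Real.dist_eq]; exact hkn i
  have h2 := hball this
  have e : vec τ (fun j => if j.2 then 0 else k j.1) + lat τ n =
      (WithLp.toLp 2 (fun i => (k i : ℝ) * ab τ.ℓ false + n i * (2 * τ.ℓ)) : EE d) := by
    ext i
    have : (vec τ (fun j => if j.2 then 0 else k j.1) + lat τ n) i =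
      vec τ (fun j => if j.2 then 0 else k j.1) i + lat τ n i := rfl
    rw [this, vec_apply, lat_apply]
    simp
  rw [e]; exact h2

theorem avoid (hd : Nonempty (Fin d)) {ε : ℝ} (hε : 0 < ε) (K : Finset (EE d ≃ᵢ EE d))
    (L : Finset ((EE d ≃ᵢ EE d) × (EE d ≃ᵢ EE d))) :
    ∃ (κ : Fin d × Bool → ℤ) (n : Fin d → ℤ), ‖vec τ κ + lat τ n‖ < ε ∧
      ∀ p ∈ L, p.1 * tr (vec τ κ + lat τ n) * p.2 ∉ K := by
  have hfin : (⋃ p ∈ L, {v : EE d | p.1 * tr v * p.2 ∈ K}).Finite := by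
    apply Set.Finite.biUnion L.finite_toSet
    intro p _
    have : {v : EE d | p.1 * tr v * p.2 ∈ K} = (fun v => p.1 * tr v * p.2) ⁻¹' (K : Set (EE d ≃ᵢ EE d)) := rfl
    rw [this]
    refine Set.Finite.preimage (Function.Injective.injOn (fun a b h => ?_)) K.finite_toSet
    exact tr_inj (mul_left_cancel (mul_right_cancel h))
  have hd1 : 0 < d := Fin.pos_iff_nonempty.mpr hd
  have : Nontrivial (EE d) := by
    have : NeZero d := ⟨hd1.ne'⟩
    infer_instance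
  have hdense : Dense ((⋃ p ∈ L, {v : EE d | p.1 * tr v * p.2 ∈ K})ᶜ) :=
    hfin.countable.dense_compl ℝ
  obtain ⟨v, hv, hv2⟩ := hdense.inter_open_nonempty (Metric.ball 0 ε) Metric.isOpen_ball ⟨0, Metric.mem_ball_self hε⟩
  obtain ⟨κ, n, hκ⟩ := lam_dense (τ := τ) (U := Metric.ball 0 ε ∩ (⋃ p ∈ L, {v : EE d | p.1 * tr v * p.2 ∈ K})ᶜ)
    (Metric.isOpen_ball.inter hfin.isClosed.isOpen_compl) ⟨v, hv, hv2⟩
  refine ⟨κ, n, by simpa using hκ.1, ?_⟩
  intro p hp hmem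
  apply hκ.2
  simp only [Set.mem_iUnion]
  exact ⟨p, hp, hmem⟩

theorem conj_tr (s : EE d ≃ᵢ EE d) (t : EE d) : ∃ t' : EE d, ‖t'‖ = ‖t‖ ∧ s * tr t = tr t' * s := by
  refine ⟨s.toRealAffineIsometryEquiv.linearIsometryEquiv t, by simp, ?_⟩
  ext1 x
  change s (x + t) = s x + s.toRealAffineIsometryEquiv.linearIsometryEquiv t
  have h := s.toRealAffineIsometryEquiv.map_vadd x t
  rw [IsometryEquiv.coeFn_toRealAffineIsometryEquiv] at h
  simp only [vadd_eq_add] at h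
  rw [add_comm x t, h, add_comm]

end torus

end Pool.Agent.H382RO

namespace Pool.Agent.H382RO
open Finset Classical Topology

section torus2
variable {d : ℕ} {τ : TorSys d} {z : EE d}

def PB (τ : TorSys d) (κ : Fin d × Bool → ℤ) : Prop :=
  ∃ m : ℕ, ∀ z : EE d, Base τ z → ∀ γ ∈ Rex τ.Γ (Qc (d := d) τ.ℓ) z,
    tor τ z κ γ ∈ ball (nbx (Qc (d := d) τ.ℓ) τ.Sg z) m γ

theorem PB_zero : PB τ 0 := by
  refine ⟨0, fun z _ γ hγ => ?_⟩
  rw [tor_zero τ hγ.2]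
  exact mem_ball_self (nbx_self τ.one z) 0 γ

theorem PB_add {κ κ' : Fin d × Bool → ℤ} (h : PB τ κ) (h' : PB τ κ') : PB τ (κ + κ') := by
  obtain ⟨m, hm⟩ := h
  obtain ⟨m', hm'⟩ := h'
  refine ⟨m + m', fun z hz γ hγ => ?_⟩
  rw [← tor_add]
  exact ball_trans (hm z hz γ hγ) (hm' z hz _ (hz.tor_Re κ hγ.1))

theorem PB_unit (j : Fin d × Bool) (e : ℤ) (he : e = 1 ∨ e = -1) : PB τ (Pi.single j e) := by
  refine ⟨1, fun z hz γ hγ => ?_⟩
  rw [ball_one]
  exact hz.unit_step hγ j e he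

theorem PB_single (j : Fin d × Bool) (m : ℤ) : PB τ (Pi.single j m) := by
  induction m using Int.induction_on with
  | zero => simpa using PB_zero
  | succ n ih =>
    rw [Pi.single_add]
    exact PB_add ih (PB_unit j 1 (Or.inl rfl))
  | pred n ih =>
    rw [sub_eq_add_neg, Pi.single_add]
    exact PB_add ih (PB_unit j (-1) (Or.inr rfl))

theorem PB_all (κ : Fin d × Bool → ℤ) : PB τ κ := by
  have h : κ = ∑ j, Pi.single j (κ j) := (Finset.univ_sum_single κ).symm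
  rw [h]
  exact Finset.sum_induction _ (PB τ) (fun _ _ => PB_add) PB_zero (fun j _ => PB_single j _)

theorem orb_inf (hd : Nonempty (Fin d)) (F : Finset (EE d ≃ᵢ EE d)) (γ : EE d ≃ᵢ EE d) :
    ∃ κ, tor τ z κ γ ∉ F := by
  obtain ⟨i⟩ := hd
  have hinj : Function.Injective (fun n : ℕ => tor τ z (Pi.single (i, false) (n : ℤ)) γ) := by
    intro a b hab
    have h1 := tor_inj τ hab
    have h2 := Pi.single_injective _ h1
    exact_mod_cast h2
  obtain ⟨x, ⟨n, rfl⟩, hn⟩ := (Set.infinite_range_of_injective hinj).exists_notMem_finset F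
  exact ⟨_, hn⟩

theorem claimS (hz : Base τ z) {K : Finset (EE d ≃ᵢ EE d)} (hK : ∀ k ∈ K, k ∈ Rex τ.Γ (Qc (d := d) τ.ℓ) z)
    {r : ℤ} (hr : 0 ≤ r) (hrK : ∀ k ∈ K, ∀ κ, tor τ z κ k ∈ K → ∀ j, |κ j| ≤ r)
    {γ s : EE d ≃ᵢ EE d} (hγ : γ ∈ Rex τ.Γ (Qc (d := d) τ.ℓ) z) (hs : s ∈ τ.Sg)
    (hsγ : s * γ ∈ Rex τ.Γ (Qc (d := d) τ.ℓ) z)
    {κ κ' : Fin d × Bool → ℤ} (hd : Nonempty (Fin d)) (hQo : IsOpen (Qc (d := d) τ.ℓ))
    (h1 : tor τ z κ γ ∉ Kst τ z r K) (h2 : tor τ z κ' (s * γ) ∉ Kst τ z r K) :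
    Relation.ReflTransGen (RK (nbx (Qc (d := d) τ.ℓ) τ.Sg z) K) (tor τ z κ γ) (tor τ z κ' (s * γ)) := by
  obtain ⟨e1, he1, hb1⟩ := Metric.isOpen_iff.mp hQo _ hγ.2
  obtain ⟨e2, he2, hb2⟩ := Metric.isOpen_iff.mp hQo _ hsγ.2
  set ε := min e1 e2 / 2 with hε
  have hε0 : 0 < ε := by positivity
  have hbγ : ∀ p, dist p (γ z) < 2 * ε → p ∈ Qc (d := d) τ.ℓ := by
    intro p hp
    apply hb1
    rw [Metric.mem_ball]
    have : 2 * ε ≤ e1 := by rw [hε]; have := min_le_left e1 e2; linarith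
    linarith
  have hbs : ∀ p, dist p ((s * γ) z) < 2 * ε → p ∈ Qc (d := d) τ.ℓ := by
    intro p hp
    apply hb2
    rw [Metric.mem_ball]
    have : 2 * ε ≤ e2 := by rw [hε]; have := min_le_right e1 e2; linarith
    linarith
  have hKK : ∀ v, v ∉ Kst τ z r K → v ∉ K := by
    intro v hv hvK
    apply hv
    rw [mem_Kst]
    exact ⟨v, hvK, 0, by intro j; simpa using hr, (tor_zero τ (hK v hvK).2).symm⟩
  have hsΓ := τ.sub s hs
  have hsi := τ.inv s hs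
  obtain ⟨κ1, n1, ht, ha⟩ := avoid (τ := τ) hd hε0 (Kst τ z r K) {(1, γ), (s, γ)}
  set t := vec τ κ1 + lat τ n1 with htdef
  have htΓ : tr t ∈ τ.Γ := (HG τ).add_mem (vec_mem τ κ1) (lat_mem τ n1)
  have a0 := ha (1, γ) (by simp)
  have a1 := ha (s, γ) (by simp)
  simp only [one_mul] at a0 a1
  obtain ⟨κ2, n2, ht2, hb⟩ := avoid (τ := τ) hd hε0 (Kst τ z r K)
    {(1, s * tr t * γ), (s⁻¹, s * tr t * γ), (s⁻¹, s * γ), (1, s * γ)}
  set t2 := vec τ κ2 + lat τ n2 with ht2def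
  have ht2Γ : tr t2 ∈ τ.Γ := (HG τ).add_mem (vec_mem τ κ2) (lat_mem τ n2)
  have b2 := hb (1, s * tr t * γ) (by simp)
  have b3 := hb (s⁻¹, s * tr t * γ) (by simp)
  have b4 := hb (s⁻¹, s * γ) (by simp)
  have b5 := hb (1, s * γ) (by simp)
  simp only [one_mul] at b2 b3 b4 b5
  -- positions
  have q0 : (tr t * γ) z ∈ Qc (d := d) τ.ℓ := by
    apply hbγ
    change dist (γ z + t) (γ z) < _
    rw [dist_self_add_left]; linarith
  have d1 : dist ((s * tr t * γ) z) ((s * γ) z) < ε := by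
    change dist (s (γ z + t)) (s (γ z)) < _
    rw [s.dist_eq, dist_self_add_left]; exact ht
  have q1 : (s * tr t * γ) z ∈ Qc (d := d) τ.ℓ := hbs _ (by linarith)
  have d2 : dist ((tr t2 * (s * tr t * γ)) z) ((s * γ) z) < 2 * ε := by
    have : dist ((tr t2 * (s * tr t * γ)) z) ((s * tr t * γ) z) < ε := by
      change dist ((s * tr t * γ) z + t2) ((s * tr t * γ) z) < _
      rw [dist_self_add_left]; exact ht2
    have := dist_triangle ((tr t2 * (s * tr t * γ)) z) ((s * tr t * γ) z) ((s * γ) z)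
    linarith
  have q2 : (tr t2 * (s * tr t * γ)) z ∈ Qc (d := d) τ.ℓ := hbs _ d2
  have hsz : s⁻¹ ((s * γ) z) = γ z := s.symm_apply_apply _
  have q3 : (s⁻¹ * tr t2 * (s * tr t * γ)) z ∈ Qc (d := d) τ.ℓ := by
    apply hbγ
    rw [← hsz]
    change dist (s⁻¹ ((tr t2 * (s * tr t * γ)) z)) (s⁻¹ ((s * γ) z)) < _
    rw [(s⁻¹).dist_eq]; exact d2
  have q4 : (s⁻¹ * tr t2 * (s * γ)) z ∈ Qc (d := d) τ.ℓ := by
    apply hbγ
    rw [← hsz]
    change dist (s⁻¹ ((s * γ) z + t2)) (s⁻¹ ((s * γ) z)) < _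
    rw [(s⁻¹).dist_eq, dist_self_add_left]; linarith
  have q5 : (tr t2 * (s * γ)) z ∈ Qc (d := d) τ.ℓ := by
    apply hbs
    change dist ((s * γ) z + t2) ((s * γ) z) < _
    rw [dist_self_add_left]; linarith
  -- groups
  have g1 : s * tr t * γ ∈ τ.Γ := τ.Γ.mul_mem (τ.Γ.mul_mem hsΓ htΓ) hγ.1
  have g4 : s⁻¹ * tr t2 * (s * γ) ∈ τ.Γ := τ.Γ.mul_mem (τ.Γ.mul_mem (τ.Γ.inv_mem hsΓ) ht2Γ) hsγ.1
  -- torus relations
  have r0 : tr t * γ = tor τ z κ1 γ := tr_eq_tor κ1 n1 q0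
  have r2 : tr t2 * (s * tr t * γ) = tor τ z κ2 (s * tr t * γ) := tr_eq_tor κ2 n2 q2
  have r5 : tr t2 * (s * γ) = tor τ z κ2 (s * γ) := tr_eq_tor κ2 n2 q5
  obtain ⟨t', -, ht'⟩ := conj_tr s⁻¹ t2
  have e4 : s⁻¹ * tr t2 * (s * γ) = tr t' * γ := by
    rw [ht']; group
  have e3 : s⁻¹ * tr t2 * (s * tr t * γ) = tr t * (s⁻¹ * tr t2 * (s * γ)) := by
    have h1 : s⁻¹ * tr t2 * (s * tr t * γ) = tr t' * (tr t * γ) := by rw [ht']; group
    rw [e4, h1, ← mul_assoc, ← mul_assoc, tr_mul, tr_mul, add_comm t' t]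
  have r3 : s⁻¹ * tr t2 * (s * tr t * γ) = tor τ z κ1 (s⁻¹ * tr t2 * (s * γ)) := by
    rw [e3]; apply tr_eq_tor κ1 n1
    have := q3
    rw [e3] at this
    exact this
  have rk : ∀ {a b σ : EE d ≃ᵢ EE d}, σ ∈ τ.Sg → a z ∈ Qc (d := d) τ.ℓ → b z ∈ Qc (d := d) τ.ℓ → b = σ * a →
      a ∉ Kst τ z r K → b ∉ Kst τ z r K → RK (nbx (Qc (d := d) τ.ℓ) τ.Sg z) K a b := by
    intro a b σ hσ ha hb hab hak hbk
    refine ⟨hKK a hak, hKK b hbk, ?_⟩
    rw [mem_nbx ha]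
    exact ⟨σ, hσ, hab, hb⟩
  -- chain
  have c01 : Relation.ReflTransGen (RK (nbx (Qc (d := d) τ.ℓ) τ.Sg z) K) (tor τ z κ γ) (tr t * γ) := by
    rw [r0]
    exact claimT hz hK hr hrK hγ.1 hd h1 (by rw [← r0]; exact a0)
  have c12 := c01.tail (rk hs q0 q1 (mul_assoc _ _ _) a0 a1)
  have c23 : Relation.ReflTransGen (RK (nbx (Qc (d := d) τ.ℓ) τ.Sg z) K) (s * tr t * γ)
      (tr t2 * (s * tr t * γ)) := by
    have := claimT hz hK hr hrK g1 (κ := 0) (κ' := κ2) hd (by rw [tor_zero τ q1]; exact a1)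
      (by rw [← r2]; exact b2)
    rw [tor_zero τ q1, ← r2] at this
    exact this
  have c34 := (c12.trans c23).tail (rk (b := s⁻¹ * tr t2 * (s * tr t * γ)) hsi q2 q3 (mul_assoc _ _ _) b2 b3)
  have c45 : Relation.ReflTransGen (RK (nbx (Qc (d := d) τ.ℓ) τ.Sg z) K) (s⁻¹ * tr t2 * (s * tr t * γ))
      (s⁻¹ * tr t2 * (s * γ)) := by
    have := claimT hz hK hr hrK g4 (κ := κ1) (κ' := 0) hd (by rw [← r3]; exact b3)
      (by rw [tor_zero τ q4]; exact b4)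
    rw [tor_zero τ q4, ← r3] at this
    exact this
  have c56 := (c34.trans c45).tail (rk (b := tr t2 * (s * γ)) hs q4 q5 (by group) b4 b5)
  have c67 : Relation.ReflTransGen (RK (nbx (Qc (d := d) τ.ℓ) τ.Sg z) K) (tr t2 * (s * γ))
      (tor τ z κ' (s * γ)) := by
    rw [r5]
    exact claimT hz hK hr hrK hsγ.1 hd (by rw [← r5]; exact b5) h2
  exact c56.trans c67

end torus2

end Pool.Agent.H382RO

namespace Pool.Agent.H382RO
open Finset Classical Topology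

section torus3
variable {d : ℕ} {τ : TorSys d} {z : EE d}

theorem Qc_open (ℓ : ℝ) : IsOpen (Qc (d := d) ℓ) := by
  have : Qc (d := d) ℓ = ⋂ i, {x : EE d | |x i| < ℓ} := by
    ext x; simp [Qc]
  rw [this]
  exact isOpen_iInter_of_finite fun i => isOpen_lt (by fun_prop) continuous_const

theorem one_Re (hz : Base τ z) : (1 : EE d ≃ᵢ EE d) ∈ Rex τ.Γ (Qc (d := d) τ.ℓ) z := ⟨τ.Γ.one_mem, hz.hQ⟩

theorem comp_Re (hz : Base τ z) {s : ℕ} {v : EE d ≃ᵢ EE d}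
    (hv : v ∈ ball (nbx (Qc (d := d) τ.ℓ) τ.Sg z) s 1) : v ∈ Rex τ.Γ (Qc (d := d) τ.ℓ) z :=
  ball_re (nbx_re τ.sub z) (one_Re hz) hv

theorem claimU (hz : Base τ z) {K : Finset (EE d ≃ᵢ EE d)} (hK : ∀ k ∈ K, k ∈ Rex τ.Γ (Qc (d := d) τ.ℓ) z)
    {r : ℤ} (hr : 0 ≤ r) (hrK : ∀ k ∈ K, ∀ κ, tor τ z κ k ∈ K → ∀ j, |κ j| ≤ r)
    (hd : Nonempty (Fin d)) {κ0 : Fin d × Bool → ℤ} (h0 : tor τ z κ0 1 ∉ Kst τ z r K) (n : ℕ) :
    ∀ v ∈ ball (nbx (Qc (d := d) τ.ℓ) τ.Sg z) n 1, ∀ κ, tor τ z κ v ∉ Kst τ z r K →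
      Relation.ReflTransGen (RK (nbx (Qc (d := d) τ.ℓ) τ.Sg z) K) (tor τ z κ0 1) (tor τ z κ v) := by
  induction n with
  | zero =>
    intro v hv κ hκ
    have : v = 1 := by simpa [ball] using hv
    subst this
    exact claimT hz hK hr hrK τ.Γ.one_mem hd h0 hκ
  | succ n ih =>
    intro v hv κ hκ
    obtain ⟨u, hu, hvu⟩ := mem_ball_succ.mp hv
    have huR := comp_Re hz hu
    have hvR := comp_Re hz hv
    rw [mem_nbx huR.2] at hvu
    obtain ⟨s, hs, rfl, hvQ⟩ := hvu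
    obtain ⟨κ1, hκ1⟩ := orb_inf (τ := τ) (z := z) hd (Kst τ z r K) u
    exact (ih u hu κ1 hκ1).trans (claimS hz hK hr hrK huR hs hvR hd (Qc_open _) hκ1 hκ)

theorem shell_tor (hz : Base τ z) (hd : Nonempty (Fin d)) {R : ℕ} (hR : 1 ≤ R) (K : Finset (EE d ≃ᵢ EE d))
    (hK : ∀ v ∈ K, ∃ s, v ∈ ball (nbx (Qc (d := d) τ.ℓ) τ.Sg z) s 1) :
    ∃ I Th : Finset (EE d ≃ᵢ EE d), K ⊆ I ∧ Disjoint I Th ∧
      (∀ v ∈ I ∪ Th, ∃ s, v ∈ ball (nbx (Qc (d := d) τ.ℓ) τ.Sg z) s 1) ∧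
      (∀ v ∈ I, ball (nbx (Qc (d := d) τ.ℓ) τ.Sg z) R v ⊆ I ∪ Th) ∧
      (∀ S : Set (EE d ≃ᵢ EE d), (∃ u ∈ Th, u ∈ S) →
        (∀ u ∈ Th, u ∈ S → ∀ w ∈ Th, w ∈ ball (nbx (Qc (d := d) τ.ℓ) τ.Sg z) R u → w ∈ S) →
        ∀ w ∈ Th, w ∈ S) := by
  have hKR : ∀ k ∈ K, k ∈ Rex τ.Γ (Qc (d := d) τ.ℓ) z := by
    intro k hk
    obtain ⟨s, hs⟩ := hK k hk
    exact comp_Re hz hs
  obtain ⟨r, hr, hrK⟩ := ex_r (τ := τ) (z := z) K
  obtain ⟨κ0, hκ0⟩ := orb_inf (τ := τ) (z := z) hd (Kst τ z r K) 1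
  obtain ⟨m, hm⟩ := PB_all (τ := τ) κ0
  refine shell_abs (nb := nbx (Qc (d := d) τ.ℓ) τ.Sg z) (nbx_self τ.one z) (nbx_symm τ.inv z) hR
    (C := {v | ∃ s, v ∈ ball (nbx (Qc (d := d) τ.ℓ) τ.Sg z) s 1}) (Kst := Kst τ z r K) (δ0 := tor τ z κ0 1)
    ?_ hK ?_ ?_ hκ0 ?_
  · rintro v ⟨s, hs⟩ w hw
    exact ⟨s + 1, mem_ball_succ.mpr ⟨v, hs, hw⟩⟩
  · intro v hv
    rw [mem_Kst]
    exact ⟨v, hv, 0, by intro j; simpa using hr, (tor_zero τ (hKR v hv).2).symm⟩
  · exact ⟨m, hm z hz 1 (one_Re hz)⟩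
  · rintro v ⟨s, hs⟩ hv
    have h0 := tor_zero τ (comp_Re hz hs).2
    have := claimU hz hKR hr hrK hd hκ0 s v hs 0 (by rw [h0]; exact hv)
    rw [h0] at this
    exact this

theorem inf_tor (hz : Base τ z) (hd : Nonempty (Fin d)) (D : Finset (EE d ≃ᵢ EE d)) (hne : D.Nonempty)
    (hD : ∀ v ∈ D, v ∈ Rex τ.Γ (Qc (d := d) τ.ℓ) z) : ∃ v ∈ D, ¬ nbx (Qc (d := d) τ.ℓ) τ.Sg z v ⊆ D := by
  by_contra hc
  push Not at hc
  obtain ⟨v, hv⟩ := hne
  obtain ⟨κ, hκ⟩ := orb_inf (τ := τ) (z := z) hd D v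
  obtain ⟨m, hm⟩ := PB_all (τ := τ) κ
  apply hκ
  exact ball_re (Re := (D : Set (EE d ≃ᵢ EE d))) (nb := nbx (Qc (d := d) τ.ℓ) τ.Sg z)
    (fun v hv u hu => hc v hv hu) (v := v) hv (hm z hz v (hD v hv))

theorem cube_compact (ℓ : ℝ) : IsCompact {x : EE d | ∀ i, |x i| ≤ ℓ} := by
  have h1 : IsCompact (Set.pi Set.univ (fun _ : Fin d => Set.Icc (-ℓ) ℓ)) :=
    isCompact_univ_pi fun _ => isCompact_Icc
  have h2 := h1.image (PiLp.continuous_toLp 2 (fun _ : Fin d => ℝ))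
  convert h2 using 1
  ext x
  simp only [Set.mem_ofPred_eq, Set.mem_image, Set.mem_pi, Set.mem_univ, true_imp_iff, Set.mem_Icc, abs_le]
  constructor
  · intro h
    exact ⟨WithLp.ofLp x, h, rfl⟩
  · rintro ⟨y, hy, rfl⟩
    exact hy

theorem synd (hz : Base τ z) {W : Set (EE d)} (hW : IsOpen W) (hne : W.Nonempty) (hWQ : W ⊆ Qc (d := d) τ.ℓ) :
    ∃ ρ : ℕ, ∀ γ ∈ Rex τ.Γ (Qc (d := d) τ.ℓ) z, ∃ δ ∈ ball (nbx (Qc (d := d) τ.ℓ) τ.Sg z) ρ γ, δ z ∈ W := by
  choose m hm using fun κ => PB_all (τ := τ) κ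
  obtain ⟨t, ht⟩ := (cube_compact (d := d) τ.ℓ).elim_finite_subcover
    (fun q : (Fin d × Bool → ℤ) × (Fin d → ℤ) => {p : EE d | p + (vec τ q.1 + lat τ q.2) ∈ W})
    (fun q => hW.preimage (continuous_id.add continuous_const)) (by
      intro p _
      have hU : IsOpen ((fun v : EE d => p + v) ⁻¹' W) := hW.preimage (continuous_const.add continuous_id)
      obtain ⟨w, hw⟩ := hne
      obtain ⟨κ, n, h⟩ := lam_dense (τ := τ) hU ⟨w - p, by simpa using hw⟩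
      simp only [Set.mem_iUnion]
      exact ⟨(κ, n), h⟩)
  refine ⟨t.sup (fun q => m q.1), fun γ hγ => ?_⟩
  have h1 := ht (show γ z ∈ {x : EE d | ∀ i, |x i| ≤ τ.ℓ} from fun i => (hγ.2 i).le)
  simp only [Set.mem_iUnion] at h1
  obtain ⟨q, hq, hqW⟩ := h1
  have h2 : tr (vec τ q.1 + lat τ q.2) * γ = tor τ z q.1 γ := tr_eq_tor q.1 q.2 (hWQ hqW)
  refine ⟨tor τ z q.1 γ, ?_, by rw [← h2]; exact hqW⟩
  exact ball_mono (nbx_self τ.one z) (Finset.le_sup (f := fun q : (Fin d × Bool → ℤ) × (Fin d → ℤ) => m q.1) hq) γ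
    (hm q.1 z hz γ hγ)

theorem Base.move (hz : Base τ z) {ζ : EE d ≃ᵢ EE d} (hζ : ζ ∈ τ.Γ) (hζQ : ζ z ∈ Qc (d := d) τ.ℓ) :
    Base τ (ζ z) where
  hQ := hζQ
  gen := fun γ hγ i => hz.gen (γ * ζ) (τ.Γ.mul_mem hγ hζ) i
  free := by
    intro γ hγ h
    have h1 : (ζ⁻¹ * γ * ζ) z = z := by
      change ζ⁻¹ (γ (ζ z)) = z
      rw [h]; exact ζ.symm_apply_apply z
    have h2 := hz.free _ (τ.Γ.mul_mem (τ.Γ.mul_mem (τ.Γ.inv_mem hζ) hγ) hζ) h1
    have : γ = ζ * (ζ⁻¹ * γ * ζ) * ζ⁻¹ := by group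
    rw [this, h2]; group

noncomputable def mkSys (τ : TorSys d) {x0 : EE d} (hz : Base τ x0) (hd : Nonempty (Fin d)) {R : ℕ} (hR : 1 ≤ R)
    (cou : (τ.Γ : Set (EE d ≃ᵢ EE d)).Countable)
    (genQ : ∀ γ ∈ τ.Γ, γ x0 ∉ frontier (Qc (d := d) τ.ℓ)) : Sys (EE d) where
  Q := Qc (d := d) τ.ℓ
  Sg := τ.Sg
  Γ := τ.Γ
  x0 := x0
  R := R
  Qopen := Qc_open _
  one := τ.one
  inv := τ.inv
  sub := τ.sub
  cou := cou
  genQ := genQ
  free := hz.free
  dense := by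
    intro U hU hne _
    have hU' : IsOpen ((fun v : EE d => x0 + v) ⁻¹' U) := hU.preimage (continuous_const.add continuous_id)
    obtain ⟨w, hw⟩ := hne
    obtain ⟨κ, n, h⟩ := lam_dense (τ := τ) hU' ⟨w - x0, by simpa using hw⟩
    exact ⟨tr (vec τ κ + lat τ n), (HG τ).add_mem (vec_mem τ κ) (lat_mem τ n), h⟩
  R1 := hR
  inf := fun D h1 h2 => inf_tor hz hd D h1 h2
  shell := fun ζ hζ hζQ K hK => shell_tor (hz.move hζ hζQ) hd hR K hK

end torus3

end Pool.Agent.H382RO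

namespace Pool.Agent.H382RO
open Finset Classical Topology

theorem closure_countable {G : Type} [Group G] {s : Set G} (hs : s.Countable) :
    ((Subgroup.closure s : Subgroup G) : Set G).Countable := by
  have h2 : (s ∪ s⁻¹).Countable := by
    apply hs.union
    rw [← Set.image_inv_eq_inv]
    exact hs.image _
  have := h2.to_subtype
  apply (Set.countable_range (fun l : List (s ∪ s⁻¹ : Set G) => (List.map Subtype.val l).prod)).mono
  intro x hx
  have hx2 : x ∈ Submonoid.closure (s ∪ s⁻¹) := by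
    rw [← Subgroup.closure_toSubmonoid]; exact hx
  obtain ⟨l, hl', rfl⟩ := Submonoid.exists_list_of_mem_closure hx2
  refine ⟨l.attach.map (fun y => (⟨y.1, hl' y.1 y.2⟩ : (s ∪ s⁻¹ : Set G))), ?_⟩
  change (List.map Subtype.val (l.attach.map (fun y => (⟨y.1, hl' y.1 y.2⟩ : (s ∪ s⁻¹ : Set G))))).prod = l.prod
  rw [List.map_map]
  congr 1
  conv_rhs => rw [← List.attach_map_subtype_val l]
  rfl

section gen
variable {d : ℕ}

theorem fix_interior {γ : EE d ≃ᵢ EE d} (h : (interior {x : EE d | γ x = x}).Nonempty) : γ = 1 := by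
  obtain ⟨c, hc⟩ := h
  obtain ⟨r, hr, hb⟩ := Metric.isOpen_iff.mp isOpen_interior c hc
  set L := γ.toRealAffineIsometryEquiv.linearIsometryEquiv with hL
  have hmap : ∀ v : EE d, γ (v + c) = L v + γ c := by
    intro v
    have h := γ.toRealAffineIsometryEquiv.map_vadd c v
    rw [IsometryEquiv.coeFn_toRealAffineIsometryEquiv] at h
    simpa only [vadd_eq_add] using h
  have hfc : γ c = c := (interior_subset hc : c ∈ {x : EE d | γ x = x})
  have hsmall : ∀ v : EE d, ‖v‖ < r → L v = v := by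
    intro v hv
    have h1 : γ (v + c) = v + c := (interior_subset (hb (by
      rw [Metric.mem_ball, add_comm, dist_self_add_left]; exact hv)) : v + c ∈ {x : EE d | γ x = x})
    have h2 := hmap v
    rw [h1, hfc] at h2
    exact (add_right_cancel h2).symm
  have hall : ∀ v : EE d, L v = v := by
    intro v
    set a : ℝ := r / (2 * (‖v‖ + 1)) with ha
    have hpos : 0 < ‖v‖ + 1 := by positivity
    have ha0 : 0 < a := by positivity
    have h1 := hsmall (a • v) (by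
      rw [norm_smul, Real.norm_of_nonneg ha0.le, ha]
      have : r / (2 * (‖v‖ + 1)) * ‖v‖ = r * (‖v‖ / (2 * (‖v‖ + 1))) := by field_simp
      rw [this]
      have h3 : ‖v‖ / (2 * (‖v‖ + 1)) < 1 := by
        rw [div_lt_one (by positivity)]; nlinarith [norm_nonneg v]
      nlinarith)
    rw [map_smul] at h1
    exact smul_right_injective _ ha0.ne' h1
  ext1 x
  have := hmap (x - c)
  rw [sub_add_cancel, hall, hfc, sub_add_cancel] at this
  exact this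

theorem generic {Γ : Subgroup (EE d ≃ᵢ EE d)} (hΓ : (Γ : Set (EE d ≃ᵢ EE d)).Countable)
    {𝒟 : Set (Set (EE d))} (hc : 𝒟.Countable) (hD : ∀ C ∈ 𝒟, IsClosed C ∧ interior C = ∅)
    {U : Set (EE d)} (hU : IsOpen U) (hne : U.Nonempty) :
    ∃ x ∈ U, (∀ γ ∈ Γ, ∀ C ∈ 𝒟, γ x ∉ C) ∧ (∀ γ ∈ Γ, γ x = x → γ = 1) := by
  let 𝒮 : Set (Set (EE d)) := (⋃ γ ∈ (Γ : Set (EE d ≃ᵢ EE d)), (fun C => (γ ⁻¹' C)ᶜ) '' 𝒟) ∪
    ((fun γ : EE d ≃ᵢ EE d => {x : EE d | γ x = x}ᶜ) '' ((Γ : Set (EE d ≃ᵢ EE d)) \ {1}))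
  have h1 : 𝒮.Countable := by
    apply Set.Countable.union
    · exact hΓ.biUnion fun γ _ => hc.image _
    · exact (hΓ.mono Set.sdiff_subset).image _
  have h2 : ∀ s ∈ 𝒮, IsOpen s ∧ Dense s := by
    rintro s (hs | hs)
    · simp only [Set.mem_iUnion] at hs
      obtain ⟨γ, hγ, C, hC, rfl⟩ := hs
      refine ⟨((hD C hC).1.preimage γ.continuous).isOpen_compl, ?_⟩
      rw [← interior_eq_empty_iff_dense_compl]
      have := γ.toHomeomorph.preimage_interior C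
      change γ ⁻¹' interior C = interior (γ ⁻¹' C) at this
      rw [← this, (hD C hC).2]; rfl
    · obtain ⟨γ, ⟨hγ, hγ1⟩, rfl⟩ := hs
      refine ⟨(isClosed_eq γ.continuous continuous_id).isOpen_compl, ?_⟩
      rw [← interior_eq_empty_iff_dense_compl]
      by_contra h
      exact hγ1 (fix_interior (Set.nonempty_iff_ne_empty.mpr h))
  have h3 : Dense (⋂₀ 𝒮) := dense_sInter_of_isOpen (fun s hs => (h2 s hs).1) h1 (fun s hs => (h2 s hs).2)
  obtain ⟨x, hxU, hx⟩ := h3.inter_open_nonempty U hU hne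
  refine ⟨x, hxU, ?_, ?_⟩
  · intro γ hγ C hC hmem
    have := hx ((γ ⁻¹' C)ᶜ) (Or.inl (by
      simp only [Set.mem_iUnion]
      exact ⟨γ, hγ, C, hC, rfl⟩))
    exact this hmem
  · intro γ hγ hfix
    by_contra h1
    have := hx ({x : EE d | γ x = x}ᶜ) (Or.inr ⟨γ, ⟨hγ, h1⟩, rfl⟩)
    exact this hfix

theorem frontier_open_nd {Z : Set (EE d)} (hZ : IsOpen Z) : IsClosed (frontier Z) ∧ interior (frontier Z) = ∅ := by
  refine ⟨isClosed_frontier, ?_⟩
  rw [← frontier_compl]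
  exact interior_frontier hZ.isClosed_compl

theorem hyper_nd (i : Fin d) (c : ℝ) : IsClosed {x : EE d | x i = c} ∧ interior {x : EE d | x i = c} = ∅ := by
  refine ⟨isClosed_eq (by fun_prop) continuous_const, ?_⟩
  rw [Set.eq_empty_iff_forall_notMem]
  intro x hx
  obtain ⟨r, hr, hb⟩ := Metric.isOpen_iff.mp isOpen_interior x hx
  have h1 : x i = c := (interior_subset hx : x ∈ {x : EE d | x i = c})
  have h2 : (x + EuclideanSpace.single i (r/2) : EE d) ∈ {x : EE d | x i = c} := interior_subset (hb (by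
    rw [Metric.mem_ball, dist_self_add_left, PiLp.norm_single, Real.norm_of_nonneg (by positivity)]
    linarith))
  have h3 : (x + EuclideanSpace.single i (r/2) : EE d) i = c := h2
  have h4 : (x + EuclideanSpace.single i (r/2) : EE d) i = x i + (EuclideanSpace.single i (r/2) : EE d) i := rfl
  rw [h4, h1] at h3
  simp at h3
  linarith

end gen

end Pool.Agent.H382RO
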