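import Pool.Agent.Helper382.RO3
set_option autoImplicit false
set_option linter.all false

/-!
# Part 4: from the doubled equidecomposition to the Hall condition, and the cancellation theorem
`cancel_two` : every dimension `d ≥ 1`; `cancel_two_line` : the real line.
-/

namespace Pool.Agent.H382RO
open Finset Classical Topology

section fin
variable {d : ℕ}

noncomputable def bt (v : EE d) (ε : Bool) : EE d := if ε then v else 0

theorem half_count {τ : TorSys d} {x : EE d} (hz : Base τ x) {n : ℕ} {P : Fin n → Set (EE d)}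
    {g : Fin n → (EE d ≃ᵢ EE d)} {s t : EE d} {A B : Set (EE d)}
    (hgP : Pairwise (fun i j => Disjoint (g i '' P i) (g j '' P j)))
    (hA : ∀ γ ∈ τ.Γ, γ x ∈ A → ∀ ε : Bool, ∃ i, γ x + bt s ε ∈ P i)
    (hB : ∀ γ ∈ τ.Γ, ∀ i, γ x ∈ P i → ∃ ε' : Bool, g i (γ x) + -(bt t ε') ∈ B)
    (hsΓ : ∀ ε, tr (bt s ε) ∈ τ.Γ)
    (hS : ∀ i (ε ε' : Bool), tr (-(bt t ε')) * g i * tr (bt s ε) ∈ τ.Sg)
    (hdis : ∀ y ∈ A, y + s ∉ A) (hAQ : A ⊆ Qc (d := d) τ.ℓ) (hBQ : B ⊆ Qc (d := d) τ.ℓ)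
    (D : Finset (EE d ≃ᵢ EE d)) :
    cnt {γ | γ ∈ τ.Γ ∧ γ x ∈ A} (er (nbx (Qc (d := d) τ.ℓ) τ.Sg x) D) ≤ cnt {γ | γ ∈ τ.Γ ∧ γ x ∈ B} D := by
  set nb := nbx (Qc (d := d) τ.ℓ) τ.Sg x with hnb
  obtain ⟨SA, hSA⟩ : ∃ S : Set (EE d ≃ᵢ EE d), S = {γ : EE d ≃ᵢ EE d | γ ∈ τ.Γ ∧ γ x ∈ A} := ⟨_, rfl⟩
  obtain ⟨SB, hSB⟩ : ∃ S : Set (EE d ≃ᵢ EE d), S = {γ : EE d ≃ᵢ EE d | γ ∈ τ.Γ ∧ γ x ∈ B} := ⟨_, rfl⟩
  have mSA : ∀ γ, γ ∈ SA ↔ γ ∈ τ.Γ ∧ γ x ∈ A := by intro γ; rw [hSA]; rfl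
  have mSB : ∀ γ, γ ∈ SB ↔ γ ∈ τ.Γ ∧ γ x ∈ B := by intro γ; rw [hSB]; rfl
  rw [← hSA, ← hSB]
  set S := ((er nb D).filter (fun γ => γ ∈ SA)) ×ˢ (univ : Finset Bool) with hSdef
  set T := (D.filter (fun γ => γ ∈ SB)) ×ˢ (univ : Finset Bool) with hTdef
  have key : ∀ p ∈ S, ∃ q ∈ T, ∃ i, p.1 x + bt s p.2 ∈ P i ∧ g i (p.1 x + bt s p.2) = q.1 x + bt t q.2 := by
    rintro ⟨γ, ε⟩ hp
    obtain ⟨hp1, -⟩ := Finset.mem_product.mp hp
    obtain ⟨hp2, hp3⟩ := Finset.mem_filter.mp hp1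
    obtain ⟨hγ, hγA⟩ := (mSA γ).mp hp3
    obtain ⟨hγD, hγN⟩ := mem_er.mp hp2
    obtain ⟨i, hi⟩ := hA γ hγ hγA ε
    have hyΓ : tr (bt s ε) * γ ∈ τ.Γ := τ.Γ.mul_mem (hsΓ ε) hγ
    obtain ⟨ε', hε'⟩ := hB (tr (bt s ε) * γ) hyΓ i hi
    have hδx : (tr (-(bt t ε')) * g i * tr (bt s ε) * γ) x ∈ B := hε'
    have hδΓ : tr (-(bt t ε')) * g i * tr (bt s ε) * γ ∈ τ.Γ :=
      τ.Γ.mul_mem (τ.sub _ (hS i ε ε')) hγ
    have hδN : tr (-(bt t ε')) * g i * tr (bt s ε) * γ ∈ nb γ := by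
      rw [hnb, mem_nbx (hAQ hγA)]
      exact ⟨_, hS i ε ε', rfl, hBQ hδx⟩
    refine ⟨(tr (-(bt t ε')) * g i * tr (bt s ε) * γ, ε'), ?_, i, hi, ?_⟩
    · refine Finset.mem_product.mpr ⟨Finset.mem_filter.mpr ⟨hγN hδN, (mSB _).mpr ⟨hδΓ, hδx⟩⟩, Finset.mem_univ _⟩
    · change g i (γ x + bt s ε) = (g i (γ x + bt s ε) + -(bt t ε')) + bt t ε'
      rw [neg_add_cancel_right]
  choose! F hF1 hF2 using key
  have hcard : S.card ≤ T.card := by
    apply Finset.card_le_card_of_injOn F (fun p hp => hF1 p hp)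
    intro p hp q hq hpq
    have hp' : p ∈ S := hp
    have hq' : q ∈ S := hq
    obtain ⟨i, hi, hi2⟩ := hF2 p hp'
    obtain ⟨j, hj, hj2⟩ := hF2 q hq'
    have e : g i (p.1 x + bt s p.2) = g j (q.1 x + bt s q.2) := by
      rw [hi2, hj2, hpq]
    have hι : i = j := by
      by_contra hne
      have := Set.disjoint_left.mp (hgP hne)
      exact this (Set.mem_image_of_mem _ hi) (e ▸ Set.mem_image_of_mem _ hj)
    rw [hι] at e
    have e2 := (g j).injective e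
    obtain ⟨γ, ε⟩ := p
    obtain ⟨γ', ε'⟩ := q
    obtain ⟨hp1, -⟩ := Finset.mem_product.mp hp'
    obtain ⟨-, hp2⟩ := Finset.mem_filter.mp hp1
    obtain ⟨hγ, hγA⟩ := (mSA γ).mp hp2
    obtain ⟨hq1, -⟩ := Finset.mem_product.mp hq'
    obtain ⟨-, hq2⟩ := Finset.mem_filter.mp hq1
    obtain ⟨hγ', hγA'⟩ := (mSA γ').mp hq2
    simp only at e2
    cases ε <;> cases ε' <;> simp only [bt, if_true, Bool.false_eq_true, if_false, add_zero] at e2
    · rw [hz.eq_of_apply hγ hγ' e2]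
    · exact absurd (e2 ▸ hγA) (hdis _ hγA')
    · exact absurd (e2 ▸ hγA') (hdis _ hγA)
    · rw [hz.eq_of_apply hγ hγ' (add_right_cancel e2)]
  rw [hSdef, hTdef, Finset.card_product, Finset.card_product] at hcard
  simp only [Finset.card_univ, Fintype.card_bool] at hcard
  simp only [cnt]
  have : ((er nb D).filter (fun γ => γ ∈ SA)).card ≤ (D.filter (fun γ => γ ∈ SB)).card := by omega
  exact_mod_cast this

noncomputable def mkTor (ℓ : ℝ) (hℓ : 0 < ℓ) (S0 : Finset (EE d ≃ᵢ EE d)) (G0 : Set (EE d ≃ᵢ EE d)) : TorSys d :=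
  let TG : Finset (EE d ≃ᵢ EE d) := ((univ : Finset (Fin d × Bool)) ×ˢ (({1, -1} : Finset ℤ) ×ˢ Finset.Icc (-1:ℤ) 1)).image
    (fun q => tr (EuclideanSpace.single q.1.1 ((q.2.1:ℝ) * ab ℓ q.1.2 + (q.2.2:ℝ) * (2 * ℓ))))
  let F := insert 1 (S0 ∪ TG)
  { ℓ := ℓ
    hℓ := hℓ
    Sg := F ∪ F.image (fun g => g⁻¹)
    Γ := Subgroup.closure (↑(F ∪ F.image (fun g => g⁻¹)) ∪ (G0 ∪ Set.range (fun i : Fin d => tr (EuclideanSpace.single i (2 * ℓ)))))
    one := Finset.mem_union_left _ (Finset.mem_insert_self _ _)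
    inv := by
      intro σ hσ
      rcases Finset.mem_union.mp hσ with h | h
      · exact Finset.mem_union_right _ (Finset.mem_image_of_mem _ h)
      · obtain ⟨g, hg, rfl⟩ := Finset.mem_image.mp h
        rw [inv_inv]
        exact Finset.mem_union_left _ hg
    sub := fun σ hσ => Subgroup.subset_closure (Or.inl hσ)
    tg := by
      intro i c e k he hk
      apply Finset.mem_union_left
      apply Finset.mem_insert_of_mem
      apply Finset.mem_union_right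
      refine Finset.mem_image.mpr ⟨((i, c), (e, k)), ?_, rfl⟩
      rw [abs_le] at hk
      simp only [Finset.mem_product, Finset.mem_univ, Finset.mem_insert, Finset.mem_singleton, Finset.mem_Icc, true_and]
      exact ⟨he, hk⟩
    tl := fun i => Subgroup.subset_closure (Or.inr (Or.inr ⟨i, rfl⟩)) }

theorem mkTor_S0 {ℓ : ℝ} {hℓ : 0 < ℓ} {S0 : Finset (EE d ≃ᵢ EE d)} {G0 : Set (EE d ≃ᵢ EE d)} {σ : EE d ≃ᵢ EE d}
    (h : σ ∈ S0) : σ ∈ (mkTor ℓ hℓ S0 G0).Sg :=
  Finset.mem_union_left _ (Finset.mem_insert_of_mem (Finset.mem_union_left _ h))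

theorem mkTor_G0 {ℓ : ℝ} {hℓ : 0 < ℓ} {S0 : Finset (EE d ≃ᵢ EE d)} {G0 : Set (EE d ≃ᵢ EE d)} {σ : EE d ≃ᵢ EE d}
    (h : σ ∈ G0) : σ ∈ (mkTor ℓ hℓ S0 G0).Γ := Subgroup.subset_closure (Or.inr (Or.inl h))

theorem mkTor_cou {ℓ : ℝ} {hℓ : 0 < ℓ} {S0 : Finset (EE d ≃ᵢ EE d)} {G0 : Set (EE d ≃ᵢ EE d)} (hG : G0.Countable) :
    ((mkTor ℓ hℓ S0 G0).Γ : Set (EE d ≃ᵢ EE d)).Countable :=
  closure_countable ((Finset.countable_toSet _).union (hG.union (Set.countable_range _)))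

theorem mem_of_closure {Z : Set (EE d)} (hZ : IsOpen Z) {y : EE d} (h1 : y ∈ closure Z) (h2 : y ∉ frontier Z) : y ∈ Z := by
  by_contra h
  apply h2
  rw [hZ.frontier_eq]
  exact ⟨h1, h⟩

theorem pts1 {Z W : Set (EE d)} (hZ : IsOpen Z) (hW : IsOpen W) {n : ℕ} {P : Fin n → Set (EE d)} (hPo : ∀ i, IsOpen (P i))
    (h : interior (closure (⋃ i, P i)) = interior (closure (Z ∪ W))) {y : EE d} (hy : y ∈ Z ∨ y ∈ W)
    (hyP : ∀ i, y ∉ frontier (P i)) : ∃ i, y ∈ P i := by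
  have h1 : Z ∪ W ⊆ interior (closure (Z ∪ W)) := (hZ.union hW).subset_interior_iff.mpr subset_closure
  have h2 : y ∈ closure (⋃ i, P i) := by
    apply interior_subset
    rw [h]; exact h1 hy
  rw [closure_iUnion_of_finite] at h2
  obtain ⟨i, hi⟩ := Set.mem_iUnion.mp h2
  exact ⟨i, mem_of_closure (hPo i) hi (hyP i)⟩

theorem pts2 {Z W : Set (EE d)} (hZ : IsOpen Z) (hW : IsOpen W) {n : ℕ} {P : Fin n → Set (EE d)} (hPo : ∀ i, IsOpen (P i))
    (h : interior (closure (⋃ i, P i)) = interior (closure (Z ∪ W))) {y : EE d} {i : Fin n} (hy : y ∈ P i)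
    (hyZ : y ∉ frontier Z) (hyW : y ∉ frontier W) : y ∈ Z ∨ y ∈ W := by
  have h1 : (⋃ i, P i) ⊆ interior (closure (⋃ i, P i)) := (isOpen_iUnion hPo).subset_interior_iff.mpr subset_closure
  have h2 : y ∈ closure (Z ∪ W) := by
    apply interior_subset
    rw [← h]; exact h1 (Set.mem_iUnion.mpr ⟨i, hy⟩)
  rw [closure_union] at h2
  rcases h2 with h2 | h2
  · exact Or.inl (mem_of_closure hZ h2 hyZ)
  · exact Or.inr (mem_of_closure hW h2 hyW)

end fin

end Pool.Agent.H382RO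

namespace Pool.Agent.H382RO
open Finset Classical Topology

section fin2
variable {d : ℕ}

theorem ex_ell {A : Set (EE d)} (h : Bornology.IsBounded A) : ∃ ℓ : ℝ, 0 < ℓ ∧ A ⊆ Qc (d := d) ℓ := by
  obtain ⟨C, hC⟩ := h.exists_norm_le
  refine ⟨|C| + 1, by positivity, fun x hx i => ?_⟩
  have h1 : |x i| ≤ ‖x‖ := by
    have := PiLp.norm_apply_le x i
    rwa [Real.norm_eq_abs] at this
  have := hC x hx
  have := le_abs_self C
  linarith

theorem Qc_mono {ℓ ℓ' : ℝ} (h : ℓ ≤ ℓ') : Qc (d := d) ℓ ⊆ Qc ℓ' := fun _ hx i => (hx i).trans_le h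

theorem core (hd : Nonempty (Fin d)) {A B : Set (EE d)} (hA : interior (closure A) = A)
    (hAb : Bornology.IsBounded A) (hB : interior (closure B) = B) (hBb : Bornology.IsBounded B)
    (hAne : A.Nonempty) (hBne : B.Nonempty) {s t : EE d}
    (hAs : Disjoint A ((fun x => x + s) '' A)) (hBt : Disjoint B ((fun x => x + t) '' B))
    {n : ℕ} {P : Fin n → Set (EE d)} {g : Fin n → (EE d ≃ᵢ EE d)}
    (hP : ∀ i, interior (closure (P i)) = P i)
    (hPd : Pairwise (fun i j => Disjoint (P i) (P j)))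
    (hgd : Pairwise (fun i j => Disjoint (g i '' P i) (g j '' P j)))
    (h1 : interior (closure (⋃ i, P i)) = interior (closure (A ∪ (fun x => x + s) '' A)))
    (h2 : interior (closure (⋃ i, g i '' P i)) = interior (closure (B ∪ (fun x => x + t) '' B))) : ROE A B := by
  have hAo : IsOpen A := hA ▸ isOpen_interior
  have hBo : IsOpen B := hB ▸ isOpen_interior
  have hAso : IsOpen ((fun x => x + s) '' A) := (tr s).toHomeomorph.isOpenMap _ hAo
  have hBto : IsOpen ((fun x => x + t) '' B) := (tr t).toHomeomorph.isOpenMap _ hBo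
  have hPo : ∀ i, IsOpen (P i) := fun i => hP i ▸ isOpen_interior
  have hgPo : ∀ i, IsOpen (g i '' P i) := fun i => (g i).toHomeomorph.isOpenMap _ (hPo i)
  obtain ⟨ℓ, hℓ, hAQ, hBQ⟩ : ∃ ℓ : ℝ, 0 < ℓ ∧ A ⊆ Qc (d := d) ℓ ∧ B ⊆ Qc (d := d) ℓ := by
    obtain ⟨a, ha, ha2⟩ := ex_ell hAb
    obtain ⟨b, hb, hb2⟩ := ex_ell hBb
    exact ⟨max a b, lt_max_of_lt_left ha, ha2.trans (Qc_mono (le_max_left _ _)), hb2.trans (Qc_mono (le_max_right _ _))⟩
  let S0 : Finset (EE d ≃ᵢ EE d) := (univ : Finset (Fin n × Bool × Bool)).image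
    (fun q => tr (-(bt t q.2.2)) * g q.1 * tr (bt s q.2.1))
  let G0 : Set (EE d ≃ᵢ EE d) := {tr s, tr t} ∪ Set.range g
  have hG0 : G0.Countable := ((Set.countable_singleton _).insert _).union (Set.countable_range _)
  let τ := mkTor ℓ hℓ S0 G0
  have hτℓ : τ.ℓ = ℓ := rfl
  have hcou := mkTor_cou (ℓ := ℓ) (hℓ := hℓ) (S0 := S0) hG0
  have hsΓ : tr s ∈ τ.Γ := mkTor_G0 (Or.inl (by simp))
  have htΓ : tr t ∈ τ.Γ := mkTor_G0 (Or.inl (by simp))
  have hgΓ : ∀ i, g i ∈ τ.Γ := fun i => mkTor_G0 (Or.inr ⟨i, rfl⟩)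
  have hbs : ∀ ε, tr (bt s ε) ∈ τ.Γ := by
    intro ε
    cases ε
    · simp only [bt, Bool.false_eq_true, if_false, tr_zero]; exact τ.Γ.one_mem
    · simp only [bt, if_true]; exact hsΓ
  have hbt : ∀ ε, tr (bt t ε) ∈ τ.Γ := by
    intro ε
    cases ε
    · simp only [bt, Bool.false_eq_true, if_false, tr_zero]; exact τ.Γ.one_mem
    · simp only [bt, if_true]; exact htΓ
  let 𝒟 : Set (Set (EE d)) := ({frontier (Qc (d := d) ℓ), frontier A, frontier B,
      frontier ((fun x => x + s) '' A), frontier ((fun x => x + t) '' B)} : Set (Set (EE d))) ∪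
    (Set.range (fun i => frontier (P i)) ∪ (Set.range (fun i => frontier (g i '' P i)) ∪
      Set.range (fun i : Fin d => {x : EE d | x i = -ℓ})))
  have h𝒟c : 𝒟.Countable := by
    apply Set.Countable.union
    · exact (Set.toFinite _).countable
    · exact (Set.countable_range _).union ((Set.countable_range _).union (Set.countable_range _))
  have h𝒟 : ∀ C ∈ 𝒟, IsClosed C ∧ interior C = ∅ := by
    rintro C (hC | ⟨i, rfl⟩ | ⟨i, rfl⟩ | ⟨i, rfl⟩)
    · simp only [Set.mem_insert_iff, Set.mem_singleton_iff] at hC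
      rcases hC with rfl | rfl | rfl | rfl | rfl
      · exact frontier_open_nd (Qc_open _)
      · exact frontier_open_nd hAo
      · exact frontier_open_nd hBo
      · exact frontier_open_nd hAso
      · exact frontier_open_nd hBto
    · exact frontier_open_nd (hPo i)
    · exact frontier_open_nd (hgPo i)
    · exact hyper_nd i _
  obtain ⟨x0, hx0, hgen, hfree⟩ := generic (Γ := τ.Γ) hcou h𝒟c h𝒟 (Qc_open (d := d) ℓ)
    ⟨0, fun i => by simpa using hℓ⟩
  have hz : Base τ x0 := ⟨hx0, fun γ hγ i => hgen γ hγ _ (Or.inr (Or.inr (Or.inr ⟨i, rfl⟩))), hfree⟩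
  have gQ : ∀ γ ∈ τ.Γ, γ x0 ∉ frontier (Qc (d := d) ℓ) := fun γ hγ => hgen γ hγ _ (Or.inl (by simp))
  have gA : ∀ γ ∈ τ.Γ, γ x0 ∉ frontier A := fun γ hγ => hgen γ hγ _ (Or.inl (by simp))
  have gB : ∀ γ ∈ τ.Γ, γ x0 ∉ frontier B := fun γ hγ => hgen γ hγ _ (Or.inl (by simp))
  have gAs : ∀ γ ∈ τ.Γ, γ x0 ∉ frontier ((fun x => x + s) '' A) := fun γ hγ => hgen γ hγ _ (Or.inl (by simp))
  have gBt : ∀ γ ∈ τ.Γ, γ x0 ∉ frontier ((fun x => x + t) '' B) := fun γ hγ => hgen γ hγ _ (Or.inl (by simp))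
  have gP : ∀ γ ∈ τ.Γ, ∀ i, γ x0 ∉ frontier (P i) := fun γ hγ i => hgen γ hγ _ (Or.inr (Or.inl ⟨i, rfl⟩))
  have ggP : ∀ γ ∈ τ.Γ, ∀ i, γ x0 ∉ frontier (g i '' P i) := fun γ hγ i =>
    hgen γ hγ _ (Or.inr (Or.inr (Or.inl ⟨i, rfl⟩)))
  have hS0 : ∀ i (ε ε' : Bool), tr (-(bt t ε')) * g i * tr (bt s ε) ∈ τ.Sg := fun i ε ε' =>
    mkTor_S0 (Finset.mem_image.mpr ⟨(i, ε, ε'), Finset.mem_univ _, rfl⟩)
  have side : ∀ (Z : Set (EE d)) (v : EE d) (y : EE d) (ε : Bool), y ∈ Z → y + bt v ε ∈ Z ∨ y + bt v ε ∈ (fun x => x + v) '' Z := by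
    intro Z v y ε hy
    cases ε
    · left; simpa [bt] using hy
    · right; exact ⟨y, hy, by simp [bt]⟩
  have side2 : ∀ (Z : Set (EE d)) (v : EE d) (y : EE d), (y ∈ Z ∨ y ∈ (fun x => x + v) '' Z) → ∃ ε, y + -(bt v ε) ∈ Z := by
    rintro Z v y (h | ⟨b, hb, rfl⟩)
    · exact ⟨false, by simpa [bt] using h⟩
    · exact ⟨true, by simpa [bt] using hb⟩
  have hinv : ∀ i (x : EE d), (g i)⁻¹ (g i x) = x := fun i x => (g i).symm_apply_apply x
  have himg : ∀ i, ⇑((g i)⁻¹) '' (g i '' P i) = P i := by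
    intro i
    rw [Set.image_image]
    simp only [hinv, Set.image_id']
  have H1 : ∀ D : Finset (EE d ≃ᵢ EE d), cnt {γ | γ ∈ τ.Γ ∧ γ x0 ∈ A} (er (nbx (Qc (d := d) τ.ℓ) τ.Sg x0) D) ≤
      cnt {γ | γ ∈ τ.Γ ∧ γ x0 ∈ B} D := by
    intro D
    refine half_count (P := P) (g := g) (s := s) (t := t) hz hgd ?_ ?_ hbs hS0 ?_ hAQ hBQ D
    · intro γ hγ hγA ε
      exact pts1 hAo hAso hPo h1 (side A s _ ε hγA) (fun i => gP (tr (bt s ε) * γ) (τ.Γ.mul_mem (hbs ε) hγ) i)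
    · intro γ hγ i hi
      exact side2 B t _ (pts2 hBo hBto hgPo h2 (Set.mem_image_of_mem _ hi)
        (gB (g i * γ) (τ.Γ.mul_mem (hgΓ i) hγ)) (gBt (g i * γ) (τ.Γ.mul_mem (hgΓ i) hγ)))
    · intro y hy hy2
      exact Set.disjoint_left.mp hAs hy2 ⟨y, hy, rfl⟩
  have H2 : ∀ D : Finset (EE d ≃ᵢ EE d), cnt {γ | γ ∈ τ.Γ ∧ γ x0 ∈ B} (er (nbx (Qc (d := d) τ.ℓ) τ.Sg x0) D) ≤
      cnt {γ | γ ∈ τ.Γ ∧ γ x0 ∈ A} D := by
    intro D
    refine half_count (P := fun i => g i '' P i) (g := fun i => (g i)⁻¹) (s := t) (t := s) hz ?_ ?_ ?_ hbt ?_ ?_ hBQ hAQ D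
    · intro i j hij
      simp only [himg]
      exact hPd hij
    · intro γ hγ hγB ε
      exact pts1 hBo hBto hgPo h2 (side B t _ ε hγB) (fun i => ggP (tr (bt t ε) * γ) (τ.Γ.mul_mem (hbt ε) hγ) i)
    · rintro γ hγ i ⟨p, hp, hpe⟩
      have hp' : ((g i)⁻¹ * γ) x0 ∈ P i := by
        change (g i)⁻¹ (γ x0) ∈ P i
        rw [← hpe, hinv]; exact hp
      exact side2 A s _ (pts2 hAo hAso hPo h1 hp'
        (gA ((g i)⁻¹ * γ) (τ.Γ.mul_mem (τ.Γ.inv_mem (hgΓ i)) hγ))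
        (gAs ((g i)⁻¹ * γ) (τ.Γ.mul_mem (τ.Γ.inv_mem (hgΓ i)) hγ)))
    · intro i ε ε'
      have e : tr (-(bt s ε')) * (g i)⁻¹ * tr (bt t ε) = (tr (-(bt t ε)) * g i * tr (bt s ε'))⁻¹ := by
        rw [mul_inv_rev, mul_inv_rev, tr_inv, tr_inv, neg_neg, mul_assoc]
      rw [e]
      exact τ.inv _ (hS0 i ε' ε)
    · intro y hy hy2
      exact Set.disjoint_left.mp hBt hy2 ⟨y, hy, rfl⟩
  obtain ⟨ρA, hρA⟩ := synd hz hAo hAne hAQ
  obtain ⟨ρB, hρB⟩ := synd hz hBo hBne hBQ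
  set nb := nbx (Qc (d := d) τ.ℓ) τ.Sg x0 with hnb
  have hs := nbx_self (Q := Qc (d := d) τ.ℓ) τ.one x0
  have hsym := nbx_symm (Q := Qc (d := d) τ.ℓ) τ.inv x0
  have hre := nbx_re (Q := Qc (d := d) τ.ℓ) τ.sub x0
  set ρ := max ρA ρB with hρ
  have hsA : ∀ v ∈ Rex τ.Γ (Qc (d := d) τ.ℓ) x0, ∃ a ∈ ball nb ρ v, a ∈ {γ : EE d ≃ᵢ EE d | γ ∈ τ.Γ ∧ γ x0 ∈ A} := by
    intro v hv
    obtain ⟨a, ha, ha2⟩ := hρA v hv
    exact ⟨a, ball_mono hs (le_max_left _ _) v ha, (ball_re hre hv ha).1, ha2⟩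
  have hsB : ∀ v ∈ Rex τ.Γ (Qc (d := d) τ.ℓ) x0, ∃ a ∈ ball nb ρ v, a ∈ {γ : EE d ≃ᵢ EE d | γ ∈ τ.Γ ∧ γ x0 ∈ B} := by
    intro v hv
    obtain ⟨a, ha, ha2⟩ := hρB v hv
    exact ⟨a, ball_mono hs (le_max_right _ _) v ha, (ball_re hre hv ha).1, ha2⟩
  have hR : 1 ≤ 2 * ρ + 2 := by omega
  let σ : Sys (EE d) := mkSys τ hz hd hR hcou gQ
  have hcard : ∀ v, (nb v).card ≤ τ.Sg.card + 1 := nbx_card x0
  have hN : Adj (ball nb (2 * ρ + 2)) (Rex τ.Γ (Qc (d := d) τ.ℓ) x0) := adj0 σ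
  have hnbN : ∀ v, nb v ⊆ ball nb (2 * ρ + 2) v := fun v w hw => ball_mono hs hR v (ball_one.mpr hw)
  have hcntmono : ∀ (Z : Set (EE d ≃ᵢ EE d)) (D : Finset (EE d ≃ᵢ EE d)),
      cnt Z (er (ball nb (2 * ρ + 2)) D) ≤ cnt Z (er nb D) := by
    intro Z D
    apply cnt_mono
    intro v hv
    obtain ⟨h3, h4⟩ := mem_er.mp hv
    exact mem_er.mpr ⟨h3, (hnbN v).trans h4⟩
  have hSt : St σ A B := by
    refine ⟨hAo, hBo, hAQ, hBQ, gA, gB, ((τ.Sg.card + 1 : ℕ) : ℤ) ^ (2 * (2 * ρ + 2) + ρ), ?_, 0, ?_, ?_⟩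
    · have : 1 ≤ (τ.Sg.card + 1) ^ (2 * (2 * ρ + 2) + ρ) := Nat.one_le_pow _ _ (by omega)
      exact_mod_cast this
    · intro D _
      constructor
      · simp only [hh, sub_nonneg]
        exact (hcntmono _ D).trans (H1 D)
      · simp only [hh, sub_nonneg]
        exact (hcntmono _ D).trans (H2 D)
    · intro D hD hred
      right
      rcases D.eq_empty_or_nonempty with rfl | hne
      · have e1 : bd (NN σ σ.x0) (∅ : Finset (EE d ≃ᵢ EE d)) = 0 := bd_empty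
        rw [e1]
        simp [hh, er, cnt_empty]
      · have hopen : dil (ball nb (2 * ρ + 2)) (er (ball nb (2 * ρ + 2)) D) = D := by
          by_contra hc
          exact hred (red_open hN hD hne hc)
        exact ⟨slack hs hsym hcard le_rfl hsA (fun D _ => H1 D) hD hopen,
          slack hs hsym hcard le_rfl hsB (fun D _ => H2 D) hD hopen⟩
  exact roe_of_iterate σ hA hB hAb hSt

/-- cancellation by two for bounded regular open sets, every dimension `d ≥ 1` -/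
theorem cancel_two (hd : 1 ≤ d) {A B : Set (EE d)} (hA : interior (closure A) = A)
    (hAb : Bornology.IsBounded A) (hB : interior (closure B) = B) (hBb : Bornology.IsBounded B)
    (s t : EE d) (hAs : Disjoint A ((fun x => x + s) '' A)) (hBt : Disjoint B ((fun x => x + t) '' B))
    (h : ROE (interior (closure (A ∪ (fun x => x + s) '' A))) (interior (closure (B ∪ (fun x => x + t) '' B)))) :
    ROE A B := by
  obtain ⟨n, P, g, hP, hPd, hgd, h1, h2⟩ := h
  have hAo : IsOpen A := hA ▸ isOpen_interior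
  have hBo : IsOpen B := hB ▸ isOpen_interior
  have hPo : ∀ i, IsOpen (P i) := fun i => (hP i).1 ▸ isOpen_interior
  have hgPo : ∀ i, IsOpen (g i '' P i) := fun i => (g i).toHomeomorph.isOpenMap _ (hPo i)
  rcases A.eq_empty_or_nonempty with hAe | hAne
  · subst hAe
    have hPe : ∀ i, P i = ∅ := by
      intro i
      have h3 : (⋃ i, P i) ⊆ interior (closure (⋃ i, P i)) := (isOpen_iUnion hPo).subset_interior_iff.mpr subset_closure
      rw [h1] at h3
      simp only [Set.image_empty, Set.union_empty, closure_empty, interior_empty] at h3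
      exact Set.subset_empty_iff.mp ((Set.subset_iUnion P i).trans h3)
    have hBe : B = ∅ := by
      have h4 : B ⊆ interior (closure (B ∪ (fun x => x + t) '' B)) :=
        hBo.subset_interior_iff.mpr (Set.subset_union_left.trans subset_closure)
      rw [← h2] at h4
      simp only [hPe, Set.image_empty, Set.iUnion_empty, closure_empty, interior_empty] at h4
      exact Set.subset_empty_iff.mp h4
    subst hBe
    exact ⟨0, fun i => i.elim0, fun i => i.elim0, fun i => i.elim0, fun i => i.elim0, fun i => i.elim0, by simp, by simp⟩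
  rcases B.eq_empty_or_nonempty with hBe | hBne
  · subst hBe
    exfalso
    have hPe : ∀ i, g i '' P i = ∅ := by
      intro i
      have h3 : (⋃ i, g i '' P i) ⊆ interior (closure (⋃ i, g i '' P i)) :=
        (isOpen_iUnion hgPo).subset_interior_iff.mpr subset_closure
      rw [h2] at h3
      simp only [Set.image_empty, Set.union_empty, closure_empty, interior_empty] at h3
      exact Set.subset_empty_iff.mp ((Set.subset_iUnion (fun i => g i '' P i) i).trans h3)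
    have hPe' : ∀ i, P i = ∅ := fun i => Set.image_eq_empty.mp (hPe i)
    have h4 : A ⊆ interior (closure (A ∪ (fun x => x + s) '' A)) :=
      hAo.subset_interior_iff.mpr (Set.subset_union_left.trans subset_closure)
    rw [← h1] at h4
    simp only [hPe', Set.iUnion_empty, closure_empty, interior_empty] at h4
    exact hAne.ne_empty (Set.subset_empty_iff.mp h4)
  · exact core (Fin.pos_iff_nonempty.mp hd) hA hAb hB hBb hAne hBne hAs hBt (fun i => (hP i).1) hPd hgd h1 h2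

end fin2

end Pool.Agent.H382RO

namespace Pool.Agent.H382RO
open Finset Classical Topology

section transfer

theorem ROE.transfer {X Y : Type} [MetricSpace X] [MetricSpace Y] (φ : X ≃ᵢ Y) {A B : Set X} (h : ROE A B) :
    ROE (φ '' A) (φ '' B) := by
  obtain ⟨n, P, g, hP, hPd, hgd, h1, h2⟩ := h
  have hic : ∀ Z : Set X, interior (closure (φ '' Z)) = φ '' interior (closure Z) := by
    intro Z
    have e1 : φ '' closure Z = closure (φ '' Z) := φ.toHomeomorph.image_closure Z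
    have e2 : φ '' interior (closure Z) = interior (φ '' closure Z) := φ.toHomeomorph.image_interior _
    rw [e2, e1]
  have hcomp : ∀ i, (fun x => ((φ.symm.trans ((g i).trans φ)) : Y ≃ᵢ Y) x) '' (φ '' P i) = φ '' (g i '' P i) := by
    intro i
    rw [Set.image_image, Set.image_image]
    apply Set.image_congr
    intro x _
    change φ (g i (φ.symm (φ x))) = φ (g i x)
    rw [φ.symm_apply_apply]
  have hinj := φ.injective
  refine ⟨n, fun i => φ '' P i, fun i => φ.symm.trans ((g i).trans φ), ?_, ?_, ?_, ?_, ?_⟩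
  · intro i
    refine ⟨by rw [hic, (hP i).1], ?_⟩
    exact φ.isometry.lipschitz.isBounded_image (hP i).2
  · intro i j hij
    exact (Set.disjoint_image_iff hinj).mpr (hPd hij)
  · intro i j hij
    have e1 := hcomp i
    have e2 := hcomp j
    change Disjoint ((fun x => ((φ.symm.trans ((g i).trans φ)) : Y ≃ᵢ Y) x) '' (φ '' P i))
      ((fun x => ((φ.symm.trans ((g j).trans φ)) : Y ≃ᵢ Y) x) '' (φ '' P j))
    rw [e1, e2]
    exact (Set.disjoint_image_iff hinj).mpr (hgd hij)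
  · rw [← Set.image_iUnion, hic, h1]
  · have : (⋃ i, (φ.symm.trans ((g i).trans φ) : Y ≃ᵢ Y) '' (φ '' P i)) = φ '' (⋃ i, g i '' P i) := by
      rw [Set.image_iUnion]
      exact Set.iUnion_congr hcomp
    rw [this, hic, h2]

noncomputable def toE1 : ℝ ≃ᵢ EE 1 :=
  IsometryEquiv.mk' (fun x => EuclideanSpace.single 0 x) (fun y => y 0)
    (fun y => by
      ext i
      fin_cases i
      simp)
    (by
      apply Isometry.of_dist_eq
      intro x y
      rw [EuclideanSpace.dist_eq]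
      simp)

theorem toE1_add (x s : ℝ) : toE1 (x + s) = toE1 x + toE1 s := by
  change (EuclideanSpace.single 0 (x + s) : EE 1) = EuclideanSpace.single 0 x + EuclideanSpace.single 0 s
  ext i
  fin_cases i
  simp

theorem cancel_two_line {A B : Set ℝ} (hA : interior (closure A) = A)
    (hAb : Bornology.IsBounded A) (hB : interior (closure B) = B) (hBb : Bornology.IsBounded B)
    (s t : ℝ) (hAs : Disjoint A ((fun x => x + s) '' A)) (hBt : Disjoint B ((fun x => x + t) '' B))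
    (h : ROE (interior (closure (A ∪ (fun x => x + s) '' A))) (interior (closure (B ∪ (fun x => x + t) '' B)))) :
    ROE A B := by
  have hic : ∀ Z : Set ℝ, interior (closure (toE1 '' Z)) = toE1 '' interior (closure Z) := by
    intro Z
    have e1 : toE1 '' closure Z = closure (toE1 '' Z) := toE1.toHomeomorph.image_closure Z
    have e2 : toE1 '' interior (closure Z) = interior (toE1 '' closure Z) := toE1.toHomeomorph.image_interior _
    rw [e2, e1]
  have himg : ∀ (Z : Set ℝ) (v : ℝ), (fun x => x + toE1 v) '' (toE1 '' Z) = toE1 '' ((fun x => x + v) '' Z) := by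
    intro Z v
    rw [Set.image_image, Set.image_image]
    apply Set.image_congr
    intro x _
    exact (toE1_add x v).symm
  have hun : ∀ (Z : Set ℝ) (v : ℝ), interior (closure (toE1 '' Z ∪ (fun x => x + toE1 v) '' (toE1 '' Z))) =
      toE1 '' interior (closure (Z ∪ (fun x => x + v) '' Z)) := by
    intro Z v
    rw [himg, ← Set.image_union, hic]
  have key := cancel_two (d := 1) le_rfl (A := toE1 '' A) (B := toE1 '' B) (by rw [hic, hA])
    (toE1.isometry.lipschitz.isBounded_image hAb) (by rw [hic, hB]) (toE1.isometry.lipschitz.isBounded_image hBb)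
    (toE1 s) (toE1 t) (by rw [himg]; exact (Set.disjoint_image_iff toE1.injective).mpr hAs)
    (by rw [himg]; exact (Set.disjoint_image_iff toE1.injective).mpr hBt)
    (by rw [hun, hun]; exact h.transfer toE1)
  have h2 := key.transfer toE1.symm
  have e : ∀ Z : Set ℝ, toE1.symm '' (toE1 '' Z) = Z := by
    intro Z
    rw [Set.image_image]
    simp
  rwa [e, e] at h2

end transfer

end Pool.Agent.H382RO
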